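import Pool.Agent.LibMes.MomMethod

/-! From moments to the value distribution. -/

open MeasureTheory ProbabilityTheory Set Filter Topology

namespace Mes

/-- Regularity of the statistic. -/
def Reg : Prop :=
  ∀ (f : SchwartzMap ℝ ℝ) (R a b : ℝ) (V : ℕ) (G : SimpleGraph (Fin V))
    (σ : Fin V → Fin V → Fin V → ℝ) (l : Fin V → Fin V → ℝ) (κ : ℕ → ℝ) (Λ : ℝ),
    (∀ s, R < |s| → ft f s = 0) → 0 < a → IsScat G σ → IsLen G a b l → (∃ v w, G.Adj v w) →
    IsLevels G σ l κ → 0 < Λ → Measurable (stat f Λ (len G l) κ) ∧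
      ∃ B, ∀ k, 0 ≤ k → |stat f Λ (len G l) κ k| ≤ B

theorem vari_nonneg (f : ℝ → ℝ) : 0 ≤ vari f := by
  unfold vari
  have := setIntegral_nonneg (μ := volume) (f := fun s : ℝ => s * ‖ft f s‖ ^ 2)
    (s := Ioi (0 : ℝ)) measurableSet_Ioi (fun s hs => by
      have : (0 : ℝ) < s := hs
      positivity)
  linarith

theorem mixing_edge {V : ℕ} {δ c C : ℝ} {G : SimpleGraph (Fin V)}
    {σ : Fin V → Fin V → Fin V → ℝ} (h : Mixing δ c C G σ) (hδ : 1 / 2 < δ) (hV : 0 < V) :
    ∃ v w, G.Adj v w := by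
  have h1 := h.deg ⟨0, hV⟩
  have h2 : (0 : ℝ) < δ * V := by
    have : (0 : ℝ) < V := by exact_mod_cast hV
    have : (0 : ℝ) < δ := by linarith
    positivity
  have h3 : 0 < (G.neighborSet ⟨0, hV⟩).ncard := by
    exact_mod_cast h2.trans_le h1
  obtain ⟨w, hw⟩ := (Set.ncard_pos (Set.toFinite _)).mp h3
  exact ⟨⟨0, hV⟩, w, hw⟩

/-- The law of `X` on `[0, T]`. -/
theorem law_exists {X : ℝ → ℝ} (hm : Measurable X) {B : ℝ} (hB : ∀ k, 0 ≤ k → |X k| ≤ B) {T : ℝ}
    (hT : 0 < T) : ∃ P : ProbabilityMeasure ℝ,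
      (∀ r : ℕ, Integrable (fun x : ℝ => x ^ r) (P : Measure ℝ)) ∧
      (∀ r : ℕ, ∫ x, x ^ r ∂(P : Measure ℝ) = avg T fun k => X k ^ r) ∧
      ∀ F : BoundedContinuousFunction ℝ ℝ, ∫ x, F x ∂(P : Measure ℝ) = avg T fun k => F (X k) := by
  set μ : Measure ℝ := ENNReal.ofReal (1 / T) • volume.restrict (Ioc 0 T) with hμ
  have hprob : IsProbabilityMeasure μ := by
    constructor
    rw [hμ, Measure.smul_apply, Measure.restrict_apply_univ, Real.volume_Ioc, sub_zero, smul_eq_mul,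
      ← ENNReal.ofReal_mul (by positivity)]
    rw [one_div, inv_mul_cancel₀ hT.ne', ENNReal.ofReal_one]
  have hint : ∀ g : ℝ → ℝ, ∫ k, g k ∂μ = avg T g := by
    intro g
    rw [hμ, integral_smul_measure, ENNReal.toReal_ofReal (by positivity), smul_eq_mul, avg,
      intervalIntegral.integral_of_le hT.le]
  have hprob2 : IsProbabilityMeasure (μ.map X) := Measure.isProbabilityMeasure_map hm.aemeasurable
  refine ⟨⟨μ.map X, hprob2⟩, ?_, ?_, ?_⟩
  · intro r
    change Integrable (fun x : ℝ => x ^ r) (μ.map X)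
    rw [integrable_map_measure (by fun_prop) hm.aemeasurable]
    refine Integrable.of_bound (C := B ^ r) ((hm.pow_const r).aestronglyMeasurable) ?_
    rw [hμ]
    refine Measure.ae_smul_measure ?_ _
    filter_upwards [ae_restrict_mem measurableSet_Ioc] with k hk
    simp only [Function.comp, norm_pow, Real.norm_eq_abs]
    have := hB k hk.1.le
    gcongr
  · intro r
    change ∫ x, x ^ r ∂(μ.map X) = _
    rw [integral_map hm.aemeasurable (by fun_prop), hint]
  · intro F
    change ∫ x, F x ∂(μ.map X) = _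
    rw [integral_map hm.aemeasurable (F.continuous.aestronglyMeasurable), hint]

theorem law_of_moments (h : Moments) (hreg : Reg) : Law := by
  intro f R a b δ c C F ε hR ha hδ hc hε
  by_contra hcon
  push Not at hcon
  choose K hK using fun r => h f R a b δ c C r hR ha hδ hc
  choose V G σ l κ Λ hmix hlen hind hlev hΛ hΛV hfr using fun n : ℕ =>
    hcon (1 / ((n : ℝ) + 1)) (by positivity)
  have hΛn : ∀ n : ℕ, (n : ℝ) + 1 ≤ Λ n := fun n => by
    have := hΛ n
    rwa [one_div_one_div] at this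
  have hΛ1 : ∀ n, 1 ≤ Λ n := fun n => le_trans (by
    have : (0 : ℝ) ≤ n := Nat.cast_nonneg n
    linarith) (hΛn n)
  have hV0 : ∀ n, 0 < V n := by
    intro n
    by_contra h0
    have h1 : (V n : ℝ) = 0 := by
      have : V n = 0 := by omega
      rw [this]; simp
    have h2 := hΛV n
    rw [h1, mul_zero] at h2
    have h3 := hΛ1 n
    nlinarith
  have hVr : ∀ n, (0 : ℝ) < V n := fun n => by exact_mod_cast hV0 n
  have hΛV1 : ∀ n, Λ n ^ 2 ≤ V n := by
    intro n
    refine (hΛV n).trans ?_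
    have : 1 / ((n : ℝ) + 1) ≤ 1 := by
      rw [div_le_one (by positivity)]
      have : (0 : ℝ) ≤ n := Nat.cast_nonneg n
      linarith
    nlinarith [hVr n]
  choose mm hm1 hm2 using fun r n => hK r (V n) (G n) (σ n) (l n) (κ n) (Λ n) (hmix n) (hlen n)
    (hind n) (hlev n) (hΛ1 n) (hΛV1 n)
  -- choice of T
  have hT : ∀ n : ℕ, ∃ T : ℝ, 0 < T ∧ (∀ r ≤ n, |(avg T fun k => stat f (Λ n) (len (G n) (l n))
      (κ n) k ^ r) - mm r n| ≤ 1 / ((n : ℝ) + 1)) ∧
      ε < |(avg T fun k => F (stat f (Λ n) (len (G n) (l n)) (κ n) k)) -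
        ∫ x, F x ∂(gaussianReal 0 (vari f).toNNReal)| := by
    intro n
    have h1 : ∀ᶠ T : ℝ in atTop, ∀ r ∈ Finset.range (n + 1), |(avg T fun k => stat f (Λ n)
        (len (G n) (l n)) (κ n) k ^ r) - mm r n| ≤ 1 / ((n : ℝ) + 1) := by
      rw [Finset.eventually_all]
      intro r _
      have h2 := Metric.tendsto_nhds.mp (hm1 r n) (1 / ((n : ℝ) + 1)) (by positivity)
      filter_upwards [h2] with T hT
      rw [Real.dist_eq] at hT
      exact hT.le
    obtain ⟨T, h2, h3, h4⟩ := ((hfr n).and_eventually (h1.and (eventually_gt_atTop (0 : ℝ)))).exists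
    refine ⟨T, h4, fun r hr => h3 r (Finset.mem_range.mpr (by omega)), ?_⟩
    exact h2
  choose T hT0 hTm hTF using hT
  have hreg' := fun n => hreg f R a b (V n) (G n) (σ n) (l n) (κ n) (Λ n) hR ha (hmix n).scat
    (hlen n) (mixing_edge (hmix n) hδ (hV0 n)) (hlev n) (by linarith [hΛ1 n])
  choose B hB using fun n => (hreg' n).2
  choose P hP1 hP2 hP3 using fun n => law_exists (hreg' n).1 (hB n) (hT0 n)
  have hlim : ∀ r, Tendsto (fun n => ∫ x, x ^ r ∂(P n : Measure ℝ)) atTop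
      (𝓝 (gaussMom (vari f) r)) := by
    intro r
    rw [tendsto_iff_norm_sub_tendsto_zero]
    have hb : ∀ᶠ n : ℕ in atTop, ‖(∫ x, x ^ r ∂(P n : Measure ℝ)) - gaussMom (vari f) r‖ ≤
        1 / ((n : ℝ) + 1) + |K r| * (1 / √((n : ℝ) + 1) + 1 / ((n : ℝ) + 1)) := by
      filter_upwards [eventually_ge_atTop r] with n hn
      rw [hP2, Real.norm_eq_abs]
      have a1 := hTm n r hn
      have a2 := hm2 r n
      have a3 : K r * (1 / √(Λ n) + Λ n ^ 2 / V n) ≤
          |K r| * (1 / √((n : ℝ) + 1) + 1 / ((n : ℝ) + 1)) := by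
        have b1 : 1 / √(Λ n) ≤ 1 / √((n : ℝ) + 1) := by
          apply one_div_le_one_div_of_le (by positivity)
          exact Real.sqrt_le_sqrt (hΛn n)
        have b2 : Λ n ^ 2 / V n ≤ 1 / ((n : ℝ) + 1) := by
          rw [div_le_iff₀ (hVr n)]
          exact hΛV n
        have b3 : 0 ≤ 1 / √(Λ n) + Λ n ^ 2 / V n := by positivity
        calc K r * (1 / √(Λ n) + Λ n ^ 2 / V n) ≤ |K r| * (1 / √(Λ n) + Λ n ^ 2 / V n) :=
              mul_le_mul_of_nonneg_right (le_abs_self _) b3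
          _ ≤ _ := by gcongr
      calc |(avg (T n) fun k => stat f (Λ n) (len (G n) (l n)) (κ n) k ^ r) - gaussMom (vari f) r|
          ≤ |(avg (T n) fun k => stat f (Λ n) (len (G n) (l n)) (κ n) k ^ r) - mm r n| +
            |mm r n - gaussMom (vari f) r| := abs_sub_le _ _ _
        _ ≤ _ := add_le_add a1 (a2.trans a3)
    refine squeeze_zero' (Eventually.of_forall fun n => norm_nonneg _) hb ?_
    have c1 : Tendsto (fun n : ℕ => 1 / ((n : ℝ) + 1)) atTop (𝓝 0) :=
      tendsto_one_div_add_atTop_nhds_zero_nat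
    have c2 : Tendsto (fun n : ℕ => 1 / √((n : ℝ) + 1)) atTop (𝓝 0) := by
      have c3 : Tendsto (fun n : ℕ => √((n : ℝ) + 1)) atTop atTop :=
        Real.tendsto_sqrt_atTop.comp (tendsto_atTop_add_const_right _ _ tendsto_natCast_atTop_atTop)
      refine (c3.inv_tendsto_atTop).congr fun n => ?_
      simp
    have := c1.add ((c2.add c1).const_mul |K r|)
    simpa using this
  have hfin := moment_method (vari_nonneg f) P hP1 hlim F
  have hev := Metric.tendsto_nhds.mp hfin ε hε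
  obtain ⟨n, hn⟩ := hev.exists
  rw [Real.dist_eq, hP3] at hn
  exact absurd hn (not_lt.mpr (hTF n).le)

end Mes
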