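import Pool.Agent.LibMes.Defs

/-! Definitions for the combinatorial side: visits and edges of closed walks. -/

open Finset

namespace Mes

/-- The product of the odd numbers `≤ D`. -/
def oddp : ℕ → ℕ
  | 0 => 1
  | D + 1 => if D % 2 = 0 then (D + 1) * oddp D else oddp D

section
variable {α : Type} [Fintype α] [DecidableEq α]

/-- `∏ (2 d_w - 1)!!` over the vertices `w`, where `d_w` is the multiplicity of `w` in `H`. -/
def om (H : Multiset α) : ℕ := ∏ w, oddp (2 * H.count w)

/-- The degree of `w` in the multiset `R` of edges. -/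
def dg (R : Multiset (Sym2 α)) (w : α) : ℕ := R.countP fun e => w ∈ e

/-- `∏ oddp (degree)` over all vertices. -/
def Po (R : Multiset (Sym2 α)) : ℕ := ∏ w, oddp (dg R w)

omit [Fintype α] in
/-- Generic multisets of edges: no repeated edge, degrees at most two. -/
def Gen (R : Multiset (Sym2 α)) : Prop := R.Nodup ∧ ∀ w, dg R w ≤ 2

/-- The edges of the walk `v, y 0, y 1, ..., r`. -/
def edg (r : α) : α → List α → Multiset (Sym2 α)
  | v, [] => {s(v, r)}
  | v, w :: y => s(v, w) ::ₘ edg r w y

/-- Sum over all walks from `v` to `r` with less than `K` intermediate points and edges in `R`. -/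
def GG (K : ℕ) (R : Multiset (Sym2 α)) (v r : α) : ℕ :=
  ∑ k ∈ range K, ∑ y : Fin k → α,
    if edg r v (List.ofFn y) ≤ R then Po (R - edg r v (List.ofFn y)) else 0

end

/-- The visits of a closed walk. -/
def viF {α : Type} {n : ℕ} (y : Fin (n + 1) → α) : Multiset α := Finset.univ.val.map y

/-- The edges of a closed walk. -/
def edF {α : Type} {n : ℕ} (y : Fin (n + 1) → α) : Multiset (Sym2 α) :=
  Finset.univ.val.map fun i => s(y i, y (i + 1))

/-- The visits of a family of closed walks. -/
def viP {α : Type} {m M : ℕ} (P : Fin m → CW α M) : Multiset α := ∑ i, viF (P i).2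

/-- The edges of a family of closed walks. -/
def edP {α : Type} {m M : ℕ} (P : Fin m → CW α M) : Multiset (Sym2 α) := ∑ i, edF (P i).2

/-- No loops. -/
def LF {α : Type} {n : ℕ} (y : Fin (n + 1) → α) : Prop := ∀ i, y i ≠ y (i + 1)

/-- The product of the squared amplitudes along a walk which starts with the bond `(a, b)`. -/
def tr {α : Type} (σ : α → α → α → ℝ) : α → α → List α → ℝ
  | _, _, [] => 1
  | a, b, c :: y => σ b c a ^ 2 * tr σ b c y

/-- The conditions on the scattering matrices which are used in the upper bounds. -/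
structure Ker {V : ℕ} (σ : Fin V → Fin V → Fin V → ℝ) (κ : ℝ) : Prop where
  nonneg : 0 ≤ κ
  bd : ∀ v u w, σ v u w ^ 2 ≤ κ
  row : ∀ v u, ∑ w, σ v w u ^ 2 ≤ 1
  loop : ∀ v u, σ v u v = 0
  one : 1 ≤ κ * V

open Classical in
/-- The sum over pairs of families of closed walks with the same edges. -/
noncomputable def SS {V M : ℕ} (c : CW (Fin V) M → ℂ) (a b : ℕ) : ℂ :=
  ∑ P : Fin a → CW (Fin V) M, ∑ P' : Fin b → CW (Fin V) M,
    if edP P = edP P' then (∏ i, c (P i)) * ∏ j, (starRingEnd ℂ) (c (P' j)) else 0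

/-- The diagonal sum. -/
noncomputable def D2 {V M : ℕ} (c : CW (Fin V) M → ℂ) : ℝ :=
  ∑ y : CW (Fin V) M, 2 * ((y.1 : ℕ) + 1 : ℕ) * ‖c y‖ ^ 2

/-- Gaussian moments. -/
def gm (r : ℕ) : ℕ := if Even r then (r - 1).doubleFactorial else 0

end Mes
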