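import Pool.Agent.LibMes.Defs

/-! The statements of the final theorem. -/

open MeasureTheory ProbabilityTheory Set Filter Topology

namespace Mes

/-- Dense graph (minimal degree at least `δ V`) with vertex matrices all of whose entries are of size
`V ^ (-1/2)`: `σ v u w ^ 2 ≤ C / V` for all `u`, `w`, and `c / V ≤ σ v u w ^ 2` for different
neighbours `u`, `w` of `v`. -/
structure Mixing {V : ℕ} (δ c C : ℝ) (G : SimpleGraph (Fin V)) (σ : Fin V → Fin V → Fin V → ℝ) :
    Prop where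
  scat : IsScat G σ
  deg : ∀ v, δ * V ≤ ((G.neighborSet v).ncard : ℝ)
  lower : ∀ v u w, G.Adj v u → G.Adj v w → u ≠ w → c / V ≤ σ v u w ^ 2
  upper : ∀ v u w, σ v u w ^ 2 ≤ C / V

/-- The variance of the Gaussian orthogonal ensemble, `4 ∫_0^∞ s |f^(s)|² ds`. -/
noncomputable def vari (f : ℝ → ℝ) : ℝ := 4 * ∫ s in Ioi (0 : ℝ), s * ‖ft f s‖ ^ 2

/-- The moments of the centred Gaussian law of variance `S`. -/
noncomputable def gaussMom (S : ℝ) (r : ℕ) : ℝ :=
  if Even r then (Nat.doubleFactorial (r - 1) : ℝ) * S ^ (r / 2) else 0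

/-- The mean of `F` over `[0, T]`. -/
noncomputable def avg (T : ℝ) (F : ℝ → ℝ) : ℝ := (1 / T) * ∫ k in (0 : ℝ)..T, F k

/-- Every graph with at least one edge has one and only one list of levels. -/
def LevelsExist : Prop :=
  ∀ (V : ℕ) (G : SimpleGraph (Fin V)) (σ : Fin V → Fin V → Fin V → ℝ) (a b : ℝ)
    (l : Fin V → Fin V → ℝ), IsScat G σ → 0 < a → IsLen G a b l → (∃ v w, G.Adj v w) →
    ∃! κ, IsLevels G σ l κ

/-- All moments of smooth linear statistics are asymptotically those of the Gaussian law with the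
variance of the Gaussian orthogonal ensemble. -/
def Moments : Prop :=
  ∀ (f : SchwartzMap ℝ ℝ) (R a b δ c C : ℝ) (r : ℕ), (∀ s, R < |s| → ft f s = 0) → 0 < a →
    1 / 2 < δ → 0 < c → ∃ K : ℝ, ∀ (V : ℕ) (G : SimpleGraph (Fin V)) (σ : Fin V → Fin V → Fin V → ℝ)
      (l : Fin V → Fin V → ℝ) (κ : ℕ → ℝ) (Λ : ℝ), Mixing δ c C G σ → IsLen G a b l → Indep G l →
      IsLevels G σ l κ → 1 ≤ Λ → Λ ^ 2 ≤ V →
      ∃ m : ℝ, Tendsto (fun T => avg T fun k => stat f Λ (len G l) κ k ^ r) atTop (𝓝 m) ∧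
        |m - gaussMom (vari f) r| ≤ K * (1 / √Λ + Λ ^ 2 / V)

/-- The value distribution of smooth linear statistics is asymptotically Gaussian, with the variance
of the Gaussian orthogonal ensemble. -/
def Law : Prop :=
  ∀ (f : SchwartzMap ℝ ℝ) (R a b δ c C : ℝ) (F : BoundedContinuousFunction ℝ ℝ) (ε : ℝ),
    (∀ s, R < |s| → ft f s = 0) → 0 < a → 1 / 2 < δ → 0 < c → 0 < ε → ∃ η > 0, ∀ (V : ℕ)
      (G : SimpleGraph (Fin V)) (σ : Fin V → Fin V → Fin V → ℝ) (l : Fin V → Fin V → ℝ) (κ : ℕ → ℝ)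
      (Λ : ℝ), Mixing δ c C G σ → IsLen G a b l → Indep G l → IsLevels G σ l κ → 1 / η ≤ Λ →
      Λ ^ 2 ≤ η * V → ∀ᶠ T in atTop, |(avg T fun k => F (stat f Λ (len G l) κ k)) -
        ∫ x, F x ∂(gaussianReal 0 (vari f).toNNReal)| ≤ ε

/-- The undirected edges. -/
abbrev Edge {V : ℕ} (G : SimpleGraph (Fin V)) : Type := {q : Fin V × Fin V // q.1 < q.2 ∧ G.Adj q.1 q.2}

open Classical in
noncomputable instance {V : ℕ} (G : SimpleGraph (Fin V)) : Fintype (Edge G) := Fintype.ofFinite _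

open Classical in
/-- The symmetric length function with the lengths `x e` of the edges `e`. -/
noncomputable def lenOf {V : ℕ} (G : SimpleGraph (Fin V)) (x : Edge G → ℝ) (v w : Fin V) : ℝ :=
  if h : v < w ∧ G.Adj v w then x ⟨(v, w), h⟩ else
  if h : w < v ∧ G.Adj w v then x ⟨(w, v), h⟩ else 0

end Mes
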