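import Pool.Agent.LibMes.CDefs
import Pool.Agent.LibMes.FDefs

open MeasureTheory Set Filter Topology

namespace Mes

/-! The diagonal side. -/

/-- The bond Markov matrix. -/
noncomputable def bP {V : ℕ} (G : SimpleGraph (Fin V)) (σ : Fin V → Fin V → Fin V → ℝ) :
    Matrix (Bond G) (Bond G) ℝ := fun q p => bS G σ q p ^ 2

/-- `P` is doubly stochastic, `P^2 ≤ β / m` and `α / m ≤ P^4`, `m` the number of states. -/
structure Dst {ι : Type} [Fintype ι] [DecidableEq ι] (α β : ℝ) (P : Matrix ι ι ℝ) : Prop where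
  nn : ∀ q p, 0 ≤ P q p
  row : ∀ q, ∑ p, P q p = 1
  col : ∀ p, ∑ q, P q p = 1
  two : ∀ q p, (P ^ 2) q p ≤ β / Fintype.card ι
  four : ∀ q p, α / Fintype.card ι ≤ (P ^ 4) q p

/-- The weight of an open path. -/
noncomputable def pw {ι : Type} (P : Matrix ι ι ℝ) {n : ℕ} (x : Fin (n + 1) → ι) : ℝ :=
  ∏ i : Fin n, P (x i.succ) (x i.castSucc)

end Mes
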