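import Mathlib

/-! Quantum graphs over arbitrary simple graphs, with real, scale invariant, self-adjoint vertex
conditions; their levels and smooth linear statistics; sums over closed walks. -/

open MeasureTheory Set Filter Topology

namespace Mes

/-- At every vertex `v` the matrix `(σ v u w)`, indexed by the neighbours `u`, `w` of `v`, is real,
symmetric and orthogonal (it is `0` when `u` or `w` is not a neighbour of `v`). -/
structure IsScat {V : ℕ} (G : SimpleGraph (Fin V)) (σ : Fin V → Fin V → Fin V → ℝ) : Prop where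
  supp : ∀ v u w, ¬ G.Adj v u → σ v u w = 0
  symm : ∀ v u w, σ v u w = σ v w u
  orth : ∀ v u w, G.Adj v u → G.Adj v w → ∑ x, σ v u x * σ v w x = if u = w then 1 else 0

/-- The edge lengths are symmetric, and lie in `[a, b]`. -/
structure IsLen {V : ℕ} (G : SimpleGraph (Fin V)) (a b : ℝ) (l : Fin V → Fin V → ℝ) : Prop where
  symm : ∀ v w, l v w = l w v
  mem : ∀ v w, G.Adj v w → l v w ∈ Icc a b

/-- `u` is an eigenfunction with wave number `k` of the Laplacian of the quantum graph. The edge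
between the adjacent vertices `v` and `w` is the interval `[0, l v w]`, and `u v w` is the function
on this edge in the coordinate with origin `v`; a solution of `-u'' = k² u` on the edge is identified
with its extension to the real line. The vertex condition at `v` is: the values at `v` are a fixed
vector of the matrix `σ v`, and the derivatives at `v` (in the outgoing directions) are reversed by
`σ v`. -/
structure IsEig {V : ℕ} (G : SimpleGraph (Fin V)) (σ : Fin V → Fin V → Fin V → ℝ)
    (l : Fin V → Fin V → ℝ) (k : ℝ) (u : Fin V → Fin V → ℝ → ℂ) : Prop where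
  supp : ∀ v w, ¬ G.Adj v w → u v w = 0
  smooth : ∀ v w, ContDiff ℝ 2 (u v w)
  eqn : ∀ v w t, deriv (deriv (u v w)) t = -((k : ℂ) ^ 2) * u v w t
  flip : ∀ v w t, u w v t = u v w (l v w - t)
  val : ∀ v w, u v w 0 = ∑ x, (σ v w x : ℂ) * u v x 0
  flux : ∀ v w, deriv (u v w) 0 = -∑ x, (σ v w x : ℂ) * deriv (u v x) 0

/-- The space of eigenfunctions with wave number `k`. -/
def eigSpace {V : ℕ} (G : SimpleGraph (Fin V)) (σ : Fin V → Fin V → Fin V → ℝ)
    (l : Fin V → Fin V → ℝ) (k : ℝ) : Submodule ℂ (Fin V → Fin V → ℝ → ℂ) where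
  carrier := {u | IsEig G σ l k u}
  add_mem' := by
    intro u v hu hv
    have du : ∀ j i, Differentiable ℝ (u j i) := fun j i => (hu.smooth j i).differentiable (by simp)
    have dv : ∀ j i, Differentiable ℝ (v j i) := fun j i => (hv.smooth j i).differentiable (by simp)
    have e : ∀ j i, deriv ((u + v) j i) = deriv (u j i) + deriv (v j i) := by
      intro j i; ext t; simp [Pi.add_apply, deriv_add (du j i t) (dv j i t)]
    have ddu : ∀ j i, Differentiable ℝ (deriv (u j i)) := fun j i =>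
      (hu.smooth j i).differentiable_deriv_two
    have ddv : ∀ j i, Differentiable ℝ (deriv (v j i)) := fun j i =>
      (hv.smooth j i).differentiable_deriv_two
    refine ⟨?_, fun j i => (hu.smooth j i).add (hv.smooth j i), ?_, ?_, ?_, ?_⟩
    · intro j i h
      rw [Pi.add_apply, Pi.add_apply, hu.supp j i h, hv.supp j i h, add_zero]
    · intro j i t
      rw [e j i]
      rw [show deriv (deriv (u j i) + deriv (v j i)) t
        = deriv (deriv (u j i)) t + deriv (deriv (v j i)) t from
          deriv_add (ddu j i t) (ddv j i t), hu.eqn, hv.eqn]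
      simp only [Pi.add_apply]; ring
    · intro j i t
      simp only [Pi.add_apply, hu.flip j i, hv.flip j i]
    · intro j i
      simp only [Pi.add_apply, mul_add, Finset.sum_add_distrib, ← hu.val j i, ← hv.val j i]
    · intro j i
      simp only [e]
      simp only [Pi.add_apply, mul_add, Finset.sum_add_distrib, neg_add, ← hu.flux j i,
        ← hv.flux j i]
  zero_mem' := by
    have e : ∀ (j i : Fin V), deriv ((0 : Fin V → Fin V → ℝ → ℂ) j i) = 0 := by
      intro j i; ext t; simp
    refine ⟨fun _ _ _ => rfl, fun j i => contDiff_const, ?_, ?_, ?_, ?_⟩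
    · intro j i t
      rw [e]
      simp
    · intro j i t; rfl
    · intro j i; simp
    · intro j i; simp only [e]; simp
  smul_mem' := by
    intro c u hu
    have du : ∀ j i, Differentiable ℝ (u j i) := fun j i => (hu.smooth j i).differentiable (by simp)
    have ddu : ∀ j i, Differentiable ℝ (deriv (u j i)) := fun j i =>
      (hu.smooth j i).differentiable_deriv_two
    have e : ∀ j i, deriv ((c • u) j i) = c • deriv (u j i) := by
      intro j i; ext t
      simp only [Pi.smul_apply, smul_eq_mul]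
      exact deriv_const_mul c (du j i t)
    refine ⟨?_, fun j i => (hu.smooth j i).const_smul c, ?_, ?_, ?_, ?_⟩
    · intro j i h
      rw [Pi.smul_apply, Pi.smul_apply, hu.supp j i h, smul_zero]
    · intro j i t
      rw [e j i]
      rw [show deriv (c • deriv (u j i)) t = c * deriv (deriv (u j i)) t from
          deriv_const_mul c (ddu j i t), hu.eqn]
      simp only [Pi.smul_apply, smul_eq_mul]; ring
    · intro j i t
      simp only [Pi.smul_apply, hu.flip j i]
    · intro j i
      simp only [Pi.smul_apply, smul_eq_mul]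
      rw [hu.val j i, Finset.mul_sum]
      exact Finset.sum_congr rfl fun _ _ => by ring
    · intro j i
      simp only [e]
      simp only [Pi.smul_apply, smul_eq_mul]
      rw [hu.flux j i, mul_neg, Finset.mul_sum]
      exact congrArg _ (Finset.sum_congr rfl fun _ _ => by ring)

/-- `κ 0 ≤ κ 1 ≤ ...` are the positive wave numbers `k` (the square roots of the positive
eigenvalues) of the graph, each repeated as often as its multiplicity. -/
structure IsLevels {V : ℕ} (G : SimpleGraph (Fin V)) (σ : Fin V → Fin V → Fin V → ℝ)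
    (l : Fin V → Fin V → ℝ) (κ : ℕ → ℝ) : Prop where
  mono : Monotone κ
  pos : ∀ n, 0 < κ n
  mult : ∀ k, 0 < k → {n | κ n = k}.encard = (Module.finrank ℂ (eigSpace G σ l k) : ℕ∞)

open Classical in
/-- The total length of the graph. -/
noncomputable def len {V : ℕ} (G : SimpleGraph (Fin V)) (l : Fin V → Fin V → ℝ) : ℝ :=
  1 / 2 * ∑ v, ∑ w, if G.Adj v w then l v w else 0

/-- The Fourier transform `∫ f(x) e^{-2πixs} dx`. -/
noncomputable def ft (f : ℝ → ℝ) (s : ℝ) : ℂ :=
  ∫ x, (f x : ℂ) * Complex.exp (-((2 * Real.pi * x * s : ℝ) : ℂ) * Complex.I)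

/-- The smooth linear statistic `∑ f(Λ(κ_n - k))` of the levels, minus its mean value
`len / (πΛ) * ∫ f` given by Weyl's law. -/
noncomputable def stat (f : ℝ → ℝ) (Λ L : ℝ) (κ : ℕ → ℝ) (k : ℝ) : ℝ :=
  ∑' n, f (Λ * (κ n - k)) - L / (Real.pi * Λ) * ∫ x, f x

/-- The edge lengths are linearly independent over the rational numbers. -/
def Indep {V : ℕ} (G : SimpleGraph (Fin V)) (l : Fin V → Fin V → ℝ) : Prop :=
  LinearIndependent ℚ fun q : {q : Fin V × Fin V // q.1 < q.2 ∧ G.Adj q.1 q.2} => l q.1.1 q.1.2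

/-! ### Bonds -/

/-- The directed edges. -/
abbrev Bond {V : ℕ} (G : SimpleGraph (Fin V)) : Type := {q : Fin V × Fin V // G.Adj q.1 q.2}

noncomputable instance {V : ℕ} (G : SimpleGraph (Fin V)) : Fintype (Bond G) := Fintype.ofFinite _

noncomputable instance {V : ℕ} (G : SimpleGraph (Fin V)) : DecidableEq (Bond G) :=
  Classical.decEq _

/-- The bond scattering matrix: from the bond `(u, v)` to the bond `(v, w)` with amplitude
`σ v w u`. -/
noncomputable def bS {V : ℕ} (G : SimpleGraph (Fin V)) (σ : Fin V → Fin V → Fin V → ℝ) :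
    Matrix (Bond G) (Bond G) ℝ :=
  fun q p => if q.1.1 = p.1.2 then σ q.1.1 q.1.2 p.1.1 else 0

/-- The bond lengths. -/
def bl {V : ℕ} (G : SimpleGraph (Fin V)) (l : Fin V → Fin V → ℝ) (q : Bond G) : ℝ := l q.1.1 q.1.2

section general

variable {ι : Type} [Fintype ι] [DecidableEq ι]

/-- The quantum evolution operator `D(k) S`. -/
noncomputable def evo (S : Matrix ι ι ℝ) (ℓ : ι → ℝ) (k : ℝ) : Matrix ι ι ℂ :=
  fun i j => Complex.exp ((k * ℓ i : ℝ) * Complex.I) * (S i j : ℂ)

/-- The positive `k` with `1 ∈ spec D(k) S`, with multiplicity. -/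
structure IsLev (S : Matrix ι ι ℝ) (ℓ : ι → ℝ) (κ : ℕ → ℝ) : Prop where
  mono : Monotone κ
  pos : ∀ n, 0 < κ n
  mult : ∀ k, 0 < k → {n | κ n = k}.encard =
    (Module.finrank ℂ (LinearMap.ker (Matrix.toLin' (1 - evo S ℓ k))) : ℕ∞)

/-- Eigenphases of the evolution operator. -/
structure Ph (S : Matrix ι ι ℝ) (ℓ : ι → ℝ) (a b : ℝ) (F : ℤ → ℝ → ℝ) : Prop where
  cont : ∀ p, Continuous (F p)
  mono : ∀ k, Monotone fun p => F p k
  per : ∀ p k, F (p + Fintype.card ι) k = F p k + 2 * Real.pi
  low : ∀ p s t, s ≤ t → a * (t - s) ≤ F p t - F p s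
  up : ∀ p s t, s ≤ t → F p t - F p s ≤ b * (t - s)
  sum : ∃ c, ∀ k, ∑ j ∈ Finset.range (Fintype.card ι), F (-j) k = k * ∑ i, ℓ i + c
  trace : ∀ (n : ℕ) (k : ℝ), (evo S ℓ k ^ n).trace =
    ∑ j ∈ Finset.range (Fintype.card ι), Complex.exp ((n * F (-j) k : ℝ) * Complex.I)
  ker : ∀ k, {p | F p k = 0}.encard =
    (Module.finrank ℂ (LinearMap.ker (Matrix.toLin' (1 - evo S ℓ k))) : ℕ∞)

/-- All zeros of the eigenphases, i.e. all real levels. -/
structure Zer (N : ℕ) (a b : ℝ) (F : ℤ → ℝ → ℝ) (X : ℤ → ℝ) : Prop where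
  mono : Monotone X
  zero : ∀ p, F (-p) (X p) = 0
  step : ∀ p, 2 * Real.pi / b ≤ X (p + N) - X p ∧ X (p + N) - X p ≤ 2 * Real.pi / a

/-- The sawtooth series `∑ r^n sin(nθ) / n`. -/
noncomputable def saw (r θ : ℝ) : ℝ := (-Complex.log (1 - r * Complex.exp (θ * Complex.I))).im

/-- The amplitude of a closed walk on the bonds. -/
noncomputable def amp (S : Matrix ι ι ℝ) {n : ℕ} (x : Fin (n + 1) → ι) : ℝ :=
  ∏ i, S (x (i + 1)) (x i)

/-- The length of a closed walk on the bonds. -/
noncomputable def wl (ℓ : ι → ℝ) {n : ℕ} (x : Fin (n + 1) → ι) : ℝ := ∑ i, ℓ (x i)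

end general

/-- Test functions: `|f|, |f'| ≤ K / (1 + |x|)^4`. -/
structure Test (f : ℝ → ℝ) (K : ℝ) : Prop where
  diff : ContDiff ℝ 1 f
  d0 : ∀ x, |f x| ≤ K / (1 + |x|) ^ 4
  d1 : ∀ x, |deriv f x| ≤ K / (1 + |x|) ^ 4

/-! ### Closed walks on the vertices -/

/-- Closed walks `x 0, x 1, ..., x n, x 0` with `n + 1 ≤ M` steps. -/
abbrev CW (α : Type) (M : ℕ) : Type := (n : Fin M) × (Fin ((n : ℕ) + 1) → α)

/-- The amplitude of a closed walk `y` on the vertices. -/
noncomputable def ampV {V : ℕ} (σ : Fin V → Fin V → Fin V → ℝ) {n : ℕ} (y : Fin (n + 1) → Fin V) :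
    ℝ :=
  ∏ i, σ (y (i + 1)) (y (i + 2)) (y i)

/-- The length of a closed walk `y` on the vertices. -/
noncomputable def wlV {V : ℕ} (l : Fin V → Fin V → ℝ) {n : ℕ} (y : Fin (n + 1) → Fin V) : ℝ :=
  ∑ i, l (y i) (y (i + 1))

/-- The coefficient of a closed walk. -/
noncomputable def cf {V : ℕ} (σ : Fin V → Fin V → Fin V → ℝ) (l : Fin V → Fin V → ℝ) (h : ℝ → ℂ)
    (Λ : ℝ) {M : ℕ} (y : CW (Fin V) M) : ℂ :=
  (ampV σ y.2 : ℂ) / ((y.1 : ℕ) + 1 : ℕ) * h (wlV l y.2 / (2 * Real.pi * Λ))

/-- The `r`-th moment (mean over `k`) of `∑ (c q e^{ikω_q} + conj (c q) e^{-ikω_q})`. -/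
noncomputable def mom {Q : Type} [Fintype Q] (c : Q → ℂ) (ω : Q → ℝ) (r : ℕ) : ℂ :=
  ∑ p : Fin r → Q × Bool, if ∑ i, (if (p i).2 then ω (p i).1 else -ω (p i).1) = 0 then
    ∏ i, (if (p i).2 then c (p i).1 else (starRingEnd ℂ) (c (p i).1)) else 0

end Mes
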