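import Pool.Agent.LibMes.CDefs

open Finset

namespace Mes

theorem oddp_two (u : ℕ) : oddp (2 * (u + 1)) = (2 * u + 1) * oddp (2 * u) := by
  have h1 : 2 * (u + 1) = (2 * u + 1) + 1 := by ring
  rw [h1, oddp, if_neg (by omega), oddp, if_pos (by omega)]

private theorem mc1_pos : ∀ D : ℕ, 1 ≤ oddp D
  | 0 => le_refl 1
  | D + 1 => by
    have h := mc1_pos D
    rw [oddp]
    split_ifs
    · exact Nat.one_le_iff_ne_zero.2 (Nat.mul_ne_zero (Nat.succ_ne_zero D)
        (Nat.one_le_iff_ne_zero.1 h))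
    · exact h

section
variable {α : Type} [Fintype α] [DecidableEq α]

theorem om_cons (w : α) (H : Multiset α) : om (w ::ₘ H) = (2 * H.count w + 1) * om H := by
  rw [om, om, ← Finset.mul_prod_erase univ _ (mem_univ w),
    ← Finset.mul_prod_erase univ (fun w => oddp (2 * H.count w)) (mem_univ w),
    Multiset.count_cons_self, oddp_two, mul_assoc]
  congr 2
  refine prod_congr rfl (fun x hx => ?_)
  rw [Multiset.count_cons_of_ne (ne_of_mem_erase hx)]

theorem one_le_om (H : Multiset α) : 1 ≤ om H := by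
  rw [om]
  exact Nat.succ_le_of_lt (Finset.prod_pos (fun w _ => Nat.lt_of_succ_le (mc1_pos _)))

theorem three_le_om {H : Multiset α} (h : ¬ H.Nodup) : 3 ≤ om H := by
  rw [Multiset.nodup_iff_count_le_one] at h
  push Not at h
  obtain ⟨w, hw⟩ := h
  have h1 : 3 ≤ oddp (2 * H.count w) := by
    obtain ⟨u, hu⟩ : ∃ u, H.count w = u + 1 := ⟨H.count w - 1, by omega⟩
    rw [hu, oddp_two]
    have h2 := mc1_pos (2 * u)
    have h3 : 3 ≤ 2 * u + 1 := by omega
    exact le_trans h3 (Nat.le_mul_of_pos_right _ h2)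
  refine le_trans h1 ?_
  rw [om]
  exact Nat.le_of_dvd (Finset.prod_pos (fun w _ => Nat.lt_of_succ_le (mc1_pos _)))
    (Finset.dvd_prod_of_mem (fun w => oddp (2 * H.count w)) (mem_univ w))

theorem om_step {K : α → ℝ} {κ : ℝ} (h0 : ∀ w, 0 ≤ K w) (h1 : ∀ w, K w ≤ κ) (hκ : 0 ≤ κ)
    (hs : ∑ w, K w ≤ 1) {ρ : ℝ} (hρ : 1 ≤ ρ) (H : Multiset α) {L : ℝ}
    (hL : (H.card : ℝ) ≤ L) :
    ∑ w, K w * (ρ * om (w ::ₘ H) - 1) ≤ ρ * (1 + 2 * κ * L) * om H - 1 := by
  have ho : (1 : ℝ) ≤ om H := by exact_mod_cast one_le_om H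
  have hc : ∑ w, (H.count w : ℝ) = H.card := by
    rw [← Nat.cast_sum, Multiset.sum_count_eq_card (fun a _ => mem_univ a)]
  have e1 : ∑ w, K w * (ρ * om (w ::ₘ H) - 1) =
      (∑ w, K w) * (ρ * om H - 1) + 2 * ρ * om H * ∑ w, K w * H.count w := by
    rw [Finset.sum_mul, Finset.mul_sum, ← Finset.sum_add_distrib]
    refine sum_congr rfl (fun w _ => ?_)
    rw [om_cons]
    push_cast
    ring
  have e2 : ∑ w, K w * (H.count w : ℝ) ≤ κ * L := by
    calc ∑ w, K w * (H.count w : ℝ) ≤ ∑ w, κ * (H.count w : ℝ) :=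
          sum_le_sum (fun w _ => mul_le_mul_of_nonneg_right (h1 w) (Nat.cast_nonneg _))
      _ = κ * H.card := by rw [← Finset.mul_sum, hc]
      _ ≤ κ * L := mul_le_mul_of_nonneg_left hL hκ
  have e3 : (∑ w, K w) * (ρ * om H - 1) ≤ 1 * (ρ * om H - 1) :=
    mul_le_mul_of_nonneg_right hs (by nlinarith)
  have e4 : 2 * ρ * om H * ∑ w, K w * (H.count w : ℝ) ≤ 2 * ρ * om H * (κ * L) :=
    mul_le_mul_of_nonneg_left e2 (by positivity)
  rw [e1]
  nlinarith [e3, e4]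

end

end Mes
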