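import Pool.Agent.LibMes.MC9
import Pool.Agent.LibMes.MC1

open Finset

namespace Mes

private lemma mc17_sigma {β : Type} {a : ℕ} (n : Fin a → ℕ) (g : ∀ i, Fin (n i + 1) → β) :
    ∑ i, (Finset.univ : Finset (Fin (n i + 1))).val.map (g i) =
      (Finset.univ : Finset ((i : Fin a) × Fin (n i + 1))).val.map (fun q => g q.1 q.2) := by
  have h : ∀ {ι : Type} [Fintype ι] (f : ι → β),
      (Finset.univ : Finset ι).val.map f = ∑ x, ({f x} : Multiset β) := by
    intro ι _ f
    rw [Finset.sum_eq_multiset_sum]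
    have := Multiset.sum_map_singleton ((Finset.univ : Finset ι).val.map f)
    rw [Multiset.map_map] at this
    exact this.symm
  rw [h, Fintype.sum_sigma]
  exact Finset.sum_congr rfl fun i _ => h (g i)

private lemma mc17_two {n : ℕ} (hn : 2 ≤ n) (t : Fin (n + 1)) (h : t = t + 1 + 1) : False := by
  have h1 : (1 + 1 : Fin (n + 1)) = 0 := by
    have : t + (1 + 1) = t + 0 := by rw [← add_assoc, ← h, add_zero]
    exact add_left_cancel this
  have h2 := congrArg Fin.val h1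
  rw [Fin.val_add, Fin.val_zero] at h2
  have h3 : ((1 : Fin (n + 1)) : ℕ) = 1 := by
    rw [Fin.val_one']
    exact Nat.mod_eq_of_lt (by omega)
  rw [h3, Nat.mod_eq_of_lt (by omega)] at h2
  omega

section
variable {α : Type} [Fintype α] [DecidableEq α]

theorem not_gen {a M : ℕ} {P : Fin a → CW α M} (hP : ∀ i, LF (P i).2) (h : ¬ Gen (edP P)) :
    3 ≤ om (viP P) ∨ ∃ i, ((P i).1 : ℕ) ≤ 1 := by
  by_cases hn : (viP P).Nodup
  · right
    by_contra hcon
    push_neg at hcon
    apply h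
    have e1 : viP P = (Finset.univ : Finset ((i : Fin a) × Fin (((P i).1 : ℕ) + 1))).val.map
        (fun q => (P q.1).2 q.2) := mc17_sigma (fun i => ((P i).1 : ℕ)) (fun i => (P i).2)
    have e2 : edP P = (Finset.univ : Finset ((i : Fin a) × Fin (((P i).1 : ℕ) + 1))).val.map
        (fun q => s((P q.1).2 q.2, (P q.1).2 (q.2 + 1))) :=
      mc17_sigma (fun i => ((P i).1 : ℕ)) (fun i t => s((P i).2 t, (P i).2 (t + 1)))
    refine ⟨?_, fun w => ?_⟩
    · rw [e1, Multiset.nodup_map_iff_inj_on (Finset.nodup _)] at hn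
      have hinj : ∀ q q' : (i : Fin a) × Fin (((P i).1 : ℕ) + 1),
          (P q.1).2 q.2 = (P q'.1).2 q'.2 → q = q' := fun q q' hq =>
        hn q (Finset.mem_univ_val q) q' (Finset.mem_univ_val q') hq
      rw [e2, Multiset.nodup_map_iff_inj_on (Finset.nodup _)]
      rintro ⟨i, t⟩ _ ⟨i', t'⟩ _ hq
      rcases Sym2.eq_iff.1 hq with ⟨h1, _⟩ | ⟨h1, h2⟩
      · exact hinj ⟨i, t⟩ ⟨i', t'⟩ h1
      · exfalso
        have h3 := hinj ⟨i, t⟩ ⟨i', t' + 1⟩ h1
        have h4 := hinj ⟨i, t + 1⟩ ⟨i', t'⟩ h2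
        obtain ⟨rfl, h5⟩ := Sigma.mk.inj_iff.1 h3
        obtain ⟨_, h6⟩ := Sigma.mk.inj_iff.1 h4
        rw [heq_eq_eq] at h5 h6
        refine mc17_two (n := ((P i).1 : ℕ)) (hcon i) t ?_
        rw [h6]
        exact h5
    · rw [dg_edP hP w]
      have := Multiset.nodup_iff_count_le_one.1 hn w
      omega
  · exact Or.inl (three_le_om hn)

end

end Mes
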