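import Pool.Agent.LibMes.MC5
import Pool.Agent.LibMes.MC17

open Finset

namespace Mes

private lemma mc18_LF {V : ℕ} {σ : Fin V → Fin V → Fin V → ℝ} {κ : ℝ} (hK : Ker σ κ) {n : ℕ}
    {y : Fin (n + 1) → Fin V} (h : ampV σ y ≠ 0) : LF y := by
  intro i hi
  apply h
  unfold ampV
  apply Finset.prod_eq_zero (Finset.mem_univ i)
  rw [← hi]
  exact hK.loop _ _

/-- the weights -/
private noncomputable def mc18_th {a M : ℕ} (i : Fin a) (j : Fin a) (n : Fin M) : ℝ :=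
  if j = i then (if (n : ℕ) ≤ 1 then 1 else 0) else 1

private lemma mc18_th_nonneg {a M : ℕ} (i j : Fin a) (n : Fin M) : 0 ≤ mc18_th i j n := by
  unfold mc18_th
  split_ifs <;> norm_num

private lemma mc18_prod {a M : ℕ} (i : Fin a) (f : Fin a → Fin M) (g : Fin a → ℝ) :
    ∏ j, mc18_th i j (f j) * g j = (if (f i : ℕ) ≤ 1 then 1 else 0) * ∏ j, g j := by
  rw [Finset.prod_mul_distrib]
  congr 1
  rw [Finset.prod_eq_single i]
  · unfold mc18_th
    rw [if_pos rfl]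
  · intro j _ hj
    unfold mc18_th
    rw [if_neg hj]
  · intro h
    exact absurd (Finset.mem_univ i) h

private lemma mc18_sum {a M : ℕ} (hM : 1 ≤ M) (i : Fin a) :
    ∏ j, ∑ n : Fin M, mc18_th i j n ≤ 2 * (M : ℝ) ^ a * (1 / M) := by
  have hM0 : (0 : ℝ) < M := by exact_mod_cast hM
  have h1 : ∀ j ∈ Finset.univ.erase i, ∑ n : Fin M, mc18_th i j n = (M : ℝ) := by
    intro j hj
    have hji := (Finset.mem_erase.1 hj).1
    unfold mc18_th
    simp [hji]
  have h2 : ∑ n : Fin M, mc18_th i i n ≤ 2 := by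
    unfold mc18_th
    simp only [if_true]
    rw [Finset.sum_ite, Finset.sum_const_zero, add_zero, Finset.sum_const, nsmul_eq_mul, mul_one]
    have h3 : (Finset.univ.filter fun n : Fin M => (n : ℕ) ≤ 1).card ≤ 2 := by
      have h4 : ((Finset.univ.filter fun n : Fin M => (n : ℕ) ≤ 1).image fun n : Fin M => (n : ℕ)) ⊆
          Finset.range 2 := by
        intro x hx
        rw [Finset.mem_image] at hx
        obtain ⟨n, hn, rfl⟩ := hx
        rw [Finset.mem_filter] at hn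
        rw [Finset.mem_range]
        omega
      have h5 := Finset.card_le_card h4
      rw [Finset.card_image_of_injective _ Fin.val_injective, Finset.card_range] at h5
      exact h5
    exact_mod_cast h3
  rw [← Finset.mul_prod_erase Finset.univ _ (Finset.mem_univ i), Finset.prod_congr rfl h1,
    Finset.prod_const, Finset.card_erase_of_mem (Finset.mem_univ i), Finset.card_univ,
    Fintype.card_fin]
  have ha : a = (a - 1) + 1 := by
    have := i.2
    omega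
  have h6 : (M : ℝ) ^ a = (M : ℝ) ^ (a - 1) * M := by
    conv_lhs => rw [ha]
    rw [pow_succ]
  rw [h6]
  have h7 : 2 * ((M : ℝ) ^ (a - 1) * M) * (1 / M) = 2 * (M : ℝ) ^ (a - 1) := by
    field_simp
  rw [h7]
  exact mul_le_mul_of_nonneg_right h2 (pow_nonneg hM0.le _)

open Classical in
/-- C18. -/
theorem non_sum {V : ℕ} {σ : Fin V → Fin V → Fin V → ℝ} {κ : ℝ} (hK : Ker σ κ) (a : ℕ) {M : ℕ}
    (hM : 1 ≤ M) {B : ℝ} (hB : κ * M ^ 2 ≤ B) :
    ∑ P : Fin a → CW (Fin V) M, (if Gen (edP P) then 0 else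
      (∏ i, ampV σ (P i).2 ^ 2) * (om (viP P) : ℝ)) ≤
        (M * (κ * V) ^ 2) ^ a * ((3 * a ^ 2 + 4 * a) * Real.exp (2 * a ^ 2 * B)) *
          (κ * M ^ 2 + 1 / M) := by
  have hM0 : (0 : ℝ) < M := by exact_mod_cast hM
  have hκ := hK.nonneg
  have hκV : 0 ≤ (κ * V) ^ (2 * a) := pow_nonneg (mul_nonneg hκ (Nat.cast_nonneg _)) _
  -- the pointwise bound
  have hpt : ∀ P : Fin a → CW (Fin V) M, (if Gen (edP P) then (0 : ℝ) else
      (∏ i, ampV σ (P i).2 ^ 2) * (om (viP P) : ℝ)) ≤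
      3 / 2 * ((∏ i, (1 : ℝ) * ampV σ (P i).2 ^ 2) * (1 * (om (viP P + 0) : ℝ) - 1)) +
      ∑ i, (∏ j, mc18_th i j (P j).1 * ampV σ (P j).2 ^ 2) *
        (2 * (om (viP P + 0) : ℝ) - 1) := by
    intro P
    rw [add_zero]
    simp only [one_mul]
    set A : ℝ := ∏ i, ampV σ (P i).2 ^ 2 with hA
    have hA0 : 0 ≤ A := Finset.prod_nonneg fun i _ => sq_nonneg _
    have hom : (1 : ℝ) ≤ (om (viP P) : ℝ) := by exact_mod_cast one_le_om (viP P)
    have hW : ∀ i, (∏ j, mc18_th i j (P j).1 * ampV σ (P j).2 ^ 2) =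
        (if ((P i).1 : ℕ) ≤ 1 then 1 else 0) * A := fun i =>
      mc18_prod i (fun j => (P j).1) (fun j => ampV σ (P j).2 ^ 2)
    have hS0 : ∀ i, 0 ≤ (∏ j, mc18_th i j (P j).1 * ampV σ (P j).2 ^ 2) *
        (2 * (om (viP P) : ℝ) - 1) := by
      intro i
      rw [hW]
      refine mul_nonneg (mul_nonneg ?_ hA0) (by linarith)
      split_ifs <;> norm_num
    have hSn : 0 ≤ ∑ i, (∏ j, mc18_th i j (P j).1 * ampV σ (P j).2 ^ 2) *
        (2 * (om (viP P) : ℝ) - 1) := Finset.sum_nonneg fun i _ => hS0 i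
    have hF0 : 0 ≤ 3 / 2 * (A * ((om (viP P) : ℝ) - 1)) := by
      have := mul_nonneg hA0 (sub_nonneg.2 hom)
      linarith
    split_ifs with hG
    · linarith
    by_cases hAz : A = 0
    · rw [hAz, zero_mul]
      rw [hAz] at hF0
      linarith
    have hLF : ∀ i, LF (P i).2 := by
      intro i
      apply mc18_LF hK
      intro h0
      apply hAz
      rw [hA]
      apply Finset.prod_eq_zero (Finset.mem_univ i)
      rw [h0]
      norm_num
    rcases not_gen hLF hG with h3 | ⟨i, hi⟩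
    · have h3' : (3 : ℝ) ≤ (om (viP P) : ℝ) := by exact_mod_cast h3
      have h4 : A * (om (viP P) : ℝ) ≤ 3 / 2 * (A * ((om (viP P) : ℝ) - 1)) := by
        nlinarith
      linarith
    · have h4 := Finset.single_le_sum (fun i _ => hS0 i) (Finset.mem_univ i)
      have h5 : (∏ j, mc18_th i j (P j).1 * ampV σ (P j).2 ^ 2) = A := by
        rw [hW, if_pos hi, one_mul]
      have h6 : A * (om (viP P) : ℝ) ≤ A * (2 * (om (viP P) : ℝ) - 1) :=
        mul_le_mul_of_nonneg_left (by linarith) hA0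
      have h7 : A * (2 * (om (viP P) : ℝ) - 1) ≤
          ∑ i, (∏ j, mc18_th i j (P j).1 * ampV σ (P j).2 ^ 2) *
            (2 * (om (viP P) : ℝ) - 1) := by
        calc A * (2 * (om (viP P) : ℝ) - 1) =
            (∏ j, mc18_th i j (P j).1 * ampV σ (P j).2 ^ 2) * (2 * (om (viP P) : ℝ) - 1) := by
              rw [h5]
          _ ≤ _ := h4
      linarith
  refine (Finset.sum_le_sum fun P _ => hpt P).trans ?_
  rw [Finset.sum_add_distrib, ← Finset.mul_sum, Finset.sum_comm]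
  -- the two sums
  have hL : (((0 : Multiset (Fin V)).card : ℕ) : ℝ) + a * M ≤ a * M := by simp
  have hom0 : (om (0 : Multiset (Fin V)) : ℝ) = 1 := by
    simp [om, oddp]
  set X : ℝ := (1 + 2 * κ * (a * M)) ^ (a * M) with hX
  have h1 := sum_fam hK a M (fun _ _ => (1 : ℝ)) (fun _ _ => zero_le_one) (0 : Multiset (Fin V))
    hL (le_refl (1 : ℝ))
  have h2 : ∀ i : Fin a, _ := fun i =>
    sum_fam hK a M (mc18_th i) (fun j n => mc18_th_nonneg i j n) (0 : Multiset (Fin V)) hL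
      (by norm_num : (1 : ℝ) ≤ 2)
  rw [hom0] at h1
  simp only [hom0] at h2
  -- exponential bounds
  set Y : ℝ := 2 * κ * (a * M) * (a * M) with hY
  have hY0 : 0 ≤ Y := by positivity
  have hXe : X ≤ Real.exp Y := by
    have h3 : (1 : ℝ) + 2 * κ * (a * M) ≤ Real.exp (2 * κ * (a * M)) := by
      have := Real.add_one_le_exp (2 * κ * (a * M))
      linarith
    have h4 : (0 : ℝ) ≤ 1 + 2 * κ * (a * M) := by positivity
    calc X ≤ Real.exp (2 * κ * (a * M)) ^ (a * M) := pow_le_pow_left₀ h4 h3 _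
      _ = Real.exp Y := by
        rw [← Real.exp_nat_mul]
        congr 1
        rw [hY]
        push_cast
        ring
  have hYB : Y ≤ 2 * a ^ 2 * B := by
    have h3 : Y = 2 * a ^ 2 * (κ * M ^ 2) := by rw [hY]; ring
    rw [h3]
    exact mul_le_mul_of_nonneg_left hB (by positivity)
  set E : ℝ := Real.exp (2 * a ^ 2 * B) with hE
  have hE0 : 0 < E := Real.exp_pos _
  have hYE : Real.exp Y ≤ E := Real.exp_le_exp.2 hYB
  have hX1 : X - 1 ≤ Y * E := by
    have h3 : Real.exp Y - 1 ≤ Y * Real.exp Y := by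
      have h4 := Real.add_one_le_exp (-Y)
      have h5 := mul_le_mul_of_nonneg_left h4 (Real.exp_pos Y).le
      rw [← Real.exp_add, add_neg_cancel, Real.exp_zero] at h5
      nlinarith
    have h6 : Y * Real.exp Y ≤ Y * E := mul_le_mul_of_nonneg_left hYE hY0
    linarith
  have hX2 : 2 * X - 1 ≤ 2 * E := by linarith
  have hprod1 : (∏ _i : Fin a, ∑ _n : Fin M, (1 : ℝ)) = (M : ℝ) ^ a := by simp
  rw [hprod1] at h1
  have hMa : 0 ≤ (M : ℝ) ^ a := pow_nonneg hM0.le _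
  -- first
  have hfirst : 3 / 2 * ∑ P : Fin a → CW (Fin V) M, (∏ i, (1 : ℝ) * ampV σ (P i).2 ^ 2) *
      (1 * (om (viP P + 0) : ℝ) - 1) ≤ (M : ℝ) ^ a * (κ * V) ^ (2 * a) * (3 / 2 * (Y * E)) := by
    have h3 : (M : ℝ) ^ a * (κ * V) ^ (2 * a) * (1 * (1 + 2 * κ * (a * M)) ^ (a * M) * 1 - 1) ≤
        (M : ℝ) ^ a * (κ * V) ^ (2 * a) * (Y * E) := by
      refine mul_le_mul_of_nonneg_left ?_ (mul_nonneg hMa hκV)
      rw [← hX]
      linarith
    have h4 := h1.trans h3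
    linarith
  have hsecond : ∑ i : Fin a, ∑ P : Fin a → CW (Fin V) M,
      (∏ j, mc18_th i j (P j).1 * ampV σ (P j).2 ^ 2) * (2 * (om (viP P + 0) : ℝ) - 1) ≤
      a * (2 * (M : ℝ) ^ a * (1 / M) * (κ * V) ^ (2 * a) * (2 * E)) := by
    have h3 : ∀ i ∈ (Finset.univ : Finset (Fin a)), ∑ P : Fin a → CW (Fin V) M,
      (∏ j, mc18_th i j (P j).1 * ampV σ (P j).2 ^ 2) * (2 * (om (viP P + 0) : ℝ) - 1) ≤
      2 * (M : ℝ) ^ a * (1 / M) * (κ * V) ^ (2 * a) * (2 * E) := by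
      intro i _
      refine (h2 i).trans ?_
      have h4 : (2 : ℝ) * (1 + 2 * κ * (a * M)) ^ (a * M) * 1 - 1 ≤ 2 * E := by
        rw [← hX]
        linarith
      have hX1' : 1 ≤ X := by
        rw [hX]
        exact one_le_pow₀ (by
          have : 0 ≤ 2 * κ * ((a : ℝ) * M) := by positivity
          linarith)
      have h5 : (0 : ℝ) ≤ 2 * (1 + 2 * κ * (a * M)) ^ (a * M) * 1 - 1 := by
        rw [← hX]
        linarith
      refine mul_le_mul ?_ h4 h5 ?_
      · exact mul_le_mul_of_nonneg_right (mc18_sum hM i) hκV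
      · positivity
    refine (Finset.sum_le_sum h3).trans ?_
    rw [Finset.sum_const, Finset.card_univ, Fintype.card_fin, nsmul_eq_mul]
  refine (add_le_add hfirst hsecond).trans ?_
  have hfin : (M * (κ * V) ^ 2) ^ a = (M : ℝ) ^ a * (κ * V) ^ (2 * a) := by
    rw [mul_pow, ← pow_mul]
  rw [hfin]
  have hYk : Y = 2 * a ^ 2 * (κ * M ^ 2) := by rw [hY]; ring
  rw [hYk]
  have hkM : 0 ≤ κ * M ^ 2 := by positivity
  have hM1 : 0 ≤ 1 / (M : ℝ) := by positivity
  have ha0 : (0 : ℝ) ≤ a := Nat.cast_nonneg _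
  have hkey : 3 / 2 * (2 * a ^ 2 * (κ * M ^ 2) * E) + a * (2 * (1 / (M : ℝ)) * (2 * E)) ≤
      (3 * a ^ 2 + 4 * a) * E * (κ * M ^ 2 + 1 / M) := by
    have h8 : (3 * (a : ℝ) ^ 2 + 4 * a) * E * (κ * M ^ 2 + 1 / M) -
        (3 / 2 * (2 * a ^ 2 * (κ * M ^ 2) * E) + a * (2 * (1 / (M : ℝ)) * (2 * E))) =
        3 * a ^ 2 * E * (1 / M) + 4 * a * E * (κ * M ^ 2) := by ring
    have h9 : 0 ≤ 3 * (a : ℝ) ^ 2 * E * (1 / M) + 4 * a * E * (κ * M ^ 2) := by positivity
    linarith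
  calc (M : ℝ) ^ a * (κ * V) ^ (2 * a) * (3 / 2 * (2 * a ^ 2 * (κ * M ^ 2) * E)) +
      a * (2 * (M : ℝ) ^ a * (1 / M) * (κ * V) ^ (2 * a) * (2 * E))
      = (M : ℝ) ^ a * (κ * V) ^ (2 * a) * (3 / 2 * (2 * a ^ 2 * (κ * M ^ 2) * E) +
        a * (2 * (1 / (M : ℝ)) * (2 * E))) := by ring
    _ ≤ (M : ℝ) ^ a * (κ * V) ^ (2 * a) * ((3 * a ^ 2 + 4 * a) * E * (κ * M ^ 2 + 1 / M)) :=
      mul_le_mul_of_nonneg_left hkey (mul_nonneg hMa hκV)
    _ = (M : ℝ) ^ a * (κ * V) ^ (2 * a) * ((3 * a ^ 2 + 4 * a) * E) * (κ * M ^ 2 + 1 / M) := by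
      ring

end Mes
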