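import Pool.Agent.LibMes.MC10
import Pool.Agent.LibMes.MC18

open Finset

namespace Mes

private theorem mc19_LF {V : ℕ} {σ : Fin V → Fin V → Fin V → ℝ} {κ : ℝ} (hK : Ker σ κ) {n : ℕ}
    {y : Fin (n + 1) → Fin V} (h : ampV σ y ≠ 0) : LF y := by
  intro i hi
  apply h
  unfold ampV
  apply Finset.prod_eq_zero (Finset.mem_univ i)
  rw [hi]
  exact hK.loop _ _

private theorem mc19_card {α : Type} {m M : ℕ} (P : Fin m → CW α M) :
    (edP P).card ≤ m * M := by
  unfold edP
  rw [Multiset.card_sum]
  calc ∑ i : Fin m, (edF (P i).2).card ≤ ∑ _i : Fin m, M := by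
        apply Finset.sum_le_sum
        intro i _
        rw [card_edF]
        have := (P i).1.2
        omega
    _ = m * M := by simp

open Classical in
/-- C19. -/
theorem B_le {V : ℕ} {σ : Fin V → Fin V → Fin V → ℝ} {κ : ℝ} (hK : Ker σ κ) (a b : ℕ) {M : ℕ}
    (hM : 1 ≤ M) {B : ℝ} (hB : κ * M ^ 2 ≤ B) :
    ∑ P : Fin a → CW (Fin V) M, ∑ P' : Fin b → CW (Fin V) M,
      (if edP P = edP P' ∧ ¬ Gen (edP P) then ∏ i, ampV σ (P i).2 ^ 2 else 0) ≤
        (2 * a * M) ^ b * ((M * (κ * V) ^ 2) ^ a * ((3 * a ^ 2 + 4 * a) * Real.exp (2 * a ^ 2 * B)) *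
          (κ * M ^ 2 + 1 / M)) := by
  have key : ∀ P : Fin a → CW (Fin V) M, ∑ P' : Fin b → CW (Fin V) M,
      (if edP P = edP P' ∧ ¬ Gen (edP P) then ∏ i, ampV σ (P i).2 ^ 2 else 0) ≤
        (2 * a * M : ℝ) ^ b * (if Gen (edP P) then 0 else
          (∏ i, ampV σ (P i).2 ^ 2) * (om (viP P) : ℝ)) := by
    intro P
    by_cases hG : Gen (edP P)
    · simp [hG]
    · have hA : 0 ≤ ∏ i, ampV σ (P i).2 ^ 2 := Finset.prod_nonneg fun i _ => sq_nonneg _
      simp only [hG, not_false_eq_true, and_true, if_false]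
      by_cases h0 : ∏ i, ampV σ (P i).2 ^ 2 = 0
      · rw [h0]; simp
      · have hLF : ∀ i, LF (P i).2 := by
          intro i
          apply mc19_LF hK
          intro h
          apply h0
          apply Finset.prod_eq_zero (Finset.mem_univ i)
          rw [h]; simp
        have hR : ∀ e ∈ edP P, ¬ e.IsDiag := by
          intro e he
          unfold edP at he
          rw [Multiset.mem_sum] at he
          obtain ⟨i, _, hi⟩ := he
          exact (LF_iff _).1 (hLF i) e hi
        have he : ∀ u, dg (edP P) u % 2 = 0 := by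
          intro u
          rw [dg_edP hLF]
          omega
        have hcs := class_size (b := b) (M := M) hR he
        rw [Po_edP hLF] at hcs
        have hcard : ((univ.filter fun P' : Fin b → CW (Fin V) M => edP P' = edP P).card : ℝ) ≤
            (2 * a * M : ℝ) ^ b * (om (viP P) : ℝ) := by
          have h1 : (univ.filter fun P' : Fin b → CW (Fin V) M => edP P' = edP P).card ≤
              (2 * (a * M)) ^ b * om (viP P) := by
            refine le_trans (le_of_eq ?_) (hcs.trans ?_)
            · congr 1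
            · apply Nat.mul_le_mul_right
              apply Nat.pow_le_pow_left
              exact Nat.mul_le_mul_left _ (mc19_card P)
          calc ((univ.filter fun P' : Fin b → CW (Fin V) M => edP P' = edP P).card : ℝ) ≤
              (((2 * (a * M)) ^ b * om (viP P) : ℕ) : ℝ) := by exact_mod_cast h1
            _ = (2 * a * M : ℝ) ^ b * (om (viP P) : ℝ) := by push_cast; ring
        have hsum : ∑ P' : Fin b → CW (Fin V) M,
            (if edP P = edP P' then ∏ i, ampV σ (P i).2 ^ 2 else 0) =
            ((univ.filter fun P' : Fin b → CW (Fin V) M => edP P' = edP P).card : ℝ) *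
              ∏ i, ampV σ (P i).2 ^ 2 := by
          rw [← Finset.sum_filter, Finset.sum_const, nsmul_eq_mul]
          congr 3
          ext x
          simp [eq_comm]
        rw [hsum]
        calc _ ≤ ((2 * a * M : ℝ) ^ b * (om (viP P) : ℝ)) * ∏ i, ampV σ (P i).2 ^ 2 :=
              mul_le_mul_of_nonneg_right hcard hA
          _ = _ := by ring
  calc _ ≤ ∑ P : Fin a → CW (Fin V) M, (2 * a * M : ℝ) ^ b * (if Gen (edP P) then 0 else
          (∏ i, ampV σ (P i).2 ^ 2) * (om (viP P) : ℝ)) := Finset.sum_le_sum fun P _ => key P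
    _ = (2 * a * M : ℝ) ^ b * ∑ P : Fin a → CW (Fin V) M, (if Gen (edP P) then 0 else
          (∏ i, ampV σ (P i).2 ^ 2) * (om (viP P) : ℝ)) := by rw [Finset.mul_sum]
    _ ≤ _ := mul_le_mul_of_nonneg_left (non_sum hK a hM hB) (by positivity)

end Mes
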