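import Pool.Agent.LibMes.MC16
import Pool.Agent.LibMes.MC19

open Finset

namespace Mes

private theorem mc20_LF {V : ℕ} {σ : Fin V → Fin V → Fin V → ℝ} {κ : ℝ} (hK : Ker σ κ) {n : ℕ}
    {y : Fin (n + 1) → Fin V} (h : ampV σ y ≠ 0) : LF y := by
  intro i hi
  apply h
  unfold ampV
  apply Finset.prod_eq_zero (mem_univ i)
  rw [← hi]
  exact hK.loop _ _

private theorem mc20_amgm {a b : ℕ} (f : Fin a → ℝ) (g : Fin b → ℝ) :
    (∏ i, |f i|) * ∏ j, |g j| ≤ (∏ i, f i ^ 2) / 2 + (∏ j, g j ^ 2) / 2 := by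
  have h1 : (∏ i, f i ^ 2) = (∏ i, |f i|) ^ 2 := by
    rw [← Finset.prod_pow]; exact Finset.prod_congr rfl fun i _ => (sq_abs _).symm
  have h2 : (∏ j, g j ^ 2) = (∏ j, |g j|) ^ 2 := by
    rw [← Finset.prod_pow]; exact Finset.prod_congr rfl fun i _ => (sq_abs _).symm
  rw [h1, h2]
  nlinarith [sq_nonneg ((∏ i, |f i|) - ∏ j, |g j|)]

/-- The constant. -/
private noncomputable def mc20_Kn (a : ℕ) (B : ℝ) : ℝ :=
  (3 * a ^ 2 + 4 * a) * Real.exp (2 * a ^ 2 * B)

private theorem mc20_Kn_nonneg (a : ℕ) (B : ℝ) : 0 ≤ mc20_Kn a B := by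
  unfold mc20_Kn; positivity

/-- C20. -/
theorem SS_bd (a b : ℕ) (C B : ℝ) : ∃ K, ∀ {V M : ℕ} {σ : Fin V → Fin V → Fin V → ℝ} {κ : ℝ}
    (c : CW (Fin V) M → ℂ), Ker σ κ → κ * V ≤ C → 1 ≤ M → κ * M ^ 2 ≤ B →
    (∀ y, ‖c y‖ ≤ B / M * |ampV σ y.2|) →
    (∀ x y : CW (Fin V) M, LF x.2 → Gen (edF x.2) → edF y.2 = edF x.2 → c y = c x) →
    ‖SS c a b - if a = b then (a.factorial : ℂ) * (D2 c : ℂ) ^ a else 0‖ ≤
      K * (κ * M ^ 2 + 1 / M) := by
  classical
  refine ⟨1 / 2 * B ^ (a + b) * ((2 * a) ^ b * (C ^ 2) ^ a * mc20_Kn a B +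
    (2 * b) ^ a * (C ^ 2) ^ b * mc20_Kn b B) +
    a.factorial * ((2 * B ^ 2 * C ^ 2) ^ a * mc20_Kn a B), ?_⟩
  intro V M σ κ c hK hC hM hB hc hinv
  have hM0 : (0 : ℝ) < M := by exact_mod_cast hM
  have hB0 : 0 ≤ B := le_trans (mul_nonneg hK.nonneg (sq_nonneg _)) hB
  have hBM : 0 ≤ B / M := div_nonneg hB0 hM0.le
  have hE0 : 0 ≤ κ * (M : ℝ) ^ 2 + 1 / M := by
    have := hK.nonneg
    positivity
  have hκV0 : 0 ≤ κ * V := le_trans zero_le_one hK.one
  have hC0 : 0 ≤ C := le_trans hκV0 hC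
  have hsq : (κ * V) ^ 2 ≤ C ^ 2 := pow_le_pow_left₀ hκV0 hC 2
  set E := κ * (M : ℝ) ^ 2 + 1 / M with hE
  -- splitting
  let w : ∀ {m : ℕ}, (Fin m → CW (Fin V) M) → ℝ := fun P => ∏ i, ampV σ (P i).2 ^ 2
  let G1 : ℂ := ∑ P : Fin a → CW (Fin V) M, if Gen (edP P) then
    ∑ P' : Fin b → CW (Fin V) M,
      (if edP P = edP P' then (∏ i, c (P i)) * ∏ j, (starRingEnd ℂ) (c (P' j)) else 0) else 0
  let N1 : ℂ := ∑ P : Fin a → CW (Fin V) M, ∑ P' : Fin b → CW (Fin V) M,
    if edP P = edP P' ∧ ¬ Gen (edP P) then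
      (∏ i, c (P i)) * ∏ j, (starRingEnd ℂ) (c (P' j)) else 0
  have hsplit : SS c a b = G1 + N1 := by
    simp only [SS, G1, N1]
    rw [← Finset.sum_add_distrib]
    refine Finset.sum_congr rfl fun P _ => ?_
    by_cases h : Gen (edP P)
    · simp [h]
    · simp [h]
  -- the generic part
  have hG1 : G1 = if a = b then (a.factorial : ℂ) * ((∑ P : Fin a → CW (Fin V) M,
      if Gen (edP P) then ∏ i, (2 * (((P i).1 : ℕ) + 1 : ℕ) * ‖c (P i)‖ ^ 2) else 0 : ℝ) : ℂ)
      else 0 := by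
    have key : ∀ P : Fin a → CW (Fin V) M, Gen (edP P) →
        ∑ P' : Fin b → CW (Fin V) M,
          (if edP P = edP P' then (∏ i, c (P i)) * ∏ j, (starRingEnd ℂ) (c (P' j)) else 0) =
        if a = b then (a.factorial : ℂ) *
          ((∏ i, (2 * (((P i).1 : ℕ) + 1 : ℕ) * ‖c (P i)‖ ^ 2) : ℝ) : ℂ) else 0 := by
      intro P hP
      by_cases hz : ∃ i, c (P i) = 0
      · obtain ⟨i, hi⟩ := hz
        have h0 : ∏ i, c (P i) = 0 := Finset.prod_eq_zero (mem_univ i) hi
        have h1 : (∏ i, (2 * (((P i).1 : ℕ) + 1 : ℕ) * ‖c (P i)‖ ^ 2) : ℝ) = 0 :=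
          Finset.prod_eq_zero (mem_univ i) (by simp [hi])
        rw [h0, h1]
        simp
      · push Not at hz
        have hLF : ∀ i, LF (P i).2 := by
          intro i
          apply mc20_LF hK
          intro h
          have := hc (P i)
          rw [h] at this
          simp at this
          exact hz i this
        have hi : ∀ i y, edF y.2 = edF (P i).2 →
            (starRingEnd ℂ) (c y) = (starRingEnd ℂ) (c (P i)) := by
          intro i y hy
          rw [hinv (P i) y (hLF i) ?_ hy]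
          have hle : edF (P i).2 ≤ edP P := by
            unfold edP
            exact Finset.single_le_sum (f := fun i => edF (P i).2)
              (fun _ _ => Multiset.zero_le _) (mem_univ i)
          refine ⟨Multiset.nodup_of_le hle hP.1, fun w => ?_⟩
          exact le_trans (Multiset.countP_le_of_le _ hle) (hP.2 w)
        have := gen_sum (b := b) (fun y => (starRingEnd ℂ) (c y)) hLF hP hi
        have e1 : ∑ P' : Fin b → CW (Fin V) M,
          (if edP P = edP P' then (∏ i, c (P i)) * ∏ j, (starRingEnd ℂ) (c (P' j)) else 0) =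
          (∏ i, c (P i)) * ∑ P' : Fin b → CW (Fin V) M,
            (if edP P = edP P' then ∏ j, (starRingEnd ℂ) (c (P' j)) else 0) := by
          rw [Finset.mul_sum]
          refine Finset.sum_congr rfl fun P' _ => ?_
          split_ifs <;> simp
        rw [e1, this]
        by_cases hab : a = b
        · rw [if_pos hab, if_pos hab, mul_left_comm, ← Finset.prod_mul_distrib]
          congr 1
          push_cast
          refine Finset.prod_congr rfl fun i _ => ?_
          have : c (P i) * (starRingEnd ℂ) (c (P i)) = (‖c (P i)‖ : ℂ) ^ 2 := Complex.mul_conj' _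
          rw [← this]
          ring
        · rw [if_neg hab, if_neg hab, mul_zero]
    simp only [G1]
    by_cases hab : a = b
    · rw [if_pos hab]
      push_cast
      rw [Finset.mul_sum]
      refine Finset.sum_congr rfl fun P _ => ?_
      by_cases hP : Gen (edP P)
      · rw [if_pos hP, key P hP, if_pos hab, if_pos hP]
        push_cast
        rfl
      · simp [hP]
    · rw [if_neg hab]
      refine Finset.sum_eq_zero fun P _ => ?_
      by_cases hP : Gen (edP P)
      · rw [if_pos hP, key P hP, if_neg hab]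
      · rw [if_neg hP]
  have hD : (D2 c) ^ a = ∑ P : Fin a → CW (Fin V) M,
      ∏ i, (2 * (((P i).1 : ℕ) + 1 : ℕ) * ‖c (P i)‖ ^ 2) := by
    unfold D2
    exact Fintype.sum_pow _ _
  have hns : ∀ m : ℕ, ∑ P : Fin m → CW (Fin V) M, (if Gen (edP P) then 0 else w P) ≤
      (M * C ^ 2) ^ m * mc20_Kn m B * E := by
    intro m
    have h1 := non_sum hK m hM hB
    calc ∑ P : Fin m → CW (Fin V) M, (if Gen (edP P) then 0 else w P) ≤
        ∑ P : Fin m → CW (Fin V) M, (if Gen (edP P) then 0 else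
          (∏ i, ampV σ (P i).2 ^ 2) * (om (viP P) : ℝ)) := by
          refine Finset.sum_le_sum fun P _ => ?_
          split_ifs
          · exact le_rfl
          · have h2 : (1 : ℝ) ≤ om (viP P) := by exact_mod_cast one_le_om _
            have h3 : 0 ≤ ∏ i, ampV σ (P i).2 ^ 2 := Finset.prod_nonneg fun _ _ => sq_nonneg _
            exact le_mul_of_one_le_right h3 h2
      _ ≤ _ := h1
      _ ≤ _ := by
          refine mul_le_mul_of_nonneg_right ?_ hE0
          refine mul_le_mul_of_nonneg_right ?_ (mc20_Kn_nonneg m B)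
          exact pow_le_pow_left₀ (by positivity) (mul_le_mul_of_nonneg_left hsq hM0.le) m
  have hBs : ∀ m k : ℕ, ∑ P : Fin m → CW (Fin V) M, ∑ P' : Fin k → CW (Fin V) M,
      (if edP P = edP P' ∧ ¬ Gen (edP P) then w P else 0) ≤
      (2 * m * M) ^ k * ((M * C ^ 2) ^ m * mc20_Kn m B * E) := by
    intro m k
    refine le_trans (B_le hK m k hM hB) ?_
    refine mul_le_mul_of_nonneg_left ?_ (by positivity)
    refine mul_le_mul_of_nonneg_right ?_ hE0
    refine mul_le_mul_of_nonneg_right ?_ (mc20_Kn_nonneg m B)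
    exact pow_le_pow_left₀ (by positivity) (mul_le_mul_of_nonneg_left hsq hM0.le) m
  have hcprod : ∀ {m : ℕ} (P : Fin m → CW (Fin V) M),
      ∏ i, ‖c (P i)‖ ≤ (B / M) ^ m * ∏ i, |ampV σ (P i).2| := by
    intro m P
    calc ∏ i, ‖c (P i)‖ ≤ ∏ i, (B / M * |ampV σ (P i).2|) :=
          Finset.prod_le_prod (fun _ _ => norm_nonneg _) fun i _ => hc _
      _ = _ := by rw [Finset.prod_mul_distrib, Finset.prod_const, Finset.card_univ, Fintype.card_fin]
  -- the non generic part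
  have hN1 : ‖N1‖ ≤ (B / M) ^ (a + b) * (1 / 2 *
      ((2 * a * M) ^ b * ((M * C ^ 2) ^ a * mc20_Kn a B * E) +
        (2 * b * M) ^ a * ((M * C ^ 2) ^ b * mc20_Kn b B * E))) := by
    have h1 : ‖N1‖ ≤ ∑ P : Fin a → CW (Fin V) M, ∑ P' : Fin b → CW (Fin V) M,
        (B / M) ^ (a + b) * (1 / 2 * ((if edP P = edP P' ∧ ¬ Gen (edP P) then w P else 0) +
          (if edP P = edP P' ∧ ¬ Gen (edP P) then w P' else 0))) := by
      refine le_trans (norm_sum_le _ _) (Finset.sum_le_sum fun P _ => ?_)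
      refine le_trans (norm_sum_le _ _) (Finset.sum_le_sum fun P' _ => ?_)
      split_ifs
      · rw [norm_mul, norm_prod, norm_prod]
        simp only [RCLike.norm_conj]
        calc (∏ i, ‖c (P i)‖) * ∏ j, ‖c (P' j)‖ ≤
            ((B / M) ^ a * ∏ i, |ampV σ (P i).2|) * ((B / M) ^ b * ∏ i, |ampV σ (P' i).2|) :=
              mul_le_mul (hcprod P) (hcprod P') (Finset.prod_nonneg fun _ _ => norm_nonneg _)
                (mul_nonneg (pow_nonneg hBM _) (Finset.prod_nonneg fun _ _ => abs_nonneg _))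
          _ = (B / M) ^ (a + b) * ((∏ i, |ampV σ (P i).2|) * ∏ i, |ampV σ (P' i).2|) := by
              rw [pow_add]; ring
          _ ≤ (B / M) ^ (a + b) * (w P / 2 + w P' / 2) :=
              mul_le_mul_of_nonneg_left (mc20_amgm _ _) (pow_nonneg hBM _)
          _ = _ := by ring
      · simp
    refine le_trans h1 ?_
    simp only [← Finset.mul_sum, Finset.sum_add_distrib]
    refine mul_le_mul_of_nonneg_left ?_ (pow_nonneg hBM _)
    refine mul_le_mul_of_nonneg_left ?_ (by norm_num)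
    refine add_le_add (hBs a b) ?_
    rw [Finset.sum_comm]
    refine le_trans (le_of_eq ?_) (hBs b a)
    refine Finset.sum_congr rfl fun P _ => Finset.sum_congr rfl fun P' _ => ?_
    by_cases h : edP P' = edP P
    · rw [h]
    · rw [if_neg (fun hh => h hh.1), if_neg (fun hh => h hh.1.symm)]
  -- the difference with the full diagonal sum
  have hdiff : a = b → ‖(a.factorial : ℂ) * ((∑ P : Fin a → CW (Fin V) M,
      if Gen (edP P) then ∏ i, (2 * (((P i).1 : ℕ) + 1 : ℕ) * ‖c (P i)‖ ^ 2) else 0 : ℝ) : ℂ) -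
      (a.factorial : ℂ) * (D2 c : ℂ) ^ a‖ ≤
      a.factorial * ((2 * B ^ 2 / M) ^ a * ((M * C ^ 2) ^ a * mc20_Kn a B * E)) := by
    intro _
    rw [← Complex.ofReal_pow, hD, ← mul_sub, norm_mul, ← Complex.ofReal_sub, Complex.norm_natCast,
      Complex.norm_real, Real.norm_eq_abs, ← Finset.sum_sub_distrib]
    refine mul_le_mul_of_nonneg_left ?_ (Nat.cast_nonneg _)
    have h1 : ∀ P : Fin a → CW (Fin V) M,
        |((if Gen (edP P) then ∏ i, (2 * (((P i).1 : ℕ) + 1 : ℕ) * ‖c (P i)‖ ^ 2) else 0 : ℝ) -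
          ∏ i, (2 * (((P i).1 : ℕ) + 1 : ℕ) * ‖c (P i)‖ ^ 2))| ≤
        (2 * B ^ 2 / M) ^ a * (if Gen (edP P) then 0 else w P) := by
      intro P
      split_ifs
      · simp
      · rw [zero_sub, abs_neg, abs_of_nonneg (Finset.prod_nonneg fun _ _ => by positivity)]
        calc ∏ i, (2 * (((P i).1 : ℕ) + 1 : ℕ) * ‖c (P i)‖ ^ 2 : ℝ) ≤
            ∏ i, (2 * B ^ 2 / M * ampV σ (P i).2 ^ 2) := by
              refine Finset.prod_le_prod (fun _ _ => by positivity) fun i _ => ?_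
              have h3 : ((((P i).1 : ℕ) + 1 : ℕ) : ℝ) ≤ M := by
                exact_mod_cast (P i).1.2
              have h4 : ‖c (P i)‖ ^ 2 ≤ (B / M * |ampV σ (P i).2|) ^ 2 :=
                pow_le_pow_left₀ (norm_nonneg _) (hc _) 2
              rw [mul_pow, sq_abs] at h4
              calc (2 * ((((P i).1 : ℕ) + 1 : ℕ) : ℝ) * ‖c (P i)‖ ^ 2 : ℝ) ≤
                  2 * M * ((B / M) ^ 2 * ampV σ (P i).2 ^ 2) :=
                    mul_le_mul (by linarith) h4 (sq_nonneg _) (by positivity)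
                _ = _ := by field_simp
          _ = _ := by
              rw [Finset.prod_mul_distrib, Finset.prod_const, Finset.card_univ, Fintype.card_fin]
    calc |∑ P : Fin a → CW (Fin V) M,
        ((if Gen (edP P) then ∏ i, (2 * (((P i).1 : ℕ) + 1 : ℕ) * ‖c (P i)‖ ^ 2) else 0 : ℝ) -
          ∏ i, (2 * (((P i).1 : ℕ) + 1 : ℕ) * ‖c (P i)‖ ^ 2))| ≤
        ∑ P : Fin a → CW (Fin V) M, (2 * B ^ 2 / M) ^ a * (if Gen (edP P) then 0 else w P) :=
          le_trans (Finset.abs_sum_le_sum_abs _ _) (Finset.sum_le_sum fun P _ => h1 P)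
      _ ≤ _ := by
          rw [← Finset.mul_sum]
          exact mul_le_mul_of_nonneg_left (hns a) (by positivity)
  have hfin1 : (B / M) ^ (a + b) * (1 / 2 *
      ((2 * a * M) ^ b * ((M * C ^ 2) ^ a * mc20_Kn a B * E) +
        (2 * b * M) ^ a * ((M * C ^ 2) ^ b * mc20_Kn b B * E))) =
      1 / 2 * B ^ (a + b) * ((2 * a) ^ b * (C ^ 2) ^ a * mc20_Kn a B +
        (2 * b) ^ a * (C ^ 2) ^ b * mc20_Kn b B) * E := by
    simp only [div_pow, mul_pow, pow_add]
    field_simp
  have hfin2 : a.factorial * ((2 * B ^ 2 / M) ^ a * ((M * C ^ 2) ^ a * mc20_Kn a B * E)) =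
      a.factorial * ((2 * B ^ 2 * C ^ 2) ^ a * mc20_Kn a B) * E := by
    simp only [div_pow, mul_pow]
    field_simp
  rw [hsplit, hG1]
  rw [add_mul]
  by_cases hab : a = b
  · rw [if_pos hab, if_pos hab]
    have e : (a.factorial : ℂ) * ((∑ P : Fin a → CW (Fin V) M,
      if Gen (edP P) then ∏ i, (2 * (((P i).1 : ℕ) + 1 : ℕ) * ‖c (P i)‖ ^ 2) else 0 : ℝ) : ℂ) +
      N1 - (a.factorial : ℂ) * (D2 c : ℂ) ^ a = N1 + ((a.factorial : ℂ) *
      ((∑ P : Fin a → CW (Fin V) M,
      if Gen (edP P) then ∏ i, (2 * (((P i).1 : ℕ) + 1 : ℕ) * ‖c (P i)‖ ^ 2) else 0 : ℝ) : ℂ) -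
      (a.factorial : ℂ) * (D2 c : ℂ) ^ a) := by ring
    rw [e]
    refine le_trans (norm_add_le _ _) (add_le_add ?_ ?_)
    · rw [← hfin1]; exact hN1
    · rw [← hfin2]; exact hdiff hab
  · rw [if_neg hab, if_neg hab, zero_add, sub_zero]
    have h0 : 0 ≤ a.factorial * ((2 * B ^ 2 * C ^ 2) ^ a * mc20_Kn a B) * E := by
      have := mc20_Kn_nonneg a B
      positivity
    rw [← hfin1]
    linarith [hN1]

end Mes
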