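import Pool.Agent.LibMes.CDefs

open Finset

namespace Mes

private theorem mc21_sum_cons {β : Type} [Fintype β] {n : ℕ} (f : (Fin (n + 1) → β) → ℂ) :
    ∑ p : Fin (n + 1) → β, f p = ∑ q : β, ∑ p : Fin n → β, f (Fin.cons q p) := by
  rw [← Fintype.sum_prod_type']
  exact (Fintype.sum_equiv (Fin.consEquiv (fun _ : Fin (n + 1) => β)) _ _ (fun x => rfl)).symm

private noncomputable def mc21_A {Q γ : Type} [Fintype Q] [AddCommMonoid γ] [DecidableEq γ]
    (c : Q → ℂ) (E : Q → γ) (r : ℕ) (R R' : γ) : ℂ :=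
  ∑ p : Fin r → Q × Bool, if R + ∑ i, (if (p i).2 then E (p i).1 else 0) =
      R' + ∑ i, (if (p i).2 then 0 else E (p i).1) then
    ∏ i, (if (p i).2 then c (p i).1 else (starRingEnd ℂ) (c (p i).1)) else 0

private noncomputable def mc21_B {Q γ : Type} [Fintype Q] [AddCommMonoid γ] [DecidableEq γ]
    (c : Q → ℂ) (E : Q → γ) (R R' : γ) (a b : ℕ) : ℂ :=
  ∑ P : Fin a → Q, ∑ P' : Fin b → Q,
    if R + ∑ i, E (P i) = R' + ∑ i, E (P' i) then
      (∏ i, c (P i)) * ∏ j, (starRingEnd ℂ) (c (P' j)) else 0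

private theorem mc21_A_succ {Q γ : Type} [Fintype Q] [AddCommMonoid γ] [DecidableEq γ]
    (c : Q → ℂ) (E : Q → γ) (r : ℕ) (R R' : γ) : mc21_A c E (r + 1) R R' =
      (∑ q, c q * mc21_A c E r (R + E q) R') +
        ∑ q, (starRingEnd ℂ) (c q) * mc21_A c E r R (R' + E q) := by
  unfold mc21_A
  rw [mc21_sum_cons, Fintype.sum_prod_type, ← Finset.sum_add_distrib]
  refine Finset.sum_congr rfl fun q _ => ?_
  rw [Fintype.sum_bool]
  congr 1
  · rw [Finset.mul_sum]
    refine Finset.sum_congr rfl fun p _ => ?_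
    simp only [Fin.sum_univ_succ, Fin.prod_univ_succ, Fin.cons_zero, Fin.cons_succ, if_true,
      zero_add, ← add_assoc, mul_ite, mul_zero]
  · rw [Finset.mul_sum]
    refine Finset.sum_congr rfl fun p _ => ?_
    simp only [Fin.sum_univ_succ, Fin.prod_univ_succ, Fin.cons_zero, Fin.cons_succ, if_false,
      Bool.false_eq_true, zero_add, ← add_assoc, mul_ite, mul_zero]

private theorem mc21_B_succ_left {Q γ : Type} [Fintype Q] [AddCommMonoid γ] [DecidableEq γ]
    (c : Q → ℂ) (E : Q → γ)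
    (R R' : γ) (a b : ℕ) : mc21_B c E R R' (a + 1) b = ∑ q, c q * mc21_B c E (R + E q) R' a b := by
  unfold mc21_B
  rw [mc21_sum_cons]
  refine Finset.sum_congr rfl fun q _ => ?_
  rw [Finset.mul_sum]
  refine Finset.sum_congr rfl fun P _ => ?_
  rw [Finset.mul_sum]
  refine Finset.sum_congr rfl fun P' _ => ?_
  simp only [Fin.sum_univ_succ, Fin.prod_univ_succ, Fin.cons_zero, Fin.cons_succ, ← add_assoc,
    mul_ite, mul_zero, mul_assoc]

private theorem mc21_B_succ_right {Q γ : Type} [Fintype Q] [AddCommMonoid γ] [DecidableEq γ]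
    (c : Q → ℂ) (E : Q → γ)
    (R R' : γ) (a b : ℕ) : mc21_B c E R R' a (b + 1) =
      ∑ q, (starRingEnd ℂ) (c q) * mc21_B c E R (R' + E q) a b := by
  unfold mc21_B
  have e : ∀ P : Fin a → Q, (∑ P' : Fin (b + 1) → Q,
      if R + ∑ i, E (P i) = R' + ∑ i, E (P' i) then
      (∏ i, c (P i)) * ∏ j, (starRingEnd ℂ) (c (P' j)) else 0) =
      ∑ q, ∑ P' : Fin b → Q, (starRingEnd ℂ) (c q) *
      (if R + ∑ i, E (P i) = R' + E q + ∑ i, E (P' i) then
      (∏ i, c (P i)) * ∏ j, (starRingEnd ℂ) (c (P' j)) else 0) := by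
    intro P
    rw [mc21_sum_cons]
    refine Finset.sum_congr rfl fun q _ => ?_
    refine Finset.sum_congr rfl fun P' _ => ?_
    simp only [Fin.sum_univ_succ, Fin.prod_univ_succ, Fin.cons_zero, Fin.cons_succ, ← add_assoc,
      mul_ite, mul_zero]
    by_cases h : R + ∑ i, E (P i) = R' + E q + ∑ i, E (P' i)
    · rw [if_pos h, if_pos h]; ring
    · rw [if_neg h, if_neg h]
  rw [Finset.sum_congr rfl fun P _ => e P, Finset.sum_comm]
  refine Finset.sum_congr rfl fun q _ => ?_
  rw [Finset.mul_sum]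
  refine Finset.sum_congr rfl fun P _ => ?_
  rw [Finset.mul_sum]

private theorem mc21_A_eq {Q γ : Type} [Fintype Q] [AddCommMonoid γ] [DecidableEq γ]
    (c : Q → ℂ) (E : Q → γ) (r : ℕ) : ∀ R R' : γ, mc21_A c E r R R' =
      ∑ x ∈ Finset.HasAntidiagonal.antidiagonal r,
        (r.choose x.1 : ℂ) * mc21_B c E R R' x.1 x.2 := by
  induction r with
  | zero =>
    intro R R'
    simp [mc21_A, mc21_B]
  | succ r ih =>
    intro R R'
    rw [mc21_A_succ, Finset.sum_antidiagonal_choose_succ_mul]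
    simp only [ih, mc21_B_succ_left, mc21_B_succ_right, Finset.mul_sum]
    rw [add_comm]
    congr 1
    · rw [Finset.sum_comm]
      refine Finset.sum_congr rfl fun x _ => Finset.sum_congr rfl fun q _ => ?_
      ring
    · rw [Finset.sum_comm]
      refine Finset.sum_congr rfl fun x hx => Finset.sum_congr rfl fun q _ => ?_
      have h1 : r.choose x.2 = r.choose x.1 := by
        have h2 := Finset.HasAntidiagonal.mem_antidiagonal.mp hx
        exact (Nat.choose_symm_of_eq_add (by omega)).symm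
      rw [h1]
      ring

/-- C21. -/
theorem mom_SS {V M : ℕ} (c : CW (Fin V) M → ℂ) (ω : CW (Fin V) M → ℝ) (r : ℕ)
    (h : ∀ p : Fin r → CW (Fin V) M × Bool, (∀ i, c (p i).1 ≠ 0) →
      (∑ i, (if (p i).2 then ω (p i).1 else -ω (p i).1) = 0 ↔
        ∑ i, (if (p i).2 then edF (p i).1.2 else 0) =
          ∑ i, (if (p i).2 then 0 else edF (p i).1.2))) :
    mom c ω r = ∑ a ∈ range (r + 1), (r.choose a : ℂ) * SS c a (r - a) := by
  have h1 : mom c ω r = mc21_A c (fun y : CW (Fin V) M => edF y.2) r 0 0 := by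
    unfold mom mc21_A
    refine Finset.sum_congr rfl fun p _ => ?_
    by_cases hp : ∀ i, c (p i).1 ≠ 0
    · have h2 := h p hp
      by_cases h3 : ∑ i, (if (p i).2 then ω (p i).1 else -ω (p i).1) = 0
      · rw [if_pos h3, if_pos (by rw [zero_add, zero_add]; exact h2.mp h3)]
      · rw [if_neg h3, if_neg (by rw [zero_add, zero_add]; exact fun h4 => h3 (h2.mpr h4))]
    · push Not at hp
      obtain ⟨i, hi⟩ := hp
      have h2 : ∏ i, (if (p i).2 then c (p i).1 else (starRingEnd ℂ) (c (p i).1)) = 0 := by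
        refine Finset.prod_eq_zero (Finset.mem_univ i) ?_
        rw [hi, map_zero, ite_self]
      rw [h2, ite_self, ite_self]
  rw [h1, mc21_A_eq, Finset.Nat.sum_antidiagonal_eq_sum_range_succ_mk]
  refine Finset.sum_congr rfl fun a _ => ?_
  congr 1
  unfold mc21_B SS edP
  refine Finset.sum_congr rfl fun P _ => Finset.sum_congr rfl fun P' _ => ?_
  by_cases h3 : ∑ i, edF (P i).2 = ∑ i, edF (P' i).2
  · rw [if_pos h3, if_pos (by rw [zero_add, zero_add]; exact h3)]
  · rw [if_neg h3, if_neg (by rw [zero_add, zero_add]; exact h3)]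

end Mes
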