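import Pool.Agent.LibMes.MC9

open Finset

namespace Mes

private lemma mc22_wl {V : ℕ} {l : Fin V → Fin V → ℝ} (hl : ∀ v w, l v w = l w v) {n : ℕ}
    (y : Fin (n + 1) → Fin V) :
    wlV l y = ((edF y).map (Sym2.lift ⟨l, hl⟩)).sum := by
  unfold wlV edF
  rw [Multiset.map_map]
  rfl

private noncomputable def mc22_hom {V : ℕ} (L : Sym2 (Fin V) → ℝ) : Multiset (Sym2 (Fin V)) →+ ℝ :=
  (Multiset.sumAddMonoidHom).comp (Multiset.mapAddMonoidHom L)

private lemma mc22_hom_apply {V : ℕ} (L : Sym2 (Fin V) → ℝ) (R : Multiset (Sym2 (Fin V))) :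
    mc22_hom L R = (R.map L).sum := rfl

private lemma mc22_count {V : ℕ} (L : Sym2 (Fin V) → ℝ) (R : Multiset (Sym2 (Fin V))) :
    mc22_hom L R = ∑ e : Sym2 (Fin V), (R.count e : ℝ) * L e := by
  rw [mc22_hom_apply, Finset.sum_multiset_map_count]
  rw [← Finset.sum_subset (Finset.subset_univ R.toFinset)]
  · exact Finset.sum_congr rfl fun e _ => by rw [nsmul_eq_mul]
  · intro e _ he
    rw [Multiset.mem_toFinset, ← Multiset.count_eq_zero] at he
    rw [he]
    simp

/-- C22: rational independence. -/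
theorem indep_iff {V : ℕ} {G : SimpleGraph (Fin V)} {l : Fin V → Fin V → ℝ}
    (hl : ∀ v w, l v w = l w v) (hi : Indep G l) {r M : ℕ} (p : Fin r → CW (Fin V) M × Bool)
    (hp : ∀ i j, G.Adj ((p i).1.2 j) ((p i).1.2 (j + 1))) :
    ∑ i, (if (p i).2 then wlV l (p i).1.2 else -wlV l (p i).1.2) = 0 ↔
      ∑ i, (if (p i).2 then edF (p i).1.2 else 0) =
        ∑ i, (if (p i).2 then 0 else edF (p i).1.2) := by
  classical
  set L : Sym2 (Fin V) → ℝ := Sym2.lift ⟨l, hl⟩ with hL
  set Rp : Multiset (Sym2 (Fin V)) := ∑ i, (if (p i).2 then edF (p i).1.2 else 0) with hRp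
  set Rm : Multiset (Sym2 (Fin V)) := ∑ i, (if (p i).2 then 0 else edF (p i).1.2) with hRm
  have hsum : ∑ i, (if (p i).2 then wlV l (p i).1.2 else -wlV l (p i).1.2) =
      mc22_hom L Rp - mc22_hom L Rm := by
    rw [hRp, hRm, map_sum, map_sum, ← Finset.sum_sub_distrib]
    refine Finset.sum_congr rfl fun i _ => ?_
    by_cases hb : (p i).2 = true
    · rw [if_pos hb, if_pos hb, if_pos hb, map_zero, sub_zero, mc22_hom_apply, mc22_wl hl]
    · rw [if_neg hb, if_neg hb, if_neg hb, map_zero, zero_sub, mc22_hom_apply, mc22_wl hl]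
  rw [hsum]
  constructor
  swap
  · intro h
    rw [h, sub_self]
  intro h
  -- the edges
  have hadj : ∀ e, (e ∈ Rp ∨ e ∈ Rm) → ∃ a b, G.Adj a b ∧ e = s(a, b) := by
    intro e he
    have h1 : ∃ i, e ∈ edF (p i).1.2 := by
      rcases he with he | he
      · rw [hRp, Multiset.mem_sum] at he
        obtain ⟨i, _, hi'⟩ := he
        refine ⟨i, ?_⟩
        split_ifs at hi' with hb
        · exact hi'
        · simp at hi'
      · rw [hRm, Multiset.mem_sum] at he
        obtain ⟨i, _, hi'⟩ := he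
        refine ⟨i, ?_⟩
        split_ifs at hi' with hb
        · simp at hi'
        · exact hi'
    obtain ⟨i, hi'⟩ := h1
    unfold edF at hi'
    rw [Multiset.mem_map] at hi'
    obtain ⟨j, _, hj⟩ := hi'
    exact ⟨_, _, hp i j, hj.symm⟩
  let Q := {q : Fin V × Fin V // q.1 < q.2 ∧ G.Adj q.1 q.2}
  let _ : Fintype Q := Fintype.ofFinite _
  let φ : Q → Sym2 (Fin V) := fun q => s(q.1.1, q.1.2)
  have hφ : Function.Injective φ := by
    intro q q' hq
    have hq' : s(q.1.1, q.1.2) = s(q'.1.1, q'.1.2) := hq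
    rw [Sym2.eq_iff] at hq'
    rcases hq' with ⟨h1, h2⟩ | ⟨h1, h2⟩
    · exact Subtype.ext (Prod.ext h1 h2)
    · exfalso
      have h3 := q.2.1
      have h4 := q'.2.1
      rw [h1, h2] at h3
      exact lt_asymm h3 h4
  have hrange : ∀ e, e ∉ Set.range φ → Rp.count e = 0 ∧ Rm.count e = 0 := by
    intro e he
    have key : ¬ (e ∈ Rp ∨ e ∈ Rm) := by
      intro hcon
      obtain ⟨a, b, hab, rfl⟩ := hadj e hcon
      apply he
      rcases lt_or_gt_of_ne (G.ne_of_adj hab) with hlt | hlt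
      · exact ⟨⟨(a, b), hlt, hab⟩, rfl⟩
      · exact ⟨⟨(b, a), hlt, hab.symm⟩, Sym2.eq_swap⟩
    push Not at key
    exact ⟨Multiset.count_eq_zero.2 key.1, Multiset.count_eq_zero.2 key.2⟩
  -- the coefficients
  let c : Sym2 (Fin V) → ℚ := fun e => (Rp.count e : ℚ) - (Rm.count e : ℚ)
  have h2 : ∑ q : Q, c (φ q) • l q.1.1 q.1.2 = 0 := by
    have h3 : ∑ q : Q, c (φ q) • l q.1.1 q.1.2 = ∑ e : Sym2 (Fin V), (c e : ℝ) * L e := by
      refine Fintype.sum_of_injective φ hφ _ _ ?_ ?_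
      · intro e he
        obtain ⟨h4, h5⟩ := hrange e he
        simp only [c, h4, h5]
        simp
      · intro q
        rw [Rat.smul_def]
        rfl
    rw [h3]
    rw [mc22_count, mc22_count, ← Finset.sum_sub_distrib] at h
    rw [← h]
    refine Finset.sum_congr rfl fun e _ => ?_
    simp only [c]
    push_cast
    ring
  have h3 := Fintype.linearIndependent_iff.1 hi (fun q => c (φ q)) h2
  refine Multiset.ext.2 fun e => ?_
  by_cases he : e ∈ Set.range φ
  · obtain ⟨q, rfl⟩ := he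
    have h4 := h3 q
    simp only [c] at h4
    have h5 : (Rp.count (φ q) : ℚ) = (Rm.count (φ q) : ℚ) := by linarith
    exact_mod_cast h5
  · obtain ⟨h4, h5⟩ := hrange e he
    rw [h4, h5]

end Mes
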