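import Pool.Agent.LibMes.MC14
import Pool.Agent.LibMes.MC20
import Pool.Agent.LibMes.MC21
import Pool.Agent.LibMes.MC22

open Finset

namespace Mes

private theorem mc23_fact (s : ℕ) :
    (2 * s).choose s * s.factorial = 2 ^ s * (2 * s - 1).doubleFactorial := by
  rcases Nat.eq_zero_or_pos s with rfl | hs
  · simp
  · have h1 : (2 * s).choose s * s.factorial * s.factorial = (2 * s).factorial := by
      have := Nat.choose_mul_factorial_mul_factorial (n := 2 * s) (k := s) (by omega)
      rwa [show 2 * s - s = s by omega] at this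
    have h2 : (2 * s).factorial = (2 * s).doubleFactorial * (2 * s - 1).doubleFactorial := by
      obtain ⟨t, ht⟩ : ∃ t, 2 * s = t + 1 := ⟨2 * s - 1, by omega⟩
      rw [ht]
      exact Nat.factorial_eq_mul_doubleFactorial t
    rw [Nat.doubleFactorial_two_mul] at h2
    have h3 : 0 < s.factorial := Nat.factorial_pos s
    apply Nat.eq_of_mul_eq_mul_right h3
    rw [h1, h2]
    ring

private theorem mc23_main (r : ℕ) (D : ℂ) :
    ∑ a ∈ range (r + 1), (r.choose a : ℂ) *
      (if a = r - a then (a.factorial : ℂ) * D ^ a else 0) = gm r * (2 * D) ^ (r / 2) := by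
  by_cases hr : Even r
  · obtain ⟨s, hs⟩ := hr
    have hs' : r = 2 * s := by omega
    subst hs'
    rw [Finset.sum_eq_single s]
    · have h0 : gm (2 * s) = (2 * s - 1).doubleFactorial := by
        unfold gm
        rw [if_pos (by simp)]
      rw [if_pos (by omega), h0, show 2 * s / 2 = s by omega, mul_pow, ← mul_assoc,
        ← mul_assoc]
      congr 1
      have := mc23_fact s
      have h2 : (((2 * s).choose s * s.factorial : ℕ) : ℂ) =
        ((2 ^ s * (2 * s - 1).doubleFactorial : ℕ) : ℂ) := by rw [this]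
      push_cast at h2
      rw [h2]
      ring
    · intro a ha hne
      rw [if_neg (by have := Finset.mem_range.1 ha; omega), mul_zero]
    · intro h
      exact absurd (Finset.mem_range.2 (by omega)) h
  · have h0 : gm r = 0 := by
      unfold gm
      rw [if_neg hr]
    rw [h0]
    rw [Finset.sum_eq_zero]
    · simp
    · intro a ha
      rw [if_neg, mul_zero]
      intro h
      apply hr
      exact ⟨a, by have := Finset.mem_range.1 ha; omega⟩

private theorem mc23_ker {V : ℕ} {G : SimpleGraph (Fin V)}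
    {σ : Fin V → Fin V → Fin V → ℝ} {C : ℝ} (hσ : IsScat G σ)
    (hC : ∀ v u w, σ v u w ^ 2 ≤ C / V) (h1 : 1 ≤ C) (hV : 0 < V) : Ker σ (C / V) where
  nonneg := by positivity
  bd := hC
  row := by
    intro v u
    have h2 : ∀ w, σ v w u ^ 2 = σ v u w * σ v u w := by
      intro w
      rw [hσ.symm v w u]
      ring
    rw [Finset.sum_congr rfl fun w _ => h2 w]
    by_cases hA : G.Adj v u
    · rw [hσ.orth v u u hA hA, if_pos rfl]
    · rw [Finset.sum_eq_zero]
      · exact zero_le_one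
      · intro w _
        rw [hσ.supp v u w hA, mul_zero]
  loop := by
    intro v u
    rw [hσ.symm v u v]
    exact hσ.supp v v u (SimpleGraph.irrefl G)
  one := by
    have : (V : ℝ) ≠ 0 := by exact_mod_cast hV.ne'
    rw [div_mul_cancel₀ C this]
    exact h1

private theorem mc23_adj {V : ℕ} {G : SimpleGraph (Fin V)}
    {σ : Fin V → Fin V → Fin V → ℝ} (hσ : IsScat G σ) {n : ℕ} (y : Fin (n + 1) → Fin V)
    (h : ampV σ y ≠ 0) (j : Fin (n + 1)) : G.Adj (y j) (y (j + 1)) := by
  by_contra hA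
  apply h
  unfold ampV
  apply Finset.prod_eq_zero (Finset.mem_univ (j - 1))
  apply hσ.supp
  have h2 : (2 : Fin (n + 1)) = 1 + 1 := by
    apply Fin.ext
    rw [Fin.val_add]
    change 2 % (n + 1) = (1 % (n + 1) + 1 % (n + 1)) % (n + 1)
    rw [← Nat.add_mod]
  rw [h2, ← add_assoc, sub_add_cancel]
  exact hA

/-- C23: the result of the combinatorial side. -/
theorem comb (r : ℕ) (C B : ℝ) : ∃ K, ∀ {V : ℕ} {G : SimpleGraph (Fin V)}
    {σ : Fin V → Fin V → Fin V → ℝ} {l : Fin V → Fin V → ℝ} (h : ℝ → ℂ) (Λ : ℝ) {M : ℕ},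
    IsScat G σ → (∀ v u w, σ v u w ^ 2 ≤ C / V) → (∀ v w, l v w = l w v) → Indep G l →
    1 ≤ C → 1 ≤ M → (M : ℝ) ^ 2 ≤ B * V →
    (∀ y : CW (Fin V) M, ‖cf σ l h Λ y‖ ≤ B / M * |ampV σ y.2|) →
    ‖mom (cf σ l h Λ (M := M)) (fun y => wlV l y.2) r -
      gm r * ((2 * D2 (cf σ l h Λ (M := M)) : ℝ) : ℂ) ^ (r / 2)‖ ≤
        K * ((M : ℝ) ^ 2 / V + 1 / M) := by
  choose K hK using fun a : ℕ => SS_bd a (r - a) C (max B (C * B))
  refine ⟨∑ a ∈ range (r + 1), (r.choose a : ℝ) * (|K a| * C), ?_⟩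
  intro V G σ l h Λ M hσ hC hl hi h1 hM hB hc
  have hM0 : (0 : ℝ) < M := by exact_mod_cast hM
  have hV : 0 < V := by
    rcases Nat.eq_zero_or_pos V with rfl | hV
    · exfalso
      have : (0 : ℝ) < (M : ℝ) ^ 2 := by positivity
      simp at hB
      nlinarith
    · exact hV
  have hV0 : (0 : ℝ) < V := by exact_mod_cast hV
  have hker := mc23_ker hσ hC h1 hV
  set c : CW (Fin V) M → ℂ := cf σ l h Λ (M := M) with hcdef
  have hmom : mom c (fun y => wlV l y.2) r =
      ∑ a ∈ range (r + 1), (r.choose a : ℂ) * SS c a (r - a) := by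
    apply mom_SS
    intro p hp
    apply indep_iff hl hi p
    intro i j
    apply mc23_adj hσ
    intro h0
    apply hp i
    rw [hcdef]
    unfold cf
    rw [h0]
    simp
  have hkM : C / V * (M : ℝ) ^ 2 ≤ max B (C * B) := by
    refine le_trans ?_ (le_max_right _ _)
    rw [div_mul_eq_mul_div, div_le_iff₀ hV0]
    have := mul_le_mul_of_nonneg_left hB (by linarith : (0 : ℝ) ≤ C)
    linarith
  have hbd : ∀ a, ‖SS c a (r - a) -
      if a = r - a then (a.factorial : ℂ) * (D2 c : ℂ) ^ a else 0‖ ≤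
      |K a| * C * ((M : ℝ) ^ 2 / V + 1 / M) := by
    intro a
    have h2 := hK a c hker (by rw [div_mul_cancel₀ C hV0.ne']) hM hkM (by
      intro y
      refine (hc y).trans ?_
      gcongr
      exact le_max_left _ _)
      (fun x y hx hR he => cf_inv hσ.symm hl h Λ hx hR he)
    refine h2.trans ?_
    have h3 : (0 : ℝ) ≤ (M : ℝ) ^ 2 / V := by positivity
    have h4 : (0 : ℝ) ≤ 1 / (M : ℝ) := by positivity
    have h5 : C / V * (M : ℝ) ^ 2 + 1 / M ≤ C * ((M : ℝ) ^ 2 / V + 1 / M) := by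
      have : C / V * (M : ℝ) ^ 2 = C * ((M : ℝ) ^ 2 / V) := by ring
      rw [this]
      nlinarith
    have h6 : 0 ≤ C / V * (M : ℝ) ^ 2 + 1 / M := by positivity
    calc K a * (C / V * (M : ℝ) ^ 2 + 1 / M) ≤ |K a| * (C / V * (M : ℝ) ^ 2 + 1 / M) :=
          mul_le_mul_of_nonneg_right (le_abs_self _) h6
      _ ≤ |K a| * (C * ((M : ℝ) ^ 2 / V + 1 / M)) :=
          mul_le_mul_of_nonneg_left h5 (abs_nonneg _)
      _ = |K a| * C * ((M : ℝ) ^ 2 / V + 1 / M) := by ring
  have hgm : (gm r : ℂ) * ((2 * D2 c : ℝ) : ℂ) ^ (r / 2) =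
      ∑ a ∈ range (r + 1), (r.choose a : ℂ) *
        (if a = r - a then (a.factorial : ℂ) * (D2 c : ℂ) ^ a else 0) := by
    rw [mc23_main]
    push_cast
    rfl
  rw [hmom, hgm, ← Finset.sum_sub_distrib]
  refine (norm_sum_le _ _).trans ?_
  rw [Finset.sum_mul]
  apply Finset.sum_le_sum
  intro a _
  rw [← mul_sub, norm_mul, Complex.norm_natCast, mul_assoc]
  exact mul_le_mul_of_nonneg_left (hbd a) (Nat.cast_nonneg _)

end Mes
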