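import Pool.Agent.LibMes.R_BR
import Pool.Agent.LibMes.FLaw

open MeasureTheory ProbabilityTheory Set Filter Topology

namespace Mes

theorem levelsExist : LevelsExist := by
  intro V G σ a b l hσ ha hl hne
  exact levels_exist hσ ha hl hne

theorem reg : Reg := by
  intro f R a b V G σ l κ Λ hR ha hσ hl hne hκ hΛ
  obtain ⟨K, hK⟩ := test_schwartz f
  exact stat_reg hσ ha hl hne hκ hK hR hΛ

end Mes
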