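import Pool.Agent.LibMes.R_MD8
import Pool.Agent.LibMes.DDefs

open MeasureTheory Set Filter Topology

namespace Mes

section chain

variable {ι : Type} [Fintype ι] [DecidableEq ι]

/-- Summation over `Fin (n + 1) → ι` by the last coordinate. -/
theorem md9_snoc (n : ℕ) (F : (Fin (n + 1) → ι) → ℝ) :
    ∑ x : Fin (n + 1) → ι, F x = ∑ y : Fin n → ι, ∑ z : ι, F (Fin.snoc (α := fun _ => ι) y z) := by
  rw [← Equiv.sum_comp (Fin.snocEquiv (fun _ : Fin (n + 1) => ι)), Fintype.sum_prod_type,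
    Finset.sum_comm]
  rfl

theorem md9_pw_snoc (P : Matrix ι ι ℝ) (n : ℕ) (y : Fin (n + 1) → ι) (z : ι) :
    pw P (Fin.snoc (α := fun _ => ι) y z : Fin (n + 1 + 1) → ι) =
      pw P y * P z (y (Fin.last n)) := by
  unfold pw
  rw [Fin.prod_univ_castSucc]
  congr 1
  · refine Finset.prod_congr rfl fun i _ => ?_
    rw [Fin.succ_castSucc]
    simp only [Fin.snoc_castSucc]
  · rw [Fin.succ_last]
    simp only [Fin.snoc_last, Fin.snoc_castSucc]

theorem md9_amp_snoc (P : Matrix ι ι ℝ) (n : ℕ) (y : Fin (n + 1) → ι) (z : ι) :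
    amp P (Fin.snoc (α := fun _ => ι) y z : Fin (n + 1 + 1) → ι) =
      pw P y * (P (y 0) z * P z (y (Fin.last n))) := by
  have h : amp P (Fin.snoc (α := fun _ => ι) y z : Fin (n + 1 + 1) → ι) =
      pw P (Fin.snoc (α := fun _ => ι) y z : Fin (n + 1 + 1) → ι) * P (y 0) z := by
    unfold amp pw
    rw [Fin.prod_univ_castSucc]
    congr 1
    · refine Finset.prod_congr rfl fun i _ => ?_
      rw [Fin.coeSucc_eq_succ]
    · rw [Fin.last_add_one, Fin.snoc_last]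
      congr 1
  rw [h, md9_pw_snoc]
  ring

theorem md9_pw_nonneg {α β : ℝ} {P : Matrix ι ι ℝ} (h : Dst α β P) (n : ℕ)
    (y : Fin (n + 1) → ι) : 0 ≤ pw P y :=
  Finset.prod_nonneg fun _ _ => h.nn _ _

theorem md9_pw_sum {α β : ℝ} {P : Matrix ι ι ℝ} (h : Dst α β P) (n : ℕ) :
    ∑ y : Fin (n + 1) → ι, pw P y = Fintype.card ι := by
  induction n with
  | zero =>
    unfold pw
    simp
  | succ n ih =>
    rw [md9_snoc]
    simp only [md9_pw_snoc, ← Finset.mul_sum, h.col, mul_one]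
    exact ih

end chain

/-- MD9: second moment over closed walks. -/
theorem closed_var (α β D : ℝ) (hα : 0 < α) (hα1 : α < 1) (hD : 0 ≤ D) : ∃ K, 0 ≤ K ∧
    ∀ (ι : Type) [Fintype ι] [DecidableEq ι] (P : Matrix ι ι ℝ) (_ : Dst α β P) (g : ι → ℝ)
      (_ : ∑ i, g i = 0) (_ : ∀ i, |g i| ≤ D) (_ : 0 < Fintype.card ι) (n : ℕ),
      ∑ x : Fin (n + 2) → ι, amp P x * (∑ i, g (x i)) ^ 2 ≤ K * (n + 2) := by
  obtain ⟨K0, hK0, hK⟩ := open_var α β D hα hα1 hD
  refine ⟨2 * |β| * (K0 + D ^ 2), by positivity, ?_⟩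
  intro ι _ _ P h g hg0 hgD hm n
  have hm' : (0 : ℝ) < Fintype.card ι := by exact_mod_cast hm
  have hβ : 0 ≤ β := by
    obtain ⟨q⟩ := Fintype.card_pos_iff.1 hm
    have h1 := h.two q q
    have h2 : 0 ≤ (P ^ 2) q q := by
      rw [pow_two, Matrix.mul_apply]
      exact Finset.sum_nonneg fun _ _ => mul_nonneg (h.nn _ _) (h.nn _ _)
    have h3 : 0 ≤ β / Fintype.card ι := h2.trans h1
    by_contra hb
    push_neg at hb
    have := div_neg_of_neg_of_pos hb hm'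
    linarith
  rw [abs_of_nonneg hβ]
  have key : ∀ y : Fin (n + 1) → ι,
      ∑ z : ι, amp P (Fin.snoc (α := fun _ => ι) y z : Fin (n + 1 + 1) → ι) *
        (∑ i, g ((Fin.snoc (α := fun _ => ι) y z : Fin (n + 1 + 1) → ι) i)) ^ 2 ≤
      pw P y * (2 * (∑ i, g (y i)) ^ 2 + 2 * D ^ 2) * (β / Fintype.card ι) := by
    intro y
    have hp := md9_pw_nonneg h n y
    have h1 : ∀ z : ι, amp P (Fin.snoc (α := fun _ => ι) y z : Fin (n + 1 + 1) → ι) *
        (∑ i, g ((Fin.snoc (α := fun _ => ι) y z : Fin (n + 1 + 1) → ι) i)) ^ 2 ≤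
        pw P y * (2 * (∑ i, g (y i)) ^ 2 + 2 * D ^ 2) * (P (y 0) z * P z (y (Fin.last n))) := by
      intro z
      rw [md9_amp_snoc, Fin.sum_univ_castSucc]
      simp only [Fin.snoc_castSucc, Fin.snoc_last]
      have h2 : (∑ i, g (y i) + g z) ^ 2 ≤ 2 * (∑ i, g (y i)) ^ 2 + 2 * D ^ 2 := by
        have h3 : g z ^ 2 ≤ D ^ 2 := sq_le_sq' (by linarith [(abs_le.1 (hgD z)).1])
          (abs_le.1 (hgD z)).2
        nlinarith [sq_nonneg (∑ i, g (y i) - g z)]
      have h4 : 0 ≤ pw P y * (P (y 0) z * P z (y (Fin.last n))) :=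
        mul_nonneg hp (mul_nonneg (h.nn _ _) (h.nn _ _))
      calc pw P y * (P (y 0) z * P z (y (Fin.last n))) * (∑ i, g (y i) + g z) ^ 2
          ≤ pw P y * (P (y 0) z * P z (y (Fin.last n))) *
            (2 * (∑ i, g (y i)) ^ 2 + 2 * D ^ 2) := mul_le_mul_of_nonneg_left h2 h4
        _ = _ := by ring
    refine (Finset.sum_le_sum fun z _ => h1 z).trans ?_
    rw [← Finset.mul_sum]
    refine mul_le_mul_of_nonneg_left ?_ (mul_nonneg hp (by positivity))
    have h5 := h.two (y 0) (y (Fin.last n))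
    rwa [pow_two, Matrix.mul_apply] at h5
  have tot : ∑ x : Fin (n + 2) → ι, amp P x * (∑ i, g (x i)) ^ 2 ≤
      ∑ y : Fin (n + 1) → ι, pw P y * (2 * (∑ i, g (y i)) ^ 2 + 2 * D ^ 2) *
        (β / Fintype.card ι) := by
    rw [md9_snoc]
    exact Finset.sum_le_sum fun y _ => key y
  refine tot.trans ?_
  rw [← Finset.sum_mul]
  have h6 : ∑ y : Fin (n + 1) → ι, pw P y * (2 * (∑ i, g (y i)) ^ 2 + 2 * D ^ 2) =
      2 * (∑ y : Fin (n + 1) → ι, pw P y * (∑ i, g (y i)) ^ 2) +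
        2 * D ^ 2 * ∑ y : Fin (n + 1) → ι, pw P y := by
    rw [Finset.mul_sum, Finset.mul_sum, ← Finset.sum_add_distrib]
    exact Finset.sum_congr rfl fun y _ => by ring
  rw [h6, md9_pw_sum h n]
  have h7 := hK ι P h g hg0 hgD n
  have h8 : 2 * (∑ y : Fin (n + 1) → ι, pw P y * (∑ i, g (y i)) ^ 2) +
        2 * D ^ 2 * (Fintype.card ι : ℝ) ≤
      2 * (K0 * (n + 1) * Fintype.card ι) + 2 * D ^ 2 * Fintype.card ι := by linarith
  calc (2 * (∑ y : Fin (n + 1) → ι, pw P y * (∑ i, g (y i)) ^ 2) +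
        2 * D ^ 2 * (Fintype.card ι : ℝ)) * (β / Fintype.card ι)
      ≤ (2 * (K0 * (n + 1) * Fintype.card ι) + 2 * D ^ 2 * Fintype.card ι) *
        (β / Fintype.card ι) := mul_le_mul_of_nonneg_right h8 (div_nonneg hβ hm'.le)
    _ = 2 * β * (K0 * (n + 1) + D ^ 2) := by
        field_simp
    _ ≤ 2 * β * (K0 + D ^ 2) * (n + 2) := by
        have hn : (0 : ℝ) ≤ n := Nat.cast_nonneg n
        have e : 2 * β * (K0 + D ^ 2) * (n + 2) - 2 * β * (K0 * (n + 1) + D ^ 2) =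
          2 * β * (K0 + D ^ 2 * (n + 1)) := by ring
        have : 0 ≤ 2 * β * (K0 + D ^ 2 * (n + 1)) := by positivity
        linarith

end Mes
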