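import Pool.Agent.LibMes.R_MD7
import Pool.Agent.LibMes.R_MD9

open MeasureTheory Set Filter Topology

namespace Mes

/-- MD10: averages over closed walks of a Lipschitz function of the length. -/
theorem closed_avg (α β D : ℝ) (hα : 0 < α) (hα1 : α < 1) (hD : 0 ≤ D) : ∃ K, 0 ≤ K ∧
    ∀ (ι : Type) [Fintype ι] [DecidableEq ι] (P : Matrix ι ι ℝ) (_ : Dst α β P) (ℓ : ι → ℝ)
      (_ : ∀ i, ℓ i ∈ Icc 0 D) (_ : 0 < Fintype.card ι) (u : ℝ → ℝ) (L H : ℝ)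
      (_ : ∀ s t, |u s - u t| ≤ L * |s - t|) (_ : ∀ s, |u s| ≤ H * s ^ 2) (n : ℕ),
      |∑ x : Fin (n + 2) → ι, amp P x * u (wl ℓ x) -
        u ((n + 2) * ((∑ i, ℓ i) / Fintype.card ι))| ≤
          K * (L * √(n + 2) + H * (n + 2) ^ 2 * (1 - α) ^ (n / 4)) := by
  obtain ⟨K1, hK1, hK⟩ := closed_var α β D hα hα1 hD
  refine ⟨K1 + 1 + 2 * |β| + 2 * |β| * D ^ 2, by positivity, ?_⟩
  intro ι _ _ P h ℓ hℓ hm u L H hL hH n
  have hm' : (0 : ℝ) < Fintype.card ι := by exact_mod_cast hm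
  have hL0 : 0 ≤ L := by
    have := hL 1 0
    rw [sub_zero, abs_one, mul_one] at this
    exact (abs_nonneg _).trans this
  have hH0 : 0 ≤ H := by
    have := hH 1
    rw [one_pow, mul_one] at this
    exact (abs_nonneg _).trans this
  have hn : (0 : ℝ) ≤ n := Nat.cast_nonneg n
  set μ : ℝ := (∑ i, ℓ i) / Fintype.card ι with hμ
  have hμ0 : 0 ≤ μ := div_nonneg (Finset.sum_nonneg fun i _ => (hℓ i).1) hm'.le
  have hμD : μ ≤ D := by
    rw [hμ, div_le_iff₀ hm']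
    calc ∑ i, ℓ i ≤ ∑ _i : ι, D := Finset.sum_le_sum fun i _ => (hℓ i).2
      _ = D * Fintype.card ι := by
        rw [Finset.sum_const, nsmul_eq_mul, mul_comm]; rfl
  have hg0 : ∑ i, (ℓ i - μ) = 0 := by
    rw [Finset.sum_sub_distrib, Finset.sum_const, nsmul_eq_mul, hμ]
    have : ((Finset.univ : Finset ι).card : ℝ) = Fintype.card ι := rfl
    rw [this]
    field_simp
    ring
  have hgD : ∀ i, |ℓ i - μ| ≤ D := fun i => by
    rw [abs_le]
    constructor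
    · linarith [(hℓ i).1]
    · linarith [(hℓ i).2]
  have hv := hK ι P h (fun i => ℓ i - μ) hg0 hgD hm n
  have ht := tr_bd hα hα1 h hm n
  have hamp : ∀ x : Fin (n + 2) → ι, 0 ≤ amp P x := fun x =>
    Finset.prod_nonneg fun _ _ => h.nn _ _
  have hβ : 2 * β * (1 - α) ^ (n / 4) ≤ 2 * |β| * (1 - α) ^ (n / 4) :=
    mul_le_mul_of_nonneg_right (by linarith [le_abs_self β]) (pow_nonneg (by linarith) _)
  have hq : (1 - α) ^ (n / 4) ≤ 1 := pow_le_one₀ (by linarith) (by linarith)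
  have hq0 : 0 ≤ (1 - α) ^ (n / 4) := pow_nonneg (by linarith) _
  have hs : ∑ x : Fin (n + 2) → ι, amp P x ≤ 1 + 2 * |β| := by
    have h1 := (le_abs_self _).trans (ht.trans hβ)
    have h2 : 2 * |β| * (1 - α) ^ (n / 4) ≤ 2 * |β| * 1 :=
      mul_le_mul_of_nonneg_left hq (by positivity)
    linarith
  -- the length of a closed walk
  have hwl : ∀ x : Fin (n + 2) → ι, wl ℓ x - (n + 2) * μ = ∑ i, (ℓ (x i) - μ) := by
    intro x
    unfold wl
    rw [Finset.sum_sub_distrib, Finset.sum_const, nsmul_eq_mul, Finset.card_univ,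
      Fintype.card_fin]
    push_cast
    ring
  have hr : 0 < √((n : ℝ) + 2) := Real.sqrt_pos.2 (by linarith)
  have hrr : √((n : ℝ) + 2) ^ 2 = n + 2 := Real.sq_sqrt (by linarith)
  have hpt : ∀ x : Fin (n + 2) → ι, |amp P x * u (wl ℓ x) - amp P x * u ((n + 2) * μ)| ≤
      L * (amp P x * (∑ i, (ℓ (x i) - μ)) ^ 2 / √((n : ℝ) + 2) + √((n : ℝ) + 2) * amp P x) := by
    intro x
    rw [← mul_sub, abs_mul, abs_of_nonneg (hamp x)]
    have h1 := hL (wl ℓ x) ((n + 2) * μ)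
    rw [hwl x] at h1
    set S := ∑ i, (ℓ (x i) - μ) with hS
    have h2 : |S| ≤ S ^ 2 / √((n : ℝ) + 2) + √((n : ℝ) + 2) := by
      rw [← sub_le_iff_le_add, le_div_iff₀ hr]
      have := sq_abs S
      nlinarith [sq_nonneg (|S| - √((n : ℝ) + 2)), abs_nonneg S]
    calc amp P x * |u (wl ℓ x) - u ((n + 2) * μ)| ≤ amp P x * (L * |S|) :=
          mul_le_mul_of_nonneg_left h1 (hamp x)
      _ ≤ amp P x * (L * (S ^ 2 / √((n : ℝ) + 2) + √((n : ℝ) + 2))) :=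
          mul_le_mul_of_nonneg_left (mul_le_mul_of_nonneg_left h2 hL0) (hamp x)
      _ = _ := by ring
  have hA : |∑ x : Fin (n + 2) → ι, amp P x * u (wl ℓ x) -
      (∑ x : Fin (n + 2) → ι, amp P x) * u ((n + 2) * μ)| ≤
      (K1 + 1 + 2 * |β|) * (L * √((n : ℝ) + 2)) := by
    rw [Finset.sum_mul, ← Finset.sum_sub_distrib]
    refine (Finset.abs_sum_le_sum_abs _ _).trans ((Finset.sum_le_sum fun x _ => hpt x).trans ?_)
    rw [← Finset.mul_sum, Finset.sum_add_distrib, ← Finset.sum_div, ← Finset.mul_sum]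
    have h1 : (∑ x : Fin (n + 2) → ι, amp P x * (∑ i, (ℓ (x i) - μ)) ^ 2) / √((n : ℝ) + 2) ≤
        K1 * √((n : ℝ) + 2) := by
      rw [div_le_iff₀ hr, mul_assoc, ← pow_two, hrr]
      exact hv
    have h2 : √((n : ℝ) + 2) * ∑ x : Fin (n + 2) → ι, amp P x ≤
        √((n : ℝ) + 2) * (1 + 2 * |β|) := mul_le_mul_of_nonneg_left hs hr.le
    calc _ ≤ L * (K1 * √((n : ℝ) + 2) + √((n : ℝ) + 2) * (1 + 2 * |β|)) :=
          mul_le_mul_of_nonneg_left (add_le_add h1 h2) hL0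
      _ = _ := by ring
  have hB : |(∑ x : Fin (n + 2) → ι, amp P x) * u ((n + 2) * μ) - u ((n + 2) * μ)| ≤
      2 * |β| * D ^ 2 * (H * (n + 2) ^ 2 * (1 - α) ^ (n / 4)) := by
    have e : (∑ x : Fin (n + 2) → ι, amp P x) * u ((n + 2) * μ) - u ((n + 2) * μ) =
        (∑ x : Fin (n + 2) → ι, amp P x - 1) * u ((n + 2) * μ) := by ring
    rw [e, abs_mul]
    have h1 : |u ((n + 2) * μ)| ≤ H * ((n + 2) ^ 2 * D ^ 2) := by
      refine (hH _).trans (mul_le_mul_of_nonneg_left ?_ hH0)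
      rw [mul_pow]
      exact mul_le_mul_of_nonneg_left (pow_le_pow_left₀ hμ0 hμD 2) (by positivity)
    calc _ ≤ (2 * |β| * (1 - α) ^ (n / 4)) * (H * ((n + 2) ^ 2 * D ^ 2)) :=
          mul_le_mul (ht.trans hβ) h1 (abs_nonneg _) (by positivity)
      _ = _ := by ring
  have hfin := abs_sub_le (∑ x : Fin (n + 2) → ι, amp P x * u (wl ℓ x))
    ((∑ x : Fin (n + 2) → ι, amp P x) * u ((n + 2) * μ)) (u ((n + 2) * μ))
  refine hfin.trans ((add_le_add hA hB).trans ?_)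
  have p1 : 0 ≤ 2 * |β| * D ^ 2 * (L * √((n : ℝ) + 2)) := by positivity
  have p2 : 0 ≤ (K1 + 1 + 2 * |β|) * (H * (n + 2) ^ 2 * (1 - α) ^ (n / 4)) := by positivity
  have e2 : (K1 + 1 + 2 * |β| + 2 * |β| * D ^ 2) *
      (L * √((n : ℝ) + 2) + H * (n + 2) ^ 2 * (1 - α) ^ (n / 4)) =
      (K1 + 1 + 2 * |β|) * (L * √((n : ℝ) + 2)) +
      2 * |β| * D ^ 2 * (H * (n + 2) ^ 2 * (1 - α) ^ (n / 4)) +
      (2 * |β| * D ^ 2 * (L * √((n : ℝ) + 2)) +
      (K1 + 1 + 2 * |β|) * (H * (n + 2) ^ 2 * (1 - α) ^ (n / 4))) := by ring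
  rw [e2]
  linarith

end Mes
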