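import Pool.Agent.LibMes.DDefs

open MeasureTheory Set Filter Topology

namespace Mes

private lemma md11_sqrt_sum (N : ℕ) :
    ∑ n ∈ Finset.range N, 1 / √((n : ℝ) + 2) ≤ 2 * √((N : ℝ) + 1) := by
  induction N with
  | zero =>
    simp
  | succ N ih =>
    rw [Finset.sum_range_succ]
    have hcast : ((N + 1 : ℕ) : ℝ) + 1 = (N : ℝ) + 2 := by
      push_cast
      ring
    rw [hcast]
    have hb : 0 < √((N : ℝ) + 2) := Real.sqrt_pos.mpr (by positivity)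
    have ha : 0 ≤ √((N : ℝ) + 1) := Real.sqrt_nonneg _
    have hab : √((N : ℝ) + 1) ≤ √((N : ℝ) + 2) := Real.sqrt_le_sqrt (by linarith)
    have h3 : √((N : ℝ) + 2) ^ 2 = (N : ℝ) + 2 := Real.sq_sqrt (by positivity)
    have h4 : √((N : ℝ) + 1) ^ 2 = (N : ℝ) + 1 := Real.sq_sqrt (by positivity)
    have h5 : 1 / √((N : ℝ) + 2) ≤ 2 * (√((N : ℝ) + 2) - √((N : ℝ) + 1)) := by
      rw [div_le_iff₀ hb]
      nlinarith
    linarith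

private lemma md11_geo (γ : ℝ) (h0 : 0 ≤ γ) (h1 : γ < 1) :
    ∃ C, 0 ≤ C ∧ ∀ N : ℕ, ∑ n ∈ Finset.range N, ((n : ℝ) + 2) * γ ^ (n / 4) ≤ C := by
  obtain ⟨ρ, hρ0, hρ1, hρ⟩ : ∃ ρ : ℝ, 0 < ρ ∧ ρ < 1 ∧ γ ≤ ρ ^ 4 := by
    refine ⟨(max γ (1 / 2)) ^ ((1 : ℝ) / 4), ?_, ?_, ?_⟩
    · apply Real.rpow_pos_of_pos
      exact lt_of_lt_of_le (by norm_num) (le_max_right _ _)
    · apply Real.rpow_lt_one
      · exact le_trans (by norm_num) (le_max_right _ _)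
      · exact max_lt h1 (by norm_num)
      · norm_num
    · rw [← Real.rpow_natCast, ← Real.rpow_mul (le_trans (by norm_num) (le_max_right _ _))]
      norm_num
  have hsum : Summable (fun n : ℕ => ((n : ℝ) + 2) * ρ ^ n * (1 / ρ ^ 3)) := by
    have hs1 : Summable (fun n : ℕ => (n : ℝ) ^ 1 * ρ ^ n) :=
      summable_pow_mul_geometric_of_norm_lt_one 1
        (by rw [Real.norm_eq_abs, abs_of_pos hρ0]; exact hρ1)
    have hs2 : Summable (fun n : ℕ => 2 * ρ ^ n) :=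
      (summable_geometric_of_lt_one hρ0.le hρ1).mul_left 2
    have hs3 := (hs1.add hs2).mul_right (1 / ρ ^ 3)
    refine hs3.congr (fun n => ?_)
    ring
  refine ⟨∑' n : ℕ, ((n : ℝ) + 2) * ρ ^ n * (1 / ρ ^ 3), tsum_nonneg (fun n => by positivity),
    fun N => ?_⟩
  refine le_trans (Finset.sum_le_sum (fun n _ => ?_)) (hsum.sum_le_tsum _ (fun n _ => by positivity))
  have h3 : γ ^ (n / 4) ≤ ρ ^ n * (1 / ρ ^ 3) := by
    rw [mul_one_div, le_div_iff₀ (by positivity)]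
    calc γ ^ (n / 4) * ρ ^ 3 ≤ (ρ ^ 4) ^ (n / 4) * ρ ^ 3 := by
          apply mul_le_mul_of_nonneg_right (pow_le_pow_left₀ h0 hρ _) (by positivity)
      _ = ρ ^ (4 * (n / 4) + 3) := by rw [← pow_mul, ← pow_add]
      _ ≤ ρ ^ n := pow_le_pow_of_le_one hρ0.le hρ1.le (by omega)
  calc ((n : ℝ) + 2) * γ ^ (n / 4) ≤ ((n : ℝ) + 2) * (ρ ^ n * (1 / ρ ^ 3)) :=
        mul_le_mul_of_nonneg_left h3 (by positivity)
    _ = ((n : ℝ) + 2) * ρ ^ n * (1 / ρ ^ 3) := by ring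

/-- MD11: sum of the errors. -/
theorem err_sum (γ A : ℝ) (h0 : 0 ≤ γ) (h1 : γ < 1) (hA : 0 ≤ A) : ∃ K, 0 ≤ K ∧
    ∀ (Λ : ℝ) (N : ℕ), 1 ≤ Λ → (N : ℝ) ≤ A * Λ →
      ∑ n ∈ Finset.range N, 4 / (n + 2 : ℝ) *
        (√(n + 2) / Λ + (n + 2) ^ 2 / Λ ^ 2 * γ ^ (n / 4)) ≤ K / √Λ := by
  obtain ⟨C, hC0, hC⟩ := md11_geo γ h0 h1
  refine ⟨8 * √(A + 1) + 4 * C, by positivity, fun Λ N hΛ hN => ?_⟩
  have hΛ0 : 0 < Λ := by linarith
  have hterm : ∀ n ∈ Finset.range N, 4 / (n + 2 : ℝ) *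
        (√(n + 2) / Λ + (n + 2) ^ 2 / Λ ^ 2 * γ ^ (n / 4)) =
        4 / Λ * (1 / √((n : ℝ) + 2)) + 4 / Λ ^ 2 * (((n : ℝ) + 2) * γ ^ (n / 4)) := by
    intro n _
    have hn : (0 : ℝ) < (n : ℝ) + 2 := by positivity
    have hs : 0 < √((n : ℝ) + 2) := Real.sqrt_pos.mpr hn
    have hs2 : √((n : ℝ) + 2) ^ 2 = (n : ℝ) + 2 := Real.sq_sqrt hn.le
    have e1 : 4 / ((n : ℝ) + 2) * (√((n : ℝ) + 2) / Λ) = 4 / Λ * (1 / √((n : ℝ) + 2)) := by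
      field_simp
      nlinarith
    have e2 : 4 / ((n : ℝ) + 2) * (((n : ℝ) + 2) ^ 2 / Λ ^ 2 * γ ^ (n / 4)) =
        4 / Λ ^ 2 * (((n : ℝ) + 2) * γ ^ (n / 4)) := by
      field_simp
    rw [mul_add, e1, e2]
  rw [Finset.sum_congr rfl hterm, Finset.sum_add_distrib, ← Finset.mul_sum, ← Finset.mul_sum]
  have hsΛ : 0 < √Λ := Real.sqrt_pos.mpr hΛ0
  have hsΛ2 : √Λ * √Λ = Λ := Real.mul_self_sqrt hΛ0.le
  have hsΛ1 : 1 ≤ √Λ := by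
    rw [show (1 : ℝ) = √1 by simp]
    exact Real.sqrt_le_sqrt hΛ
  have hA1 : 2 * √((N : ℝ) + 1) ≤ 2 * (√(A + 1) * √Λ) := by
    rw [← Real.sqrt_mul (by positivity)]
    have : √((N : ℝ) + 1) ≤ √((A + 1) * Λ) := Real.sqrt_le_sqrt (by nlinarith)
    linarith
  have p1 : 4 / Λ * ∑ n ∈ Finset.range N, 1 / √((n : ℝ) + 2) ≤ 8 * √(A + 1) / √Λ := by
    calc 4 / Λ * ∑ n ∈ Finset.range N, 1 / √((n : ℝ) + 2)
        ≤ 4 / Λ * (2 * (√(A + 1) * √Λ)) := by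
          apply mul_le_mul_of_nonneg_left _ (by positivity)
          exact (md11_sqrt_sum N).trans hA1
      _ = 8 * √(A + 1) / √Λ := by
          rw [div_mul_eq_mul_div, div_eq_div_iff hΛ0.ne' hsΛ.ne']
          linear_combination (8 * √(A + 1)) * hsΛ2
  have p2 : 4 / Λ ^ 2 * ∑ n ∈ Finset.range N, ((n : ℝ) + 2) * γ ^ (n / 4) ≤ 4 * C / √Λ := by
    calc 4 / Λ ^ 2 * ∑ n ∈ Finset.range N, ((n : ℝ) + 2) * γ ^ (n / 4)
        ≤ 4 / Λ ^ 2 * C := mul_le_mul_of_nonneg_left (hC N) (by positivity)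
      _ = 4 * C / Λ ^ 2 := by ring
      _ ≤ 4 * C / √Λ := by
          apply div_le_div_of_nonneg_left (by positivity) hsΛ
          nlinarith
  calc _ ≤ 8 * √(A + 1) / √Λ + 4 * C / √Λ := add_le_add p1 p2
    _ = (8 * √(A + 1) + 4 * C) / √Λ := by ring

end Mes
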