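import Pool.Agent.LibMes.DDefs

open MeasureTheory Set Filter Topology

namespace Mes

/-- MD12: Riemann sum. -/
theorem riem (ψ : ℝ → ℝ) (L R T₀ : ℝ) (hL : ∀ s t, 0 ≤ s → 0 ≤ t → |ψ s - ψ t| ≤ L * |s - t|)
    (hR : ∀ s, R < s → ψ s = 0) : ∃ K, 0 ≤ K ∧ ∀ (τ : ℝ) (N : ℕ), 0 < τ → τ ≤ T₀ →
      R < (N + 1) * τ →
      |∑ n ∈ Finset.range N, τ * ψ ((n + 1) * τ) - ∫ s in Ioi (0 : ℝ), ψ s| ≤ K * τ := by
  have hL0 : 0 ≤ L := by
    have := (abs_nonneg _).trans (hL 0 1 le_rfl zero_le_one)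
    simpa using this
  set ρ := max R 0 with hρd
  have hρ : 0 ≤ ρ := le_max_right _ _
  refine ⟨L * (ρ + |T₀|), by positivity, fun τ N hτ hT hN => ?_⟩
  have hcont : ContinuousOn ψ (Ici 0) := by
    have : LipschitzOnWith L.toNNReal ψ (Ici 0) := by
      apply LipschitzOnWith.of_dist_le_mul
      intro s hs t ht
      rw [Real.dist_eq, Real.dist_eq, Real.coe_toNNReal L hL0]
      exact hL s t hs ht
    exact this.continuousOn
  have hint : ∀ a b : ℝ, 0 ≤ a → 0 ≤ b → IntervalIntegrable ψ volume a b := by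
    intro a b ha hb
    apply ContinuousOn.intervalIntegrable
    apply hcont.mono
    intro x hx
    rw [mem_uIcc] at hx
    rcases hx with hx | hx
    · exact ha.trans hx.1
    · exact hb.trans hx.1
  -- the integral as a sum
  have h1 : ∫ s in Ioi (0 : ℝ), ψ s = ∑ n ∈ Finset.range (N + 1),
      ∫ s in ((n : ℕ) : ℝ) * τ..((n + 1 : ℕ) : ℝ) * τ, ψ s := by
    have hb : (0 : ℝ) ≤ ((N + 1 : ℕ) : ℝ) * τ := by positivity
    rw [intervalIntegral.sum_integral_adjacent_intervals (a := fun n : ℕ => (n : ℝ) * τ)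
      (fun k _ => hint _ _ (by positivity) (by positivity))]
    simp only [Nat.cast_zero, zero_mul]
    rw [intervalIntegral.integral_of_le hb]
    apply setIntegral_eq_of_subset_of_forall_sdiff_eq_zero measurableSet_Ioi
      (fun x hx => hx.1)
    intro x hx
    apply hR
    have h2 : ¬ (x ≤ ((N + 1 : ℕ) : ℝ) * τ) := fun h => hx.2 ⟨hx.1, h⟩
    push Not at h2
    push_cast at h2
    exact hN.trans h2
  have h2 : ∑ n ∈ Finset.range N, τ * ψ ((n + 1) * τ) =
      ∑ n ∈ Finset.range (N + 1), τ * ψ ((n + 1) * τ) := by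
    rw [Finset.sum_range_succ, hR _ hN, mul_zero, add_zero]
  rw [h1, h2, ← Finset.sum_sub_distrib]
  have hterm : ∀ n ∈ Finset.range (N + 1),
      |τ * ψ ((n + 1) * τ) - ∫ s in ((n : ℕ) : ℝ) * τ..((n + 1 : ℕ) : ℝ) * τ, ψ s| ≤
        if (n : ℝ) * τ ≤ ρ then L * τ ^ 2 else 0 := by
    intro n _
    have e1 : τ * ψ ((n + 1) * τ) =
        ∫ _ in ((n : ℕ) : ℝ) * τ..((n + 1 : ℕ) : ℝ) * τ, ψ ((n + 1) * τ) := by
      rw [intervalIntegral.integral_const, smul_eq_mul]
      push_cast; ring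
    rw [e1, ← intervalIntegral.integral_sub (by simp) (hint _ _ (by positivity) (by positivity))]
    have hle : ((n : ℕ) : ℝ) * τ ≤ ((n + 1 : ℕ) : ℝ) * τ := by
      push_cast; nlinarith
    have hsub : |((n + 1 : ℕ) : ℝ) * τ - ((n : ℕ) : ℝ) * τ| = τ := by
      push_cast
      rw [show ((n : ℝ) + 1) * τ - n * τ = τ by ring, abs_of_pos hτ]
    by_cases h : (n : ℝ) * τ ≤ ρ
    · rw [if_pos h]
      have := intervalIntegral.norm_integral_le_of_norm_le_const
        (a := ((n : ℕ) : ℝ) * τ) (b := ((n + 1 : ℕ) : ℝ) * τ)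
        (f := fun s => ψ ((n + 1) * τ) - ψ s) (C := L * τ) (fun x hx => ?_)
      · rw [Real.norm_eq_abs, hsub] at this
        refine this.trans (le_of_eq (by ring))
      · rw [uIoc_of_le hle] at hx
        rw [Real.norm_eq_abs]
        have hx0 : 0 ≤ x := le_trans (by positivity) hx.1.le
        refine (hL _ x (by positivity) hx0).trans ?_
        apply mul_le_mul_of_nonneg_left _ hL0
        have hx1 := hx.1
        have hx2 := hx.2
        push_cast at hx2
        rw [abs_of_nonneg (by linarith)]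
        linarith
    · rw [if_neg h]
      push Not at h
      have hRn : R < (n : ℝ) * τ := lt_of_le_of_lt (le_max_left _ _) h
      have := intervalIntegral.norm_integral_le_of_norm_le_const
        (a := ((n : ℕ) : ℝ) * τ) (b := ((n + 1 : ℕ) : ℝ) * τ)
        (f := fun s => ψ ((n + 1) * τ) - ψ s) (C := 0) (fun x hx => ?_)
      · rw [Real.norm_eq_abs, zero_mul] at this
        exact this
      · rw [uIoc_of_le hle] at hx
        rw [hR x (hRn.trans hx.1), hR _ (by nlinarith), sub_zero, norm_zero]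
  refine (Finset.abs_sum_le_sum_abs _ _).trans ((Finset.sum_le_sum hterm).trans ?_)
  rw [← Finset.sum_filter, Finset.sum_const, nsmul_eq_mul]
  have hcard : (((Finset.range (N + 1)).filter fun n : ℕ => (n : ℝ) * τ ≤ ρ).card : ℝ) ≤
      ρ / τ + 1 := by
    have hs : (Finset.range (N + 1)).filter (fun n : ℕ => (n : ℝ) * τ ≤ ρ) ⊆
        Finset.range (⌊ρ / τ⌋₊ + 1) := by
      intro n hn
      rw [Finset.mem_filter] at hn
      rw [Finset.mem_range, Nat.lt_add_one_iff]
      apply Nat.le_floor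
      rw [le_div_iff₀ hτ]
      exact hn.2
    have h3 := Finset.card_le_card hs
    rw [Finset.card_range] at h3
    have h4 : ((⌊ρ / τ⌋₊ : ℕ) : ℝ) ≤ ρ / τ := Nat.floor_le (by positivity)
    have h5 : (((Finset.range (N + 1)).filter fun n : ℕ => (n : ℝ) * τ ≤ ρ).card : ℝ) ≤
        ((⌊ρ / τ⌋₊ + 1 : ℕ) : ℝ) := by exact_mod_cast h3
    push_cast at h5
    linarith
  have hT' : τ ≤ |T₀| := hT.trans (le_abs_self _)
  calc (((Finset.range (N + 1)).filter fun n : ℕ => (n : ℝ) * τ ≤ ρ).card : ℝ) * (L * τ ^ 2)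
      ≤ (ρ / τ + 1) * (L * τ ^ 2) := mul_le_mul_of_nonneg_right hcard (by positivity)
    _ = L * (ρ + τ) * τ := by field_simp
    _ ≤ L * (ρ + |T₀|) * τ := by
        apply mul_le_mul_of_nonneg_right _ hτ.le
        apply mul_le_mul_of_nonneg_left _ hL0
        linarith

end Mes
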