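import Pool.Agent.LibMes.Defs

open MeasureTheory Set Filter Topology

namespace Mes

private theorem MA13_int {E : Type*} [NormedAddCommGroup E] {h : ℝ → E} {C : ℝ}
    (hm : AEStronglyMeasurable h volume) (hb : ∀ x, ‖h x‖ ≤ C / (1 + |x|) ^ 3) :
    Integrable h := by
  have hC : 0 ≤ C := by
    have := (norm_nonneg _).trans (hb 0)
    simpa using this
  have h1 : Integrable (fun x : ℝ => C * (1 + ‖x‖) ^ (-(2 : ℝ))) :=
    (integrable_one_add_norm (E := ℝ) (r := 2) (by simp)).const_mul C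
  refine h1.mono' hm (Filter.Eventually.of_forall fun x => (hb x).trans ?_)
  have hx : 0 ≤ |x| := abs_nonneg x
  rw [Real.norm_eq_abs, Real.rpow_neg (by positivity), Real.rpow_two, div_eq_mul_inv]
  apply mul_le_mul_of_nonneg_left _ hC
  apply inv_anti₀ (by positivity)
  have : (1 : ℝ) ≤ 1 + |x| := by linarith
  exact pow_le_pow_right₀ this (by norm_num)

private theorem MA13_K {f : ℝ → ℝ} {K : ℝ} (hf : Test f K) : 0 ≤ K := by
  have := (abs_nonneg _).trans (hf.d0 0)
  simpa using this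

private theorem MA13_43 {K x y : ℝ} (h : |y| ≤ K / (1 + |x|) ^ 4) : |y| ≤ K / (1 + |x|) ^ 3 := by
  have hx : 0 ≤ |x| := abs_nonneg x
  have hK : 0 ≤ K := by
    have h1 := (abs_nonneg _).trans h
    by_contra hn
    push Not at hn
    have : K / (1 + |x|) ^ 4 < 0 := div_neg_of_neg_of_pos hn (by positivity)
    linarith
  refine h.trans (div_le_div_of_nonneg_left hK (by positivity) ?_)
  have : (1 : ℝ) ≤ 1 + |x| := by linarith
  exact pow_le_pow_right₀ this (by norm_num)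

private theorem MA13_mul {K x y : ℝ} (h : |y| ≤ K / (1 + |x|) ^ 4) :
    |y * x| ≤ K / (1 + |x|) ^ 3 := by
  have hx : 0 ≤ |x| := abs_nonneg x
  rw [abs_mul]
  have hK : 0 ≤ K / (1 + |x|) ^ 4 := (abs_nonneg _).trans h
  calc |y| * |x| ≤ K / (1 + |x|) ^ 4 * (1 + |x|) := by
        apply mul_le_mul h (by linarith) hx hK
    _ = K / (1 + |x|) ^ 3 := by
        have : (1 + |x|) ≠ 0 := by positivity
        field_simp

private theorem MA13_f {f : ℝ → ℝ} {K : ℝ} (hf : Test f K) : Integrable f :=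
  MA13_int hf.diff.continuous.aestronglyMeasurable fun x => by
    rw [Real.norm_eq_abs]; exact MA13_43 (hf.d0 x)

private theorem MA13_fx {f : ℝ → ℝ} {K : ℝ} (hf : Test f K) : Integrable fun x => f x * x :=
  MA13_int (hf.diff.continuous.mul continuous_id).aestronglyMeasurable fun x => by
    rw [Real.norm_eq_abs]; exact MA13_mul (hf.d0 x)

private theorem MA13_f' {f : ℝ → ℝ} {K : ℝ} (hf : Test f K) : Integrable (deriv f) :=
  MA13_int (hf.diff.continuous_deriv le_rfl).aestronglyMeasurable fun x => by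
    rw [Real.norm_eq_abs]; exact MA13_43 (hf.d1 x)

private theorem MA13_f'x {f : ℝ → ℝ} {K : ℝ} (hf : Test f K) :
    Integrable fun x => deriv f x * x :=
  MA13_int ((hf.diff.continuous_deriv le_rfl).mul continuous_id).aestronglyMeasurable fun x => by
    rw [Real.norm_eq_abs]; exact MA13_mul (hf.d1 x)

theorem test_shift {f : ℝ → ℝ} {K : ℝ} (hf : Test f K) {Λ : ℝ} (hΛ : 0 < Λ) (k₀ : ℝ) :
    ∃ K', Test (fun k => f (Λ * (k - k₀))) K' := by
  have hK := MA13_K hf
  set C : ℝ := 1 + |k₀| + 1 / Λ with hC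
  have hC0 : 0 < C := by positivity
  have key : ∀ k, 1 + |k| ≤ C * (1 + |Λ * (k - k₀)|) := by
    intro k
    have h1 : |k| ≤ |k - k₀| + |k₀| := by
      have := abs_add_le (k - k₀) k₀
      simpa using this
    have h2 : |Λ * (k - k₀)| = Λ * |k - k₀| := by rw [abs_mul, abs_of_pos hΛ]
    have h3 : 1 / Λ * (Λ * |k - k₀|) = |k - k₀| := by field_simp
    have h4 : 0 ≤ |k - k₀| := abs_nonneg _
    have h5 : 0 ≤ |k₀| := abs_nonneg _
    have h6 : 0 < 1 / Λ := by positivity
    rw [h2, hC]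
    have h7 : (1 + |k₀| + 1 / Λ) * (1 + Λ * |k - k₀|)
      = 1 + |k₀| + 1 / Λ + (1 + |k₀|) * (Λ * |k - k₀|) + 1 / Λ * (Λ * |k - k₀|) := by ring
    rw [h7, h3]
    have h8 : 0 ≤ (1 + |k₀|) * (Λ * |k - k₀|) := by positivity
    linarith
  have key2 : ∀ k, K / (1 + |Λ * (k - k₀)|) ^ 4 ≤ K * C ^ 4 / (1 + |k|) ^ 4 := by
    intro k
    have h0 : 0 ≤ |k| := abs_nonneg k
    have h0' : 0 ≤ |Λ * (k - k₀)| := abs_nonneg _
    rw [div_le_div_iff₀ (by positivity) (by positivity), mul_assoc, ← mul_pow]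
    apply mul_le_mul_of_nonneg_left _ hK
    exact pow_le_pow_left₀ (by positivity) (key k) 4
  have hd : ∀ k, HasDerivAt (fun k => f (Λ * (k - k₀))) (Λ * deriv f (Λ * (k - k₀))) k := by
    intro k
    have h1 : HasDerivAt (fun k : ℝ => Λ * (k - k₀)) (Λ * 1) k :=
      ((hasDerivAt_id k).sub_const k₀).const_mul Λ
    have h2 := ((hf.diff.differentiable (by simp)) (Λ * (k - k₀))).hasDerivAt
    have h3 := h2.comp k h1
    have h5 : deriv f (Λ * (k - k₀)) * (Λ * 1) = Λ * deriv f (Λ * (k - k₀)) := by ring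
    rw [h5] at h3
    exact h3
  refine ⟨(1 + Λ) * (K * C ^ 4), ?_, ?_, ?_⟩
  · exact hf.diff.comp (contDiff_const.mul (contDiff_id.sub contDiff_const))
  · intro k
    have h0 : 0 ≤ |k| := abs_nonneg k
    refine ((hf.d0 _).trans (key2 k)).trans ?_
    apply div_le_div_of_nonneg_right _ (by positivity)
    have : 0 ≤ K * C ^ 4 := by positivity
    nlinarith
  · intro k
    have h0 : 0 ≤ |k| := abs_nonneg k
    rw [(hd k).deriv, abs_mul, abs_of_pos hΛ]
    have h1 := (hf.d1 (Λ * (k - k₀))).trans (key2 k)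
    have h2 : (1 + Λ) * (K * C ^ 4) / (1 + |k|) ^ 4 = (1 + Λ) * (K * C ^ 4 / (1 + |k|) ^ 4) := by
      ring
    rw [h2]
    have h3 : 0 ≤ K * C ^ 4 / (1 + |k|) ^ 4 := by positivity
    have h4 : 0 ≤ |deriv f (Λ * (k - k₀))| := abs_nonneg _
    nlinarith

theorem ft_shift {f : ℝ → ℝ} {K : ℝ} (hf : Test f K) {Λ : ℝ} (hΛ : 0 < Λ) (k₀ ω : ℝ) :
    ∫ k, ((deriv (fun k => f (Λ * (k - k₀))) k : ℝ) : ℂ) * Complex.exp ((k * ω : ℝ) * Complex.I) =
      -Complex.I * ω / Λ * Complex.exp ((k₀ * ω : ℝ) * Complex.I) *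
        ft f (-(ω / (2 * Real.pi * Λ))) := by
  obtain ⟨K', hg⟩ := test_shift hf hΛ k₀
  set g : ℝ → ℝ := fun k => f (Λ * (k - k₀)) with hgd
  have hexp : ∀ k : ℝ, HasDerivAt (fun k : ℝ => Complex.exp ((k * ω : ℝ) * Complex.I))
      (Complex.I * ω * Complex.exp ((k * ω : ℝ) * Complex.I)) k := by
    intro k
    have h1 : HasDerivAt (fun k : ℝ => ((k * ω : ℝ) : ℂ) * Complex.I) ((ω : ℂ) * Complex.I) k := by
      have h2 : HasDerivAt (fun k : ℝ => k * ω) (1 * ω) k := (hasDerivAt_id k).mul_const ω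
      have h3 := (h2.ofReal_comp).mul_const Complex.I
      simpa using h3
    have h4 := h1.cexp
    convert h4 using 1
    ring
  have hgr : ∀ k : ℝ, HasDerivAt (fun k : ℝ => ((g k : ℝ) : ℂ)) ((deriv g k : ℝ) : ℂ) k := by
    intro k
    exact ((hg.diff.differentiable (by simp)) k).hasDerivAt.ofReal_comp
  have hne : ∀ k : ℝ, ‖Complex.exp ((k * ω : ℝ) * Complex.I)‖ = 1 := fun k =>
    Complex.norm_exp_ofReal_mul_I _
  have hcexp : Continuous fun k : ℝ => Complex.exp ((k * ω : ℝ) * Complex.I) := by fun_prop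
  have i1 : Integrable (fun k : ℝ => ((g k : ℝ) : ℂ)) := (MA13_f hg).ofReal
  have i2 : Integrable (fun k : ℝ => ((deriv g k : ℝ) : ℂ)) := (MA13_f' hg).ofReal
  have j1 : Integrable (fun k : ℝ => ((g k : ℝ) : ℂ) * Complex.exp ((k * ω : ℝ) * Complex.I)) :=
    i1.mul_bdd (c := 1) hcexp.aestronglyMeasurable (Filter.Eventually.of_forall fun k => (hne k).le)
  have j2 : Integrable (fun k : ℝ => ((deriv g k : ℝ) : ℂ) *
      Complex.exp ((k * ω : ℝ) * Complex.I)) :=
    i2.mul_bdd (c := 1) hcexp.aestronglyMeasurable (Filter.Eventually.of_forall fun k => (hne k).le)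
  have j3 : Integrable (fun k : ℝ => ((g k : ℝ) : ℂ) *
      (Complex.I * ω * Complex.exp ((k * ω : ℝ) * Complex.I))) := by
    have := j1.const_mul (Complex.I * ω)
    refine this.congr (Filter.Eventually.of_forall fun k => ?_)
    simp only
    ring
  have ibp := integral_mul_deriv_eq_deriv_mul_of_integrable
    (u := fun k : ℝ => ((g k : ℝ) : ℂ)) (v := fun k : ℝ => Complex.exp ((k * ω : ℝ) * Complex.I))
    (u' := fun k : ℝ => ((deriv g k : ℝ) : ℂ))
    (v' := fun k : ℝ => Complex.I * ω * Complex.exp ((k * ω : ℝ) * Complex.I))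
    (fun k _ => hgr k) (fun k _ => hexp k) j3 j2 j1
  have e1 : ∫ k : ℝ, ((deriv g k : ℝ) : ℂ) * Complex.exp ((k * ω : ℝ) * Complex.I)
      = -(Complex.I * ω * ∫ k : ℝ, ((g k : ℝ) : ℂ) * Complex.exp ((k * ω : ℝ) * Complex.I)) := by
    rw [← integral_const_mul]
    rw [eq_neg_iff_add_eq_zero, add_comm, ← eq_neg_iff_add_eq_zero, ← ibp]
    congr 1
    ext k
    ring
  rw [e1]
  have e2 : ∫ k : ℝ, ((g k : ℝ) : ℂ) * Complex.exp ((k * ω : ℝ) * Complex.I)
      = (1 / Λ : ℝ) * (Complex.exp ((k₀ * ω : ℝ) * Complex.I) * ft f (-(ω / (2 * Real.pi * Λ)))) := by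
    have h1 : ∀ k : ℝ, ((g k : ℝ) : ℂ) * Complex.exp ((k * ω : ℝ) * Complex.I)
        = (fun x : ℝ => Complex.exp ((k₀ * ω : ℝ) * Complex.I) * (((f (x) : ℝ) : ℂ) *
          Complex.exp (((x * (ω / Λ) : ℝ) : ℂ) * Complex.I))) (Λ * (k - k₀)) := by
      intro k
      simp only [hgd]
      have h2 : Complex.exp ((k * ω : ℝ) * Complex.I) = Complex.exp ((k₀ * ω : ℝ) * Complex.I) *
          Complex.exp (((Λ * (k - k₀) * (ω / Λ) : ℝ) : ℂ) * Complex.I) := by
        rw [← Complex.exp_add]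
        congr 1
        have : Λ * (k - k₀) * (ω / Λ) = (k - k₀) * ω := by field_simp
        rw [this]
        push_cast
        ring
      rw [h2]
      ring
    simp_rw [h1]
    rw [integral_sub_right_eq_self (fun y : ℝ => (fun x : ℝ => Complex.exp ((k₀ * ω : ℝ) *
      Complex.I) * (((f (x) : ℝ) : ℂ) * Complex.exp (((x * (ω / Λ) : ℝ) : ℂ) * Complex.I)))
        (Λ * y)) k₀]
    rw [Measure.integral_comp_mul_left (fun x : ℝ => Complex.exp ((k₀ * ω : ℝ) *
      Complex.I) * (((f (x) : ℝ) : ℂ) * Complex.exp (((x * (ω / Λ) : ℝ) : ℂ) * Complex.I))) Λ,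
      integral_const_mul]
    rw [ft, abs_of_pos (inv_pos.mpr hΛ), Complex.real_smul, one_div]
    congr 2
    refine integral_congr_ae (Filter.Eventually.of_forall fun x => ?_)
    simp only
    congr 2
    have hpi := Real.pi_ne_zero
    have : -((2 * Real.pi * x * (-(ω / (2 * Real.pi * Λ))) : ℝ) : ℂ) = ((x * (ω / Λ) : ℝ) : ℂ) := by
      rw [← Complex.ofReal_neg]
      congr 1
      field_simp
    rw [this]
  rw [e2]
  push_cast
  ring

theorem lin_int {f : ℝ → ℝ} {K : ℝ} (hf : Test f K) {Λ : ℝ} (hΛ : 0 < Λ) (k₀ : ℝ) :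
    ∫ k, deriv (fun k => f (Λ * (k - k₀))) k = 0 ∧
    ∫ k, deriv (fun k => f (Λ * (k - k₀))) k * k = -(1 / Λ * ∫ x, f x) := by
  obtain ⟨K', hg⟩ := test_shift hf hΛ k₀
  set g : ℝ → ℝ := fun k => f (Λ * (k - k₀)) with hgd
  have hgr : ∀ k : ℝ, HasDerivAt g (deriv g k) k := fun k =>
    ((hg.diff.differentiable (by simp)) k).hasDerivAt
  constructor
  · exact integral_eq_zero_of_hasDerivAt_of_integrable hgr (MA13_f' hg) (MA13_f hg)
  · have h1 : ∫ k, g k * 1 = -∫ k, deriv g k * k := by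
      refine integral_mul_deriv_eq_deriv_mul_of_integrable (u := g) (v := fun k => k)
        (u' := deriv g) (v' := fun _ => 1) (fun k _ => hgr k) (fun k _ => hasDerivAt_id k) ?_
        (MA13_f'x hg) (MA13_fx hg)
      have := MA13_f hg
      simpa [Pi.mul_def] using this
    have h2 : ∫ k, g k = 1 / Λ * ∫ x, f x := by
      rw [hgd]
      rw [integral_sub_right_eq_self (fun y : ℝ => f (Λ * y)) k₀, Measure.integral_comp_mul_left,
        abs_of_pos (inv_pos.mpr hΛ), smul_eq_mul, one_div]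
    rw [← h2]
    simp only [mul_one] at h1
    rw [h1, neg_neg]

theorem ft_bd {f : ℝ → ℝ} {K : ℝ} (hf : Test f K) :
    ∃ H, 0 ≤ H ∧ (∀ s, ‖ft f s‖ ≤ H) ∧ ∀ s t, ‖ft f s - ft f t‖ ≤ H * |s - t| := by
  have hpi := Real.pi_pos
  have i0 : Integrable fun x => |f x| := (MA13_f hf).abs
  have i1 : Integrable fun x => |f x * x| := (MA13_fx hf).abs
  have n0 : 0 ≤ ∫ x, |f x| := integral_nonneg fun x => abs_nonneg _
  have n1 : 0 ≤ ∫ x, |f x * x| := integral_nonneg fun x => abs_nonneg _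
  have hcexp : ∀ s : ℝ, Continuous fun x : ℝ =>
      Complex.exp (-((2 * Real.pi * x * s : ℝ) : ℂ) * Complex.I) := fun s => by fun_prop
  have hne : ∀ s x : ℝ, ‖Complex.exp (-((2 * Real.pi * x * s : ℝ) : ℂ) * Complex.I)‖ = 1 := by
    intro s x
    rw [← Complex.ofReal_neg]
    exact Complex.norm_exp_ofReal_mul_I _
  have ji : ∀ s : ℝ, Integrable fun x : ℝ =>
      ((f x : ℝ) : ℂ) * Complex.exp (-((2 * Real.pi * x * s : ℝ) : ℂ) * Complex.I) := fun s =>
    (MA13_f hf).ofReal.mul_bdd (c := 1) (hcexp s).aestronglyMeasurable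
      (Filter.Eventually.of_forall fun k => (hne s k).le)
  refine ⟨(∫ x, |f x|) + 2 * Real.pi * ∫ x, |f x * x|, by positivity, ?_, ?_⟩
  · intro s
    have h1 : ‖ft f s‖ ≤ ∫ x, |f x| := by
      rw [ft]
      refine norm_integral_le_of_norm_le i0 (Filter.Eventually.of_forall fun x => ?_)
      rw [norm_mul, hne, mul_one, Complex.norm_real, Real.norm_eq_abs]
    have h2 : 0 ≤ 2 * Real.pi * ∫ x, |f x * x| := by positivity
    linarith
  · intro s t
    have h1 : ‖ft f s - ft f t‖ ≤ ∫ x, 2 * Real.pi * |f x * x| * |s - t| := by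
      rw [ft, ft, ← integral_sub (ji s) (ji t)]
      refine norm_integral_le_of_norm_le ((i1.const_mul _).mul_const _)
        (Filter.Eventually.of_forall fun x => ?_)
      rw [← mul_sub, norm_mul, Complex.norm_real, Real.norm_eq_abs]
      have h3 : ‖Complex.exp (-((2 * Real.pi * x * s : ℝ) : ℂ) * Complex.I) -
          Complex.exp (-((2 * Real.pi * x * t : ℝ) : ℂ) * Complex.I)‖
          ≤ 2 * Real.pi * |x| * |s - t| := by
        have h4 : Complex.exp (-((2 * Real.pi * x * s : ℝ) : ℂ) * Complex.I) -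
          Complex.exp (-((2 * Real.pi * x * t : ℝ) : ℂ) * Complex.I)
          = Complex.exp (-((2 * Real.pi * x * t : ℝ) : ℂ) * Complex.I) *
            (Complex.exp (Complex.I * ((-(2 * Real.pi * x * (s - t)) : ℝ) : ℂ)) - 1) := by
          rw [mul_sub, mul_one, ← Complex.exp_add]
          congr 2
          push_cast
          ring
        rw [h4, norm_mul, hne, one_mul]
        refine (Real.norm_exp_I_mul_ofReal_sub_one_le (x := -(2 * Real.pi * x * (s - t)))).trans ?_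
        rw [Real.norm_eq_abs, abs_neg, abs_mul, abs_mul, abs_mul, abs_two, abs_of_pos hpi]
      calc |f x| * _ ≤ |f x| * (2 * Real.pi * |x| * |s - t|) :=
            mul_le_mul_of_nonneg_left h3 (abs_nonneg _)
        _ = 2 * Real.pi * |f x * x| * |s - t| := by rw [abs_mul]; ring
    refine h1.trans ?_
    rw [integral_mul_const, integral_const_mul]
    apply mul_le_mul_of_nonneg_right _ (abs_nonneg _)
    linarith

end Mes
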