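import Pool.Agent.LibMes.DDefs
import Pool.Agent.LibMes.R_MA13

open MeasureTheory Set Filter Topology

namespace Mes

/-- MD13: the function `u(s) = s² |f^(s)|²`. -/
theorem ft_symm (f : ℝ → ℝ) (s : ℝ) : ft f (-s) = (starRingEnd ℂ) (ft f s) := by
  unfold ft
  rw [← integral_conj]
  congr 1
  ext x
  rw [map_mul, Complex.conj_ofReal, ← Complex.exp_conj, map_mul, map_neg, Complex.conj_ofReal,
    Complex.conj_I]
  congr 2
  push_cast
  ring

private theorem MD13_lip {w : ℝ → ℝ} {B ρ : ℝ} (hB : 0 ≤ B) (hρ : 0 ≤ ρ) (h0 : ∀ s, 0 ≤ w s)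
    (h1 : ∀ s, w s ≤ B) (h2 : ∀ s t, |w s - w t| ≤ 2 * B * |s - t|)
    (h3 : ∀ s, ρ < |s| → w s = 0) (s t : ℝ) :
    |s ^ 2 * w s - t ^ 2 * w t| ≤ B * (2 * ρ ^ 2 + 2 * ρ + 1) * |s - t| ∧
      |s * w s - t * w t| ≤ B * (2 * ρ ^ 2 + 2 * ρ + 1) * |s - t| := by
  have hd : 0 ≤ |s - t| := abs_nonneg _
  rcases lt_or_ge ρ |t| with ht | ht
  · rw [h3 t ht, mul_zero, mul_zero, sub_zero, sub_zero]
    rcases lt_or_ge ρ |s| with hs | hs
    · rw [h3 s hs, mul_zero, mul_zero, abs_zero]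
      have : 0 ≤ B * (2 * ρ ^ 2 + 2 * ρ + 1) * |s - t| := by positivity
      exact ⟨this, this⟩
    · have h4 := h2 s t
      rw [h3 t ht, sub_zero, abs_of_nonneg (h0 s)] at h4
      have h5 : s ^ 2 ≤ ρ ^ 2 := by rw [← sq_abs]; exact pow_le_pow_left₀ (abs_nonneg _) hs 2
      have hw := h0 s
      constructor
      · rw [abs_mul, abs_of_nonneg (sq_nonneg s), abs_of_nonneg hw]
        calc s ^ 2 * w s ≤ ρ ^ 2 * (2 * B * |s - t|) := mul_le_mul h5 h4 hw (by positivity)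
          _ ≤ B * (2 * ρ ^ 2 + 2 * ρ + 1) * |s - t| := by
              have : 0 ≤ B * (2 * ρ + 1) * |s - t| := by positivity
              nlinarith
      · rw [abs_mul, abs_of_nonneg hw]
        calc |s| * w s ≤ ρ * (2 * B * |s - t|) := mul_le_mul hs h4 hw hρ
          _ ≤ B * (2 * ρ ^ 2 + 2 * ρ + 1) * |s - t| := by
              have : 0 ≤ B * (2 * ρ ^ 2 + 1) * |s - t| := by positivity
              nlinarith
  · have h5 : t ^ 2 ≤ ρ ^ 2 := by rw [← sq_abs]; exact pow_le_pow_left₀ (abs_nonneg _) ht 2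
    have h4 := h2 s t
    rcases lt_or_ge ρ |s| with hs | hs
    · have h6 := h4
      rw [h3 s hs, zero_sub, abs_neg, abs_of_nonneg (h0 t)] at h6
      rw [h3 s hs, mul_zero, mul_zero, zero_sub, zero_sub, abs_neg, abs_neg]
      have hw := h0 t
      constructor
      · rw [abs_mul, abs_of_nonneg (sq_nonneg t), abs_of_nonneg hw]
        calc t ^ 2 * w t ≤ ρ ^ 2 * (2 * B * |s - t|) := mul_le_mul h5 h6 hw (by positivity)
          _ ≤ B * (2 * ρ ^ 2 + 2 * ρ + 1) * |s - t| := by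
              have : 0 ≤ B * (2 * ρ + 1) * |s - t| := by positivity
              nlinarith
      · rw [abs_mul, abs_of_nonneg hw]
        calc |t| * w t ≤ ρ * (2 * B * |s - t|) := mul_le_mul ht h6 hw hρ
          _ ≤ B * (2 * ρ ^ 2 + 2 * ρ + 1) * |s - t| := by
              have : 0 ≤ B * (2 * ρ ^ 2 + 1) * |s - t| := by positivity
              nlinarith
    · have hw := h0 s
      have hb := h1 s
      constructor
      · have e : s ^ 2 * w s - t ^ 2 * w t = (s - t) * ((s + t) * w s) + t ^ 2 * (w s - w t) := by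
          ring
        have h7 : |(s - t) * ((s + t) * w s)| ≤ |s - t| * (2 * ρ * B) := by
          rw [abs_mul, abs_mul, abs_of_nonneg hw]
          apply mul_le_mul_of_nonneg_left _ hd
          apply mul_le_mul _ hb hw (by positivity)
          exact (abs_add_le s t).trans (by linarith)
        have h8 : |t ^ 2 * (w s - w t)| ≤ ρ ^ 2 * (2 * B * |s - t|) := by
          rw [abs_mul, abs_of_nonneg (sq_nonneg t)]
          exact mul_le_mul h5 h4 (abs_nonneg _) (by positivity)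
        rw [e]
        refine (abs_add_le _ _).trans ((add_le_add h7 h8).trans ?_)
        have : 0 ≤ B * |s - t| := by positivity
        nlinarith
      · have e : s * w s - t * w t = (s - t) * w s + t * (w s - w t) := by ring
        have h7 : |(s - t) * w s| ≤ |s - t| * B := by
          rw [abs_mul, abs_of_nonneg hw]
          exact mul_le_mul_of_nonneg_left hb hd
        have h8 : |t * (w s - w t)| ≤ ρ * (2 * B * |s - t|) := by
          rw [abs_mul]
          exact mul_le_mul ht h4 (abs_nonneg _) hρ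
        rw [e]
        refine (abs_add_le _ _).trans ((add_le_add h7 h8).trans ?_)
        have : 0 ≤ B * |s - t| * ρ ^ 2 := by positivity
        nlinarith

theorem u_lip {f : ℝ → ℝ} {K R : ℝ} (hf : Test f K) (hR : ∀ s, R < |s| → ft f s = 0) :
    ∃ L, 0 ≤ L ∧ (∀ s t, |s ^ 2 * ‖ft f (-s)‖ ^ 2 - t ^ 2 * ‖ft f (-t)‖ ^ 2| ≤ L * |s - t|) ∧
      (∀ s, s ^ 2 * ‖ft f (-s)‖ ^ 2 ≤ L * s ^ 2) ∧
      ∀ s t, 0 ≤ s → 0 ≤ t → |s * ‖ft f s‖ ^ 2 - t * ‖ft f t‖ ^ 2| ≤ L * |s - t| := by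
  obtain ⟨H, hH, hb, hl⟩ := ft_bd hf
  set ρ := max R 0 with hρd
  have hρ : 0 ≤ ρ := le_max_right _ _
  have hsym : ∀ s, ‖ft f (-s)‖ = ‖ft f s‖ := by
    intro s; rw [ft_symm, RCLike.norm_conj]
  set w : ℝ → ℝ := fun s => ‖ft f s‖ ^ 2 with hw
  have h1 : ∀ s, w s ≤ H ^ 2 := fun s => pow_le_pow_left₀ (norm_nonneg _) (hb s) 2
  have h2 : ∀ s t, |w s - w t| ≤ 2 * H ^ 2 * |s - t| := by
    intro s t
    have e : w s - w t = (‖ft f s‖ - ‖ft f t‖) * (‖ft f s‖ + ‖ft f t‖) := by rw [hw]; ring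
    rw [e, abs_mul]
    have e1 : |‖ft f s‖ - ‖ft f t‖| ≤ H * |s - t| := (abs_norm_sub_norm_le _ _).trans (hl s t)
    have e2 : |‖ft f s‖ + ‖ft f t‖| ≤ 2 * H := by
      rw [abs_of_nonneg (by positivity)]
      linarith [hb s, hb t]
    calc |‖ft f s‖ - ‖ft f t‖| * |‖ft f s‖ + ‖ft f t‖| ≤ (H * |s - t|) * (2 * H) :=
          mul_le_mul e1 e2 (abs_nonneg _) (by positivity)
      _ = _ := by ring
  have h3 : ∀ s, ρ < |s| → w s = 0 := by
    intro s hs
    rw [hw]
    simp only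
    rw [hR s (lt_of_le_of_lt (le_max_left _ _) hs)]
    simp
  have key := MD13_lip (w := w) (B := H ^ 2) (ρ := ρ) (by positivity) hρ (fun s => by positivity)
    h1 h2 h3
  refine ⟨H ^ 2 * (2 * ρ ^ 2 + 2 * ρ + 1), by positivity, fun s t => ?_, fun s => ?_,
    fun s t _ _ => (key s t).2⟩
  · rw [hsym, hsym]
    exact (key s t).1
  · rw [hsym]
    have e1 : ‖ft f s‖ ^ 2 ≤ H ^ 2 * (2 * ρ ^ 2 + 2 * ρ + 1) := by
      refine (h1 s).trans ?_
      have : 0 ≤ H ^ 2 * (2 * ρ ^ 2 + 2 * ρ) := by positivity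
      nlinarith
    rw [mul_comm]
    exact mul_le_mul_of_nonneg_right e1 (sq_nonneg s)

end Mes
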