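import Pool.Agent.LibMes.DDefs

open MeasureTheory Set Filter Topology

namespace Mes

private theorem small_ft_bd (f : ℝ → ℝ) (s : ℝ) : ‖ft f s‖ ≤ ∫ x, |f x| := by
  unfold ft
  refine (norm_integral_le_integral_norm _).trans (le_of_eq ?_)
  congr 1
  funext x
  have h1 : ‖Complex.exp (-((2 * Real.pi * x * s : ℝ) : ℂ) * Complex.I)‖ = 1 := by
    rw [← Complex.ofReal_neg, Complex.norm_exp_ofReal_mul_I]
  rw [norm_mul, Complex.norm_real, Real.norm_eq_abs, h1, mul_one]

private theorem small_sq_le_one {V : ℕ} {G : SimpleGraph (Fin V)}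
    {σ : Fin V → Fin V → Fin V → ℝ} (hσ : IsScat G σ) (v u w : Fin V) : σ v u w ^ 2 ≤ 1 := by
  by_cases hA : G.Adj v u
  · have h := hσ.orth v u u hA hA
    rw [if_pos rfl] at h
    have h2 : σ v u w * σ v u w ≤ ∑ x, σ v u x * σ v u x :=
      Finset.single_le_sum (f := fun x => σ v u x * σ v u x) (fun x _ => mul_self_nonneg _)
        (Finset.mem_univ w)
    nlinarith
  · rw [hσ.supp v u w hA]
    norm_num

private theorem small_amp {V : ℕ} {G : SimpleGraph (Fin V)}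
    {σ : Fin V → Fin V → Fin V → ℝ} (hσ : IsScat G σ) {n : ℕ} (y : Fin (n + 1) → Fin V) :
    ampV σ y ^ 2 ≤ 1 := by
  unfold ampV
  rw [← Finset.prod_pow]
  exact Finset.prod_le_one (fun i _ => sq_nonneg _) (fun i _ => small_sq_le_one hσ _ _ _)

private theorem small_adj {V : ℕ} {G : SimpleGraph (Fin V)}
    {σ : Fin V → Fin V → Fin V → ℝ} (hσ : IsScat G σ) {n : ℕ} (y : Fin (n + 1) → Fin V)
    (h : ampV σ y ≠ 0) (j : Fin (n + 1)) : G.Adj (y j) (y (j + 1)) := by
  by_contra hA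
  apply h
  unfold ampV
  apply Finset.prod_eq_zero (Finset.mem_univ (j - 1))
  apply hσ.supp
  have h2 : (2 : Fin (n + 1)) = 1 + 1 := by
    apply Fin.ext
    rw [Fin.val_add]
    change 2 % (n + 1) = (1 % (n + 1) + 1 % (n + 1)) % (n + 1)
    rw [← Nat.add_mod]
  rw [h2, ← add_assoc, sub_add_cancel]
  exact hA

private theorem small_len {V : ℕ} {G : SimpleGraph (Fin V)}
    {σ : Fin V → Fin V → Fin V → ℝ} (hσ : IsScat G σ) {a b : ℝ} {l : Fin V → Fin V → ℝ}
    (hl : IsLen G a b l) {n : ℕ} (y : Fin (n + 1) → Fin V)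
    (h : ampV σ y ≠ 0) : ((n : ℝ) + 1) * a ≤ wlV l y := by
  unfold wlV
  calc ((n : ℝ) + 1) * a = ∑ _i : Fin (n + 1), a := by simp
    _ ≤ _ := Finset.sum_le_sum fun i _ => (hl.mem _ _ (small_adj hσ y h i)).1

/-- MD14: small graphs. -/
theorem small (f : ℝ → ℝ) (K₀ R a v₀ : ℝ) (hf : Test f K₀) (hR : ∀ s, R < |s| → ft f s = 0)
    (ha : 0 < a) : ∃ K, 0 ≤ K ∧ ∀ (V : ℕ) (G : SimpleGraph (Fin V))
      (σ : Fin V → Fin V → Fin V → ℝ) (l : Fin V → Fin V → ℝ) (b Λ : ℝ) (M : ℕ), IsScat G σ →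
      IsLen G a b l → (V : ℝ) ≤ v₀ → 1 ≤ Λ → Λ ^ 2 ≤ V →
      |2 * D2 (cf σ l (fun s => s * ft f (-s)) Λ (M := M)) - vari f| ≤ K := by
  set H : ℝ := ∫ x, |f x| with hH
  have hH0 : 0 ≤ H := integral_nonneg fun x => abs_nonneg _
  set v₁ : ℝ := max v₀ 1 with hv₁
  have hv1 : 1 ≤ v₁ := le_max_right _ _
  set N₀ : ℕ := ⌈2 * Real.pi * √v₀ * R / a⌉₊ with hN₀
  set E : ℝ := v₁ ^ N₀ * (2 * (R ^ 2 * H ^ 2)) with hE
  have hE0 : 0 ≤ E := by positivity
  refine ⟨2 * (N₀ * E) + |vari f|, by positivity, ?_⟩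
  intro V G σ l b Λ M hσ hl hV hΛ hΛV
  have hΛ0 : 0 < Λ := by linarith
  have hpi := Real.pi_pos
  have hΛs : Λ ≤ √v₀ := Real.le_sqrt_of_sq_le (hΛV.trans hV)
  set c : CW (Fin V) M → ℂ := cf σ l (fun s => s * ft f (-s)) Λ (M := M) with hc
  have hterm : ∀ y : CW (Fin V) M, 2 * (((y.1 : ℕ) + 1 : ℕ) : ℝ) * ‖c y‖ ^ 2 ≤
      if (y.1 : ℕ) < N₀ then 2 * (R ^ 2 * H ^ 2) else 0 := by
    intro y
    set s : ℝ := wlV l y.2 / (2 * Real.pi * Λ) with hs
    have hcy : ‖c y‖ = |ampV σ y.2| / (((y.1 : ℕ) + 1 : ℕ) : ℝ) * (|s| * ‖ft f (-s)‖) := by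
      rw [hc]
      unfold cf
      rw [norm_mul, norm_div, norm_mul, Complex.norm_real, Complex.norm_real,
        Complex.norm_natCast, Real.norm_eq_abs, Real.norm_eq_abs]
    by_cases h0 : c y = 0
    · rw [h0]
      simp only [norm_zero, ne_eq, OfNat.ofNat_ne_zero, not_false_eq_true, zero_pow, mul_zero]
      split_ifs
      · positivity
      · exact le_rfl
    · have hsR : |s| ≤ R := by
        by_contra hcon
        push Not at hcon
        apply h0
        have := hR (-s) (by rwa [abs_neg])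
        rw [← norm_eq_zero, hcy, this]
        simp
      have hamp : ampV σ y.2 ≠ 0 := by
        intro h
        apply h0
        rw [← norm_eq_zero, hcy, h]
        simp
      have hR0 : 0 ≤ R := (abs_nonneg s).trans hsR
      have hlen := small_len hσ hl y.2 hamp
      have h3 : (((y.1 : ℕ) : ℝ) + 1) * a ≤ 2 * Real.pi * Λ * R := by
        have h4 : s ≤ R := (le_abs_self s).trans hsR
        rw [hs, div_le_iff₀ (by positivity)] at h4
        linarith
      have h5 : (((y.1 : ℕ) : ℝ) + 1) ≤ 2 * Real.pi * √v₀ * R / a := by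
        rw [le_div_iff₀ ha]
        refine h3.trans ?_
        gcongr
      have h6 : ((y.1 : ℕ) + 1 : ℕ) ≤ N₀ := by
        have := h5.trans (Nat.le_ceil _)
        exact_mod_cast this
      rw [if_pos (by omega), hcy]
      have h7 : (1 : ℝ) ≤ (((y.1 : ℕ) + 1 : ℕ) : ℝ) := by
        push_cast
        have : (0 : ℝ) ≤ ((y.1 : ℕ) : ℝ) := Nat.cast_nonneg _
        linarith
      set m : ℝ := (((y.1 : ℕ) + 1 : ℕ) : ℝ) with hm
      have hm0 : 0 < m := by linarith
      have h8 : ampV σ y.2 ^ 2 ≤ 1 := small_amp hσ y.2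
      have h9 : |s| ^ 2 ≤ R ^ 2 := by gcongr
      have h10 : ‖ft f (-s)‖ ^ 2 ≤ H ^ 2 := by
        have := small_ft_bd f (-s)
        gcongr
      calc 2 * m * (|ampV σ y.2| / m * (|s| * ‖ft f (-s)‖)) ^ 2
          = 2 * (ampV σ y.2 ^ 2 / m) * (|s| ^ 2 * ‖ft f (-s)‖ ^ 2) := by
            rw [← sq_abs (ampV σ y.2)]
            field_simp
        _ ≤ 2 * 1 * (R ^ 2 * H ^ 2) := by
            have h11 : ampV σ y.2 ^ 2 / m ≤ 1 := by
              rw [div_le_one hm0]
              linarith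
            gcongr
        _ = 2 * (R ^ 2 * H ^ 2) := by ring
  have hD : D2 c ≤ N₀ * E := by
    have h1 : D2 c ≤ ∑ y : CW (Fin V) M,
        if (y.1 : ℕ) < N₀ then 2 * (R ^ 2 * H ^ 2) else 0 :=
      Finset.sum_le_sum fun y _ => hterm y
    refine h1.trans ?_
    rw [Fintype.sum_sigma]
    have h2 : ∀ n : Fin M, ∑ _y : Fin ((n : ℕ) + 1) → Fin V,
        (if (n : ℕ) < N₀ then 2 * (R ^ 2 * H ^ 2) else 0) ≤ if (n : ℕ) < N₀ then E else 0 := by
      intro n
      rw [Finset.sum_const, Finset.card_univ]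
      simp only [Fintype.card_fun, Fintype.card_fin, nsmul_eq_mul]
      split_ifs with hn
      · rw [hE]
        have h3 : ((V ^ ((n : ℕ) + 1) : ℕ) : ℝ) ≤ v₁ ^ N₀ := by
          push_cast
          calc (V : ℝ) ^ ((n : ℕ) + 1) ≤ v₁ ^ ((n : ℕ) + 1) := by
                gcongr
                exact hV.trans (le_max_left _ _)
            _ ≤ v₁ ^ N₀ := pow_le_pow_right₀ hv1 (by omega)
        gcongr
      · simp
    refine (Finset.sum_le_sum fun n _ => h2 n).trans ?_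
    rw [Fin.sum_univ_eq_sum_range (fun n : ℕ => if n < N₀ then E else 0) M, ← Finset.sum_filter,
      Finset.sum_const, nsmul_eq_mul]
    gcongr
    calc ((Finset.range M).filter fun n => n < N₀).card ≤ (Finset.range N₀).card := by
          apply Finset.card_le_card
          intro n hn
          rw [Finset.mem_filter] at hn
          exact Finset.mem_range.2 hn.2
      _ = N₀ := Finset.card_range _
  have hD0 : 0 ≤ D2 c := Finset.sum_nonneg fun y _ => by positivity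
  calc |2 * D2 c - vari f| ≤ |2 * D2 c| + |vari f| := abs_sub _ _
    _ = 2 * D2 c + |vari f| := by rw [abs_of_nonneg (by positivity)]
    _ ≤ 2 * (N₀ * E) + |vari f| := by gcongr

end Mes
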