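import Pool.Agent.LibMes.Defs

/-!
# Row MA1: orthogonality of the bond scattering matrix, and the sum of the bond lengths
-/

open MeasureTheory Set Filter Topology

namespace Mes

open Classical in
theorem MA1_sum {V : ℕ} (G : SimpleGraph (Fin V)) (f : Fin V × Fin V → ℝ) :
    ∑ q : Bond G, f q.1 = ∑ v, ∑ w, if G.Adj v w then f (v, w) else 0 := by
  rw [← Finset.sum_subtype (Finset.univ.filter fun q : Fin V × Fin V => G.Adj q.1 q.2)
    (fun q => by simp) f, Finset.sum_filter, Fintype.sum_prod_type]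

theorem bS_orth {V : ℕ} {G : SimpleGraph (Fin V)} {σ : Fin V → Fin V → Fin V → ℝ}
    (hσ : IsScat G σ) : bS G σ * (bS G σ).transpose = 1 := by
  classical
  ext q q'
  rw [Matrix.mul_apply]
  let f : Fin V × Fin V → ℝ := fun p => if q.1.1 = p.2 ∧ q'.1.1 = p.2 then
    σ q.1.1 q.1.2 p.1 * σ q'.1.1 q'.1.2 p.1 else 0
  have h0 : ∀ p : Bond G, bS G σ q p * (bS G σ).transpose p q' = f p.1 := by
    intro p
    change (if q.1.1 = p.1.2 then σ q.1.1 q.1.2 p.1.1 else 0) *
      (if q'.1.1 = p.1.2 then σ q'.1.1 q'.1.2 p.1.1 else 0) = if q.1.1 = p.1.2 ∧ q'.1.1 = p.1.2 then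
        σ q.1.1 q.1.2 p.1.1 * σ q'.1.1 q'.1.2 p.1.1 else 0
    by_cases h1 : q.1.1 = p.1.2
    · by_cases h2 : q'.1.1 = p.1.2
      · rw [if_pos h1, if_pos h2, if_pos ⟨h1, h2⟩]
      · have h3 : ¬ (q.1.1 = p.1.2 ∧ q'.1.1 = p.1.2) := fun h => h2 h.2
        rw [if_neg h2, if_neg h3, mul_zero]
    · have h3 : ¬ (q.1.1 = p.1.2 ∧ q'.1.1 = p.1.2) := fun h => h1 h.1
      rw [if_neg h1, if_neg h3, zero_mul]
  rw [Finset.sum_congr rfl fun p _ => h0 p]
  refine (MA1_sum G f).trans ?_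
  obtain ⟨⟨v, u⟩, hq⟩ := q
  obtain ⟨⟨v', w⟩, hq'⟩ := q'
  change G.Adj v u at hq
  change G.Adj v' w at hq'
  change (∑ x, ∑ y, if G.Adj x y then (if v = y ∧ v' = y then σ v u x * σ v' w x else 0) else 0) = _
  clear h0 f
  by_cases hv : v = v'
  · subst hv
    have h1 : ∀ x, (∑ y, if G.Adj x y then (if v = y ∧ v = y then σ v u x * σ v w x else 0) else 0)
        = σ v u x * σ v w x := by
      intro x
      rw [Finset.sum_eq_single v]
      · by_cases h : G.Adj x v
        · rw [if_pos h, if_pos ⟨rfl, rfl⟩]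
        · rw [if_neg h, hσ.symm v u x, hσ.supp v x u fun h' => h h'.symm, zero_mul]
      · intro y _ hy
        have h2 : ¬ (v = y ∧ v = y) := fun h => hy h.1.symm
        rw [if_neg h2, ite_self]
      · intro h
        exact absurd (Finset.mem_univ _) h
    rw [Finset.sum_congr rfl fun x _ => h1 x, hσ.orth v u w hq hq', Matrix.one_apply]
    by_cases huw : u = w
    · subst huw
      rw [if_pos rfl, if_pos rfl]
    · rw [if_neg huw, if_neg fun h => huw (congrArg (fun z : Bond G => z.1.2) h)]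
  · rw [Matrix.one_apply, if_neg fun h => hv (congrArg (fun z : Bond G => z.1.1) h)]
    refine Finset.sum_eq_zero fun x _ => Finset.sum_eq_zero fun y _ => ?_
    have h2 : ¬ (v = y ∧ v' = y) := fun h => hv (h.1.trans h.2.symm)
    rw [if_neg h2, ite_self]

theorem bl_sum {V : ℕ} (G : SimpleGraph (Fin V)) (l : Fin V → Fin V → ℝ) :
    ∑ q, bl G l q = 2 * len G l := by
  classical
  have h := MA1_sum G fun q => l q.1 q.2
  unfold len bl
  rw [h, ← mul_assoc]
  norm_num

end Mes
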