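import Pool.Agent.LibMes.DDefs
import Pool.Agent.LibMes.R_MA1

open MeasureTheory Set Filter Topology

namespace Mes

/-- MD2: the bond Markov matrix is doubly stochastic. -/
theorem bP_dst {V : ℕ} {G : SimpleGraph (Fin V)} {σ : Fin V → Fin V → Fin V → ℝ}
    (hσ : IsScat G σ) : (∀ q p, 0 ≤ bP G σ q p) ∧ (∀ q, ∑ p, bP G σ q p = 1) ∧
      ∀ p, ∑ q, bP G σ q p = 1 := by
  have h := bS_orth hσ
  have h' : (bS G σ).transpose * bS G σ = 1 := mul_eq_one_comm.1 h
  refine ⟨fun q p => sq_nonneg _, fun q => ?_, fun p => ?_⟩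
  · have h1 := congrFun (congrFun h q) q
    rw [Matrix.mul_apply, Matrix.one_apply_eq] at h1
    rw [← h1]
    exact Finset.sum_congr rfl fun p _ => by
      rw [Matrix.transpose_apply]
      exact sq _
  · have h1 := congrFun (congrFun h' p) p
    rw [Matrix.mul_apply, Matrix.one_apply_eq] at h1
    rw [← h1]
    exact Finset.sum_congr rfl fun q _ => by
      rw [Matrix.transpose_apply]
      exact sq _

end Mes
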