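import Pool.Agent.LibMes.DDefs

open MeasureTheory Set Filter Topology

namespace Mes

private theorem md3_step {V : ℕ} {G : SimpleGraph (Fin V)} {σ : Fin V → Fin V → Fin V → ℝ}
    {C : ℝ} (h : ∀ v u w, σ v u w ^ 2 ≤ C / V) (q p : Bond G) : bP G σ q p ≤ C / V := by
  unfold bP bS
  split_ifs with h1
  · exact h _ _ _
  · rw [zero_pow two_ne_zero]
    exact le_trans (sq_nonneg _) (h q.1.1 q.1.1 q.1.1)

private theorem md3_nn {V : ℕ} {G : SimpleGraph (Fin V)} {σ : Fin V → Fin V → Fin V → ℝ}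
    (q p : Bond G) : 0 ≤ bP G σ q p := sq_nonneg _

private theorem md3_zero {V : ℕ} {G : SimpleGraph (Fin V)} {σ : Fin V → Fin V → Fin V → ℝ}
    (q p : Bond G) (h : q.1.1 ≠ p.1.2) : bP G σ q p = 0 := by
  unfold bP bS
  rw [if_neg h, zero_pow two_ne_zero]

/-- MD3: upper bound after two steps. -/
theorem bP_two {V : ℕ} {G : SimpleGraph (Fin V)} {σ : Fin V → Fin V → Fin V → ℝ} {δ c C : ℝ}
    (h : Mixing δ c C G σ) (q p : Bond G) : (bP G σ ^ 2) q p ≤ C ^ 2 / V ^ 2 := by
  have hC : (0 : ℝ) ≤ C / V := le_trans (sq_nonneg _) (h.upper q.1.1 q.1.1 q.1.1)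
  rw [pow_two, Matrix.mul_apply, ← div_pow]
  by_cases ha : G.Adj p.1.2 q.1.1
  · rw [Finset.sum_eq_single (⟨(p.1.2, q.1.1), ha⟩ : Bond G)]
    · rw [pow_two]
      exact mul_le_mul (md3_step h.upper _ _) (md3_step h.upper _ _) (md3_nn _ _) hC
    · intro r _ hr
      by_cases h1 : q.1.1 = r.1.2
      · by_cases h2 : r.1.1 = p.1.2
        · exact absurd (Subtype.ext (Prod.ext h2 h1.symm)) hr
        · rw [md3_zero r p h2, mul_zero]
      · rw [md3_zero q r h1, zero_mul]
    · intro hn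
      exact absurd (Finset.mem_univ _) hn
  · rw [Finset.sum_eq_zero]
    · positivity
    · intro r _
      by_cases h1 : q.1.1 = r.1.2
      · by_cases h2 : r.1.1 = p.1.2
        · exfalso
          apply ha
          rw [h1, ← h2]
          exact r.2
        · rw [md3_zero r p h2, mul_zero]
      · rw [md3_zero q r h1, zero_mul]

end Mes
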