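import Pool.Agent.LibMes.DDefs

open MeasureTheory Set Filter Topology

namespace Mes

private theorem md4_nn {V : ℕ} {G : SimpleGraph (Fin V)} {σ : Fin V → Fin V → Fin V → ℝ}
    (q p : Bond G) : 0 ≤ bP G σ q p := sq_nonneg _

private theorem md4_nn2 {V : ℕ} {G : SimpleGraph (Fin V)} {σ : Fin V → Fin V → Fin V → ℝ}
    (q p : Bond G) : 0 ≤ (bP G σ ^ 2) q p := by
  rw [pow_two, Matrix.mul_apply]
  exact Finset.sum_nonneg fun r _ => mul_nonneg (md4_nn _ _) (md4_nn _ _)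

private theorem md4_two {V : ℕ} {G : SimpleGraph (Fin V)} {σ : Fin V → Fin V → Fin V → ℝ}
    {δ c C : ℝ} (hc : 0 < c) (h : Mixing δ c C G σ) (q p : Bond G) (ha : G.Adj p.1.2 q.1.1)
    (h1 : q.1.2 ≠ p.1.2) (h2 : q.1.1 ≠ p.1.1) : (c / V) ^ 2 ≤ (bP G σ ^ 2) q p := by
  rw [pow_two (bP G σ), Matrix.mul_apply]
  have hcV : (0 : ℝ) ≤ c / V := by positivity
  refine le_trans ?_ (Finset.single_le_sum (f := fun r => bP G σ q r * bP G σ r p)
    (fun r _ => mul_nonneg (md4_nn _ _) (md4_nn _ _))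
    (Finset.mem_univ (⟨(p.1.2, q.1.1), ha⟩ : Bond G)))
  have e1 : c / V ≤ bP G σ q ⟨(p.1.2, q.1.1), ha⟩ := by
    unfold bP bS
    rw [if_pos rfl]
    exact h.lower _ _ _ q.2 ha.symm h1
  have e2 : c / V ≤ bP G σ ⟨(p.1.2, q.1.1), ha⟩ p := by
    unfold bP bS
    rw [if_pos rfl]
    exact h.lower _ _ _ ha p.2.symm h2
  rw [pow_two]
  exact mul_le_mul e1 e2 hcV (le_trans hcV e1)

/-- MD4: lower bound after four steps. -/
theorem bP_four {V : ℕ} {G : SimpleGraph (Fin V)} {σ : Fin V → Fin V → Fin V → ℝ} {δ c C : ℝ}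
    (hδ : 1 / 2 < δ) (hc : 0 < c) (h : Mixing δ c C G σ) (h2 : 2 ≤ (2 * δ - 1) * V)
    (q p : Bond G) : (c / V) ^ 4 * ((δ * V - 2) * ((2 * δ - 1) * V - 2)) ≤ (bP G σ ^ 4) q p := by
  classical
  have hcV : (0 : ℝ) ≤ c / V := by positivity
  have hdeg : ∀ v, δ * V ≤ ((Finset.univ.filter fun w => G.Adj v w).card : ℝ) := by
    intro v
    refine le_trans (h.deg v) (le_of_eq ?_)
    congr 1
    rw [Set.ncard_eq_toFinset_card']
    congr 1
    ext w
    simp
  set A : Finset (Fin V) := (Finset.univ.filter fun w => G.Adj p.1.2 w) \ {p.1.1, q.1.1} with hA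
  set B : Fin V → Finset (Fin V) := fun x =>
    ((Finset.univ.filter fun w => G.Adj x w) ∩ (Finset.univ.filter fun w => G.Adj q.1.1 w)) \
      {p.1.2, q.1.2} with hB
  set S : Finset (Bond G) := Finset.univ.filter fun r : Bond G => G.Adj p.1.2 r.1.1 ∧
    r.1.2 ≠ p.1.2 ∧ r.1.1 ≠ p.1.1 ∧ G.Adj r.1.2 q.1.1 ∧ q.1.2 ≠ r.1.2 ∧ q.1.1 ≠ r.1.1 with hS
  have hsd : ∀ (T : Finset (Fin V)) (a b : Fin V) (t : ℝ), t ≤ (T.card : ℝ) →
      t - 2 ≤ ((T \ {a, b} : Finset (Fin V)).card : ℝ) := by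
    intro T a b t ht
    have e1 := Finset.le_card_sdiff ({a, b} : Finset (Fin V)) T
    have e2 : ({a, b} : Finset (Fin V)).card ≤ 2 := Finset.card_le_two
    have e3 : T.card ≤ (T \ {a, b}).card + 2 := by omega
    have e4 : (T.card : ℝ) ≤ ((T \ {a, b} : Finset (Fin V)).card : ℝ) + 2 := by exact_mod_cast e3
    linarith
  have hAc : δ * V - 2 ≤ (A.card : ℝ) := hsd _ _ _ _ (hdeg _)
  have hBc : ∀ x, (2 * δ - 1) * V - 2 ≤ ((B x).card : ℝ) := by
    intro x
    apply hsd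
    have e1 := Finset.card_union_add_card_inter (Finset.univ.filter fun w => G.Adj x w)
      (Finset.univ.filter fun w => G.Adj q.1.1 w)
    have e2 : ((Finset.univ.filter fun w => G.Adj x w) ∪
      (Finset.univ.filter fun w => G.Adj q.1.1 w)).card ≤ V := by
      refine le_trans (Finset.card_le_univ _) ?_
      simp
    have e3 : ((Finset.univ.filter fun w => G.Adj x w).card : ℝ) +
        ((Finset.univ.filter fun w => G.Adj q.1.1 w).card : ℝ) ≤ V +
        (((Finset.univ.filter fun w => G.Adj x w) ∩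
          (Finset.univ.filter fun w => G.Adj q.1.1 w)).card : ℝ) := by
      exact_mod_cast (by omega)
    have e4 := hdeg x
    have e5 := hdeg q.1.1
    linarith
  have hTS : ((A.sigma B).card : ℝ) ≤ (S.card : ℝ) := by
    have e1 : (A.sigma B) ⊆ S.image fun r : Bond G => (⟨r.1.1, r.1.2⟩ : Σ _ : Fin V, Fin V) := by
      rintro ⟨x, y⟩ hx
      rw [Finset.mem_sigma] at hx
      obtain ⟨hx1, hx2⟩ := hx
      simp only [hA, hB, Finset.mem_sdiff, Finset.mem_filter, Finset.mem_univ, true_and,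
        Finset.mem_insert, Finset.mem_singleton, not_or, Finset.mem_inter] at hx1 hx2
      rw [Finset.mem_image]
      refine ⟨⟨(x, y), hx2.1.1⟩, ?_, rfl⟩
      rw [hS, Finset.mem_filter]
      exact ⟨Finset.mem_univ _, hx1.1, hx2.2.1, hx1.2.1, hx2.1.2.symm, fun e => hx2.2.2 e.symm,
        fun e => hx1.2.2 e.symm⟩
    exact_mod_cast le_trans (Finset.card_le_card e1) Finset.card_image_le
  have hT : (δ * V - 2) * ((2 * δ - 1) * V - 2) ≤ ((A.sigma B).card : ℝ) := by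
    rw [Finset.card_sigma, Nat.cast_sum]
    calc (δ * V - 2) * ((2 * δ - 1) * V - 2) ≤ (A.card : ℝ) * ((2 * δ - 1) * V - 2) :=
          mul_le_mul_of_nonneg_right hAc (by linarith)
      _ = ∑ _x ∈ A, ((2 * δ - 1) * V - 2) := by rw [Finset.sum_const, nsmul_eq_mul]
      _ ≤ ∑ x ∈ A, ((B x).card : ℝ) := Finset.sum_le_sum fun x _ => hBc x
  have hfour : bP G σ ^ 4 = bP G σ ^ 2 * bP G σ ^ 2 := by rw [← pow_add]
  rw [hfour, Matrix.mul_apply]
  calc (c / V) ^ 4 * ((δ * V - 2) * ((2 * δ - 1) * V - 2)) ≤ (c / V) ^ 4 * (S.card : ℝ) :=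
        mul_le_mul_of_nonneg_left (le_trans hT hTS) (by positivity)
    _ = ∑ _r ∈ S, (c / V) ^ 4 := by rw [Finset.sum_const, nsmul_eq_mul, mul_comm]
    _ ≤ ∑ r ∈ S, (bP G σ ^ 2) q r * (bP G σ ^ 2) r p := by
        refine Finset.sum_le_sum fun r hr => ?_
        rw [hS, Finset.mem_filter] at hr
        obtain ⟨-, a1, a2, a3, a4, a5, a6⟩ := hr
        have e1 := md4_two hc h q r a4 a5 a6
        have e2 := md4_two hc h r p a1 a2 a3
        have e3 : (c / V) ^ 4 = (c / V) ^ 2 * (c / V) ^ 2 := by ring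
        rw [e3]
        exact mul_le_mul e1 e2 (by positivity) (md4_nn2 _ _)
    _ ≤ ∑ r, (bP G σ ^ 2) q r * (bP G σ ^ 2) r p :=
        Finset.sum_le_sum_of_subset_of_nonneg (Finset.subset_univ _)
          fun r _ _ => mul_nonneg (md4_nn2 _ _) (md4_nn2 _ _)

end Mes
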