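import Pool.Agent.LibMes.DDefs

open MeasureTheory Set Filter Topology

namespace Mes

theorem md5_card {V : ℕ} (G : SimpleGraph (Fin V)) :
    (Fintype.card (Bond G) : ℝ) = ∑ v : Fin V, ((G.neighborSet v).ncard : ℝ) := by
  classical
  have h1 : Fintype.card (Bond G) = ∑ v : Fin V, (G.neighborSet v).ncard := by
    have e : Bond G ≃ Σ v : Fin V, G.neighborSet v :=
      { toFun := fun q => ⟨q.1.1, ⟨q.1.2, q.2⟩⟩
        invFun := fun p => ⟨(p.1, p.2.1), p.2.2⟩
        left_inv := fun q => rfl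
        right_inv := fun p => rfl }
    rw [Fintype.card_congr e, Fintype.card_sigma]
    refine Finset.sum_congr rfl fun v _ => ?_
    rw [← Nat.card_coe_set_eq, Nat.card_eq_fintype_card]
  rw [h1]
  push_cast
  rfl

/-- MD5: number of bonds. -/
theorem card_bond {V : ℕ} {G : SimpleGraph (Fin V)} {σ : Fin V → Fin V → Fin V → ℝ} {δ c C : ℝ}
    (h : Mixing δ c C G σ) : δ * V ^ 2 ≤ (Fintype.card (Bond G) : ℝ) ∧
      (Fintype.card (Bond G) : ℝ) ≤ V ^ 2 := by
  constructor
  · rw [md5_card]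
    calc δ * (V : ℝ) ^ 2 = ∑ _v : Fin V, δ * (V : ℝ) := by
          rw [Finset.sum_const, Finset.card_univ, Fintype.card_fin, nsmul_eq_mul]; ring
      _ ≤ _ := Finset.sum_le_sum fun v _ => h.deg v
  · have h1 : Fintype.card (Bond G) ≤ Fintype.card (Fin V × Fin V) :=
      Fintype.card_le_of_injective _ Subtype.val_injective
    rw [Fintype.card_prod, Fintype.card_fin] at h1
    have h2 : (Fintype.card (Bond G) : ℝ) ≤ ((V * V : ℕ) : ℝ) := by exact_mod_cast h1
    rw [pow_two]
    push_cast at h2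
    exact h2

end Mes
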