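import Pool.Agent.LibMes.R_MD1
import Pool.Agent.LibMes.R_MD2
import Pool.Agent.LibMes.R_MD3
import Pool.Agent.LibMes.R_MD4
import Pool.Agent.LibMes.R_MD5
import Pool.Agent.LibMes.R_MD10
import Pool.Agent.LibMes.R_MD11
import Pool.Agent.LibMes.R_MD12
import Pool.Agent.LibMes.R_MD13
import Pool.Agent.LibMes.R_MD14

open MeasureTheory Set Filter Topology

namespace Mes

/-- The function `s² |f^(s)|²`. -/
noncomputable def MD15_U (f : ℝ → ℝ) (s : ℝ) : ℝ := s ^ 2 * ‖ft f (-s)‖ ^ 2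

/-- The diagonal sum in terms of walks. -/
theorem MD15_D2 {V : ℕ} {G : SimpleGraph (Fin V)} {σ : Fin V → Fin V → Fin V → ℝ}
    (hσ : IsScat G σ) (l : Fin V → Fin V → ℝ) (f : ℝ → ℝ) (Λ : ℝ) (M : ℕ) :
    2 * D2 (cf σ l (fun s => s * ft f (-s)) Λ (M := M)) = ∑ n ∈ Finset.range M,
      4 / ((n : ℝ) + 1) * ∑ x : Fin (n + 1) → Bond G, amp (bP G σ) x *
        MD15_U f (wl (bl G l) x / (2 * Real.pi * Λ)) := by
  unfold D2
  rw [Fintype.sum_sigma, Finset.mul_sum, Finset.sum_range]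
  refine Finset.sum_congr rfl fun n _ => ?_
  rw [walkP hσ l n fun t => MD15_U f (t / (2 * Real.pi * Λ)), Finset.mul_sum, Finset.mul_sum]
  refine Finset.sum_congr rfl fun y _ => ?_
  have hn : ((n : ℕ) : ℝ) + 1 ≠ 0 := by positivity
  unfold cf MD15_U
  rw [norm_mul, norm_div, norm_mul, Complex.norm_real, Complex.norm_natCast, Complex.norm_real]
  simp only [Real.norm_eq_abs]
  rw [mul_pow, div_pow, mul_pow, sq_abs, sq_abs]
  push_cast
  field_simp
  ring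

/-- For large graphs the bond chain satisfies Doeblin's condition. -/
theorem MD15_dst {V : ℕ} {G : SimpleGraph (Fin V)} {σ : Fin V → Fin V → Fin V → ℝ} {δ c C : ℝ}
    (hδ : 1 / 2 < δ) (hc : 0 < c) (h : Mixing δ c C G σ) (h1 : 4 ≤ (2 * δ - 1) * V)
    (h2 : 4 ≤ δ * V) {α : ℝ} (hα : α ≤ c ^ 4 * (δ * (2 * δ - 1)) / 4 * δ) :
    Dst α (C ^ 2) (bP G σ) ∧ 0 < Fintype.card (Bond G) := by
  have hδ0 : 0 < δ := by linarith
  have hδ1 : 0 < 2 * δ - 1 := by linarith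
  have hV : (0 : ℝ) < V := by
    by_contra hV
    have h3 : (V : ℝ) ≤ 0 := not_lt.1 hV
    nlinarith
  obtain ⟨m1, m2⟩ := card_bond h
  have hm : (0 : ℝ) < Fintype.card (Bond G) := lt_of_lt_of_le (by positivity) m1
  obtain ⟨d1, d2, d3⟩ := bP_dst h.scat
  refine ⟨⟨d1, d2, d3, fun q p => ?_, fun q p => ?_⟩, by exact_mod_cast hm⟩
  · refine (bP_two h q p).trans ?_
    exact div_le_div_of_nonneg_left (sq_nonneg C) hm m2
  · refine le_trans ?_ (bP_four hδ hc h (by linarith) q p)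
    rw [div_le_iff₀ hm]
    have e1 : δ * V / 2 ≤ δ * V - 2 := by linarith
    have e2 : (2 * δ - 1) * V / 2 ≤ (2 * δ - 1) * V - 2 := by linarith
    calc α ≤ c ^ 4 * (δ * (2 * δ - 1)) / 4 * δ := hα
      _ = (c / V) ^ 4 * (δ * V / 2 * ((2 * δ - 1) * V / 2)) * (δ * V ^ 2) := by
          field_simp
          ring
      _ ≤ (c / V) ^ 4 * ((δ * V - 2) * ((2 * δ - 1) * V - 2)) * Fintype.card (Bond G) := by
          refine mul_le_mul (mul_le_mul_of_nonneg_left ?_ (by positivity)) m1 (by positivity) ?_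
          · exact mul_le_mul e1 e2 (by positivity) (by linarith)
          · refine mul_nonneg (by positivity) (mul_nonneg (by linarith) (by linarith))

/-- MD15: the diagonal side. -/
theorem diag (f : ℝ → ℝ) (K₀ R a b δ c C : ℝ) (hf : Test f K₀) (hR : ∀ s, R < |s| → ft f s = 0)
    (ha : 0 < a) (hδ : 1 / 2 < δ) (hc : 0 < c) : ∃ K, ∀ (V : ℕ) (G : SimpleGraph (Fin V))
      (σ : Fin V → Fin V → Fin V → ℝ) (l : Fin V → Fin V → ℝ) (Λ : ℝ) (M : ℕ),
      Mixing δ c C G σ → IsLen G a b l → 1 ≤ Λ → Λ ^ 2 ≤ V →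
      2 * Real.pi * Λ * R < (M + 1) * a →
      |2 * D2 (cf σ l (fun s => s * ft f (-s)) Λ (M := M)) - vari f| ≤ K / √Λ := by
  have hpi := Real.pi_pos
  have hpi3 := Real.pi_gt_three
  have hδ0 : 0 < δ := by linarith
  have hδ1 : 0 < 2 * δ - 1 := by linarith
  set α : ℝ := min (c ^ 4 * (δ * (2 * δ - 1)) / 4 * δ) (1 / 2) with hαd
  have hα0 : 0 < α := lt_min (by positivity) (by norm_num)
  have hα1 : α < 1 := lt_of_le_of_lt (min_le_right _ _) (by norm_num)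
  set v₀ : ℝ := 4 / (2 * δ - 1) + 4 / δ with hv₀
  obtain ⟨L, hL0, hL1, hL2, hL3⟩ := u_lip hf hR
  obtain ⟨K₁, hK₁0, hK₁⟩ := small f K₀ R a v₀ hf hR ha
  set D : ℝ := max b 0 with hD
  have hD0 : 0 ≤ D := le_max_right _ _
  obtain ⟨K₂, hK₂0, hK₂⟩ := closed_avg α (C ^ 2) D hα0 hα1 hD0
  set A : ℝ := 2 * Real.pi * |R| / a with hA
  have hA0 : 0 ≤ A := by positivity
  obtain ⟨K₃, hK₃0, hK₃⟩ := err_sum (1 - α) A (by linarith) (by linarith) hA0
  obtain ⟨K₄, hK₄0, hK₄⟩ := riem (fun s => s * ‖ft f s‖ ^ 2) L R D hL3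
    (fun s hs => by
      rw [hR s (lt_of_lt_of_le hs (le_abs_self s))]
      simp)
  refine ⟨K₁ * (1 + |v₀|) + (K₂ * L * K₃ + 4 * L * D ^ 2 + 4 * K₄ * D), ?_⟩
  intro V G σ l Λ M hmix hl hΛ hΛV hM
  have hΛ0 : 0 < Λ := by linarith
  have hsq : 0 < √Λ := Real.sqrt_pos.2 hΛ0
  have hsq1 : √Λ ≤ Λ := by
    rw [Real.sqrt_le_left (by linarith)]
    nlinarith
  have hsq2 : 1 ≤ √Λ := by rwa [Real.one_le_sqrt]
  rw [le_div_iff₀ hsq]
  by_cases hV : (V : ℝ) ≤ v₀
  · have h1 := hK₁ V G σ l b Λ M hmix.scat hl hV hΛ hΛV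
    have h2 : √Λ ≤ 1 + |v₀| := by
      have := le_abs_self v₀
      nlinarith
    calc _ ≤ K₁ * (1 + |v₀|) := mul_le_mul h1 h2 hsq.le hK₁0
      _ ≤ _ := by
        have : 0 ≤ K₂ * L * K₃ + 4 * L * D ^ 2 + 4 * K₄ * D := by positivity
        linarith
  rw [not_le] at hV
  have hV1 : 4 ≤ (2 * δ - 1) * V := by
    have : 4 / (2 * δ - 1) ≤ V := by
      have : 0 < 4 / δ := by positivity
      linarith
    rw [div_le_iff₀ hδ1] at this
    linarith
  have hV2 : 4 ≤ δ * V := by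
    have : 4 / δ ≤ V := by
      have : 0 < 4 / (2 * δ - 1) := by positivity
      linarith
    rw [div_le_iff₀ hδ0] at this
    linarith
  obtain ⟨hP, hm⟩ := MD15_dst hδ hc hmix hV1 hV2 (α := α) (min_le_left _ _)
  have hmR : (0 : ℝ) < Fintype.card (Bond G) := by exact_mod_cast hm
  have hlen : ∀ q, bl G l q ∈ Icc a b := fun q => hl.mem _ _ q.2
  have hab : a ≤ b := by
    obtain ⟨q⟩ := Fintype.card_pos_iff.1 hm
    exact (hlen q).1.trans (hlen q).2
  have hbD : b = D := by rw [hD, max_eq_left (by linarith)]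
  set mean : ℝ := (∑ i, bl G l i) / Fintype.card (Bond G) with hmean
  have hmean1 : a ≤ mean := by
    rw [hmean, le_div_iff₀ hmR]
    calc a * Fintype.card (Bond G) = ∑ _i : Bond G, a := by simp [mul_comm]
      _ ≤ _ := Finset.sum_le_sum fun i _ => (hlen i).1
  have hmean2 : mean ≤ D := by
    rw [hmean, div_le_iff₀ hmR, ← hbD]
    calc ∑ i, bl G l i ≤ ∑ _i : Bond G, b := Finset.sum_le_sum fun i _ => (hlen i).2
      _ = _ := by simp [mul_comm]
  have hD' : 0 < D := by rw [← hbD]; linarith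
  set q : ℝ := 2 * Real.pi * Λ with hq
  have hq0 : 0 < q := by positivity
  have hqΛ : Λ ≤ q := by
    rw [hq]; nlinarith
  set τ : ℝ := mean / q with hτ
  have hτ0 : 0 < τ := by rw [hτ]; exact div_pos (by linarith) hq0
  have hτΛ : τ ≤ D / Λ := by
    rw [hτ]
    exact div_le_div₀ hD0 hmean2 hΛ0 hqΛ
  have hτD : τ ≤ D := hτΛ.trans (div_le_self hD0 hΛ)
  have hU : ∀ s, MD15_U f s = s * (s * ‖ft f s‖ ^ 2) := by
    intro s
    unfold MD15_U
    rw [ft_symm, RCLike.norm_conj]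
    ring
  have hU0 : ∀ s, R < s → MD15_U f s = 0 := by
    intro s hs
    rw [hU, hR s (lt_of_lt_of_le hs (le_abs_self s))]
    simp
  -- the closed walk averages
  set E : ℕ → ℝ := fun n => ∑ x : Fin (n + 1) → Bond G, amp (bP G σ) x *
        MD15_U f (wl (bl G l) x / q) with hE
  have h1 : 2 * D2 (cf σ l (fun s => s * ft f (-s)) Λ (M := M)) =
      ∑ n ∈ Finset.range M, 4 / ((n : ℝ) + 1) * E n := MD15_D2 hmix.scat l f Λ M
  -- the main sum
  have h2 : ∑ n ∈ Finset.range M, 4 / ((n : ℝ) + 1) * MD15_U f ((n + 1) * τ) =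
      4 * ∑ n ∈ Finset.range M, τ * (((n : ℝ) + 1) * τ * ‖ft f ((n + 1) * τ)‖ ^ 2) := by
    rw [Finset.mul_sum]
    refine Finset.sum_congr rfl fun n _ => ?_
    rw [hU]
    have : (n : ℝ) + 1 ≠ 0 := by positivity
    field_simp
  have h3 : |∑ n ∈ Finset.range M, 4 / ((n : ℝ) + 1) * MD15_U f ((n + 1) * τ) - vari f| ≤
      4 * K₄ * (D / Λ) := by
    have e1 := hK₄ τ M hτ0 hτD (by
      rw [hτ, ← mul_div_assoc, lt_div_iff₀ hq0]
      calc R * q = 2 * Real.pi * Λ * R := by rw [hq]; ring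
        _ < (M + 1) * a := hM
        _ ≤ _ := by gcongr)
    rw [h2, vari, ← mul_sub, abs_mul, abs_of_pos (by norm_num : (0 : ℝ) < 4), mul_assoc]
    refine mul_le_mul_of_nonneg_left (e1.trans ?_) (by norm_num)
    exact mul_le_mul_of_nonneg_left hτΛ hK₄0
  -- the errors
  have hwl : ∀ (n : ℕ) (x : Fin (n + 1) → Bond G), (n + 1) * a ≤ wl (bl G l) x := by
    intro n x
    unfold wl
    calc ((n : ℝ) + 1) * a = ∑ _i : Fin (n + 1), a := by simp
      _ ≤ _ := Finset.sum_le_sum fun i _ => (hlen _).1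
  have hvan : ∀ n : ℕ, R * q < (n + 1) * a → E n = 0 ∧ MD15_U f ((n + 1) * τ) = 0 := by
    intro n hn
    constructor
    · refine Finset.sum_eq_zero fun x _ => ?_
      rw [hU0, mul_zero]
      rw [lt_div_iff₀ hq0]
      exact lt_of_lt_of_le hn (hwl n x)
    · refine hU0 _ ?_
      rw [hτ, ← mul_div_assoc, lt_div_iff₀ hq0]
      refine lt_of_lt_of_le hn ?_
      gcongr
  have herr0 : |4 / (((0 : ℕ) : ℝ) + 1) * (E 0 - MD15_U f (((0 : ℕ) + 1) * τ))| ≤
      4 * L * (D / Λ) ^ 2 := by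
    have e1 : E 0 = 0 := by
      have e2 := walkP hmix.scat l 0 fun t => MD15_U f (t / q)
      rw [hE]
      simp only
      rw [e2]
      refine Finset.sum_eq_zero fun y _ => ?_
      have e3 : ampV σ y = 0 := by
        unfold ampV
        refine Finset.prod_eq_zero (Finset.mem_univ 0) ?_
        refine hmix.scat.supp _ _ _ ?_
        have e4 : (0 : Fin (0 + 1)) + 1 = 0 + 2 := Subsingleton.elim (α := Fin 1) _ _
        rw [e4]
        exact G.irrefl
      rw [e3]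
      simp
    rw [e1, zero_sub, mul_neg, abs_neg, abs_mul]
    have e5 := hL2 τ
    have e6 : 0 ≤ MD15_U f τ := by unfold MD15_U; positivity
    have e7 : MD15_U f τ ≤ L * τ ^ 2 := e5
    have e8 : τ ^ 2 ≤ (D / Λ) ^ 2 := by gcongr
    simp only [Nat.cast_zero, zero_add, div_one, one_mul]
    rw [abs_of_nonneg e6, abs_of_pos (by norm_num : (0 : ℝ) < 4)]
    nlinarith
  have herr : ∀ n : ℕ, |4 / (((n + 1 : ℕ) : ℝ) + 1) * (E (n + 1) -
      MD15_U f ((((n + 1 : ℕ) : ℝ) + 1) * τ))| ≤ K₂ * L * (4 / (n + 2 : ℝ) *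
        (√(n + 2) / Λ + (n + 2) ^ 2 / Λ ^ 2 * (1 - α) ^ (n / 4))) := by
    intro n
    have e1 := hK₂ (Bond G) (bP G σ) hP (bl G l) (fun i => ⟨by linarith [(hlen i).1], by
      rw [← hbD]; exact (hlen i).2⟩) hm (fun t => MD15_U f (t / q)) (L / q) (L / q ^ 2)
      (fun s t => by
        refine (hL1 (s / q) (t / q)).trans (le_of_eq ?_)
        rw [← sub_div, abs_div, abs_of_pos hq0]
        ring)
      (fun s => by
        have e2 : 0 ≤ MD15_U f (s / q) := by unfold MD15_U; positivity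
        rw [abs_of_nonneg e2]
        refine (hL2 (s / q)).trans (le_of_eq ?_)
        ring) n
    have e3 : (((n + 1 : ℕ) : ℝ) + 1) = n + 2 := by push_cast; ring
    have e4 : ((n : ℝ) + 2) * τ = (n + 2) * mean / q := by rw [hτ]; ring
    rw [e3, e4, abs_mul, abs_of_pos (by positivity : (0 : ℝ) < 4 / (n + 2))]
    have e5 : |E (n + 1) - MD15_U f ((n + 2) * mean / q)| ≤
        K₂ * (L / q * √(n + 2) + L / q ^ 2 * (n + 2) ^ 2 * (1 - α) ^ (n / 4)) := e1
    have e6 : K₂ * (L / q * √(n + 2) + L / q ^ 2 * (n + 2) ^ 2 * (1 - α) ^ (n / 4)) ≤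
        K₂ * L * (√(n + 2) / Λ + (n + 2) ^ 2 / Λ ^ 2 * (1 - α) ^ (n / 4)) := by
      have e7 : K₂ * (L / q * √(n + 2) + L / q ^ 2 * (n + 2) ^ 2 * (1 - α) ^ (n / 4)) =
          K₂ * L * (√(n + 2) / q + (n + 2) ^ 2 / q ^ 2 * (1 - α) ^ (n / 4)) := by ring
      rw [e7]
      have e8 : 0 ≤ (1 - α) ^ (n / 4) := pow_nonneg (by linarith) _
      gcongr
    calc 4 / ((n : ℝ) + 2) * |E (n + 1) - MD15_U f ((n + 2) * mean / q)|
        ≤ 4 / ((n : ℝ) + 2) * (K₂ * L * (√(n + 2) / Λ + (n + 2) ^ 2 / Λ ^ 2 *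
          (1 - α) ^ (n / 4))) :=
          mul_le_mul_of_nonneg_left (e5.trans e6) (by positivity)
      _ = _ := by ring
  -- the sum of the errors
  set N := ⌊A * Λ⌋₊ with hN
  have hvan2 : ∀ n, N ≤ n → 4 / ((n : ℝ) + 1) * (E n - MD15_U f ((n + 1) * τ)) = 0 := by
    intro n hn
    have e1 : A * Λ < n + 1 := by
      have := Nat.lt_floor_add_one (A * Λ)
      have e2 : ((⌊A * Λ⌋₊ : ℕ) : ℝ) ≤ n := by exact_mod_cast hn
      linarith
    have e3 : R * q < (n + 1) * a := by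
      have e4 : A * Λ * a = |R| * q := by
        rw [hA, hq]; field_simp
      have e5 : A * Λ * a < (n + 1) * a := mul_lt_mul_of_pos_right e1 ha
      have e6 : R * q ≤ |R| * q := mul_le_mul_of_nonneg_right (le_abs_self R) hq0.le
      linarith
    obtain ⟨e7, e8⟩ := hvan n e3
    rw [e7, e8, sub_zero, mul_zero]
  have h4 : |∑ n ∈ Finset.range M, 4 / ((n : ℝ) + 1) * E n -
      ∑ n ∈ Finset.range M, 4 / ((n : ℝ) + 1) * MD15_U f ((n + 1) * τ)| ≤
      K₂ * L * (K₃ / √Λ) + 4 * L * (D / Λ) ^ 2 := by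
    rw [← Finset.sum_sub_distrib]
    have e1 : ∀ n ∈ Finset.range M, 4 / ((n : ℝ) + 1) * E n -
        4 / ((n : ℝ) + 1) * MD15_U f ((n + 1) * τ) =
        4 / ((n : ℝ) + 1) * (E n - MD15_U f ((n + 1) * τ)) := fun n _ => by ring
    rw [Finset.sum_congr rfl e1]
    refine (Finset.abs_sum_le_sum_abs _ _).trans ?_
    have e2 : ∑ n ∈ Finset.range M, |4 / ((n : ℝ) + 1) * (E n - MD15_U f ((n + 1) * τ))| ≤
        ∑ n ∈ Finset.range (N + 1), |4 / ((n : ℝ) + 1) * (E n - MD15_U f ((n + 1) * τ))| := by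
      rw [← Finset.sum_filter_add_sum_filter_not (Finset.range M) (fun n => n < N + 1)]
      have e3 : ∑ n ∈ (Finset.range M).filter (fun n => ¬ n < N + 1),
          |4 / ((n : ℝ) + 1) * (E n - MD15_U f ((n + 1) * τ))| = 0 := by
        refine Finset.sum_eq_zero fun n hn => ?_
        rw [Finset.mem_filter] at hn
        rw [hvan2 n (by omega), abs_zero]
      rw [e3, add_zero]
      refine Finset.sum_le_sum_of_subset_of_nonneg ?_ fun _ _ _ => abs_nonneg _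
      intro n hn
      rw [Finset.mem_filter] at hn
      exact Finset.mem_range.2 hn.2
    refine e2.trans ?_
    rw [Finset.sum_range_succ']
    refine add_le_add ?_ herr0
    refine (Finset.sum_le_sum fun n _ => herr n).trans ?_
    rw [← Finset.mul_sum]
    refine mul_le_mul_of_nonneg_left ?_ (by positivity)
    exact hK₃ Λ N hΛ (Nat.floor_le (by positivity))
  rw [h1]
  have h5 := abs_sub_le (∑ n ∈ Finset.range M, 4 / ((n : ℝ) + 1) * E n)
    (∑ n ∈ Finset.range M, 4 / ((n : ℝ) + 1) * MD15_U f ((n + 1) * τ)) (vari f)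
  have h6 : |∑ n ∈ Finset.range M, 4 / ((n : ℝ) + 1) * E n - vari f| ≤
      K₂ * L * (K₃ / √Λ) + 4 * L * (D / Λ) ^ 2 + 4 * K₄ * (D / Λ) := by linarith
  have h7 : D / Λ * √Λ ≤ D := by
    rw [div_mul_eq_mul_div, div_le_iff₀ hΛ0]
    exact mul_le_mul_of_nonneg_left hsq1 hD0
  have h8 : (D / Λ) ^ 2 * √Λ ≤ D ^ 2 := by
    have e1 : (D / Λ) ^ 2 * √Λ = D / Λ * (D / Λ * √Λ) := by ring
    rw [e1]
    calc D / Λ * (D / Λ * √Λ) ≤ D * D := mul_le_mul (div_le_self hD0 hΛ) h7 (by positivity) hD0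
      _ = D ^ 2 := by ring
  calc |∑ n ∈ Finset.range M, 4 / ((n : ℝ) + 1) * E n - vari f| * √Λ
      ≤ (K₂ * L * (K₃ / √Λ) + 4 * L * (D / Λ) ^ 2 + 4 * K₄ * (D / Λ)) * √Λ :=
        mul_le_mul_of_nonneg_right h6 hsq.le
    _ = K₂ * L * K₃ + 4 * L * ((D / Λ) ^ 2 * √Λ) + 4 * K₄ * (D / Λ * √Λ) := by
        field_simp
    _ ≤ K₂ * L * K₃ + 4 * L * D ^ 2 + 4 * K₄ * D := by gcongr
    _ ≤ _ := by
        have : 0 ≤ K₁ * (1 + |v₀|) := by positivity
        linarith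

end Mes
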