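import Pool.Agent.LibMes.FLaw
import Pool.Agent.LibMes.MC23
import Pool.Agent.LibMes.R_EXP
import Pool.Agent.LibMes.R_MD15

/-! Assembly of the moment theorem. -/

open MeasureTheory ProbabilityTheory Set Filter Topology

namespace Mes

/-- amplitudes vanish unless all steps are edges -/
theorem ampV_adj {V : ℕ} {G : SimpleGraph (Fin V)} {σ : Fin V → Fin V → Fin V → ℝ}
    (hσ : IsScat G σ) {n : ℕ} {y : Fin (n + 1) → Fin V} (h : ampV σ y ≠ 0) (i : Fin (n + 1)) :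
    G.Adj (y i) (y (i + 1)) := by
  by_contra hcon
  apply h
  unfold ampV
  refine Finset.prod_eq_zero (Finset.mem_univ i) ?_
  rw [hσ.symm, hσ.supp]
  exact fun h2 => hcon h2.symm

theorem wlV_bound {V : ℕ} {G : SimpleGraph (Fin V)} {σ : Fin V → Fin V → Fin V → ℝ}
    (hσ : IsScat G σ) {a b : ℝ} {l : Fin V → Fin V → ℝ} (hl : IsLen G a b l) {n : ℕ}
    {y : Fin (n + 1) → Fin V} (h : ampV σ y ≠ 0) :
    a * (n + 1 : ℕ) ≤ wlV l y ∧ wlV l y ≤ b * (n + 1 : ℕ) := by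
  unfold wlV
  constructor
  · calc a * (n + 1 : ℕ) = ∑ _i : Fin (n + 1), a := by simp [mul_comm]
      _ ≤ _ := Finset.sum_le_sum fun i _ => (hl.mem _ _ (ampV_adj hσ h i)).1
  · calc ∑ i, l (y i) (y (i + 1)) ≤ ∑ _i : Fin (n + 1), b :=
        Finset.sum_le_sum fun i _ => (hl.mem _ _ (ampV_adj hσ h i)).2
      _ = _ := by simp [mul_comm]

theorem cf_bound {V : ℕ} {G : SimpleGraph (Fin V)} {σ : Fin V → Fin V → Fin V → ℝ}
    (hσ : IsScat G σ) {a b : ℝ} (ha : 0 < a) {l : Fin V → Fin V → ℝ} (hl : IsLen G a b l)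
    {f : ℝ → ℝ} {H : ℝ} (hH : ∀ s, ‖ft f s‖ ≤ H) {Λ : ℝ} (hΛ : 1 ≤ Λ) {M : ℕ}
    (y : CW (Fin V) M) :
    ‖cf σ l (fun s => s * ft f (-s)) Λ y‖ ≤ b * H / (2 * Real.pi * Λ) * |ampV σ y.2| := by
  have hpi := Real.pi_pos
  have hΛ0 : 0 < Λ := by linarith
  have hH0 : 0 ≤ H := (norm_nonneg _).trans (hH 0)
  by_cases h : ampV σ y.2 = 0
  · unfold cf
    rw [h]
    simp
  · obtain ⟨h1, h2⟩ := wlV_bound hσ hl h
    have hn : (0 : ℝ) < ((y.1 : ℕ) + 1 : ℕ) := by positivity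
    have hw : 0 < wlV l y.2 := lt_of_lt_of_le (by positivity) h1
    unfold cf
    rw [norm_mul, norm_div, Complex.norm_real, Real.norm_eq_abs]
    have e2 : ‖((((y.1 : ℕ) + 1 : ℕ) : ℕ) : ℂ)‖ = ((y.1 : ℕ) + 1 : ℕ) := by
      rw [Complex.norm_natCast]
    have hb : 0 ≤ b := by
      have h5 : a * ((y.1 : ℕ) + 1 : ℕ) ≤ b * ((y.1 : ℕ) + 1 : ℕ) := h1.trans h2
      exact ha.le.trans (le_of_mul_le_mul_right h5 hn)
    simp only
    rw [e2, norm_mul, Complex.norm_real, Real.norm_eq_abs,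
      abs_of_pos (show 0 < wlV l y.2 / (2 * Real.pi * Λ) by positivity)]
    have h3 : wlV l y.2 / (2 * Real.pi * Λ) * ‖ft f (-(wlV l y.2 / (2 * Real.pi * Λ)))‖
        ≤ b * ((y.1 : ℕ) + 1 : ℕ) / (2 * Real.pi * Λ) * H := by
      have := hH (-(wlV l y.2 / (2 * Real.pi * Λ)))
      gcongr
    calc |ampV σ y.2| / ((y.1 : ℕ) + 1 : ℕ) * (wlV l y.2 / (2 * Real.pi * Λ) *
          ‖ft f (-(wlV l y.2 / (2 * Real.pi * Λ)))‖)
        ≤ |ampV σ y.2| / ((y.1 : ℕ) + 1 : ℕ) * (b * ((y.1 : ℕ) + 1 : ℕ) / (2 * Real.pi * Λ) * H) := by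
          gcongr
      _ = _ := by field_simp

theorem gaussMom_gm (S : ℝ) (r : ℕ) : gaussMom S r = gm r * S ^ (r / 2) := by
  unfold gaussMom gm
  split_ifs <;> simp

theorem moments : Moments := by
  intro f R a b δ c C r hR ha hδ hc
  have hpi := Real.pi_pos
  obtain ⟨K₀, hT⟩ := test_schwartz f
  obtain ⟨H, hH0, hH, -⟩ := ft_bd hT
  set R' : ℝ := max R 1 with hR'
  have hR2 : ∀ s, R' < |s| → ft f s = 0 := fun s hs => hR s ((le_max_left _ _).trans_lt hs)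
  have hR1 : 1 ≤ R' := le_max_right _ _
  set c₁ : ℝ := max 1 (2 * Real.pi * R' / a) with hc₁
  have hc1 : 1 ≤ c₁ := le_max_left _ _
  have hc2 : 2 * Real.pi * R' ≤ c₁ * a := by
    have := le_max_right 1 (2 * Real.pi * R' / a)
    rwa [← hc₁, div_le_iff₀ ha] at this
  set b' : ℝ := max b 0 with hb'
  set B : ℝ := max (4 * c₁ ^ 2) (c₁ * b' * H / Real.pi) with hB
  obtain ⟨K1, hK1⟩ := comb r (max C 1) B
  obtain ⟨K2, hK2⟩ := diag (fun x => f x) K₀ R' a b δ c C hT hR2 ha hδ hc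
  set S := vari f with hS
  have hS0 : 0 ≤ S := vari_nonneg f
  set q := r / 2 with hq
  set K3 : ℝ := q * (S + |K2|) ^ (q - 1) * |K2| with hK3
  have hK30 : 0 ≤ K3 := by positivity
  refine ⟨|K1| * (4 * c₁ ^ 2) + gm r * K3, ?_⟩
  intro V G σ l κ Λ hmix hlen hind hlev hΛ hΛV
  have hΛ0 : 0 < Λ := by linarith
  have hVr : (0 : ℝ) < V := by nlinarith
  have hV0 : 0 < V := by exact_mod_cast hVr
  have hne := mixing_edge hmix hδ hV0
  set M : ℕ := ⌈c₁ * Λ⌉₊ with hM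
  have hM1 : c₁ * Λ ≤ M := Nat.le_ceil _
  have hM2 : (M : ℝ) ≤ 2 * c₁ * Λ := by
    have h1 : (M : ℝ) < c₁ * Λ + 1 := Nat.ceil_lt_add_one (by positivity)
    nlinarith
  have hMΛ : Λ ≤ M := by nlinarith
  have hM3 : (1 : ℝ) ≤ M := hΛ.trans hMΛ
  have hM4 : 1 ≤ M := by exact_mod_cast hM3
  have hMc : 2 * Real.pi * Λ * R' < (M + 1) * a := by
    calc 2 * Real.pi * Λ * R' = (2 * Real.pi * R') * Λ := by ring
      _ ≤ c₁ * a * Λ := by gcongr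
      _ = (c₁ * Λ) * a := by ring
      _ ≤ M * a := by gcongr
      _ < (M + 1) * a := by nlinarith
  have hMV : (M : ℝ) ^ 2 ≤ B * V := by
    calc (M : ℝ) ^ 2 ≤ (2 * c₁ * Λ) ^ 2 := by gcongr
      _ = 4 * c₁ ^ 2 * Λ ^ 2 := by ring
      _ ≤ 4 * c₁ ^ 2 * V := by gcongr
      _ ≤ B * V := by
        gcongr
        exact le_max_left _ _
  have hcfb : ∀ y : CW (Fin V) M, ‖cf σ l (fun s => s * ft f (-s)) Λ y‖ ≤ B / M * |ampV σ y.2| := by
    intro y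
    refine (cf_bound hmix.scat ha hlen hH hΛ y).trans ?_
    refine mul_le_mul_of_nonneg_right ?_ (abs_nonneg _)
    have h1 : c₁ * b' * H / Real.pi ≤ B := le_max_right _ _
    have h0 : b ≤ b' := le_max_left _ _
    have h0' : 0 ≤ b' := le_max_right _ _
    calc b * H / (2 * Real.pi * Λ) ≤ b' * H / (2 * Real.pi * Λ) := by gcongr
      _ = (c₁ * b' * H / Real.pi) / (2 * c₁ * Λ) := by field_simp
      _ ≤ (c₁ * b' * H / Real.pi) / M := by gcongr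
      _ ≤ B / M := by gcongr
  have hcomb := hK1 (V := V) (G := G) (σ := σ) (l := l) (fun s => s * ft f (-s)) Λ (M := M) hmix.scat
    (fun v u w => (hmix.upper v u w).trans (by gcongr; exact le_max_left _ _))
    hlen.symm hind (le_max_right _ _) hM4 hMV hcfb
  have hdiag := hK2 V G σ l Λ M hmix hlen hΛ hΛV hMc
  have hbr := bridge hmix.scat ha hlen hne hlev hT hR2 hΛ0 hMc r
  refine ⟨_, hbr, ?_⟩
  set mm := mom (cf σ l (fun s => s * ft f (-s)) Λ (M := M)) (fun y => wlV l y.2) r with hmm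
  set D := 2 * D2 (cf σ l (fun s => s * ft f (-s)) Λ (M := M)) with hD
  have hsq : 1 ≤ √Λ := Real.one_le_sqrt.mpr hΛ
  have hsq0 : 0 < √Λ := by linarith
  have hinv : 1 / √Λ ≤ 1 := by rw [div_le_one hsq0]; exact hsq
  have hd1 : |D - S| ≤ |K2| * (1 / √Λ) := by
    refine hdiag.trans ?_
    rw [div_eq_mul_one_div]
    exact mul_le_mul_of_nonneg_right (le_abs_self _) (by positivity)
  have hd2 : |D - S| ≤ |K2| := hd1.trans (by
    calc |K2| * (1 / √Λ) ≤ |K2| * 1 := by gcongr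
      _ = |K2| := mul_one _)
  have hDabs : |D| ≤ S + |K2| := by
    calc |D| = |S + (D - S)| := by congr 1; ring
      _ ≤ |S| + |D - S| := abs_add_le _ _
      _ ≤ S + |K2| := by rw [abs_of_nonneg hS0]; linarith
  have hpow : |D ^ q - S ^ q| ≤ K3 * (1 / √Λ) := by
    have h1 := abs_pow_sub_pow_le D S q
    have h2 : max |D| |S| ≤ S + |K2| := max_le hDabs (by
      rw [abs_of_nonneg hS0]; linarith [abs_nonneg K2])
    calc |D ^ q - S ^ q| ≤ |D - S| * q * max |D| |S| ^ (q - 1) := h1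
      _ ≤ (|K2| * (1 / √Λ)) * q * (S + |K2|) ^ (q - 1) := by
        gcongr
      _ = K3 * (1 / √Λ) := by rw [hK3]; ring
  have hfin1 : ‖mm - (gm r : ℂ) * ((D : ℝ) : ℂ) ^ q‖ ≤ |K1| * (4 * c₁ ^ 2) * (1 / √Λ + Λ ^ 2 / V) := by
    refine hcomb.trans ?_
    have h1 : (M : ℝ) ^ 2 / V ≤ 4 * c₁ ^ 2 * (Λ ^ 2 / V) := by
      rw [← mul_div_assoc]
      gcongr
      calc (M : ℝ) ^ 2 ≤ (2 * c₁ * Λ) ^ 2 := by gcongr
        _ = 4 * c₁ ^ 2 * Λ ^ 2 := by ring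
    have h2 : 1 / (M : ℝ) ≤ 4 * c₁ ^ 2 * (1 / √Λ) := by
      have h3 : 1 / (M : ℝ) ≤ 1 / √Λ := by
        apply one_div_le_one_div_of_le hsq0
        exact ((Real.sqrt_le_left (by linarith)).mpr (by nlinarith)).trans hMΛ
      have h4 : 1 ≤ 4 * c₁ ^ 2 := by nlinarith
      calc 1 / (M : ℝ) ≤ 1 / √Λ := h3
        _ = 1 * (1 / √Λ) := (one_mul _).symm
        _ ≤ 4 * c₁ ^ 2 * (1 / √Λ) := by gcongr
    calc K1 * ((M : ℝ) ^ 2 / V + 1 / M) ≤ |K1| * ((M : ℝ) ^ 2 / V + 1 / M) := by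
          apply mul_le_mul_of_nonneg_right (le_abs_self _) (by positivity)
      _ ≤ |K1| * (4 * c₁ ^ 2 * (Λ ^ 2 / V) + 4 * c₁ ^ 2 * (1 / √Λ)) := by gcongr
      _ = _ := by ring
  have hfin2 : ‖(gm r : ℂ) * ((D : ℝ) : ℂ) ^ q - ((gaussMom S r : ℝ) : ℂ)‖ ≤ gm r * K3 * (1 / √Λ) := by
    rw [gaussMom_gm]
    have h1 : (gm r : ℂ) * ((D : ℝ) : ℂ) ^ q - ((gm r * S ^ (r / 2) : ℝ) : ℂ)
        = ((gm r * (D ^ q - S ^ q) : ℝ) : ℂ) := by
      push_cast; ring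
    rw [h1, Complex.norm_real, Real.norm_eq_abs, abs_mul, abs_of_nonneg (by positivity)]
    calc (gm r : ℝ) * |D ^ q - S ^ q| ≤ gm r * (K3 * (1 / √Λ)) := by gcongr
      _ = _ := by ring
  have hre : |mm.re - gaussMom S r| ≤ ‖mm - ((gaussMom S r : ℝ) : ℂ)‖ := by
    have := Complex.abs_re_le_norm (mm - ((gaussMom S r : ℝ) : ℂ))
    simpa using this
  have hnn : 0 ≤ Λ ^ 2 / V := by positivity
  calc |mm.re - gaussMom S r| ≤ ‖mm - ((gaussMom S r : ℝ) : ℂ)‖ := hre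
    _ = ‖(mm - (gm r : ℂ) * ((D : ℝ) : ℂ) ^ q) + ((gm r : ℂ) * ((D : ℝ) : ℂ) ^ q -
        ((gaussMom S r : ℝ) : ℂ))‖ := by congr 1; ring
    _ ≤ _ := norm_add_le _ _
    _ ≤ |K1| * (4 * c₁ ^ 2) * (1 / √Λ + Λ ^ 2 / V) + gm r * K3 * (1 / √Λ) := add_le_add hfin1 hfin2
    _ ≤ |K1| * (4 * c₁ ^ 2) * (1 / √Λ + Λ ^ 2 / V) + gm r * K3 * (1 / √Λ + Λ ^ 2 / V) := by
        gcongr
        linarith
    _ = (|K1| * (4 * c₁ ^ 2) + gm r * K3) * (1 / √Λ + Λ ^ 2 / V) := by ring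

end Mes
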