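import Pool.Agent.LibMes.FDefs

/-! Examples: complete graphs with Sylvester-Hadamard vertex matrices, independent lengths. -/

open MeasureTheory ProbabilityTheory Set Filter Topology

namespace Mes

/-- Sylvester's Hadamard matrix. -/
noncomputable def syl {j : ℕ} (x y : Fin j → Bool) : ℝ := ∏ i, if x i && y i then -1 else 1

theorem syl_symm {j : ℕ} (x y : Fin j → Bool) : syl x y = syl y x := by
  unfold syl
  exact Finset.prod_congr rfl fun i _ => by rw [Bool.and_comm]

theorem syl_sq {j : ℕ} (x y : Fin j → Bool) : syl x y ^ 2 = 1 := by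
  unfold syl
  rw [← Finset.prod_pow]
  refine Finset.prod_eq_one fun i _ => ?_
  split_ifs <;> norm_num

theorem syl_orth {j : ℕ} (x y : Fin j → Bool) :
    ∑ z, syl x z * syl y z = if x = y then 2 ^ j else 0 := by
  have h1 : ∑ z : Fin j → Bool, syl x z * syl y z = ∏ i, ∑ t : Bool,
      (if x i && t then (-1 : ℝ) else 1) * (if y i && t then -1 else 1) := by
    rw [Finset.prod_univ_sum]
    rw [Fintype.piFinset_univ]
    refine Finset.sum_congr rfl fun z _ => ?_
    unfold syl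
    rw [← Finset.prod_mul_distrib]
  have h2 : ∀ i, ∑ t : Bool, (if x i && t then (-1 : ℝ) else 1) * (if y i && t then -1 else 1)
      = if x i = y i then 2 else 0 := by
    intro i
    rw [Fintype.sum_bool]
    cases x i <;> cases y i <;> norm_num
  rw [h1]
  simp_rw [h2]
  split_ifs with h
  · subst h; simp
  · obtain ⟨i, hi⟩ := Function.ne_iff.mp h
    exact Finset.prod_eq_zero (Finset.mem_univ i) (if_neg hi)

theorem card_ne {j : ℕ} (v : Fin (2 ^ j + 1)) :
    Fintype.card {w : Fin (2 ^ j + 1) // w ≠ v} = Fintype.card (Fin j → Bool) := by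
  simp [Fintype.card_subtype_compl]

/-- enumeration of the neighbours -/
noncomputable def enu {j : ℕ} (v : Fin (2 ^ j + 1)) :
    {w : Fin (2 ^ j + 1) // w ≠ v} ≃ (Fin j → Bool) :=
  Fintype.equivOfCardEq (card_ne v)

open Classical in
/-- The vertex matrices. -/
noncomputable def hadS {j : ℕ} (v u w : Fin (2 ^ j + 1)) : ℝ :=
  if h : u ≠ v ∧ w ≠ v then syl (enu v ⟨u, h.1⟩) (enu v ⟨w, h.2⟩) / √(2 ^ j) else 0

theorem hadS_of {j : ℕ} {v u w : Fin (2 ^ j + 1)} (hu : u ≠ v) (hw : w ≠ v) :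
    hadS v u w = syl (enu v ⟨u, hu⟩) (enu v ⟨w, hw⟩) / √(2 ^ j) := by
  unfold hadS; rw [dif_pos ⟨hu, hw⟩]

theorem hadS_mixing {j : ℕ} (hj : 2 ≤ j) :
    Mixing (4 / 5) 1 2 (⊤ : SimpleGraph (Fin (2 ^ j + 1))) hadS := by
  have h4 : (4 : ℝ) ≤ 2 ^ j := by
    calc (4 : ℝ) = 2 ^ 2 := by norm_num
      _ ≤ 2 ^ j := pow_le_pow_right₀ (by norm_num) hj
  have hp : (0 : ℝ) < 2 ^ j := by positivity
  have hs : √((2 : ℝ) ^ j) * √(2 ^ j) = 2 ^ j := Real.mul_self_sqrt hp.le
  have hs0 : √((2 : ℝ) ^ j) ≠ 0 := (Real.sqrt_pos.mpr hp).ne'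
  have hsq : ∀ {v u w : Fin (2 ^ j + 1)}, u ≠ v → w ≠ v → hadS v u w ^ 2 = 1 / 2 ^ j := by
    intro v u w hu hw
    rw [hadS_of hu hw, div_pow, syl_sq, sq, hs]
  refine ⟨⟨?_, ?_, ?_⟩, ?_, ?_, ?_⟩
  · intro v u w h
    rw [SimpleGraph.top_adj, not_not] at h
    unfold hadS
    rw [dif_neg]
    rintro ⟨h1, -⟩
    exact h1 h.symm
  · intro v u w
    unfold hadS
    by_cases h : u ≠ v ∧ w ≠ v
    · rw [dif_pos h, dif_pos ⟨h.2, h.1⟩, syl_symm]
    · rw [dif_neg h, dif_neg fun h2 => h ⟨h2.2, h2.1⟩]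
  · intro v u w hu hw
    rw [SimpleGraph.top_adj] at hu hw
    have h1 : ∑ x, hadS v u x * hadS v w x = ∑ x : {x : Fin (2 ^ j + 1) // x ≠ v},
        hadS v u x.1 * hadS v w x.1 := by
      rw [← Finset.sum_subset (Finset.subset_univ (Finset.univ.filter fun x => x ≠ v))]
      · refine (Finset.sum_subtype _ (by simp) _)
      · intro x _ hx
        have : x = v := by simpa using hx
        subst this
        have : hadS x u x = 0 := by unfold hadS; rw [dif_neg]; rintro ⟨-, h⟩; exact h rfl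
        rw [this, zero_mul]
    have h2 : ∑ x : {x : Fin (2 ^ j + 1) // x ≠ v}, hadS v u x.1 * hadS v w x.1
        = ∑ x : {x : Fin (2 ^ j + 1) // x ≠ v}, (syl (enu v ⟨u, Ne.symm hu⟩) (enu v x) *
          syl (enu v ⟨w, Ne.symm hw⟩) (enu v x)) / 2 ^ j := by
      refine Finset.sum_congr rfl fun x _ => ?_
      rw [hadS_of (Ne.symm hu) x.2, hadS_of (Ne.symm hw) x.2, div_mul_div_comm, hs]
    rw [h1, h2, ← Finset.sum_div, Equiv.sum_comp (enu v) (fun z => syl (enu v ⟨u, Ne.symm hu⟩) z *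
      syl (enu v ⟨w, Ne.symm hw⟩) z), syl_orth]
    by_cases h : u = w
    · subst h
      rw [if_pos rfl, if_pos rfl]
      field_simp
    · rw [if_neg h, if_neg, zero_div]
      intro h3
      exact h (congrArg Subtype.val ((enu v).injective h3))
  · intro v
    have h1 : ((⊤ : SimpleGraph (Fin (2 ^ j + 1))).neighborSet v).ncard = 2 ^ j := by
      have : (⊤ : SimpleGraph (Fin (2 ^ j + 1))).neighborSet v = {v}ᶜ := by
        ext w; simp [eq_comm]
      rw [this, Set.ncard_compl]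
      simp
    rw [h1]
    push_cast
    linarith
  · intro v u w hu hw _
    rw [SimpleGraph.top_adj] at hu hw
    rw [hsq (Ne.symm hu) (Ne.symm hw)]
    push_cast
    apply one_div_le_one_div_of_le hp
    linarith
  · intro v u w
    push_cast
    by_cases h : u ≠ v ∧ w ≠ v
    · rw [hsq h.1 h.2, div_le_div_iff₀ hp (by positivity)]
      linarith
    · unfold hadS
      rw [dif_neg h]
      have : (0 : ℝ) ≤ 2 / (2 ^ j + 1) := by positivity
      simpa using this

section
variable {ι : Type} [Fintype ι]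

/-- The functional `x ↦ ∑ c i x i`. -/
noncomputable def FE_phi (c : ι → ℚ) : (ι → ℝ) →ₗ[ℝ] ℝ where
  toFun x := ∑ i, (c i : ℝ) * x i
  map_add' u v := by simp [mul_add, Finset.sum_add_distrib]
  map_smul' a u := by
    simp only [Pi.smul_apply, smul_eq_mul, RingHom.id_apply, Finset.mul_sum]
    exact Finset.sum_congr rfl fun _ _ => by ring

theorem FE_null (c : ι → ℚ) (hc : c ≠ 0) : volume {x : ι → ℝ | ∑ i, (c i : ℝ) * x i = 0} = 0 := by
  classical
  obtain ⟨i₀, hi₀⟩ : ∃ i, c i ≠ 0 := by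
    by_contra h
    push Not at h
    exact hc (funext h)
  have h := Measure.addHaar_submodule (volume : Measure (ι → ℝ)) (LinearMap.ker (FE_phi c)) (by
      intro ht
      have h1 : (Pi.single i₀ (1 : ℝ) : ι → ℝ) ∈ LinearMap.ker (FE_phi c) := by rw [ht]; trivial
      rw [LinearMap.mem_ker] at h1
      have h2 : ∑ i, (c i : ℝ) * (Pi.single i₀ (1 : ℝ) : ι → ℝ) i = 0 := h1
      rw [Finset.sum_eq_single i₀] at h2
      · simp at h2
        exact hi₀ h2
      · intro i _ hi
        rw [Pi.single_eq_of_ne hi, mul_zero]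
      · intro h; exact absurd (Finset.mem_univ _) h)
  exact h

theorem FE_iff (x : ι → ℝ) : LinearIndependent ℚ x ↔
    ∀ c : {c : ι → ℚ // c ≠ 0}, ∑ i, (c.1 i : ℝ) * x i ≠ 0 := by
  rw [Fintype.linearIndependent_iff]
  constructor
  · intro h c hc
    refine c.2 (funext fun q => h c.1 ?_ q)
    simpa [Rat.smul_def] using hc
  · intro h c hc q
    by_contra hq
    refine h ⟨c, fun h0 => hq (by rw [h0]; rfl)⟩ ?_
    simpa [Rat.smul_def] using hc

theorem FE_ae : ∀ᵐ x : ι → ℝ, LinearIndependent ℚ x := by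
  simp only [FE_iff]
  rw [ae_all_iff]
  intro c
  rw [ae_iff]
  simpa using FE_null c.1 c.2

theorem FE_res : ∀ᶠ x : ι → ℝ in residual _, LinearIndependent ℚ x := by
  simp only [FE_iff]
  rw [eventually_countable_forall]
  intro c
  have ho : IsOpen {x : ι → ℝ | ∑ i, (c.1 i : ℝ) * x i ≠ 0} := by
    refine isOpen_ne_fun ?_ continuous_const
    fun_prop
  refine residual_of_dense_open ho ?_
  refine Measure.dense_of_ae (μ := volume) ?_
  rw [ae_iff]
  simpa using FE_null c.1 c.2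

end

theorem lenOf_indep {V : ℕ} (G : SimpleGraph (Fin V)) (x : Edge G → ℝ)
    (h : LinearIndependent ℚ x) : Indep G (lenOf G x) := by
  unfold Indep
  convert! h using 1
  ext q
  unfold lenOf
  rw [dif_pos q.2]

theorem lenOf_isLen {V : ℕ} (G : SimpleGraph (Fin V)) (x : Edge G → ℝ) {a b : ℝ}
    (hx : ∀ e, x e ∈ Icc a b) : IsLen G a b (lenOf G x) := by
  classical
  refine ⟨?_, ?_⟩
  · intro v w
    rcases lt_trichotomy v w with h | h | h
    · by_cases h2 : G.Adj v w
      · unfold lenOf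
        rw [dif_pos ⟨h, h2⟩, dif_neg (fun h3 => absurd h3.1 h.asymm), dif_pos ⟨h, h2⟩]
      · unfold lenOf
        rw [dif_neg (fun h3 => h2 h3.2), dif_neg (fun h3 => h2 h3.2.symm),
          dif_neg (fun h3 => h2 h3.2.symm), dif_neg (fun h3 => h2 h3.2)]
    · subst h; rfl
    · by_cases h2 : G.Adj w v
      · unfold lenOf
        rw [dif_neg (fun h3 => absurd h3.1 h.asymm), dif_pos ⟨h, h2⟩, dif_pos ⟨h, h2⟩]
      · unfold lenOf
        rw [dif_neg (fun h3 => h2 h3.2.symm), dif_neg (fun h3 => h2 h3.2),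
          dif_neg (fun h3 => h2 h3.2), dif_neg (fun h3 => h2 h3.2.symm)]
  · intro v w h
    unfold lenOf
    rcases lt_trichotomy v w with h1 | h1 | h1
    · rw [dif_pos ⟨h1, h⟩]; exact hx _
    · subst h1; exact absurd h (G.loopless.irrefl v)
    · rw [dif_neg (fun h3 => absurd h3.1 h1.asymm), dif_pos ⟨h1, h.symm⟩]; exact hx _

theorem hadamard_exists (j : ℕ) (hj : 2 ≤ j) :
    ∃ σ, Mixing (4 / 5) 1 2 (⊤ : SimpleGraph (Fin (2 ^ j + 1))) σ :=
  ⟨_, hadS_mixing hj⟩

theorem lengths_generic {V : ℕ} (G : SimpleGraph (Fin V)) :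
    (∀ (a b : ℝ) (x : Edge G → ℝ), (∀ e, x e ∈ Icc a b) → IsLen G a b (lenOf G x)) ∧
    (∀ᶠ x : Edge G → ℝ in residual _, Indep G (lenOf G x)) ∧
    ∀ᵐ x : Edge G → ℝ, Indep G (lenOf G x) := by
  classical
  refine ⟨fun a b x hx => lenOf_isLen G x hx, ?_, ?_⟩
  · exact FE_res.mono fun x hx => lenOf_indep G x hx
  · filter_upwards [FE_ae] with x hx
    exact lenOf_indep G x hx

end Mes
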