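import Pool.Agent.LibMes.MC6

open Finset

namespace Mes

section
variable {α : Type} [Fintype α] [DecidableEq α]

omit [Fintype α] [DecidableEq α] in
private theorem mc9_walk (r : α) : ∀ {n : ℕ} (w : Fin (n + 2) → α), w (Fin.last (n + 1)) = r →
    ((List.ofFn fun i : Fin (n + 1) => s(w i.castSucc, w i.succ)) : Multiset (Sym2 α)) =
      edg r (w 0) (List.ofFn fun i : Fin n => w i.succ.castSucc)
  | 0, w, h => by
    have h1 : w 1 = r := h
    simp [edg, List.ofFn_succ, h1]
  | n + 1, w, h => by
    rw [List.ofFn_succ, List.ofFn_succ (f := fun i : Fin (n + 1) => w i.succ.castSucc), edg,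
      ← Multiset.cons_coe]
    have h1 := mc9_walk r (n := n) (fun i => w i.succ) (by rw [Fin.succ_last]; exact h)
    refine congrArg₂ Multiset.cons rfl ?_
    exact h1

omit [Fintype α] [DecidableEq α] in
theorem edF_cons {n : ℕ} (r : α) (z : Fin n → α) :
    edF (Fin.cons r z : Fin (n + 1) → α) = edg r r (List.ofFn z) := by
  set y : Fin (n + 1) → α := Fin.cons r z with hy
  let w : Fin (n + 2) → α := Fin.snoc y r
  have h1 := mc9_walk r w (by simp [w])
  have h2 : ∀ i : Fin (n + 1), w i.castSucc = y i := fun i => by simp [w]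
  have h3 : ∀ i : Fin (n + 1), w i.succ = y (i + 1) := by
    intro i
    induction i using Fin.lastCases with
    | last =>
      rw [Fin.succ_last, Fin.last_add_one]
      simp [w, hy]
    | cast j =>
      rw [Fin.coeSucc_eq_succ, ← Fin.castSucc_succ]
      rw [h2]
  rw [edF, Fin.univ_val_map]
  have h4 : (fun i : Fin (n + 1) => s(y i, y (i + 1))) =
      fun i : Fin (n + 1) => s(w i.castSucc, w i.succ) := by
    funext i
    rw [h2, h3]
  rw [h4, h1]
  have h5 : w 0 = r := by
    have := h2 0
    rw [Fin.castSucc_zero] at this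
    rw [this, hy, Fin.cons_zero]
  have h6 : (fun i : Fin n => w i.succ.castSucc) = z := by
    funext i
    rw [h2, hy, Fin.cons_succ]
  rw [h5, h6]

omit [Fintype α] [DecidableEq α] in
theorem card_edF {n : ℕ} (y : Fin (n + 1) → α) : (edF y).card = n + 1 := by
  rw [edF, Multiset.card_map, Finset.card_val, Finset.card_univ, Fintype.card_fin]

omit [Fintype α] [DecidableEq α] in
theorem card_viF {n : ℕ} (y : Fin (n + 1) → α) : (viF y).card = n + 1 := by
  rw [viF, Multiset.card_map, Finset.card_val, Finset.card_univ, Fintype.card_fin]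

omit [Fintype α] [DecidableEq α] in
theorem LF_iff {n : ℕ} (y : Fin (n + 1) → α) : LF y ↔ ∀ e ∈ edF y, ¬ e.IsDiag := by
  constructor
  · intro h e he
    obtain ⟨i, -, rfl⟩ := Multiset.mem_map.1 he
    rw [Sym2.mk_isDiag_iff]
    exact h i
  · intro h i h1
    exact h s(y i, y (i + 1)) (Multiset.mem_map.2 ⟨i, Finset.mem_univ i, rfl⟩)
      (Sym2.mk_isDiag_iff.2 h1)

omit [Fintype α] in
theorem dg_edF {n : ℕ} {y : Fin (n + 1) → α} (hy : LF y) (w : α) :
    dg (edF y) w = 2 * (viF y).count w := by
  have h1 : dg (edF y) w = (univ.filter fun i : Fin (n + 1) => w = y i ∨ w = y (i + 1)).card := by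
    rw [dg, edF, Multiset.countP_map]
    simp only [Sym2.mem_iff]
    rfl
  have h2 : (viF y).count w = (univ.filter fun i : Fin (n + 1) => w = y i).card := by
    rw [viF, Multiset.count_map]
    rfl
  have h3 : (univ.filter fun i : Fin (n + 1) => w = y (i + 1)).card =
      (univ.filter fun i : Fin (n + 1) => w = y i).card := by
    refine Finset.card_bij (fun i _ => i + 1) ?_ ?_ ?_
    · intro i hi
      exact mem_filter.2 ⟨mem_univ _, (mem_filter.1 hi).2⟩
    · intro i _ j _ h
      exact add_right_cancel h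
    · intro i hi
      refine ⟨i - 1, mem_filter.2 ⟨mem_univ _, ?_⟩, sub_add_cancel i 1⟩
      rw [sub_add_cancel]
      exact (mem_filter.1 hi).2
  rw [h1, filter_or, card_union_of_disjoint, h3, h2, two_mul]
  refine disjoint_filter.2 (fun i _ h4 h5 => hy i ?_)
  rw [← h4, ← h5]

omit [Fintype α] in
private theorem mc9_dg_sum {ι : Type} (s : Finset ι) (R : ι → Multiset (Sym2 α)) (w : α) :
    dg (∑ i ∈ s, R i) w = ∑ i ∈ s, dg (R i) w := by
  classical
  induction s using Finset.induction_on with
  | empty => simp [dg]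
  | insert a s ha ih => rw [sum_insert ha, sum_insert ha, ← ih, dg, dg, dg, Multiset.countP_add]

omit [Fintype α] in
theorem dg_edP {m M : ℕ} {P : Fin m → CW α M} (hP : ∀ i, LF (P i).2) (w : α) :
    dg (edP P) w = 2 * (viP P).count w := by
  rw [edP, mc9_dg_sum, viP, Multiset.count_sum', Finset.mul_sum]
  exact sum_congr rfl (fun i _ => dg_edF (hP i) w)

theorem Po_edP {m M : ℕ} {P : Fin m → CW α M} (hP : ∀ i, LF (P i).2) :
    Po (edP P) = om (viP P) := by
  rw [Po, om]
  exact prod_congr rfl (fun w _ => by rw [dg_edP hP w])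

end

end Mes
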