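import Pool.Agent.LibMes.MC8
import Pool.Agent.LibMes.MC9

open Finset

namespace Mes

section
variable {α : Type} [Fintype α] [DecidableEq α]

theorem mc10_oddp_pos : ∀ D : ℕ, 1 ≤ oddp D
  | 0 => le_refl _
  | D + 1 => by
    unfold oddp
    have h := mc10_oddp_pos D
    split_ifs with h1
    · calc 1 = 1 * 1 := rfl
        _ ≤ (D + 1) * oddp D := Nat.mul_le_mul (by omega) h
    · exact h

theorem mc10_Po_pos (R : Multiset (Sym2 α)) : 1 ≤ Po R := by
  unfold Po
  exact Finset.one_le_prod' fun w _ => mc10_oddp_pos _

omit [Fintype α] in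
theorem mc10_dg_sub {R E : Multiset (Sym2 α)} (h : E ≤ R) (u : α) :
    dg (R - E) u = dg R u - dg E u := by
  unfold dg
  exact Multiset.countP_sub h _

theorem mc10_sum_cons {β : Type} [Fintype β] {b : ℕ} (f : (Fin (b + 1) → β) → ℕ) :
    ∑ P : Fin (b + 1) → β, f P = ∑ y : β, ∑ P' : Fin b → β, f (Fin.cons y P') := by
  rw [← Fintype.sum_prod_type' (fun (y : β) (P' : Fin b → β) => f (Fin.cons y P'))]
  exact (Fintype.sum_equiv (Fin.consEquiv fun _ => β) _ _ fun _ => rfl).symm

theorem mc10_sum_walks (M : ℕ) (R : Multiset (Sym2 α)) :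
    ∑ y : CW α M, (if edF y.2 ≤ R then Po (R - edF y.2) else 0) = ∑ r, GG M R r r := by
  rw [Fintype.sum_sigma]
  simp only [GG]
  rw [Finset.sum_comm, Finset.sum_range (fun k => ∑ r, ∑ y : Fin k → α,
    if edg r r (List.ofFn y) ≤ R then Po (R - edg r r (List.ofFn y)) else 0)]
  refine Finset.sum_congr rfl fun n _ => ?_
  rw [mc10_sum_cons]
  refine Finset.sum_congr rfl fun r _ => Finset.sum_congr rfl fun z _ => ?_
  rw [edF_cons]

theorem class_size {b M : ℕ} {R : Multiset (Sym2 α)} (hR : ∀ e ∈ R, ¬ e.IsDiag)
    (he : ∀ u, dg R u % 2 = 0) :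
    (univ.filter fun P : Fin b → CW α M => edP P = R).card ≤ (2 * R.card) ^ b * Po R := by
  induction b generalizing R with
  | zero =>
    rw [pow_zero, one_mul]
    exact (Finset.card_le_univ _).trans ((by simp : Fintype.card (Fin 0 → CW α M) ≤ 1).trans
      (mc10_Po_pos R))
  | succ b ih =>
    rw [Finset.card_filter, mc10_sum_cons]
    have h1 : ∀ y : CW α M, (∑ P' : Fin b → CW α M,
        if edP (Fin.cons y P' : Fin (b + 1) → CW α M) = R then 1 else 0) ≤
        (2 * R.card) ^ b * (if edF y.2 ≤ R then Po (R - edF y.2) else 0) := by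
      intro y
      have h2 : ∀ P' : Fin b → CW α M, edP (Fin.cons y P' : Fin (b + 1) → CW α M) =
          edF y.2 + edP P' := by
        intro P'
        unfold edP
        rw [Fin.sum_univ_succ]
        rfl
      by_cases h : edF y.2 ≤ R
      · rw [if_pos h]
        have hR' : ∀ e ∈ R - edF y.2, ¬ e.IsDiag := fun e he' =>
          hR e (Multiset.mem_of_le (Multiset.sub_le_self R _) he')
        have hLF : LF y.2 := (LF_iff y.2).2 fun e he' => hR e (Multiset.mem_of_le h he')
        have he' : ∀ u, dg (R - edF y.2) u % 2 = 0 := by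
          intro u
          rw [mc10_dg_sub h, dg_edF hLF]
          have := he u
          omega
        have h3 := ih hR' he'
        rw [Finset.card_filter] at h3
        calc (∑ P' : Fin b → CW α M,
              if edP (Fin.cons y P' : Fin (b + 1) → CW α M) = R then 1 else 0)
            = ∑ P' : Fin b → CW α M, if edP P' = R - edF y.2 then 1 else 0 := by
              refine Finset.sum_congr rfl fun P' _ => ?_
              rw [h2]
              by_cases h4 : edF y.2 + edP P' = R
              · rw [if_pos h4, if_pos (by rw [← h4, add_tsub_cancel_left])]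
              · rw [if_neg h4, if_neg]
                intro h5
                apply h4
                rw [h5, add_comm]
                exact Multiset.sub_add_cancel h
          _ ≤ (2 * (R - edF y.2).card) ^ b * Po (R - edF y.2) := h3
          _ ≤ (2 * R.card) ^ b * Po (R - edF y.2) := by
              apply Nat.mul_le_mul_right
              apply Nat.pow_le_pow_left
              apply Nat.mul_le_mul_left
              exact Multiset.card_le_card (Multiset.sub_le_self R _)
      · rw [if_neg h, mul_zero]
        apply le_of_eq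
        apply Finset.sum_eq_zero
        intro P' _
        rw [h2, if_neg]
        intro h4
        exact h (h4 ▸ Multiset.le_add_right _ _)
    calc (∑ y : CW α M, ∑ P' : Fin b → CW α M,
          if edP (Fin.cons y P' : Fin (b + 1) → CW α M) = R then 1 else 0)
        ≤ ∑ y : CW α M, (2 * R.card) ^ b * (if edF y.2 ≤ R then Po (R - edF y.2) else 0) :=
          Finset.sum_le_sum fun y _ => h1 y
      _ = (2 * R.card) ^ b * ∑ r, GG M R r r := by
          rw [← Finset.mul_sum, mc10_sum_walks]
      _ ≤ (2 * R.card) ^ b * ∑ r, dg R r * Po R := by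
          apply Nat.mul_le_mul_left
          exact Finset.sum_le_sum fun r _ => (GG_le M R hR r).1 he
      _ = (2 * R.card) ^ (b + 1) * Po R := by
          rw [← Finset.sum_mul, sum_dg hR, pow_succ]
          ring

end

end Mes
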