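import Pool.Agent.LibMes.MC9

open Finset

namespace Mes

section
variable {α : Type} [Fintype α] [DecidableEq α]

theorem mc11_ofNat_succ (l : ℕ) [NeZero l] (k : ℕ) :
    Fin.ofNat l (k + 1) = Fin.ofNat l k + 1 := by
  apply Fin.ext
  rw [Fin.val_add, Fin.val_ofNat, Fin.val_ofNat, Fin.val_one']
  simp [Nat.add_mod]

theorem mc11_closed {m : ℕ} {S : Fin (m + 1) → Prop} {j : Fin (m + 1)} (hj : S j)
    (hS : ∀ t, S t → S (t + 1)) (t : Fin (m + 1)) : S t := by
  have h : ∀ k : ℕ, S (j + Fin.ofNat (m + 1) k) := by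
    intro k
    induction k with
    | zero =>
      have h0 : Fin.ofNat (m + 1) 0 = 0 := by
        apply Fin.ext
        simp
      rw [h0, add_zero]
      exact hj
    | succ k ih =>
      rw [mc11_ofNat_succ, ← add_assoc]
      exact hS _ ih
  have h1 := h ((t - j : Fin (m + 1)) : ℕ)
  have h2 : Fin.ofNat (m + 1) ((t - j : Fin (m + 1)) : ℕ) = t - j := by
    apply Fin.ext
    rw [Fin.val_ofNat, Nat.mod_eq_of_lt (Fin.is_lt _)]
  rw [h2, add_sub_cancel] at h1
  exact h1

omit [Fintype α] in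
theorem mc11_sub {n m : ℕ} {x : Fin (n + 1) → α} {y : Fin (m + 1) → α} (hx : LF x)
    {R : Multiset (Sym2 α)} (hR : Gen R) (h1 : edF x ≤ R) (h2 : edF y ≤ R) {i : Fin (n + 1)}
    {j : Fin (m + 1)} (h : x i = y j) : edF y ⊆ edF x := by
  have key : ∀ t : Fin (m + 1), (∃ s, x s = y t) → s(y t, y (t + 1)) ∈ edF x := by
    rintro t ⟨s, hs⟩
    have he : s(y t, y (t + 1)) ∈ R := by
      refine Multiset.mem_of_le h2 ?_
      unfold edF
      exact Multiset.mem_map.2 ⟨t, Finset.mem_univ_val t, rfl⟩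
    have hc : 1 ≤ (viF x).count (y t) := by
      rw [Nat.succ_le_iff, Multiset.count_pos, ← hs]
      unfold viF
      exact Multiset.mem_map.2 ⟨s, Finset.mem_univ_val s, rfl⟩
    have hd1 := dg_edF hx (y t)
    have hd2 := hR.2 (y t)
    have hd3 : dg R (y t) = dg (edF x) (y t) + dg (R - edF x) (y t) := by
      unfold dg
      rw [← Multiset.countP_add, add_comm, Multiset.sub_add_cancel h1]
    have hd4 : dg (R - edF x) (y t) = 0 := by omega
    have he2 : s(y t, y (t + 1)) ∈ (R - edF x) + edF x := by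
      rw [Multiset.sub_add_cancel h1]
      exact he
    rcases Multiset.mem_add.1 he2 with h5 | h5
    · exfalso
      unfold dg at hd4
      rw [Multiset.countP_eq_zero] at hd4
      exact hd4 _ h5 (Sym2.mem_mk_left _ _)
    · exact h5
  have hall : ∀ t : Fin (m + 1), ∃ s, x s = y t := by
    refine mc11_closed (S := fun t => ∃ s, x s = y t) ⟨i, h⟩ ?_
    intro t ht
    have h5 := key t ht
    unfold edF at h5
    obtain ⟨a, _, ha⟩ := Multiset.mem_map.1 h5
    have h6 : y (t + 1) ∈ s(x a, x (a + 1)) := by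
      rw [ha]
      exact Sym2.mem_mk_right _ _
    rcases Sym2.mem_iff.1 h6 with h7 | h7
    · exact ⟨a, h7.symm⟩
    · exact ⟨a + 1, h7.symm⟩
  intro e he
  unfold edF at he
  obtain ⟨t, _, rfl⟩ := Multiset.mem_map.1 he
  exact key t (hall t)

omit [Fintype α] in
theorem meet {n m : ℕ} {x : Fin (n + 1) → α} {y : Fin (m + 1) → α} (hx : LF x) (hy : LF y)
    {R : Multiset (Sym2 α)} (hR : Gen R) (h1 : edF x ≤ R) (h2 : edF y ≤ R) {i : Fin (n + 1)}
    {j : Fin (m + 1)} (h : x i = y j) : edF x = edF y := by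
  apply le_antisymm
  · exact (Multiset.le_iff_subset (Multiset.nodup_of_le h1 hR.1)).2 (mc11_sub hy hR h2 h1 h.symm)
  · exact (Multiset.le_iff_subset (Multiset.nodup_of_le h2 hR.1)).2 (mc11_sub hx hR h1 h2 h)

end

end Mes
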