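import Pool.Agent.LibMes.MC9

open Finset

namespace Mes

private theorem mc12_two_ne {n : ℕ} (hn : 2 ≤ n) (s : Fin (n + 1)) : s + 1 + 1 ≠ s := by
  intro h
  obtain ⟨m, rfl⟩ : ∃ m, n = m + 2 := ⟨n - 2, by omega⟩
  have h2 : s + (1 + 1) = s + 0 := by rw [add_zero, ← add_assoc]; exact h
  have h3 := congrArg Fin.val (add_left_cancel h2)
  rw [Fin.val_add, Fin.val_zero, Fin.val_one, Nat.mod_eq_of_lt (by omega)] at h3
  omega

private theorem mc12_ind {n : ℕ} {p : Fin (n + 1) → Prop} (h0 : p 0) (hs : ∀ s, p s → p (s + 1))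
    (s : Fin (n + 1)) : p s := by
  refine Fin.induction (motive := p) h0 (fun i hi => ?_) s
  rw [← Fin.coeSucc_eq_succ]
  exact hs _ hi

section
variable {α : Type} [Fintype α] [DecidableEq α]

omit [Fintype α] in
theorem gen_inj {n : ℕ} {x : Fin (n + 1) → α} (hx : LF x) (hR : Gen (edF x)) :
    Function.Injective x ∧ 2 ≤ n := by
  constructor
  · have h : (viF x).Nodup := by
      rw [Multiset.nodup_iff_count_le_one]
      intro w
      have := hR.2 w
      rw [dg_edF hx] at this
      omega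
    intro i j hij
    exact Multiset.inj_on_of_nodup_map h i (by simp) j (by simp) hij
  · by_contra hn
    push Not at hn
    interval_cases n
    · exact hx 0 rfl
    · have h := Multiset.inj_on_of_nodup_map hR.1 (0 : Fin 2) (by simp) (1 : Fin 2) (by simp)
        (Sym2.eq_swap : s(x 0, x 1) = s(x 1, x 0))
      exact absurd h (by decide)

omit [Fintype α] in
theorem rot_rev {n : ℕ} {x y : Fin (n + 1) → α} (hx : LF x) (hR : Gen (edF x))
    (h : edF y = edF x) : ∃ t, (∀ s, y s = x (t + s)) ∨ ∀ s, y s = x (t - s) := by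
  have hy : LF y := by rw [LF_iff, h, ← LF_iff]; exact hx
  obtain ⟨ix, hn⟩ := gen_inj hx hR
  obtain ⟨iy, -⟩ := gen_inj hy (by rw [h]; exact hR)
  have key : ∀ s, ∃ t, (y s = x t ∧ y (s + 1) = x (t + 1)) ∨ (y s = x (t + 1) ∧ y (s + 1) = x t) := by
    intro s
    have h1 : s(y s, y (s + 1)) ∈ edF y := Multiset.mem_map_of_mem _ (by simp)
    rw [h] at h1
    obtain ⟨t, -, ht⟩ := Multiset.mem_map.1 h1
    refine ⟨t, ?_⟩
    rcases Sym2.eq_iff.1 ht with h2 | h2
    · exact Or.inl ⟨h2.1.symm, h2.2.symm⟩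
    · exact Or.inr ⟨h2.2.symm, h2.1.symm⟩
  obtain ⟨t, ht⟩ := key 0
  rcases ht with ⟨h0, h1⟩ | ⟨h0, h1⟩
  · refine ⟨t, Or.inl fun s => ?_⟩
    refine (mc12_ind (p := fun s => y s = x (t + s) ∧ y (s + 1) = x (t + s + 1)) ?_ ?_ s).1
    · refine ⟨by rw [h0, add_zero], by rw [h1, add_zero]⟩
    · rintro k ⟨ih1, ih2⟩
      refine ⟨by rw [ih2, add_assoc], ?_⟩
      obtain ⟨t', ht'⟩ := key (k + 1)
      rcases ht' with ⟨h3, h4⟩ | ⟨h3, h4⟩
      · rw [h4]
        have := ix (h3.symm.trans ih2)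
        rw [this, add_assoc t]
      · exfalso
        have := ix (h3.symm.trans ih2)
        have e : t' = t + k := add_right_cancel this
        rw [e, ← ih1] at h4
        exact mc12_two_ne hn _ (iy h4)
  · refine ⟨t + 1, Or.inr fun s => ?_⟩
    refine (mc12_ind (p := fun s => y s = x (t + 1 - s) ∧ y (s + 1) = x (t - s)) ?_ ?_ s).1
    · refine ⟨by rw [h0, sub_zero], by rw [h1, sub_zero]⟩
    · rintro k ⟨ih1, ih2⟩
      refine ⟨by rw [ih2]; congr 1; abel, ?_⟩
      obtain ⟨t', ht'⟩ := key (k + 1)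
      rcases ht' with ⟨h3, h4⟩ | ⟨h3, h4⟩
      · exfalso
        have := ix (h3.symm.trans ih2)
        rw [this] at h4
        have e : t - k + 1 = t + 1 - k := by abel
        rw [e, ← ih1] at h4
        exact mc12_two_ne hn _ (iy h4)
      · rw [h4]
        have := ix (h3.symm.trans ih2)
        congr 1
        rw [eq_sub_iff_add_eq, ← add_assoc, add_right_comm, this]
        abel

omit [Fintype α] [DecidableEq α] in
theorem edF_rot {n : ℕ} (x : Fin (n + 1) → α) (t : Fin (n + 1)) :
    (edF fun s => x (t + s)) = edF x ∧ (edF fun s => x (t - s)) = edF x := by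
  constructor
  · have h := Multiset.map_univ_val_equiv (Equiv.addLeft t)
    unfold edF
    conv_rhs => rw [← h, Multiset.map_map]
    refine Multiset.map_congr rfl fun i _ => ?_
    simp [add_assoc]
  · have h := Multiset.map_univ_val_equiv (Equiv.subLeft (t - 1))
    unfold edF
    conv_rhs => rw [← h, Multiset.map_map]
    refine Multiset.map_congr rfl fun i _ => ?_
    simp only [Function.comp, Equiv.subLeft_apply]
    rw [Sym2.eq_swap]
    congr 2
    · abel_nf
    · abel

end

end Mes
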