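import Pool.Agent.LibMes.MC12

open Finset

namespace Mes

section
variable {α : Type} [Fintype α] [DecidableEq α]

omit [Fintype α] [DecidableEq α] in
private theorem mc13_ne {n : ℕ} (hn : 2 ≤ n) (t : Fin (n + 1)) : t + 1 ≠ t - 1 := by
  intro h
  obtain ⟨m, rfl⟩ : ∃ m, n = m + 2 := ⟨n - 2, by omega⟩
  have h1 : (t - 1) + (1 + 1) = (t - 1) + 0 := by
    rw [add_zero, ← add_assoc, sub_add_cancel]; exact h
  have h3 := congrArg Fin.val (add_left_cancel h1)
  rw [Fin.val_add, Fin.val_zero, Fin.val_one, Nat.mod_eq_of_lt (by omega)] at h3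
  omega

theorem cls_card {M : ℕ} (x : CW α M) (hx : LF x.2) (hR : Gen (edF x.2)) :
    (univ.filter fun y : CW α M => edF y.2 = edF x.2).card = 2 * ((x.1 : ℕ) + 1) := by
  obtain ⟨n, x⟩ := x
  change LF x at hx
  change Gen (edF x) at hR
  obtain ⟨ix, hn⟩ := gen_inj hx hR
  set φ : Fin ((n : ℕ) + 1) × Bool → CW α M := fun p =>
    ⟨n, if p.2 then fun s => x (p.1 + s) else fun s => x (p.1 - s)⟩ with hφ
  have hinj : Function.Injective φ := by
    rintro ⟨t, b⟩ ⟨t', b'⟩ h
    have h1 : (if b then fun s => x (t + s) else fun s => x (t - s)) =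
        (if b' then fun s => x (t' + s) else fun s => x (t' - s)) := by
      simpa [hφ] using h
    have h0 := congrFun h1 0
    have ht : t = t' := by
      apply ix
      cases b <;> cases b' <;> simpa using h0
    subst ht
    have h2 := congrFun h1 1
    cases b <;> cases b'
    · rfl
    · exact absurd (ix (by simpa using h2)) (mc13_ne hn t).symm
    · exact absurd (ix (by simpa using h2)) (mc13_ne hn t)
    · rfl
  have himg : (univ.filter fun y : CW α M => edF y.2 = edF x) = univ.image φ := by
    ext y
    rw [mem_filter, mem_image]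
    constructor
    · rintro ⟨-, h⟩
      obtain ⟨m, y⟩ := y
      change edF y = edF x at h
      have hc := congrArg Multiset.card h
      rw [card_edF, card_edF] at hc
      have hmn : m = n := Fin.ext (by omega)
      subst hmn
      obtain ⟨t, ht | ht⟩ := rot_rev hx hR h
      · exact ⟨(t, true), mem_univ _, by
          simp only [hφ, if_true]
          exact congrArg (Sigma.mk m) (funext fun s => (ht s).symm)⟩
      · exact ⟨(t, false), mem_univ _, by
          simp only [hφ, Bool.false_eq_true, if_false]
          exact congrArg (Sigma.mk m) (funext fun s => (ht s).symm)⟩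
    · rintro ⟨⟨t, b⟩, -, rfl⟩
      refine ⟨mem_univ _, ?_⟩
      cases b
      · exact (edF_rot x t).2
      · exact (edF_rot x t).1
  change (univ.filter fun y : CW α M => edF y.2 = edF x).card = 2 * ((n : ℕ) + 1)
  rw [himg, card_image_of_injective _ hinj, card_univ, Fintype.card_prod, Fintype.card_bool,
    Fintype.card_fin, mul_comm]

end

end Mes
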