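import Pool.Agent.LibMes.MC12

open Finset

namespace Mes

private theorem mc14_wl {V : ℕ} {l : Fin V → Fin V → ℝ} (hl : ∀ v w, l v w = l w v) {n : ℕ}
    (x : Fin (n + 1) → Fin V) : wlV l x = ((edF x).map (Sym2.lift ⟨l, hl⟩)).sum := by
  rw [edF, Multiset.map_map, wlV]
  rfl

theorem wlV_congr {V : ℕ} {l : Fin V → Fin V → ℝ} (hl : ∀ v w, l v w = l w v) {n m : ℕ}
    {x : Fin (n + 1) → Fin V} {y : Fin (m + 1) → Fin V} (h : edF y = edF x) :
    wlV l y = wlV l x := by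
  rw [mc14_wl hl, mc14_wl hl, h]

private theorem mc14_amp {V : ℕ} {σ : Fin V → Fin V → Fin V → ℝ}
    (hs : ∀ v u w, σ v u w = σ v w u) {n : ℕ} {x y : Fin (n + 1) → Fin V}
    (h : ∃ t, (∀ s, y s = x (t + s)) ∨ ∀ s, y s = x (t - s)) : ampV σ y = ampV σ x := by
  obtain ⟨t, h | h⟩ := h
  · rw [ampV, ampV]
    refine Fintype.prod_equiv (Equiv.addLeft t) _ _ fun i => ?_
    rw [h, h, h, Equiv.coe_addLeft, ← add_assoc, ← add_assoc]
  · rw [ampV, ampV]
    refine Fintype.prod_equiv (Equiv.subLeft (t - 2)) _ _ fun i => ?_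
    rw [h, h, h, Equiv.subLeft_apply, hs]
    have e1 : t - 2 - i + 1 = t - (i + 1) := by
      have h2 : (2 : Fin (n + 1)) = 1 + 1 := by
        apply Fin.ext
        change 2 % (n + 1) = (1 % (n + 1) + 1 % (n + 1)) % (n + 1)
        rw [← Nat.add_mod]
      rw [h2]
      abel
    have e2 : t - 2 - i + 2 = t - i := by abel
    have e3 : t - (i + 2) = t - 2 - i := by abel
    rw [e1, e2, e3]

theorem cf_inv {V : ℕ} {σ : Fin V → Fin V → Fin V → ℝ} (hs : ∀ v u w, σ v u w = σ v w u)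
    {l : Fin V → Fin V → ℝ} (hl : ∀ v w, l v w = l w v) (h : ℝ → ℂ) (Λ : ℝ) {M : ℕ}
    {x y : CW (Fin V) M} (hx : LF x.2) (hR : Gen (edF x.2)) (he : edF y.2 = edF x.2) :
    cf σ l h Λ y = cf σ l h Λ x := by
  obtain ⟨n, x⟩ := x
  obtain ⟨m, y⟩ := y
  have h1 : m = n := by
    have h2 := congrArg Multiset.card he
    simp only [edF, Multiset.card_map, Finset.card_val, Finset.card_univ, Fintype.card_fin] at h2
    exact Fin.ext (by omega)
  subst h1
  simp only at hx hR he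
  rw [cf, cf]
  simp only
  rw [wlV_congr hl he, mc14_amp hs (rot_rev hx hR he)]

end Mes
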