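import Pool.Agent.LibMes.MC11

open Finset

namespace Mes

private lemma mc15_inj {E : Type} {a : ℕ} {F : Fin a → Multiset E} (hn : (∑ i, F i).Nodup)
    (h0 : ∀ i, F i ≠ 0) {i i' : Fin a} (h : F i = F i') : i = i' := by
  classical
  by_contra hne
  obtain ⟨e, he⟩ := Multiset.exists_mem_of_ne_zero (h0 i)
  have h1 : F i + F i' ≤ ∑ i, F i := by
    rw [← Finset.add_sum_erase _ _ (Finset.mem_univ i)]
    refine add_le_add_right ?_ _
    exact Finset.single_le_sum (f := F) (fun _ _ => Multiset.zero_le _)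
      (Finset.mem_erase.2 ⟨fun h => hne h.symm, Finset.mem_univ i'⟩)
  have h2 : (F i + F i').Nodup := Multiset.nodup_of_le h1 hn
  rw [Multiset.nodup_add] at h2
  exact Multiset.disjoint_left.1 h2.2.2 he (h ▸ he)

private lemma mc15_core {E : Type} [DecidableEq (Multiset E)] {a b : ℕ} (F : Fin a → Multiset E)
    (G : Fin b → Multiset E) (hn : (∑ i, F i).Nodup) (hF : ∀ i, F i ≠ 0) (hG : ∀ j, G j ≠ 0)
    (h1 : ∑ i, F i = ∑ j, G j → ∀ j, ∃ i, G j = F i)
    (h2 : ∑ i, F i = ∑ j, G j → ∀ i, ∃ j, F i = G j) :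
    (if ∑ i, F i = ∑ j, G j then (1 : ℂ) else 0) =
      ∑ π : Fin b ≃ Fin a, ∏ j, if G j = F (π j) then (1 : ℂ) else 0 := by
  by_cases h : ∑ i, F i = ∑ j, G j
  · rw [if_pos h]
    choose f hf using h1 h
    have hn' : (∑ j, G j).Nodup := h ▸ hn
    have hinj : Function.Injective f := by
      intro j j' hj
      apply mc15_inj hn' hG
      rw [hf j, hf j', hj]
    have hsurj : Function.Surjective f := by
      intro i
      obtain ⟨j, hj⟩ := h2 h i
      exact ⟨j, mc15_inj hn hF (by rw [← hf j, hj])⟩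
    let π₀ : Fin b ≃ Fin a := Equiv.ofBijective f ⟨hinj, hsurj⟩
    rw [Finset.sum_eq_single π₀]
    · symm
      apply Finset.prod_eq_one
      intro j _
      exact if_pos (hf j)
    · intro π _ hπ
      obtain ⟨j, hj⟩ : ∃ j, π j ≠ π₀ j := by
        by_contra hcon
        push_neg at hcon
        exact hπ (Equiv.ext hcon)
      apply Finset.prod_eq_zero (Finset.mem_univ j)
      apply if_neg
      intro h3
      apply hj
      apply mc15_inj hn hF
      rw [← h3]
      exact hf j
    · intro h3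
      exact absurd (Finset.mem_univ _) h3
  · rw [if_neg h]
    symm
    apply Finset.sum_eq_zero
    intro π _
    by_contra hne
    apply h
    have h3 : ∀ j, G j = F (π j) := by
      intro j
      by_contra h4
      exact hne (Finset.prod_eq_zero (Finset.mem_univ j) (if_neg h4))
    rw [← Equiv.sum_comp π]
    exact Finset.sum_congr rfl fun j _ => (h3 j).symm

section
variable {α : Type} [Fintype α] [DecidableEq α]

omit [Fintype α] in
private lemma mc15_meet {a b M : ℕ} {P : Fin a → CW α M} (hP : ∀ i, LF (P i).2)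
    (hR : Gen (edP P)) {P' : Fin b → CW α M} (hP' : ∀ j, LF (P' j).2) (h : edP P = edP P')
    (j : Fin b) : ∃ i, edF (P' j).2 = edF (P i).2 := by
  have hj : edF (P' j).2 ≤ edP P := by
    rw [h]
    exact Finset.single_le_sum (f := fun j => edF (P' j).2) (fun _ _ => Multiset.zero_le _)
      (Finset.mem_univ j)
  have he : s((P' j).2 0, (P' j).2 (0 + 1)) ∈ edF (P' j).2 :=
    Multiset.mem_map.2 ⟨0, Finset.mem_univ_val _, rfl⟩
  have he' := Multiset.mem_of_le hj he
  obtain ⟨i, _, hi⟩ := Multiset.mem_sum.1 he'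
  obtain ⟨t, _, ht⟩ := Multiset.mem_map.1 hi
  have hle : edF (P i).2 ≤ edP P :=
    Finset.single_le_sum (f := fun i => edF (P i).2) (fun _ _ => Multiset.zero_le _)
      (Finset.mem_univ i)
  refine ⟨i, ?_⟩
  rw [Sym2.eq_iff] at ht
  rcases ht with ⟨h1, _⟩ | ⟨_, h1⟩
  · exact (meet (hP i) (hP' j) hR hle hj h1).symm
  · exact (meet (hP i) (hP' j) hR hle hj h1).symm

omit [Fintype α] [DecidableEq α] in
private lemma mc15_ne {n : ℕ} (y : Fin (n + 1) → α) : edF y ≠ 0 := by
  intro h
  have := card_edF y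
  rw [h] at this
  simp at this

omit [Fintype α] in
theorem matching {a b M : ℕ} {P : Fin a → CW α M} (hP : ∀ i, LF (P i).2) (hR : Gen (edP P))
    (P' : Fin b → CW α M) :
    (if edP P = edP P' then (1 : ℂ) else 0) =
      ∑ π : Fin b ≃ Fin a, ∏ j, if edF (P' j).2 = edF (P (π j)).2 then (1 : ℂ) else 0 := by
  have hLF : edP P = edP P' → ∀ j, LF (P' j).2 := by
    intro h j
    rw [LF_iff]
    intro e he
    have h1 : e ∈ edP P := by
      rw [h]
      exact Multiset.mem_sum.2 ⟨j, Finset.mem_univ j, he⟩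
    obtain ⟨i, _, hi⟩ := Multiset.mem_sum.1 h1
    exact (LF_iff _).1 (hP i) e hi
  refine mc15_core (fun i => edF (P i).2) (fun j => edF (P' j).2) hR.1 (fun i => mc15_ne _)
    (fun j => mc15_ne _) (fun h j => ?_) (fun h i => ?_)
  · exact mc15_meet hP hR (hLF h) h j
  · have h' : edP P = edP P' := h
    exact mc15_meet (hLF h) (h' ▸ hR) hP h'.symm i

end

end Mes
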