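import Pool.Agent.LibMes.MC13
import Pool.Agent.LibMes.MC15

open Finset

namespace Mes

private lemma mc16_sum {Y : Type} [Fintype Y] {a b : ℕ} (T : (Fin b ≃ Fin a) → Fin b → Y → ℂ)
    (s : Fin a → ℂ) (hs : ∀ π j, ∑ y, T π j y = s (π j)) :
    ∑ P' : Fin b → Y, ∑ π : Fin b ≃ Fin a, ∏ j, T π j (P' j) =
      if a = b then (a.factorial : ℂ) * ∏ i, s i else 0 := by
  classical
  rw [Finset.sum_comm]
  have h1 : ∀ π : Fin b ≃ Fin a, ∑ P' : Fin b → Y, ∏ j, T π j (P' j) = ∏ i, s i := by
    intro π
    rw [← Fintype.piFinset_univ, ← Finset.prod_univ_sum (fun _ => (Finset.univ : Finset Y))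
      (fun j y => T π j y)]
    rw [Finset.prod_congr rfl fun j _ => hs π j]
    exact Equiv.prod_comp π s
  rw [Finset.sum_congr rfl fun π _ => h1 π, Finset.sum_const, nsmul_eq_mul, Finset.card_univ]
  by_cases hab : a = b
  · subst hab
    rw [if_pos rfl]
    have : Fintype.card (Fin a ≃ Fin a) = a.factorial := by
      have := Fintype.card_perm (α := Fin a)
      rw [Fintype.card_fin] at this
      exact this
    rw [this]
  · rw [if_neg hab]
    haveI : IsEmpty (Fin b ≃ Fin a) := by
      constructor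
      intro e
      have := Fintype.card_congr e
      rw [Fintype.card_fin, Fintype.card_fin] at this
      exact hab this.symm
    rw [Fintype.card_eq_zero, Nat.cast_zero, zero_mul]

section
variable {α : Type} [Fintype α] [DecidableEq α]

omit [Fintype α] in
private lemma mc16_gen {S R : Multiset (Sym2 α)} (h : S ≤ R) (hR : Gen R) : Gen S :=
  ⟨Multiset.nodup_of_le h hR.1, fun w => (Multiset.countP_le_of_le _ h).trans (hR.2 w)⟩

theorem gen_sum {a b M : ℕ} (c : CW α M → ℂ) {P : Fin a → CW α M} (hP : ∀ i, LF (P i).2)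
    (hR : Gen (edP P)) (hc : ∀ i y, edF y.2 = edF (P i).2 → c y = c (P i)) :
    ∑ P' : Fin b → CW α M, (if edP P = edP P' then ∏ j, c (P' j) else 0) =
      if a = b then (a.factorial : ℂ) * ∏ i, (2 * (((P i).1 : ℕ) + 1 : ℕ) * c (P i)) else 0 := by
  rw [← mc16_sum (Y := CW α M) (fun π j y =>
    (if edF y.2 = edF (P (π j)).2 then (1 : ℂ) else 0) * c y)
    (fun i => 2 * (((P i).1 : ℕ) + 1 : ℕ) * c (P i))]
  · refine Finset.sum_congr rfl fun P' _ => ?_
    have h1 : (if edP P = edP P' then ∏ j, c (P' j) else 0) =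
        (if edP P = edP P' then (1 : ℂ) else 0) * ∏ j, c (P' j) := by
      split_ifs
      · rw [one_mul]
      · rw [zero_mul]
    rw [h1, matching hP hR P', Finset.sum_mul]
    refine Finset.sum_congr rfl fun π _ => ?_
    rw [Finset.prod_mul_distrib]
  · intro π j
    have hle : edF (P (π j)).2 ≤ edP P :=
      Finset.single_le_sum (f := fun i => edF (P i).2) (fun _ _ => Multiset.zero_le _)
        (Finset.mem_univ (π j))
    have h1 := cls_card (P (π j)) (hP (π j)) (mc16_gen hle hR)
    have h2 : ∀ y : CW α M, (if edF y.2 = edF (P (π j)).2 then (1 : ℂ) else 0) * c y =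
        if edF y.2 = edF (P (π j)).2 then c (P (π j)) else 0 := by
      intro y
      split_ifs with h
      · rw [one_mul, hc (π j) y h]
      · rw [zero_mul]
    rw [Finset.sum_congr rfl fun y _ => h2 y, ← Finset.sum_filter, Finset.sum_const, h1,
      nsmul_eq_mul]
    push_cast
    ring

end

end Mes
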