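import Pool.Agent.LibMes.CDefs

open Finset

namespace Mes

private theorem mc2_tr {α : Type} (σ : α → α → α → ℝ) : ∀ {k : ℕ} (a b : α) (z : Fin k → α),
    tr σ a b (List.ofFn z) = ∏ i : Fin k,
      σ ((Fin.cons a (Fin.cons b z) : Fin (k + 1 + 1) → α) i.castSucc.succ)
        ((Fin.cons a (Fin.cons b z) : Fin (k + 1 + 1) → α) i.succ.succ)
        ((Fin.cons a (Fin.cons b z) : Fin (k + 1 + 1) → α) i.castSucc.castSucc) ^ 2
  | 0, a, b, z => by simp [tr]
  | k + 1, a, b, z => by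
    rw [List.ofFn_succ, tr, Fin.prod_univ_succ, mc2_tr σ b (z 0) (fun i => z i.succ)]
    have h1 : (Fin.cons (z 0) (fun i => z i.succ) : Fin (k + 1) → α) = z := Fin.cons_self_tail z
    rw [h1]
    refine congrArg₂ (· * ·) ?_ (prod_congr rfl (fun i _ => ?_))
    · rfl
    · rw [← Fin.succ_castSucc]
      simp only [Fin.cons_succ]
      rfl

theorem amp_le {V : ℕ} {σ : Fin V → Fin V → Fin V → ℝ} {κ : ℝ} (hK : Ker σ κ) {k : ℕ}
    (a b : Fin V) (z : Fin k → Fin V) :
    ampV σ (Fin.cons a (Fin.cons b z) : Fin (k + 1 + 1) → Fin V) ^ 2 ≤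
      κ ^ 2 * tr σ a b (List.ofFn z) := by
  set y : Fin (k + 1 + 1) → Fin V := Fin.cons a (Fin.cons b z) with hy
  rw [ampV, ← Finset.prod_pow, Fin.prod_univ_castSucc, Fin.prod_univ_castSucc, mc2_tr σ a b z,
    ← hy]
  have h1 : ∀ i : Fin k, σ (y (i.castSucc.castSucc + 1)) (y (i.castSucc.castSucc + 2))
      (y i.castSucc.castSucc) ^ 2 = σ (y i.castSucc.succ) (y i.succ.succ)
        (y i.castSucc.castSucc) ^ 2 := by
    intro i
    have e1 : (i.castSucc.castSucc + 1 : Fin (k + 1 + 1)) = i.castSucc.succ := by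
      apply Fin.ext
      rw [Fin.val_add]
      simp only [Fin.val_castSucc, Fin.val_succ, Fin.val_one]
      exact Nat.mod_eq_of_lt (by omega)
    have e2 : (i.castSucc.castSucc + 2 : Fin (k + 1 + 1)) = i.succ.succ := by
      have e3 : (2 : Fin (k + 1 + 1)) = 1 + 1 := by
        apply Fin.ext
        show 2 % (k + 1 + 1) = (1 % (k + 1 + 1) + 1 % (k + 1 + 1)) % (k + 1 + 1)
        rw [← Nat.add_mod]
      rw [e3, ← add_assoc, e1]
      apply Fin.ext
      rw [Fin.val_add]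
      simp only [Fin.val_castSucc, Fin.val_succ, Fin.val_one]
      have := i.isLt
      exact Nat.mod_eq_of_lt (by omega)
    rw [e1, e2]
  rw [prod_congr rfl (fun i _ => h1 i)]
  set p : ℝ := ∏ i : Fin k, σ (y i.castSucc.succ) (y i.succ.succ) (y i.castSucc.castSucc) ^ 2
    with hp
  have hp0 : 0 ≤ p := prod_nonneg (fun i _ => sq_nonneg _)
  have h2 : ∀ i : Fin (k + 1 + 1), σ (y (i + 1)) (y (i + 2)) (y i) ^ 2 ≤ κ := fun i => hK.bd _ _ _
  calc p * _ * _ ≤ p * κ * κ :=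
        mul_le_mul (mul_le_mul_of_nonneg_left (h2 _) hp0) (h2 _) (sq_nonneg _)
          (mul_nonneg hp0 hK.nonneg)
    _ = κ ^ 2 * p := by ring

end Mes
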