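import Pool.Agent.LibMes.MC1

open Finset

namespace Mes

theorem sum_tr {V : ℕ} {σ : Fin V → Fin V → Fin V → ℝ} {κ : ℝ} (hK : Ker σ κ) {L : ℝ} (k : ℕ)
    (a b : Fin V) (H : Multiset (Fin V)) (hL : (H.card : ℝ) + k ≤ L) {ρ : ℝ} (hρ : 1 ≤ ρ) :
    ∑ z : Fin k → Fin V, tr σ a b (List.ofFn z) *
      (ρ * om ((List.ofFn z : Multiset (Fin V)) + H) - 1) ≤
        ρ * (1 + 2 * κ * L) ^ k * om H - 1 := by
  induction k generalizing a b H with
  | zero =>
    rw [Fintype.sum_unique]
    simp [tr]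
  | succ k ih =>
    push_cast at hL
    have hk : (0 : ℝ) ≤ k := Nat.cast_nonneg k
    have hH : (0 : ℝ) ≤ (H.card : ℝ) := Nat.cast_nonneg _
    have hL0 : (0 : ℝ) ≤ L := by linarith
    have h1 : 1 ≤ 1 + 2 * κ * L := by
      have h2 : 0 ≤ κ * L := mul_nonneg hK.nonneg hL0
      linarith
    have h3 : 1 ≤ ρ * (1 + 2 * κ * L) ^ k := one_le_mul_of_one_le_of_one_le hρ (one_le_pow₀ h1)
    rw [← (Fin.consEquiv (fun _ : Fin (k + 1) => Fin V)).sum_comp, Fintype.sum_prod_type]
    have h4 : ∀ c : Fin V, ∑ z : Fin k → Fin V,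
        tr σ a b (List.ofFn ((Fin.consEquiv (fun _ : Fin (k + 1) => Fin V)) (c, z))) *
          (ρ * om ((List.ofFn ((Fin.consEquiv (fun _ : Fin (k + 1) => Fin V)) (c, z)) :
            Multiset (Fin V)) + H) - 1) ≤
        σ b c a ^ 2 * (ρ * (1 + 2 * κ * L) ^ k * om (c ::ₘ H) - 1) := by
      intro c
      refine le_trans (le_of_eq ?_) (mul_le_mul_of_nonneg_left (ih b c (c ::ₘ H) ?_)
        (sq_nonneg (σ b c a)))
      · rw [Finset.mul_sum]
        refine Finset.sum_congr rfl fun z _ => ?_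
        have h5 : List.ofFn ((Fin.consEquiv (fun _ : Fin (k + 1) => Fin V)) (c, z)) =
            c :: List.ofFn z := List.ofFn_cons c z
        rw [h5]
        have h6 : ((c :: List.ofFn z : List (Fin V)) : Multiset (Fin V)) + H =
            (List.ofFn z : Multiset (Fin V)) + (c ::ₘ H) := by
          rw [← Multiset.cons_coe, Multiset.cons_add, Multiset.add_cons]
        rw [h6]
        change σ b c a ^ 2 * tr σ b c (List.ofFn z) * _ = _
        ring
      · rw [Multiset.card_cons]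
        push_cast
        linarith
    refine (Finset.sum_le_sum fun c _ => h4 c).trans ?_
    refine (om_step (fun c => sq_nonneg (σ b c a)) (fun c => hK.bd b c a) hK.nonneg (hK.row b a)
      h3 H (L := L) (by linarith)).trans (le_of_eq ?_)
    rw [pow_succ]
    ring

end Mes
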