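import Pool.Agent.LibMes.MC2
import Pool.Agent.LibMes.MC3

open Finset

namespace Mes

theorem sum_walk {V : ℕ} {σ : Fin V → Fin V → Fin V → ℝ} {κ : ℝ} (hK : Ker σ κ) {L : ℝ} (n : ℕ)
    (H : Multiset (Fin V)) (hL : (H.card : ℝ) + (n + 1) ≤ L) {ρ : ℝ} (hρ : 1 ≤ ρ) :
    ∑ y : Fin (n + 1) → Fin V, ampV σ y ^ 2 * (ρ * om (viF y + H) - 1) ≤
      (κ * V) ^ 2 * (ρ * (1 + 2 * κ * L) ^ (n + 1) * om H - 1) := by
  have hn : (0 : ℝ) ≤ n := Nat.cast_nonneg n
  have hH : (0 : ℝ) ≤ (H.card : ℝ) := Nat.cast_nonneg _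
  have hL0 : (0 : ℝ) ≤ L := by linarith
  have h1 : 1 ≤ 1 + 2 * κ * L := by
    have h2 : 0 ≤ κ * L := mul_nonneg hK.nonneg hL0
    linarith
  have hom : ∀ S : Multiset (Fin V), (1 : ℝ) ≤ om S := fun S => by
    exact_mod_cast one_le_om S
  have hpos : ∀ (ρ : ℝ), 1 ≤ ρ → ∀ S : Multiset (Fin V), 0 ≤ ρ * om S - 1 := fun ρ hρ S =>
    sub_nonneg.2 (one_le_mul_of_one_le_of_one_le hρ (hom S))
  cases n with
  | zero =>
    have h3 : ∀ y : Fin (0 + 1) → Fin V, ampV σ y = 0 := by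
      intro y
      unfold ampV
      rw [Fin.prod_univ_one]
      have h4 : (0 + 2 : Fin (0 + 1)) = 0 := Subsingleton.elim (α := Fin 1) _ _
      have h5 : (0 + 1 : Fin (0 + 1)) = 0 := Subsingleton.elim (α := Fin 1) _ _
      rw [h4, h5]
      exact hK.loop _ _
    have h6 : ∑ y : Fin (0 + 1) → Fin V, ampV σ y ^ 2 * (ρ * om (viF y + H) - 1) = 0 :=
      Finset.sum_eq_zero fun y _ => by rw [h3 y]; ring
    rw [h6]
    exact mul_nonneg (sq_nonneg _) (hpos _ (one_le_mul_of_one_le_of_one_le hρ (one_le_pow₀ h1)) _)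
  | succ k =>
    push_cast at hL
    have hk : (0 : ℝ) ≤ k := Nat.cast_nonneg k
    have hV : (0 : ℝ) < V := by
      rcases Nat.eq_zero_or_pos V with h0 | h0
      · have h2 := hK.one
        rw [h0] at h2
        norm_num at h2
      · exact_mod_cast h0
    have hVκ : 1 / (V : ℝ) ≤ κ := by
      rw [div_le_iff₀ hV]
      exact hK.one
    set ρ' := ρ * (1 + 2 * κ * L) ^ k with hρ'
    have h3 : 1 ≤ ρ' := one_le_mul_of_one_le_of_one_le hρ (one_le_pow₀ h1)
    rw [← (Fin.consEquiv (fun _ : Fin (k + 1 + 1) => Fin V)).sum_comp, Fintype.sum_prod_type]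
    have h4 : ∀ a : Fin V, ∑ x : Fin (k + 1) → Fin V,
        ampV σ ((Fin.consEquiv (fun _ : Fin (k + 1 + 1) => Fin V)) (a, x)) ^ 2 *
          (ρ * om (viF ((Fin.consEquiv (fun _ : Fin (k + 1 + 1) => Fin V)) (a, x)) + H) - 1) ≤
        ∑ b : Fin V, κ ^ 2 * (ρ' * om (b ::ₘ a ::ₘ H) - 1) := by
      intro a
      rw [← (Fin.consEquiv (fun _ : Fin (k + 1) => Fin V)).sum_comp, Fintype.sum_prod_type]
      refine Finset.sum_le_sum fun b _ => ?_
      refine le_trans (Finset.sum_le_sum (g := fun z => κ ^ 2 * (tr σ a b (List.ofFn z) *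
          (ρ * om ((List.ofFn z : Multiset (Fin V)) + (b ::ₘ a ::ₘ H)) - 1))) fun z _ => ?_)
        (le_trans (le_of_eq ?_) (mul_le_mul_of_nonneg_left
          (sum_tr hK (L := L) k a b (b ::ₘ a ::ₘ H) ?_ hρ) (sq_nonneg κ)))
      · have h5 : viF ((Fin.consEquiv (fun _ : Fin (k + 1 + 1) => Fin V))
            (a, (Fin.consEquiv (fun _ : Fin (k + 1) => Fin V)) (b, z))) + H =
            (List.ofFn z : Multiset (Fin V)) + (b ::ₘ a ::ₘ H) := by
          unfold viF
          rw [Fin.univ_val_map]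
          change ((List.ofFn (Fin.cons a (Fin.cons b z) : Fin (k + 1 + 1) → Fin V) :
            List (Fin V)) : Multiset (Fin V)) + H = _
          rw [List.ofFn_cons, List.ofFn_cons, ← Multiset.cons_coe, ← Multiset.cons_coe,
            Multiset.cons_add, Multiset.cons_add, Multiset.add_cons, Multiset.add_cons,
            Multiset.cons_swap]
        rw [h5, ← mul_assoc]
        exact mul_le_mul_of_nonneg_right (amp_le hK a b z) (hpos ρ hρ _)
      · rw [Finset.mul_sum]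
      · rw [Multiset.card_cons, Multiset.card_cons]
        push_cast
        linarith
    refine (Finset.sum_le_sum fun a _ => h4 a).trans ?_
    have hc : ∑ _w : Fin V, 1 / (V : ℝ) ≤ 1 := by
      rw [Finset.sum_const, Finset.card_univ, Fintype.card_fin, nsmul_eq_mul, mul_one_div,
        div_self hV.ne']
    have h6 : ∀ a : Fin V, ∑ b : Fin V, κ ^ 2 * (ρ' * om (b ::ₘ a ::ₘ H) - 1) ≤
        κ ^ 2 * V * (ρ' * (1 + 2 * κ * L) * om (a ::ₘ H) - 1) := by
      intro a
      have h7 := om_step (K := fun _ : Fin V => 1 / (V : ℝ)) (κ := κ)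
        (fun _ => (one_div_pos.2 hV).le) (fun _ => hVκ) hK.nonneg hc h3 (a ::ₘ H) (L := L) (by
          rw [Multiset.card_cons]
          push_cast
          linarith)
      refine le_trans (le_of_eq ?_) (mul_le_mul_of_nonneg_left h7
        (mul_nonneg (sq_nonneg κ) hV.le))
      rw [Finset.mul_sum]
      refine Finset.sum_congr rfl fun b _ => ?_
      field_simp
    refine (Finset.sum_le_sum fun a _ => h6 a).trans ?_
    have h8 := om_step (K := fun _ : Fin V => 1 / (V : ℝ)) (κ := κ)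
      (fun _ => (one_div_pos.2 hV).le) (fun _ => hVκ) hK.nonneg hc
      (one_le_mul_of_one_le_of_one_le h3 h1) H (L := L) (by linarith)
    have h9 : ∑ a : Fin V, κ ^ 2 * V * (ρ' * (1 + 2 * κ * L) * om (a ::ₘ H) - 1) =
        (κ * V) ^ 2 * ∑ a : Fin V, 1 / (V : ℝ) * (ρ' * (1 + 2 * κ * L) * om (a ::ₘ H) - 1) := by
      rw [Finset.mul_sum]
      refine Finset.sum_congr rfl fun a _ => ?_
      field_simp
    rw [h9]
    refine (mul_le_mul_of_nonneg_left h8 (sq_nonneg _)).trans (le_of_eq ?_)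
    rw [hρ']
    ring

end Mes
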