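import Pool.Agent.LibMes.MC4

open Finset

namespace Mes

private theorem mc5_viP_cons {α : Type} {m M : ℕ} (y : CW α M) (P : Fin m → CW α M) :
    viP (Fin.cons y P : Fin (m + 1) → CW α M) = viF y.2 + viP P := by
  unfold viP
  rw [Fin.sum_univ_succ]
  rfl

private theorem mc5_card {α : Type} {n : ℕ} (y : Fin (n + 1) → α) :
    Multiset.card (viF y) = n + 1 := by
  unfold viF
  simp

theorem sum_fam {V : ℕ} {σ : Fin V → Fin V → Fin V → ℝ} {κ : ℝ} (hK : Ker σ κ) {L : ℝ} (m M : ℕ)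
    (θ : Fin m → Fin M → ℝ) (hθ : ∀ i n, 0 ≤ θ i n) (H : Multiset (Fin V))
    (hL : (H.card : ℝ) + m * M ≤ L) {ρ : ℝ} (hρ : 1 ≤ ρ) :
    ∑ P : Fin m → CW (Fin V) M, (∏ i, θ i (P i).1 * ampV σ (P i).2 ^ 2) *
      (ρ * om (viP P + H) - 1) ≤
        (∏ i, ∑ n, θ i n) * (κ * V) ^ (2 * m) * (ρ * (1 + 2 * κ * L) ^ (m * M) * om H - 1) := by
  induction m generalizing H ρ with
  | zero =>
    simp [viP]
  | succ m ih =>
    have hκ := hK.nonneg
    have hL0 : 0 ≤ L := by
      refine le_trans ?_ hL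
      positivity
    have hb : 1 ≤ 1 + 2 * κ * L := by
      have : 0 ≤ 2 * κ * L := by positivity
      linarith
    have hρ' : 1 ≤ ρ * (1 + 2 * κ * L) ^ (m * M) := by
      have := one_le_pow₀ hb (n := m * M)
      nlinarith
    have hT : 0 ≤ ∏ i : Fin m, ∑ n, θ i.succ n :=
      Finset.prod_nonneg fun i _ => Finset.sum_nonneg fun n _ => hθ _ _
    have hkV : 0 ≤ κ * V := by positivity
    have hLn : ∀ n : Fin M, (H.card : ℝ) + ((n : ℕ) + 1) + m * M ≤ L := by
      intro n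
      refine le_trans ?_ hL
      have h1 : ((n : ℕ) : ℝ) + 1 ≤ M := by exact_mod_cast n.2
      push_cast
      nlinarith
    rw [← (Fin.consEquiv (fun _ : Fin (m + 1) => CW (Fin V) M)).sum_comp, Fintype.sum_prod_type]
    simp only [Fin.consEquiv_apply]
    have e1 : ∀ y : CW (Fin V) M, ∑ P : Fin m → CW (Fin V) M,
        (∏ i, θ i ((Fin.cons y P : Fin (m + 1) → CW (Fin V) M) i).1 *
          ampV σ ((Fin.cons y P : Fin (m + 1) → CW (Fin V) M) i).2 ^ 2) *
          (ρ * om (viP (Fin.cons y P : Fin (m + 1) → CW (Fin V) M) + H) - 1) =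
        θ 0 y.1 * ampV σ y.2 ^ 2 * ∑ P : Fin m → CW (Fin V) M,
          (∏ i, θ i.succ (P i).1 * ampV σ (P i).2 ^ 2) *
            (ρ * om (viP P + (viF y.2 + H)) - 1) := by
      intro y
      rw [Finset.mul_sum]
      refine Finset.sum_congr rfl fun P _ => ?_
      rw [mc5_viP_cons, Fin.prod_univ_succ]
      rw [show viF y.2 + viP P + H = viP P + (viF y.2 + H) by
        rw [add_comm (viF y.2), add_assoc]]
      change (θ 0 y.1 * ampV σ y.2 ^ 2 * ∏ i : Fin m, θ i.succ (P i).1 * ampV σ (P i).2 ^ 2) *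
        (ρ * om (viP P + (viF y.2 + H)) - 1) = _
      ring
    have e2 : ∀ y : CW (Fin V) M, ∑ P : Fin m → CW (Fin V) M,
          (∏ i, θ i.succ (P i).1 * ampV σ (P i).2 ^ 2) *
            (ρ * om (viP P + (viF y.2 + H)) - 1) ≤
        (∏ i : Fin m, ∑ n, θ i.succ n) * (κ * V) ^ (2 * m) *
          (ρ * (1 + 2 * κ * L) ^ (m * M) * om (viF y.2 + H) - 1) := by
      intro y
      refine ih (fun i => θ i.succ) (fun i n => hθ _ _) (viF y.2 + H) ?_ hρ
      rw [Multiset.card_add, mc5_card]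
      have := hLn y.1
      push_cast
      linarith
    calc _ = ∑ y : CW (Fin V) M, θ 0 y.1 * ampV σ y.2 ^ 2 * ∑ P : Fin m → CW (Fin V) M,
          (∏ i, θ i.succ (P i).1 * ampV σ (P i).2 ^ 2) *
            (ρ * om (viP P + (viF y.2 + H)) - 1) := Finset.sum_congr rfl fun y _ => e1 y
      _ ≤ ∑ y : CW (Fin V) M, θ 0 y.1 * ampV σ y.2 ^ 2 *
          ((∏ i : Fin m, ∑ n, θ i.succ n) * (κ * V) ^ (2 * m) *
          (ρ * (1 + 2 * κ * L) ^ (m * M) * om (viF y.2 + H) - 1)) :=
        Finset.sum_le_sum fun y _ => mul_le_mul_of_nonneg_left (e2 y)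
          (mul_nonneg (hθ _ _) (sq_nonneg _))
      _ = (∏ i : Fin m, ∑ n, θ i.succ n) * (κ * V) ^ (2 * m) *
          ∑ n : Fin M, θ 0 n * ∑ y : Fin ((n : ℕ) + 1) → Fin V, ampV σ y ^ 2 *
            (ρ * (1 + 2 * κ * L) ^ (m * M) * om (viF y + H) - 1) := by
        rw [Fintype.sum_sigma, Finset.mul_sum]
        refine Finset.sum_congr rfl fun n _ => ?_
        rw [Finset.mul_sum, Finset.mul_sum]
        refine Finset.sum_congr rfl fun y _ => ?_
        ring
      _ ≤ (∏ i : Fin m, ∑ n, θ i.succ n) * (κ * V) ^ (2 * m) *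
          ∑ n : Fin M, θ 0 n * ((κ * V) ^ 2 *
            (ρ * (1 + 2 * κ * L) ^ (m * M) * (1 + 2 * κ * L) ^ M * om H - 1)) := by
        refine mul_le_mul_of_nonneg_left (Finset.sum_le_sum fun n _ =>
          mul_le_mul_of_nonneg_left ?_ (hθ _ _)) (by positivity)
        refine (sum_walk (L := L) hK (n : ℕ) H ?_ hρ').trans ?_
        · have := hLn n
          have h0 : (0 : ℝ) ≤ m * M := by positivity
          linarith
        · refine mul_le_mul_of_nonneg_left ?_ (by positivity)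
          have h1 : (1 + 2 * κ * L) ^ ((n : ℕ) + 1) ≤ (1 + 2 * κ * L) ^ M :=
            pow_le_pow_right₀ hb n.2
          have h2 : (0 : ℝ) ≤ om H := by positivity
          have h3 : 0 ≤ ρ * (1 + 2 * κ * L) ^ (m * M) := by linarith
          have := mul_le_mul_of_nonneg_right (mul_le_mul_of_nonneg_left h1 h3) h2
          linarith
      _ = _ := by
        rw [← Finset.sum_mul, Fin.prod_univ_succ, show (m + 1) * M = m * M + M by ring, pow_add,
          show 2 * (m + 1) = 2 * m + 2 by ring, pow_add]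
        ring

end Mes
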