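import Pool.Agent.LibMes.CDefs

open Finset

namespace Mes

private theorem mc6_oddp (D : ℕ) : oddp (D + 1) = (if D % 2 = 0 then D + 1 else 1) * oddp D := by
  rw [oddp]
  split_ifs with h
  · rfl
  · rw [one_mul]

section
variable {α : Type} [Fintype α] [DecidableEq α]

theorem dg_cons (R : Multiset (Sym2 α)) (v w u : α) :
    dg (s(v, w) ::ₘ R) u = dg R u + if u = v ∨ u = w then 1 else 0 := by
  rw [dg, dg, Multiset.countP_cons]
  simp only [Sym2.mem_iff]

omit [Fintype α] in
private theorem mc6_split {v w : α} (h : v ≠ w) (A : α → ℕ) (u : α) :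
    (if u = v ∨ u = w then A u else 1) =
      (if u = v then A u else 1) * (if u = w then A u else 1) := by
  by_cases h1 : u = v
  · have h2 : u ≠ w := by rw [h1]; exact h
    rw [if_pos (Or.inl h1), if_pos h1, if_neg h2, mul_one]
  · by_cases h2 : u = w
    · rw [if_pos (Or.inr h2), if_neg h1, if_pos h2, one_mul]
    · rw [if_neg (fun h3 => h3.elim h1 h2), if_neg h1, if_neg h2, one_mul]

theorem Po_cons {v w : α} (h : v ≠ w) (R : Multiset (Sym2 α)) :
    Po (s(v, w) ::ₘ R) = (if dg R v % 2 = 0 then dg R v + 1 else 1) *
      (if dg R w % 2 = 0 then dg R w + 1 else 1) * Po R := by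
  have h1 : ∀ u, oddp (dg (s(v, w) ::ₘ R) u) =
      (if u = v then (if dg R u % 2 = 0 then dg R u + 1 else 1) else 1) *
      (if u = w then (if dg R u % 2 = 0 then dg R u + 1 else 1) else 1) * oddp (dg R u) := by
    intro u
    rw [← mc6_split h (fun u => if dg R u % 2 = 0 then dg R u + 1 else 1) u, dg_cons]
    by_cases h2 : u = v ∨ u = w
    · rw [if_pos h2, if_pos h2, mc6_oddp]
    · rw [if_neg h2, if_neg h2, add_zero, one_mul]
  rw [Po, Finset.prod_congr rfl fun u _ => h1 u, Finset.prod_mul_distrib, Finset.prod_mul_distrib,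
    Finset.prod_ite_eq' univ v, Finset.prod_ite_eq' univ w, if_pos (mem_univ v),
    if_pos (mem_univ w), Po]

/-- The number of continuations is at most the degree. -/
theorem card_next_le (R : Multiset (Sym2 α)) (v : α) :
    (univ.filter fun w => s(v, w) ∈ R).card ≤ dg R v := by
  have h1 : ((univ.filter fun w => s(v, w) ∈ R).image fun w => s(v, w)).card =
      (univ.filter fun w => s(v, w) ∈ R).card :=
    Finset.card_image_of_injective _ fun a b hab => Sym2.congr_right.1 hab
  have h2 : (univ.filter fun w => s(v, w) ∈ R).image (fun w => s(v, w)) ⊆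
      (R.filter fun e => v ∈ e).toFinset := by
    intro e he
    obtain ⟨w, hw, rfl⟩ := Finset.mem_image.1 he
    rw [Multiset.mem_toFinset, Multiset.mem_filter]
    exact ⟨(Finset.mem_filter.1 hw).2, Sym2.mem_mk_left v w⟩
  rw [← h1, dg, Multiset.countP_eq_card_filter]
  exact (Finset.card_le_card h2).trans (Multiset.toFinset_card_le _)

theorem sum_dg {R : Multiset (Sym2 α)} (hR : ∀ e ∈ R, ¬ e.IsDiag) :
    ∑ w, dg R w = 2 * R.card := by
  induction R using Multiset.induction with
  | empty => simp [dg]
  | cons e R ih =>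
    have h1 := ih fun e' he' => hR e' (Multiset.mem_cons_of_mem he')
    have h2 := hR e (Multiset.mem_cons_self e R)
    induction e using Sym2.ind with
    | _ a b =>
      have hab : a ≠ b := fun h => h2 (by rw [h]; exact Sym2.mk_isDiag_iff.2 rfl)
      have h3 : ∑ u : α, (if u = a ∨ u = b then 1 else 0) = 2 := by
        have h4 : ∀ u : α, (if u = a ∨ u = b then 1 else 0) =
            (if u = a then 1 else 0) + (if u = b then 1 else 0) := by
          intro u
          by_cases h5 : u = a
          · have h6 : u ≠ b := by rw [h5]; exact hab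
            rw [if_pos (Or.inl h5), if_pos h5, if_neg h6]
          · by_cases h6 : u = b
            · rw [if_pos (Or.inr h6), if_neg h5, if_pos h6]
            · rw [if_neg (fun h7 => h7.elim h5 h6), if_neg h5, if_neg h6]
        rw [Finset.sum_congr rfl fun u _ => h4 u, Finset.sum_add_distrib,
          Finset.sum_ite_eq' univ a, Finset.sum_ite_eq' univ b, if_pos (mem_univ a),
          if_pos (mem_univ b)]
      rw [Finset.sum_congr rfl fun u _ => dg_cons R a b u, Finset.sum_add_distrib, h1, h3,
        Multiset.card_cons]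
      ring

end

end Mes
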