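import Pool.Agent.LibMes.CDefs

open Finset

namespace Mes

section
variable {α : Type} [Fintype α] [DecidableEq α]

theorem GG_succ (K : ℕ) (R : Multiset (Sym2 α)) (v r : α) :
    GG (K + 1) R v r = (if s(v, r) ∈ R then Po (R.erase s(v, r)) else 0) +
      ∑ w, if s(v, w) ∈ R then GG K (R.erase s(v, w)) w r else 0 := by
  unfold GG
  rw [Finset.sum_range_succ', add_comm]
  congr 1
  · rw [Fintype.sum_unique]
    simp only [List.ofFn_zero, edg, Multiset.singleton_le]
    split_ifs with h
    · rw [Multiset.sub_singleton]
    · rfl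
  · have h1 : ∀ k, ∑ y : Fin (k + 1) → α, (if edg r v (List.ofFn y) ≤ R then
        Po (R - edg r v (List.ofFn y)) else 0) = ∑ w, ∑ z : Fin k → α,
        if s(v, w) ∈ R then (if edg r w (List.ofFn z) ≤ R.erase s(v, w) then
          Po (R.erase s(v, w) - edg r w (List.ofFn z)) else 0) else 0 := by
      intro k
      rw [← (Fin.consEquiv fun _ => α).sum_comp, Fintype.sum_prod_type]
      refine Finset.sum_congr rfl fun w _ => Finset.sum_congr rfl fun z _ => ?_
      have h2 : List.ofFn ((Fin.consEquiv fun _ => α) (w, z) : Fin (k + 1) → α) =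
          w :: List.ofFn z := by
        rw [List.ofFn_succ]
        rfl
      rw [h2]
      have h3 : edg r v (w :: List.ofFn z) = s(v, w) ::ₘ edg r w (List.ofFn z) := rfl
      rw [h3]
      by_cases h : s(v, w) ∈ R
      · rw [if_pos h]
        have h4 : s(v, w) ::ₘ edg r w (List.ofFn z) ≤ R ↔
            edg r w (List.ofFn z) ≤ R.erase s(v, w) := by
          conv_lhs => rw [← Multiset.cons_erase h]
          exact Multiset.cons_le_cons_iff _
        by_cases h5 : edg r w (List.ofFn z) ≤ R.erase s(v, w)
        · rw [if_pos h5, if_pos (h4.mpr h5), Multiset.sub_cons]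
        · rw [if_neg h5, if_neg (fun h6 => h5 (h4.mp h6))]
      · rw [if_neg h, if_neg]
        intro h6
        exact h (Multiset.mem_of_le h6 (Multiset.mem_cons_self _ _))
    simp_rw [h1]
    rw [Finset.sum_comm]
    refine Finset.sum_congr rfl fun w _ => ?_
    split_ifs with h
    · rfl
    · simp

end

end Mes
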