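import Pool.Agent.LibMes.MC6
import Pool.Agent.LibMes.MC7

open Finset

namespace Mes

section
variable {α : Type} [Fintype α] [DecidableEq α]

theorem GG_le (K : ℕ) : ∀ R : Multiset (Sym2 α), (∀ e ∈ R, ¬ e.IsDiag) → ∀ r,
    ((∀ u, dg R u % 2 = 0) → GG K R r r ≤ dg R r * Po R) ∧
    ∀ v, v ≠ r → dg R v % 2 = 1 → dg R r % 2 = 1 →
      (∀ u, u ≠ v → u ≠ r → dg R u % 2 = 0) → GG K R v r ≤ Po R := by
  induction K with
  | zero =>
    intro R _ r
    have h : ∀ v, GG 0 R v r = 0 := fun v => by unfold GG; simp
    exact ⟨fun _ => by rw [h]; exact Nat.zero_le _, fun v _ _ _ _ => by rw [h]; exact Nat.zero_le _⟩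
  | succ K ih =>
    intro R hR r
    have hne : ∀ {v w : α}, s(v, w) ∈ R → v ≠ w := fun {v w} h hvw =>
      hR _ h (by rw [Sym2.mk_isDiag_iff]; exact hvw)
    have hR' : ∀ e, ∀ e' ∈ R.erase e, ¬ e'.IsDiag := fun e e' he' => hR _ (Multiset.mem_of_mem_erase he')
    have hcons : ∀ {v w : α}, s(v, w) ∈ R → s(v, w) ::ₘ R.erase s(v, w) = R := fun h =>
      Multiset.cons_erase h
    have hdg : ∀ {v w : α}, s(v, w) ∈ R → ∀ u, dg R u = dg (R.erase s(v, w)) u +
        if u = v ∨ u = w then 1 else 0 := by
      intro v w h u
      conv_lhs => rw [← hcons h]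
      exact dg_cons _ _ _ _
    have hPo : ∀ {v w : α}, s(v, w) ∈ R → Po R =
        (if dg (R.erase s(v, w)) v % 2 = 0 then dg (R.erase s(v, w)) v + 1 else 1) *
        (if dg (R.erase s(v, w)) w % 2 = 0 then dg (R.erase s(v, w)) w + 1 else 1) *
          Po (R.erase s(v, w)) := by
      intro v w h
      conv_lhs => rw [← hcons h]
      exact Po_cons (hne h) _
    refine ⟨?_, ?_⟩
    · intro hev
      rw [GG_succ, if_neg (fun h => hne h rfl), zero_add]
      have h1 : ∀ w, (if s(r, w) ∈ R then GG K (R.erase s(r, w)) w r else 0) ≤
          if s(r, w) ∈ R then Po R else 0 := by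
        intro w
        split_ifs with h
        · have hrw := hne h
          have d1 := hdg h r
          have d2 := hdg h w
          rw [if_pos (Or.inl rfl)] at d1
          rw [if_pos (Or.inr rfl)] at d2
          have e1 := hev r
          have e2 := hev w
          have o1 : dg (R.erase s(r, w)) r % 2 = 1 := by omega
          have o2 : dg (R.erase s(r, w)) w % 2 = 1 := by omega
          have h2 := (ih (R.erase s(r, w)) (hR' _) r).2 w (Ne.symm hrw) o2 o1 (by
            intro u hu1 hu2
            have d3 := hdg h u
            rw [if_neg (by rintro (h3 | h3); exacts [hu2 h3, hu1 h3]), add_zero] at d3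
            rw [← d3]; exact hev u)
          refine h2.trans ?_
          rw [hPo h, if_neg (by omega), if_neg (by omega), one_mul, one_mul]
        · exact le_rfl
      refine (Finset.sum_le_sum fun w _ => h1 w).trans ?_
      rw [← Finset.sum_filter, Finset.sum_const, smul_eq_mul]
      exact Nat.mul_le_mul_right _ (card_next_le R r)
    · intro v hvr hv hr hev
      have hD : 0 < dg R v := by omega
      refine Nat.le_of_mul_le_mul_left ?_ hD
      rw [GG_succ]
      have h0 : (if s(v, r) ∈ R then Po (R.erase s(v, r)) else 0) =
          ∑ w, if w = r then (if s(v, w) ∈ R then Po (R.erase s(v, w)) else 0) else 0 := by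
        rw [Finset.sum_ite_eq' univ r, if_pos (mem_univ r)]
      rw [h0, ← Finset.sum_add_distrib, Finset.mul_sum]
      have h1 : ∀ w, dg R v * ((if w = r then (if s(v, w) ∈ R then Po (R.erase s(v, w)) else 0) else 0)
          + if s(v, w) ∈ R then GG K (R.erase s(v, w)) w r else 0) ≤
          if s(v, w) ∈ R then Po R else 0 := by
        intro w
        by_cases h : s(v, w) ∈ R
        · rw [if_pos h, if_pos h, if_pos h]
          have hvw := hne h
          have d1 := hdg h v
          have d2 := hdg h w
          rw [if_pos (Or.inl rfl)] at d1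
          rw [if_pos (Or.inr rfl)] at d2
          have o1 : dg (R.erase s(v, w)) v % 2 = 0 := by omega
          by_cases hw : w = r
          · subst hw
            rw [if_pos rfl]
            have o2 : dg (R.erase s(v, w)) w % 2 = 0 := by omega
            have h2 := (ih (R.erase s(v, w)) (hR' _) w).1 (by
              intro u
              by_cases hu1 : u = v
              · rw [hu1]; exact o1
              · by_cases hu2 : u = w
                · rw [hu2]; exact o2
                · have d3 := hdg h u
                  rw [if_neg (by rintro (h3 | h3); exacts [hu1 h3, hu2 h3]), add_zero] at d3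
                  rw [← d3]; exact hev u hu1 hu2)
            rw [hPo h, if_pos o1, if_pos o2, d1]
            calc (dg (R.erase s(v, w)) v + 1) * (Po (R.erase s(v, w)) + GG K (R.erase s(v, w)) w w)
                ≤ (dg (R.erase s(v, w)) v + 1) * (Po (R.erase s(v, w)) +
                  dg (R.erase s(v, w)) w * Po (R.erase s(v, w))) := by gcongr
              _ = _ := by ring
          · rw [if_neg hw, zero_add]
            have e2 : dg R w % 2 = 0 := hev w (Ne.symm hvw) hw
            have o2 : dg (R.erase s(v, w)) w % 2 = 1 := by omega
            have d4 := hdg h r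
            rw [if_neg (by rintro (h3 | h3); exacts [hvr h3.symm, hw h3.symm]), add_zero] at d4
            have h2 := (ih (R.erase s(v, w)) (hR' _) r).2 w hw o2 (by rw [← d4]; exact hr) (by
              intro u hu1 hu2
              by_cases hu3 : u = v
              · rw [hu3]; exact o1
              · have d3 := hdg h u
                rw [if_neg (by rintro (h3 | h3); exacts [hu3 h3, hu1 h3]), add_zero] at d3
                rw [← d3]; exact hev u hu3 hu2)
            rw [hPo h, if_pos o1, if_neg (by omega), mul_one, d1]
            gcongr
        · rw [if_neg h, if_neg h, if_neg h]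
          simp
      refine (Finset.sum_le_sum fun w _ => h1 w).trans ?_
      rw [← Finset.sum_filter, Finset.sum_const, smul_eq_mul]
      exact Nat.mul_le_mul_right _ (card_next_le R v)

end

end Mes
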