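import Pool.Agent.LibMes.FDefs

/-! The method of moments for Gaussian limits. -/

open MeasureTheory ProbabilityTheory Set Filter Topology

namespace Mes

/-- Remainder of the exponential series on the imaginary axis. -/
noncomputable def mmE (n : ℕ) (y : ℝ) : ℂ :=
  Complex.exp (y * Complex.I) - ∑ j ∈ Finset.range n, (y * Complex.I) ^ j / (j.factorial : ℂ)

theorem mmE_deriv (n : ℕ) (y : ℝ) : HasDerivAt (mmE (n + 1)) (Complex.I * mmE n y) y := by
  have h5 : HasDerivAt (fun s : ℝ => (s : ℂ) * Complex.I) Complex.I y := by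
    have : HasDerivAt (fun s : ℝ => (s : ℂ)) 1 y := by simpa using (hasDerivAt_id y).ofReal_comp
    simpa using this.mul_const Complex.I
  have h1 := h5.cexp
  have h2 : HasDerivAt (fun s : ℝ => ∑ j ∈ Finset.range (n + 1),
      ((s : ℂ) * Complex.I) ^ j / (j.factorial : ℂ))
      (∑ j ∈ Finset.range (n + 1), ((j : ℂ) * (y * Complex.I) ^ (j - 1) * Complex.I) /
        (j.factorial : ℂ)) y := by
    refine HasDerivAt.fun_sum fun j _ => ?_
    exact (h5.pow j).div_const _
  have h3 := h1.sub h2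
  have h4 : ∑ j ∈ Finset.range (n + 1), ((j : ℂ) * (y * Complex.I) ^ (j - 1) * Complex.I) /
        (j.factorial : ℂ) = Complex.I * ∑ j ∈ Finset.range n, (y * Complex.I) ^ j /
        (j.factorial : ℂ) := by
    rw [Finset.sum_range_succ']
    simp only [Nat.cast_zero, zero_mul, zero_div, add_zero]
    rw [Finset.mul_sum]
    refine Finset.sum_congr rfl fun j _ => ?_
    rw [Nat.factorial_succ, Nat.add_sub_cancel]
    have : ((j + 1 : ℕ) : ℂ) ≠ 0 := by exact_mod_cast Nat.succ_ne_zero j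
    have h6 : (j.factorial : ℂ) ≠ 0 := by exact_mod_cast j.factorial_ne_zero
    push_cast at this ⊢
    field_simp
  rw [h4] at h3
  have h6 : Complex.I * mmE n y = Complex.exp (y * Complex.I) * Complex.I - Complex.I *
      ∑ j ∈ Finset.range n, (y * Complex.I) ^ j / (j.factorial : ℂ) := by
    unfold mmE; ring
  rw [h6]
  exact h3

theorem mmE_zero (n : ℕ) : mmE (n + 1) 0 = 0 := by
  unfold mmE
  rw [Finset.sum_range_succ']
  simp

theorem mmE_cont (n : ℕ) : Continuous (mmE n) := by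
  unfold mmE
  fun_prop

theorem mmE_bound_nonneg (n : ℕ) : ∀ y : ℝ, 0 ≤ y → ‖mmE n y‖ ≤ y ^ n / n.factorial := by
  induction n with
  | zero =>
    intro y _
    unfold mmE
    simp [Complex.norm_exp_ofReal_mul_I]
  | succ n ih =>
    intro y hy
    have h1 : mmE (n + 1) y = ∫ u in (0 : ℝ)..y, Complex.I * mmE n u := by
      rw [intervalIntegral.integral_eq_sub_of_hasDerivAt (fun u _ => mmE_deriv n u)
        ((continuous_const.mul (mmE_cont n)).intervalIntegrable _ _), mmE_zero, sub_zero]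
    rw [h1]
    refine (intervalIntegral.norm_integral_le_integral_norm hy).trans ?_
    have h2 : ∫ u in (0 : ℝ)..y, ‖Complex.I * mmE n u‖ ≤ ∫ u in (0 : ℝ)..y, u ^ n / n.factorial := by
      refine intervalIntegral.integral_mono_on hy
        ((continuous_const.mul (mmE_cont n)).norm.intervalIntegrable _ _)
        (Continuous.intervalIntegrable (by fun_prop) _ _) fun u hu => ?_
      rw [norm_mul, Complex.norm_I, one_mul]
      exact ih u hu.1
    refine h2.trans (le_of_eq ?_)
    rw [intervalIntegral.integral_div, integral_pow, Nat.factorial_succ]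
    push_cast
    have : ((n : ℝ) + 1) ≠ 0 := by positivity
    have h6 : (n.factorial : ℝ) ≠ 0 := by exact_mod_cast n.factorial_ne_zero
    field_simp
    simp

theorem mmE_bound (n : ℕ) (y : ℝ) : ‖mmE n y‖ ≤ |y| ^ n / n.factorial := by
  rcases le_total 0 y with h | h
  · rw [abs_of_nonneg h]; exact mmE_bound_nonneg n y h
  · have h1 := mmE_bound_nonneg n (-y) (by linarith)
    have h2 : mmE n y = (starRingEnd ℂ) (mmE n (-y)) := by
      unfold mmE
      rw [map_sub, map_sum, ← Complex.exp_conj]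
      simp
    rw [h2, Complex.norm_conj, abs_of_nonpos h]
    exact h1

theorem gaussMom_even (S : ℝ) (i : ℕ) : gaussMom S (2 * i) / ((2 * i).factorial : ℝ)
    = (S / 2) ^ i / i.factorial := by
  unfold gaussMom
  rw [if_pos (even_two_mul i), Nat.mul_div_cancel_left i (by norm_num)]
  have h1 : ((2 * i).factorial : ℝ) = (Nat.doubleFactorial (2 * i - 1) : ℝ) * (2 ^ i * i.factorial) := by
    rcases i with _ | i
    · simp
    · rw [show 2 * (i + 1) = (2 * i + 1) + 1 by ring, Nat.factorial_eq_mul_doubleFactorial,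
        show (2 * i + 1 + 1) = 2 * (i + 1) by ring, Nat.doubleFactorial_two_mul]
      push_cast
      rw [show 2 * (i + 1) - 1 = 2 * i + 1 by omega]
      ring
  rw [h1]
  have h2 : (Nat.doubleFactorial (2 * i - 1) : ℝ) ≠ 0 := by
    exact_mod_cast (Nat.doubleFactorial_pos _).ne'
  have h3 : (i.factorial : ℝ) ≠ 0 := by exact_mod_cast i.factorial_ne_zero
  rw [div_pow]
  field_simp

theorem gaussMom_odd (S : ℝ) {r : ℕ} (h : ¬ Even r) : gaussMom S r = 0 := by
  unfold gaussMom; rw [if_neg h]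

/-- the partial sums of the characteristic function -/
theorem gauss_partial (S t : ℝ) (m : ℕ) :
    ∑ j ∈ Finset.range (2 * m), (t * Complex.I) ^ j / (j.factorial : ℂ) * (gaussMom S j : ℂ)
      = ∑ i ∈ Finset.range m, ((-(S * t ^ 2 / 2) : ℝ) : ℂ) ^ i / (i.factorial : ℂ) := by
  induction m with
  | zero => simp
  | succ m ih =>
    rw [show 2 * (m + 1) = 2 * m + 1 + 1 by ring, Finset.sum_range_succ, Finset.sum_range_succ, ih,
      Finset.sum_range_succ (n := m), gaussMom_odd S (r := 2 * m + 1) (by simp)]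
    have h := gaussMom_even S m
    have h2 : (gaussMom S (2 * m) : ℂ) / ((2 * m).factorial : ℂ) = ((S / 2) ^ m / m.factorial : ℝ) := by
      rw [← h]; push_cast; rfl
    have h3 : (t * Complex.I) ^ (2 * m) / ((2 * m).factorial : ℂ) * (gaussMom S (2 * m) : ℂ)
        = ((-(S * t ^ 2 / 2) : ℝ) : ℂ) ^ m / (m.factorial : ℂ) := by
      have h4 : (t * Complex.I) ^ (2 * m) / ((2 * m).factorial : ℂ) * (gaussMom S (2 * m) : ℂ)
        = (t * Complex.I) ^ (2 * m) * ((gaussMom S (2 * m) : ℂ) / ((2 * m).factorial : ℂ)) := by ring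
      rw [h4, h2, pow_mul]
      have h5 : ((t : ℂ) * Complex.I) ^ 2 = -(t ^ 2 : ℂ) := by
        rw [mul_pow, Complex.I_sq]; ring
      rw [h5]
      push_cast
      rw [← mul_div_assoc, ← mul_pow]
      congr 2
      ring
    rw [h3]
    simp

theorem mm_charFun {v : ℝ} (P : ℕ → Measure ℝ) [∀ n, IsProbabilityMeasure (P n)]
    (hint : ∀ n r, Integrable (fun x : ℝ => x ^ r) (P n))
    (hm : ∀ r, Tendsto (fun n => ∫ x, x ^ r ∂(P n)) atTop (𝓝 (gaussMom v r))) (t : ℝ) :
    Tendsto (fun n => charFun (P n) t) atTop (𝓝 (Complex.exp ((-(v * t ^ 2 / 2) : ℝ) : ℂ))) := by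
  -- finite sums
  have hint' : ∀ n j, Integrable (fun x : ℝ => ((t * x : ℝ) * Complex.I) ^ j / (j.factorial : ℂ))
      (P n) := by
    intro n j
    have h1 : (fun x : ℝ => ((t * x : ℝ) * Complex.I) ^ j / (j.factorial : ℂ))
        = fun x : ℝ => ((t * Complex.I) ^ j / (j.factorial : ℂ)) * ((x ^ j : ℝ) : ℂ) := by
      ext x; push_cast; rw [show (t : ℂ) * x * Complex.I = (t * Complex.I) * x by ring, mul_pow]; ring
    rw [h1]
    exact (hint n j).ofReal.const_mul _
  have hval : ∀ n j, ∫ x : ℝ, ((t * x : ℝ) * Complex.I) ^ j / (j.factorial : ℂ) ∂(P n)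
      = (t * Complex.I) ^ j / (j.factorial : ℂ) * ((∫ x : ℝ, x ^ j ∂(P n) : ℝ) : ℂ) := by
    intro n j
    have h1 : (fun x : ℝ => ((t * x : ℝ) * Complex.I) ^ j / (j.factorial : ℂ))
        = fun x : ℝ => ((t * Complex.I) ^ j / (j.factorial : ℂ)) * ((x ^ j : ℝ) : ℂ) := by
      ext x; push_cast; rw [show (t : ℂ) * x * Complex.I = (t * Complex.I) * x by ring, mul_pow]; ring
    rw [h1, integral_const_mul, integral_complex_ofReal]
  have hexp : ∀ n, Integrable (fun x : ℝ => Complex.exp ((t * x : ℝ) * Complex.I)) (P n) := by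
    intro n
    refine Integrable.of_bound (C := 1) (by fun_prop) (Eventually.of_forall fun x => ?_)
    rw [Complex.norm_exp_ofReal_mul_I]
  have hdiff : ∀ n m, ‖charFun (P n) t - ∑ j ∈ Finset.range (2 * m), (t * Complex.I) ^ j /
      (j.factorial : ℂ) * ((∫ x : ℝ, x ^ j ∂(P n) : ℝ) : ℂ)‖ ≤
      |t| ^ (2 * m) / (2 * m).factorial * ∫ x : ℝ, x ^ (2 * m) ∂(P n) := by
    intro n m
    have h1 : charFun (P n) t - ∑ j ∈ Finset.range (2 * m), (t * Complex.I) ^ j /
      (j.factorial : ℂ) * ((∫ x : ℝ, x ^ j ∂(P n) : ℝ) : ℂ) = ∫ x : ℝ, mmE (2 * m) (t * x) ∂(P n) := by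
      unfold mmE
      rw [integral_sub (hexp n) (integrable_finsetSum _ fun j _ => hint' n j),
        integral_finsetSum _ fun j _ => hint' n j]
      have hA : charFun (P n) t = ∫ x : ℝ, Complex.exp ((t * x : ℝ) * Complex.I) ∂(P n) := by
        rw [charFun_apply_real]
        refine integral_congr_ae (Eventually.of_forall fun x => ?_)
        simp
      rw [hA]
      exact congrArg _ (Finset.sum_congr rfl fun j _ => (hval n j).symm)
    rw [h1]
    refine (norm_integral_le_integral_norm _).trans ?_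
    rw [← integral_const_mul]
    refine integral_mono ?_ ((hint n (2 * m)).const_mul _) fun x => ?_
    · refine Integrable.norm ?_
      unfold mmE
      exact (hexp n).sub (integrable_finsetSum _ fun j _ => hint' n j)
    · refine (mmE_bound (2 * m) (t * x)).trans (le_of_eq ?_)
      rw [abs_mul, mul_pow, pow_mul |x|, sq_abs, ← pow_mul]
      ring
  -- the series of the exponential
  have hser : Tendsto (fun m => ∑ i ∈ Finset.range m, ((-(v * t ^ 2 / 2) : ℝ) : ℂ) ^ i /
      (i.factorial : ℂ)) atTop (𝓝 (Complex.exp ((-(v * t ^ 2 / 2) : ℝ) : ℂ))) := by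
    have := (NormedSpace.expSeries_div_hasSum_exp ((-(v * t ^ 2 / 2) : ℝ) : ℂ)).tendsto_sum_nat
    rwa [← Complex.exp_eq_exp_ℂ] at this
  have hrem : Tendsto (fun m : ℕ => (v * t ^ 2 / 2) ^ m / (m.factorial : ℝ)) atTop (𝓝 0) :=
    FloorSemiring.tendsto_pow_div_factorial_atTop _
  rw [Metric.tendsto_atTop]
  intro ε hε
  obtain ⟨m1, h1⟩ := Metric.tendsto_atTop.mp hser (ε / 4) (by positivity)
  obtain ⟨m2, h2⟩ := Metric.tendsto_atTop.mp hrem (ε / 4) (by positivity)
  set m := max m1 m2 with hmdef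
  have h1 := h1 m (le_max_left _ _)
  have h2 := h2 m (le_max_right _ _)
  have h3 : Tendsto (fun n => ∑ j ∈ Finset.range (2 * m), (t * Complex.I) ^ j /
      (j.factorial : ℂ) * ((∫ x : ℝ, x ^ j ∂(P n) : ℝ) : ℂ)) atTop
      (𝓝 (∑ j ∈ Finset.range (2 * m), (t * Complex.I) ^ j / (j.factorial : ℂ) *
        (gaussMom v j : ℂ))) :=
    tendsto_finsetSum _ fun j _ =>
      ((Complex.continuous_ofReal.tendsto _).comp (hm j)).const_mul _
  rw [gauss_partial] at h3
  obtain ⟨n1, h3⟩ := Metric.tendsto_atTop.mp h3 (ε / 4) (by positivity)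
  have h4 : Tendsto (fun n => |t| ^ (2 * m) / (2 * m).factorial * ∫ x : ℝ, x ^ (2 * m) ∂(P n)) atTop
      (𝓝 (|t| ^ (2 * m) / (2 * m).factorial * gaussMom v (2 * m))) := (hm _).const_mul _
  have h5 : |t| ^ (2 * m) / (2 * m).factorial * gaussMom v (2 * m)
      = (v * t ^ 2 / 2) ^ m / (m.factorial : ℝ) := by
    have := gaussMom_even v m
    calc |t| ^ (2 * m) / (2 * m).factorial * gaussMom v (2 * m)
        = |t| ^ (2 * m) * (gaussMom v (2 * m) / (2 * m).factorial) := by ring
      _ = |t| ^ (2 * m) * ((v / 2) ^ m / m.factorial) := by rw [this]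
      _ = _ := by
        rw [pow_mul, sq_abs, ← mul_div_assoc, ← mul_pow]
        congr 2
        ring
  rw [h5] at h4
  obtain ⟨n2, h4⟩ := Metric.tendsto_atTop.mp h4 (ε / 4) (by positivity)
  refine ⟨max n1 n2, fun n hn => ?_⟩
  have h3 := h3 n ((le_max_left _ _).trans hn)
  have h4 := h4 n ((le_max_right _ _).trans hn)
  have h6 := hdiff n m
  rw [dist_eq_norm] at h1 h3 ⊢
  rw [Real.dist_eq] at h2 h4
  have h7 : |t| ^ (2 * m) / (2 * m).factorial * ∫ x : ℝ, x ^ (2 * m) ∂(P n) < ε / 4 + ε / 4 := by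
    have a1 := (abs_lt.mp h4).2
    have a2 := (abs_lt.mp h2).2
    linarith
  set A := charFun (P n) t
  set B := ∑ j ∈ Finset.range (2 * m), (t * Complex.I) ^ j /
      (j.factorial : ℂ) * ((∫ x : ℝ, x ^ j ∂(P n) : ℝ) : ℂ)
  set D := ∑ i ∈ Finset.range m, ((-(v * t ^ 2 / 2) : ℝ) : ℂ) ^ i / (i.factorial : ℂ)
  set E := Complex.exp ((-(v * t ^ 2 / 2) : ℝ) : ℂ)
  calc ‖A - E‖ = ‖(A - B) + (B - D) + (D - E)‖ := by congr 1; ring
    _ ≤ ‖A - B‖ + ‖B - D‖ + ‖D - E‖ := norm_add₃_le
    _ < (ε / 4 + ε / 4) + ε / 4 + ε / 4 := by linarith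
    _ = ε := by ring

/-- The method of moments. -/
theorem moment_method {v : ℝ} (hv : 0 ≤ v) (P : ℕ → ProbabilityMeasure ℝ)
    (hint : ∀ n r, Integrable (fun x : ℝ => x ^ r) (P n : Measure ℝ))
    (hm : ∀ r, Tendsto (fun n => ∫ x, x ^ r ∂(P n : Measure ℝ)) atTop (𝓝 (gaussMom v r)))
    (F : BoundedContinuousFunction ℝ ℝ) :
    Tendsto (fun n => ∫ x, F x ∂(P n : Measure ℝ)) atTop
      (𝓝 (∫ x, F x ∂(gaussianReal 0 v.toNNReal))) := by
  set γ : ProbabilityMeasure ℝ := ⟨gaussianReal 0 v.toNNReal, inferInstance⟩ with hγ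
  have h1 : Tendsto P atTop (𝓝 γ) := by
    refine ProbabilityMeasure.tendsto_iff_tendsto_charFun.2 fun t => ?_
    have h2 := mm_charFun (fun n => (P n : Measure ℝ)) hint hm t
    have h3 : charFun (γ : Measure ℝ) t = Complex.exp ((-(v * t ^ 2 / 2) : ℝ) : ℂ) := by
      change charFun (gaussianReal 0 v.toNNReal) t = _
      rw [charFun_gaussianReal]
      congr 1
      push_cast
      rw [Real.coe_toNNReal v hv]
      ring
    rw [h3]
    exact h2
  exact (ProbabilityMeasure.tendsto_iff_forall_integral_tendsto.1 h1) F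

end Mes
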