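import Pool.Agent.LibMes.Defs

open MeasureTheory Set Filter Topology

namespace Mes

theorem ma12_two (n : ℕ) : (1 : Fin (n + 1)) + 1 = 2 := by
  apply Fin.ext
  rw [Fin.val_add]
  show (1 % (n + 1) + 1 % (n + 1)) % (n + 1) = 2 % (n + 1)
  rw [← Nat.add_mod]

theorem walkV {V : ℕ} {G : SimpleGraph (Fin V)} {σ : Fin V → Fin V → Fin V → ℝ}
    (hσ : IsScat G σ) (l : Fin V → Fin V → ℝ) (n : ℕ) (g : ℝ → ℂ) :
    ∑ x : Fin (n + 1) → Bond G, (amp (bS G σ) x : ℂ) * g (wl (bl G l) x) =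
      ∑ y : Fin (n + 1) → Fin V, (ampV σ y : ℂ) * g (wlV l y) := by
  classical
  -- the end of a step is the start of the next one
  have hx : ∀ x : Fin (n + 1) → Bond G, amp (bS G σ) x ≠ 0 →
      ∀ i, (x i).1.2 = (x (i + 1)).1.1 := by
    intro x h i
    have h1 := Finset.prod_ne_zero_iff.1 h i (Finset.mem_univ i)
    unfold bS at h1
    by_contra h2
    exact h1 (if_neg fun h3 => h2 h3.symm)
  have hkey : ∀ x : Fin (n + 1) → Bond G, (∀ i, (x i).1.2 = (x (i + 1)).1.1) →
      amp (bS G σ) x = ampV σ (fun i => (x i).1.1) ∧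
        wl (bl G l) x = wlV l (fun i => (x i).1.1) := by
    intro x h
    constructor
    · unfold amp ampV bS
      refine Finset.prod_congr rfl fun i _ => ?_
      rw [if_pos (h i).symm, h (i + 1), add_assoc, ma12_two]
    · unfold wl wlV bl
      refine Finset.sum_congr rfl fun i _ => ?_
      rw [h i]
  refine Finset.sum_bij_ne_zero (fun x _ _ i => (x i).1.1) (fun _ _ _ => Finset.mem_univ _)
    ?_ ?_ ?_
  · intro x _ hx0 x' _ hx0' hxx
    have ha : amp (bS G σ) x ≠ 0 := fun h => hx0 (by rw [h]; simp)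
    have ha' : amp (bS G σ) x' ≠ 0 := fun h => hx0' (by rw [h]; simp)
    funext i
    apply Subtype.ext
    apply Prod.ext
    · exact congrFun hxx i
    · rw [hx x ha i, hx x' ha' i]
      exact congrFun hxx (i + 1)
  · intro y _ hy0
    have ha : ampV σ y ≠ 0 := fun h => hy0 (by rw [h]; simp)
    have hadj : ∀ i, G.Adj (y i) (y (i + 1)) := by
      intro i
      have h1 := Finset.prod_ne_zero_iff.1 ha i (Finset.mem_univ i)
      by_contra h2
      apply h1
      rw [hσ.symm]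
      exact hσ.supp _ _ _ fun h3 => h2 h3.symm
    refine ⟨fun i => ⟨(y i, y (i + 1)), hadj i⟩, Finset.mem_univ _, ?_, rfl⟩
    obtain ⟨h1, h2⟩ := hkey (fun i => ⟨(y i, y (i + 1)), hadj i⟩) (fun i => rfl)
    rw [h1, h2]
    exact hy0
  · intro x _ hx0
    have ha : amp (bS G σ) x ≠ 0 := fun h => hx0 (by rw [h]; simp)
    obtain ⟨h1, h2⟩ := hkey x (hx x ha)
    rw [h1, h2]

end Mes
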