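import Pool.Agent.LibMes.Defs

/-!
# Row MA14: the levels below zero do not matter; Schwartz functions are test functions
-/

open MeasureTheory Set Filter Topology

namespace Mes

theorem MA14_iter {N : ℕ} {b : ℝ} {X : ℤ → ℝ}
    (h : ∀ p, 2 * Real.pi / b ≤ X (p + N) - X p) (p : ℤ) (m : ℕ) :
    X p + m * (2 * Real.pi / b) ≤ X (p + (m * N : ℕ)) := by
  induction m with
  | zero => simp
  | succ m ih =>
    have h1 := h (p + (m * N : ℕ))
    have h2 : p + ((m + 1) * N : ℕ) = p + (m * N : ℕ) + N := by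
      push_cast
      ring
    rw [h2]
    push_cast at ih h1 ⊢
    linarith

/-- the linear lower bound -/
theorem MA14_up {N : ℕ} (hN : 0 < N) {b : ℝ} (hb : 0 < b) {X : ℤ → ℝ} (hm : Monotone X)
    (h : ∀ p, 2 * Real.pi / b ≤ X (p + N) - X p) (p : ℤ) (n : ℕ) :
    X p + (2 * Real.pi / b / N) * n - 2 * Real.pi / b ≤ X (p + n) := by
  have h1 := MA14_iter h p (n / N)
  have h2 : X (p + (n / N * N : ℕ)) ≤ X (p + n) := by
    apply hm
    have h3 : n / N * N ≤ n := Nat.div_mul_le_self n N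
    have h4 : ((n / N * N : ℕ) : ℤ) ≤ (n : ℤ) := Nat.cast_le.2 h3
    linarith
  have hc : 0 < 2 * Real.pi / b := by positivity
  have hN' : (0 : ℝ) < N := Nat.cast_pos.2 hN
  have h5 : (n : ℝ) / N - 1 ≤ ((n / N : ℕ) : ℝ) := by
    have h6 := Nat.lt_floor_add_one ((n : ℝ) / N)
    rw [Nat.floor_div_natCast, Nat.floor_natCast] at h6
    linarith
  have h6 := mul_le_mul_of_nonneg_right h5 hc.le
  have h7 : (2 * Real.pi / b / N) * n - 2 * Real.pi / b = ((n : ℝ) / N - 1) * (2 * Real.pi / b) := by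
    field_simp
  linarith

/-- the summable majorant -/
theorem MA14_sum {c : ℝ} (hc : 0 < c) : Summable fun n : ℕ => 1 / (1 + c * n) ^ 3 := by
  set m := min 1 c with hm
  have hm0 : 0 < m := lt_min one_pos hc
  have h1 : Summable fun n : ℕ => (1 / m ^ 3) * (1 / ((n + 1 : ℕ) : ℝ) ^ 3) := by
    refine Summable.mul_left _ ?_
    exact (summable_nat_add_iff 1).2 (Real.summable_one_div_nat_pow.2 (by norm_num : 1 < 3))
  refine Summable.of_nonneg_of_le (fun n => by positivity) (fun n => ?_) h1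
  have h2 : m * ((n + 1 : ℕ) : ℝ) ≤ 1 + c * n := by
    push_cast
    have h3 : m ≤ 1 := min_le_left _ _
    have h4 : m ≤ c := min_le_right _ _
    have h5 : (0 : ℝ) ≤ n := Nat.cast_nonneg n
    nlinarith
  have h3 : (1 / m ^ 3) * (1 / ((n + 1 : ℕ) : ℝ) ^ 3) = 1 / (m * ((n + 1 : ℕ) : ℝ)) ^ 3 := by
    rw [mul_pow, one_div_mul_one_div]
  rw [h3]
  have h4 : 0 < m * ((n + 1 : ℕ) : ℝ) := by positivity
  exact one_div_le_one_div_of_le (by positivity) (pow_le_pow_left₀ h4.le h2 3)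

theorem MA14_K {f : ℝ → ℝ} {K : ℝ} (hf : Test f K) : 0 ≤ K := by
  have h := (abs_nonneg _).trans (hf.d0 0)
  rw [abs_zero, add_zero, one_pow, div_one] at h
  exact h

/-- the elementary inequality: `y` is far away -/
theorem MA14_bd {f : ℝ → ℝ} {K : ℝ} (hf : Test f K) {A c y : ℝ} (hA : 0 ≤ A) {n : ℕ} (hc : 0 < c)
    (h : c * n ≤ |y| + A) :
    |f y| ≤ K * (1 + A) ^ 3 * (1 / (1 + c * n) ^ 3) * (1 / (1 + |y|)) := by
  have hK := MA14_K hf
  have h0 : (0 : ℝ) ≤ c * n := by positivity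
  have hy := abs_nonneg y
  have h1 : 1 + c * n ≤ (1 + |y|) * (1 + A) := by nlinarith [mul_nonneg hy hA]
  have h2 : (1 + c * n) ^ 3 ≤ (1 + |y|) ^ 3 * (1 + A) ^ 3 := by
    rw [← mul_pow]
    exact pow_le_pow_left₀ (by positivity) h1 3
  refine (hf.d0 y).trans ?_
  have h3 : K / (1 + |y|) ^ 4 = K * (1 / (1 + |y|) ^ 3) * (1 / (1 + |y|)) := by
    field_simp
  rw [h3]
  refine mul_le_mul_of_nonneg_right ?_ (by positivity)
  rw [mul_assoc]
  refine mul_le_mul_of_nonneg_left ?_ hK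
  rw [mul_one_div, div_le_div_iff₀ (by positivity) (by positivity)]
  linarith

theorem tail {N : ℕ} (hN : 0 < N) {a b : ℝ} (ha : 0 < a) (hab : a ≤ b) {F : ℤ → ℝ → ℝ} {X : ℤ → ℝ}
    (hX : Zer N a b F X) {s : ℤ} (hs : X (s - 1) ≤ 0) {f : ℝ → ℝ} {K : ℝ} (hf : Test f K)
    {Λ : ℝ} (hΛ : 0 < Λ) :
    (∀ k, Summable fun p => f (Λ * (X p - k))) ∧
    (∃ B, ∀ k, 0 ≤ k → |∑' n : ℕ, f (Λ * (X (s - 1 - n) - k))| ≤ B) ∧
    Tendsto (fun k => ∑' n : ℕ, f (Λ * (X (s - 1 - n) - k))) atTop (𝓝 0) := by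
  have hb : 0 < b := lt_of_lt_of_le ha hab
  have hK := MA14_K hf
  have hN' : (0 : ℝ) < N := Nat.cast_pos.2 hN
  have hc : 0 < 2 * Real.pi / b := by positivity
  set d := 2 * Real.pi / b / N with hd
  have hd0 : 0 < d := by positivity
  set e := 2 * Real.pi / b with he
  have hup := MA14_up hN hb hX.mono fun p => (hX.step p).1
  have hsum := MA14_sum (c := Λ * d) (by positivity)
  constructor
  · intro k
    have key : ∀ (g : ℕ → ℝ) (A : ℝ), 0 ≤ A → (∀ n : ℕ, Λ * d * n ≤ |g n| + A) →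
        Summable fun n => f (g n) := by
      intro g A hA hg
      refine Summable.of_norm_bounded (hsum.mul_left (K * (1 + A) ^ 3)) fun n => ?_
      have h1 := MA14_bd hf hA (by positivity : 0 < Λ * d) (hg n)
      rw [Real.norm_eq_abs]
      refine h1.trans ?_
      have h2 : 1 / (1 + |g n|) ≤ 1 := by
        rw [div_le_one (by positivity)]
        linarith [abs_nonneg (g n)]
      exact mul_le_of_le_one_right (by positivity) h2
    refine Summable.of_nat_of_neg_add_one ?_ ?_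
    · refine key _ (Λ * |X 0 - e - k|) (by positivity) fun n => ?_
      have h1 := hup 0 n
      rw [zero_add] at h1
      have h2 : d * n ≤ (X n - k) + |X 0 - e - k| := by
        have h3 := neg_le_abs (X 0 - e - k)
        linarith
      have h3 := mul_le_mul_of_nonneg_left h2 hΛ.le
      have h4 := le_abs_self (Λ * (X n - k))
      linarith
    · refine key _ (Λ * |X 0 + e - k|) (by positivity) fun n => ?_
      have h1 := hup (-((n : ℤ) + 1)) (n + 1)
      have h0 : -((n : ℤ) + 1) + ((n + 1 : ℕ) : ℤ) = 0 := by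
        push_cast
        ring
      rw [h0] at h1
      push_cast at h1
      have h2 : d * n ≤ -(X (-((n : ℤ) + 1)) - k) + |X 0 + e - k| := by
        have h3 := le_abs_self (X 0 + e - k)
        linarith
      have h3 := mul_le_mul_of_nonneg_left h2 hΛ.le
      have h4 := neg_le_abs (Λ * (X (-((n : ℤ) + 1)) - k))
      linarith
  · set A := Λ * e with hA
    have hA0 : 0 ≤ A := by positivity
    have hbd : ∀ k : ℝ, 0 ≤ k → ‖∑' n : ℕ, f (Λ * (X (s - 1 - n) - k))‖ ≤
        (K * (1 + A) ^ 3 * ∑' n : ℕ, 1 / (1 + Λ * d * n) ^ 3) * (1 / (1 + Λ * k)) := by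
      intro k hk
      refine tsum_of_norm_bounded ((hsum.hasSum.mul_left (K * (1 + A) ^ 3)).mul_right
        (1 / (1 + Λ * k))) fun n => ?_
      have h1 := hup (s - 1 - n) n
      rw [sub_add_cancel] at h1
      have h2 : X (s - 1 - n) ≤ 0 := (hX.mono (by
        have : (0 : ℤ) ≤ n := Int.natCast_nonneg n
        linarith)).trans hs
      have h3 : Λ * d * n ≤ |Λ * (X (s - 1 - n) - k)| + A := by
        have h4 := neg_le_abs (Λ * (X (s - 1 - n) - k))
        have h5 : d * n ≤ -(X (s - 1 - n) - k) + e := by linarith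
        have h6 := mul_le_mul_of_nonneg_left h5 hΛ.le
        linarith
      refine (MA14_bd hf hA0 (by positivity) h3).trans ?_
      refine mul_le_mul_of_nonneg_left ?_ (by positivity)
      refine one_div_le_one_div_of_le (by positivity) ?_
      have h4 := neg_le_abs (Λ * (X (s - 1 - n) - k))
      have h5 := mul_nonneg hΛ.le (neg_nonneg.2 h2)
      linarith
    refine ⟨⟨K * (1 + A) ^ 3 * ∑' n : ℕ, 1 / (1 + Λ * d * n) ^ 3, fun k hk => ?_⟩, ?_⟩
    · have h1 := hbd k hk
      rw [Real.norm_eq_abs] at h1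
      refine h1.trans (mul_le_of_le_one_right ?_ ?_)
      · exact mul_nonneg (by positivity) (tsum_nonneg fun n => by positivity)
      · rw [div_le_one (by positivity)]
        linarith [mul_nonneg hΛ.le hk]
    have hlim : Tendsto (fun k : ℝ => (K * (1 + A) ^ 3 * ∑' n : ℕ, 1 / (1 + Λ * d * n) ^ 3) *
        (1 / (1 + Λ * k))) atTop (𝓝 0) := by
      have h1 : Tendsto (fun k : ℝ => 1 + Λ * k) atTop atTop :=
        tendsto_atTop_add_const_left _ _ (tendsto_id.const_mul_atTop hΛ)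
      have h2 := h1.inv_tendsto_atTop.const_mul (K * (1 + A) ^ 3 * ∑' n : ℕ, 1 / (1 + Λ * d * n) ^ 3)
      rw [mul_zero] at h2
      refine h2.congr fun k => ?_
      rw [Pi.inv_apply, one_div]
    refine squeeze_zero_norm' ?_ hlim
    filter_upwards [eventually_ge_atTop 0] with k hk
    exact hbd k hk

theorem test_schwartz (f : SchwartzMap ℝ ℝ) : ∃ K, Test (fun x => f x) K := by
  have key : ∀ g : SchwartzMap ℝ ℝ, ∃ K, 0 ≤ K ∧ ∀ x, |g x| ≤ K / (1 + |x|) ^ 4 := by
    intro g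
    refine ⟨2 ^ 4 * ((Finset.Iic (4, 0)).sup fun m => SchwartzMap.seminorm ℝ m.1 m.2) g,
      by positivity, fun x => ?_⟩
    have h := SchwartzMap.one_add_le_sup_seminorm_apply (𝕜 := ℝ) (m := (4, 0)) (k := 4) (n := 0)
      le_rfl le_rfl g x
    rw [norm_iteratedFDeriv_zero, Real.norm_eq_abs, Real.norm_eq_abs] at h
    rw [le_div_iff₀ (by positivity), mul_comm]
    exact h
  obtain ⟨K, hK0, hK⟩ := key f
  obtain ⟨K', hK0', hK'⟩ := key (SchwartzMap.derivCLM ℝ ℝ f)
  have hle : ∀ x : ℝ, K / (1 + |x|) ^ 4 ≤ max K K' / (1 + |x|) ^ 4 := fun x =>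
    div_le_div_of_nonneg_right (le_max_left _ _) (by positivity)
  have hle' : ∀ x : ℝ, K' / (1 + |x|) ^ 4 ≤ max K K' / (1 + |x|) ^ 4 := fun x =>
    div_le_div_of_nonneg_right (le_max_right _ _) (by positivity)
  exact ⟨max K K', f.smooth 1, fun x => (hK x).trans (hle x), fun x => by
    have h := hK' x
    rw [SchwartzMap.derivCLM_apply] at h
    exact h.trans (hle' x)⟩

end Mes
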