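import Pool.Agent.LibMes.Defs

open MeasureTheory Set Filter Topology

namespace Mes

private theorem MA15_mean (x : ℝ) :
    Tendsto (fun T : ℝ => ((1 / T : ℝ) : ℂ) *
      ∫ k in (0 : ℝ)..T, Complex.exp ((k * x : ℝ) * Complex.I)) atTop
      (𝓝 (if x = 0 then 1 else 0)) := by
  split_ifs with hx
  · subst hx
    refine (tendsto_congr' ?_).mpr tendsto_const_nhds
    filter_upwards [eventually_gt_atTop (0 : ℝ)] with T hT
    have hT' : (T : ℂ) ≠ 0 := by exact_mod_cast hT.ne'
    simp [hT']
  · have hc : (x : ℂ) * Complex.I ≠ 0 := by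
      simp [hx]
    have e : ∀ T : ℝ, (∫ k in (0 : ℝ)..T, Complex.exp ((k * x : ℝ) * Complex.I))
        = (Complex.exp ((x * Complex.I) * T) - 1) / (x * Complex.I) := by
      intro T
      have h := integral_exp_mul_complex (a := 0) (b := T) hc
      rw [show (fun k : ℝ => Complex.exp ((k * x : ℝ) * Complex.I))
        = fun k : ℝ => Complex.exp ((x * Complex.I) * k) from ?_, h]
      · simp
      · ext k; congr 1; push_cast; ring
    rw [tendsto_zero_iff_norm_tendsto_zero]
    have hb : ∀ᶠ T : ℝ in atTop, ‖((1 / T : ℝ) : ℂ) *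
        ∫ k in (0 : ℝ)..T, Complex.exp ((k * x : ℝ) * Complex.I)‖ ≤ (2 / |x|) * T⁻¹ := by
      filter_upwards [eventually_gt_atTop (0 : ℝ)] with T hT
      rw [e, norm_mul, norm_div, Complex.norm_real, Real.norm_eq_abs, abs_of_pos (by positivity)]
      have h1 : ‖Complex.exp ((x * Complex.I) * T) - 1‖ ≤ 2 := by
        refine (norm_sub_le _ _).trans ?_
        rw [show (x * Complex.I) * T = ((x * T : ℝ) : ℂ) * Complex.I by push_cast; ring,
          Complex.norm_exp_ofReal_mul_I]
        norm_num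
      have h2 : ‖(x : ℂ) * Complex.I‖ = |x| := by simp
      rw [h2]
      have h3 : 0 < |x| := abs_pos.mpr hx
      calc 1 / T * (‖Complex.exp ((x * Complex.I) * T) - 1‖ / |x|)
          ≤ 1 / T * (2 / |x|) := by gcongr
        _ = 2 / |x| * T⁻¹ := by ring
    refine squeeze_zero' (Eventually.of_forall fun T => norm_nonneg _) hb ?_
    have := (tendsto_inv_atTop_zero (𝕜 := ℝ)).const_mul (2 / |x|)
    simpa using this

private theorem MA15_ces {g : ℝ → ℝ} (hm : Measurable g) {B : ℝ} (hb : ∀ k, 0 ≤ k → |g k| ≤ B)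
    (hg : Tendsto g atTop (𝓝 0)) :
    Tendsto (fun T : ℝ => (1 / T) * ∫ k in (0 : ℝ)..T, g k) atTop (𝓝 0) := by
  have hint : ∀ s t : ℝ, 0 ≤ s → 0 ≤ t → IntervalIntegrable g volume s t := by
    intro s t hs ht
    rw [intervalIntegrable_iff]
    refine Measure.integrableOn_of_bounded (M := B) (by simp) hm.aestronglyMeasurable ?_
    filter_upwards [ae_restrict_mem measurableSet_uIoc] with k hk
    have : 0 ≤ k := by
      rcases hk with ⟨h, -⟩
      exact (le_min hs ht).trans h.le
    simpa using hb k this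
  have hB : 0 ≤ B := (abs_nonneg _).trans (hb 0 le_rfl)
  rw [Metric.tendsto_atTop]
  intro ε hε
  obtain ⟨T0, hT0⟩ := Metric.tendsto_atTop.mp hg (ε / 2) (by positivity)
  set T1 := max T0 0 with hT1
  have hT1n : 0 ≤ T1 := le_max_right _ _
  refine ⟨max (T1 + 1) (2 * (B * T1 + 1) / ε), fun T hT => ?_⟩
  have hTa : T1 + 1 ≤ T := (le_max_left _ _).trans hT
  have hTb : 2 * (B * T1 + 1) / ε ≤ T := (le_max_right _ _).trans hT
  have hTp : 0 < T := by linarith
  rw [dist_zero_right, Real.norm_eq_abs, abs_mul, abs_of_pos (by positivity : 0 < 1 / T)]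
  have h1 : |∫ k in (0 : ℝ)..T1, g k| ≤ B * T1 := by
    have := intervalIntegral.norm_integral_le_of_norm_le_const (a := 0) (b := T1) (C := B) (f := g)
      (fun k hk => by
        rw [Set.uIoc_of_le hT1n] at hk
        simpa using hb k hk.1.le)
    simpa [abs_of_nonneg hT1n] using this
  have h2 : |∫ k in T1..T, g k| ≤ ε / 2 * (T - T1) := by
    have := intervalIntegral.norm_integral_le_of_norm_le_const (a := T1) (b := T) (C := ε / 2)
      (f := g) (fun k hk => by
        rw [Set.uIoc_of_le (by linarith)] at hk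
        have h := hT0 k ((le_max_left _ _).trans hk.1.le)
        rw [dist_zero_right] at h
        exact h.le)
    simpa [abs_of_nonneg (show 0 ≤ T - T1 by linarith)] using this
  have h3 : ∫ k in (0 : ℝ)..T, g k = (∫ k in (0 : ℝ)..T1, g k) + ∫ k in T1..T, g k :=
    (intervalIntegral.integral_add_adjacent_intervals (hint 0 T1 le_rfl hT1n)
      (hint T1 T hT1n hTp.le)).symm
  have h4 : |∫ k in (0 : ℝ)..T, g k| ≤ B * T1 + ε / 2 * (T - T1) := by
    rw [h3]; exact (abs_add_le _ _).trans (add_le_add h1 h2)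
  have h5 : B * T1 + 1 ≤ ε / 2 * T := by
    rw [div_le_iff₀ hε] at hTb
    linarith
  have h6 : |∫ k in (0 : ℝ)..T, g k| < ε * T := by
    refine lt_of_le_of_lt h4 ?_
    nlinarith
  calc 1 / T * |∫ k in (0 : ℝ)..T, g k| < 1 / T * (ε * T) := by gcongr
    _ = ε := by field_simp

theorem mom_lim {Q : Type} [Fintype Q] (c : Q → ℂ) (ω : Q → ℝ) (e Z : ℝ → ℝ)
    (hZ : ∀ k, Z k = 2 * (∑ q, c q * Complex.exp ((k * ω q : ℝ) * Complex.I)).re + e k)
    (hm : Measurable Z) (hb : ∃ B, ∀ k, 0 ≤ k → |e k| ≤ B) (he : Tendsto e atTop (𝓝 0)) (r : ℕ) :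
    (mom c ω r).im = 0 ∧
    Tendsto (fun T : ℝ => (1 / T) * ∫ k in (0 : ℝ)..T, Z k ^ r) atTop (𝓝 (mom c ω r).re) := by
  obtain ⟨B, hB⟩ := hb
  set P : ℝ → ℝ := fun k => 2 * (∑ q, c q * Complex.exp ((k * ω q : ℝ) * Complex.I)).re with hP
  set d : Q × Bool → ℂ := fun p => if p.2 then c p.1 else (starRingEnd ℂ) (c p.1) with hd
  set w : Q × Bool → ℝ := fun p => if p.2 then ω p.1 else -ω p.1 with hw
  have hPc : Continuous P := by
    rw [hP]; fun_prop
  -- bound for P
  set C : ℝ := 2 * ∑ q, ‖c q‖ with hC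
  have hCn : 0 ≤ C := by positivity
  have hPb : ∀ k, |P k| ≤ C := by
    intro k
    rw [hP, hC]
    simp only [abs_mul, abs_two]
    gcongr
    refine (Complex.abs_re_le_norm _).trans ((norm_sum_le _ _).trans (Finset.sum_le_sum ?_))
    intro q _
    rw [norm_mul, Complex.norm_exp_ofReal_mul_I, mul_one]
  have hPd : ∀ k, ((P k : ℝ) : ℂ) = ∑ p : Q × Bool, d p * Complex.exp ((k * w p : ℝ) * Complex.I) := by
    intro k
    rw [Fintype.sum_prod_type]
    simp only [Fintype.sum_bool, hd, hw, Finset.sum_add_distrib, if_true, Bool.false_eq_true,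
      if_false]
    have h1 : ∑ q, (starRingEnd ℂ) (c q) * Complex.exp ((k * -ω q : ℝ) * Complex.I)
        = (starRingEnd ℂ) (∑ q, c q * Complex.exp ((k * ω q : ℝ) * Complex.I)) := by
      rw [map_sum]
      refine Finset.sum_congr rfl fun q _ => ?_
      rw [map_mul, ← Complex.exp_conj]
      congr 2
      simp
    rw [h1, Complex.add_conj]
  have hPr : ∀ k, ((P k ^ r : ℝ) : ℂ) = ∑ p : Fin r → Q × Bool, (∏ i, d (p i)) *
      Complex.exp ((k * ∑ i, w (p i) : ℝ) * Complex.I) := by
    intro k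
    push_cast
    rw [hPd k, Fintype.sum_pow]
    refine Finset.sum_congr rfl fun p _ => ?_
    rw [Finset.prod_mul_distrib, ← Complex.exp_sum]
    congr 2
    push_cast
    rw [Finset.mul_sum, Finset.sum_mul]
  have hlimP : Tendsto (fun T : ℝ => (((1 / T) * ∫ k in (0 : ℝ)..T, P k ^ r : ℝ) : ℂ)) atTop
      (𝓝 (mom c ω r)) := by
    have h1 : ∀ T : ℝ, (((1 / T) * ∫ k in (0 : ℝ)..T, P k ^ r : ℝ) : ℂ)
        = ∑ p : Fin r → Q × Bool, (∏ i, d (p i)) * (((1 / T : ℝ) : ℂ) *
          ∫ k in (0 : ℝ)..T, Complex.exp ((k * ∑ i, w (p i) : ℝ) * Complex.I)) := by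
      intro T
      rw [Complex.ofReal_mul, ← intervalIntegral.integral_ofReal]
      simp_rw [hPr]
      rw [intervalIntegral.integral_finset_sum]
      · rw [Finset.mul_sum]
        refine Finset.sum_congr rfl fun p _ => ?_
        rw [intervalIntegral.integral_const_mul]
        ring
      · intro p _
        apply Continuous.intervalIntegrable
        fun_prop
    simp_rw [h1]
    have h2 : mom c ω r = ∑ p : Fin r → Q × Bool, (∏ i, d (p i)) *
        (if ∑ i, w (p i) = 0 then 1 else 0) := by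
      rw [mom]
      refine Finset.sum_congr rfl fun p _ => ?_
      simp only [hd, hw]
      split_ifs <;> simp
    rw [h2]
    exact tendsto_finset_sum _ fun p _ => (MA15_mean _).const_mul _
  have him : (mom c ω r).im = 0 := by
    have h1 := (Complex.continuous_im.tendsto _).comp hlimP
    refine tendsto_nhds_unique h1 ?_
    refine (tendsto_congr fun T => ?_).mpr tendsto_const_nhds
    simp [Complex.ofReal_im]
  refine ⟨him, ?_⟩
  have hre : Tendsto (fun T : ℝ => (1 / T) * ∫ k in (0 : ℝ)..T, P k ^ r) atTop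
      (𝓝 (mom c ω r).re) := by
    have h1 := (Complex.continuous_re.tendsto _).comp hlimP
    refine (tendsto_congr fun T => ?_).mp h1
    simp only [Function.comp, Complex.ofReal_re]
  -- the error
  set g : ℝ → ℝ := fun k => Z k ^ r - P k ^ r with hg
  have hgm : Measurable g := (hm.pow_const r).sub (hPc.measurable.pow_const r)
  have hZP : ∀ k, Z k = P k + e k := hZ
  have hBn : 0 ≤ B := (abs_nonneg _).trans (hB 0 le_rfl)
  have hgb : ∀ k, 0 ≤ k → |g k| ≤ r * (C + B) ^ (r - 1) * |e k| := by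
    intro k hk
    have h1 : |Z k| ≤ C + B := by
      rw [hZP]; exact (abs_add_le _ _).trans (add_le_add (hPb k) (hB k hk))
    have h2 : |P k| ≤ C + B := (hPb k).trans (by linarith)
    have h3 := abs_pow_sub_pow_le (Z k) (P k) r
    rw [hg]
    refine h3.trans ?_
    have h4 : Z k - P k = e k := by rw [hZP]; ring
    rw [h4]
    have h5 : max |Z k| |P k| ≤ C + B := max_le h1 h2
    have h6 : (max |Z k| |P k|) ^ (r - 1) ≤ (C + B) ^ (r - 1) := by
      gcongr
    calc |e k| * r * (max |Z k| |P k|) ^ (r - 1)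
        ≤ |e k| * r * (C + B) ^ (r - 1) := by gcongr
      _ = r * (C + B) ^ (r - 1) * |e k| := by ring
  have hgt : Tendsto g atTop (𝓝 0) := by
    have h1 : Tendsto (fun k => r * (C + B) ^ (r - 1) * |e k|) atTop (𝓝 0) := by
      have := (he.abs).const_mul ((r : ℝ) * (C + B) ^ (r - 1))
      simpa using this
    refine squeeze_zero_norm' ?_ h1
    filter_upwards [eventually_ge_atTop (0 : ℝ)] with k hk
    exact hgb k hk
  have hgb' : ∀ k, 0 ≤ k → |g k| ≤ r * (C + B) ^ (r - 1) * B := fun k hk =>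
    (hgb k hk).trans (by
      have := hB k hk
      gcongr)
  have hces := MA15_ces hgm hgb' hgt
  have hsum := hre.add hces
  rw [add_zero] at hsum
  refine (tendsto_congr' ?_).mp hsum
  filter_upwards [eventually_gt_atTop (0 : ℝ)] with T hT
  rw [← mul_add, ← intervalIntegral.integral_add]
  · congr 1
    refine intervalIntegral.integral_congr fun k _ => ?_
    simp only [hg]; ring
  · exact (hPc.pow r).intervalIntegrable _ _
  · rw [intervalIntegrable_iff]
    refine Measure.integrableOn_of_bounded (M := r * (C + B) ^ (r - 1) * B) (by simp)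
      hgm.aestronglyMeasurable ?_
    filter_upwards [ae_restrict_mem measurableSet_uIoc] with k hk
    rw [uIoc_of_le hT.le] at hk
    simpa using hgb' k hk.1.le

end Mes
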