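import Pool.Agent.LibMes.Defs

open MeasureTheory Set Filter Topology

namespace Mes

private theorem MA2_ode {g : ℝ → ℂ} {c : ℂ} (h : ∀ t : ℝ, HasDerivAt g (c * g t) t) (t : ℝ) :
    g t = g 0 * Complex.exp (c * t) := by
  have hd : ∀ t : ℝ, HasDerivAt (fun s : ℝ => g s * Complex.exp (-(c * s))) 0 t := by
    intro t
    have h4 : HasDerivAt (fun s : ℝ => Complex.exp (-(c * s)))
        (Complex.exp (-(c * t)) * (-(c * 1))) t := by
      have h5 : HasDerivAt (fun s : ℝ => (s : ℂ)) 1 t := by
        simpa using (hasDerivAt_id t).ofReal_comp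
      exact ((h5.const_mul c).neg).cexp
    have h6 : c * g t * Complex.exp (-(c * t)) + g t * (Complex.exp (-(c * t)) * (-(c * 1))) = 0 := by
      ring
    rw [← h6]
    exact (h t).mul h4
  have h1 := is_const_of_deriv_eq_zero (fun s => (hd s).differentiableAt) (fun s => (hd s).deriv) t 0
  simp only [Complex.ofReal_zero, mul_zero, neg_zero, Complex.exp_zero, mul_one] at h1
  rw [← h1, mul_assoc, ← Complex.exp_add]
  simp

private noncomputable def MA2_al (k : ℝ) (f : ℝ → ℂ) (t : ℝ) : ℂ :=
  (f t - Complex.I * deriv f t / k) / 2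

private noncomputable def MA2_be (k : ℝ) (f : ℝ → ℂ) (t : ℝ) : ℂ :=
  (f t + Complex.I * deriv f t / k) / 2

private theorem MA2_al_flow {k : ℝ} (hk : 0 < k) {f : ℝ → ℂ} (hf : ContDiff ℝ 2 f)
    (he : ∀ t, deriv (deriv f) t = -((k : ℂ) ^ 2) * f t) (t : ℝ) :
    MA2_al k f t = MA2_al k f 0 * Complex.exp (Complex.I * k * t) := by
  have hk' : (k : ℂ) ≠ 0 := by exact_mod_cast hk.ne'
  refine MA2_ode (c := Complex.I * k) (g := MA2_al k f) (fun t => ?_) t
  have h1 : HasDerivAt f (deriv f t) t := ((hf.differentiable (by simp)) t).hasDerivAt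
  have h2 : HasDerivAt (deriv f) (-((k : ℂ) ^ 2) * f t) t := by
    have := (hf.differentiable_deriv_two t).hasDerivAt
    rwa [he t] at this
  have h3 := (h1.sub ((h2.const_mul Complex.I).div_const (k : ℂ))).div_const 2
  have h4 : (deriv f t - Complex.I * (-((k : ℂ) ^ 2) * f t) / k) / 2
      = Complex.I * k * MA2_al k f t := by
    unfold MA2_al
    field_simp
    ring_nf
    simp only [Complex.I_sq]
    ring
  rw [← h4]
  exact h3

private theorem MA2_be_flow {k : ℝ} (hk : 0 < k) {f : ℝ → ℂ} (hf : ContDiff ℝ 2 f)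
    (he : ∀ t, deriv (deriv f) t = -((k : ℂ) ^ 2) * f t) (t : ℝ) :
    MA2_be k f t = MA2_be k f 0 * Complex.exp (-(Complex.I * k) * t) := by
  have hk' : (k : ℂ) ≠ 0 := by exact_mod_cast hk.ne'
  refine MA2_ode (c := -(Complex.I * k)) (g := MA2_be k f) (fun t => ?_) t
  have h1 : HasDerivAt f (deriv f t) t := ((hf.differentiable (by simp)) t).hasDerivAt
  have h2 : HasDerivAt (deriv f) (-((k : ℂ) ^ 2) * f t) t := by
    have := (hf.differentiable_deriv_two t).hasDerivAt
    rwa [he t] at this
  have h3 := (h1.add ((h2.const_mul Complex.I).div_const (k : ℂ))).div_const 2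
  have h4 : (deriv f t + Complex.I * (-((k : ℂ) ^ 2) * f t) / k) / 2
      = -(Complex.I * k) * MA2_be k f t := by
    unfold MA2_be
    field_simp
    ring_nf
    simp only [Complex.I_sq]
    ring
  rw [← h4]
  exact h3

/-- the plane wave -/
private noncomputable def MA2_w (k : ℝ) (a c : ℂ) (t : ℝ) : ℂ :=
  a * Complex.exp (Complex.I * k * t) + c * Complex.exp (-(Complex.I * k) * t)

private theorem MA2_w_deriv (k : ℝ) (a c : ℂ) :
    deriv (MA2_w k a c) = fun t => MA2_w k (Complex.I * k * a) (-(Complex.I * k) * c) t := by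
  ext t
  have h5 : HasDerivAt (fun s : ℝ => (s : ℂ)) 1 t := by
    simpa using (hasDerivAt_id t).ofReal_comp
  have h1 := ((h5.const_mul (Complex.I * k)).cexp).const_mul a
  have h2 := ((h5.const_mul (-(Complex.I * k))).cexp).const_mul c
  have h3 := (h1.add h2).deriv
  rw [show MA2_w k a c = (fun y : ℝ => a * Complex.exp (Complex.I * k * y)) +
    fun y : ℝ => c * Complex.exp (-(Complex.I * k) * y) from rfl, h3]
  unfold MA2_w
  ring

private theorem MA2_w_smooth (k : ℝ) (a c : ℂ) : ContDiff ℝ 2 (MA2_w k a c) := by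
  unfold MA2_w
  have h : ContDiff ℝ 2 (fun t : ℝ => (t : ℂ)) := Complex.ofRealCLM.contDiff
  exact (contDiff_const.mul ((contDiff_const.mul h).cexp)).add
    (contDiff_const.mul ((contDiff_const.mul h).cexp))

variable {V : ℕ} {G : SimpleGraph (Fin V)} {σ : Fin V → Fin V → Fin V → ℝ}

open Classical in
/-- extension by zero -/
private noncomputable def MA2_ext (c : Bond G → ℂ) (v w : Fin V) : ℂ :=
  if h : G.Adj v w then c ⟨(v, w), h⟩ else 0

private theorem MA2_sigma_adj (hσ : IsScat G σ) {v u w : Fin V} (h : ¬ G.Adj v w) :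
    σ v u w = 0 := by
  rw [hσ.symm, hσ.supp v w u h]

open Classical in
private theorem MA2_mv (_hσ : IsScat G σ) {l : Fin V → Fin V → ℝ} (k : ℝ) (c : Bond G → ℂ)
    (q : Bond G) :
    (evo (bS G σ) (bl G l) k).mulVec c q = Complex.exp (Complex.I * k * l q.1.1 q.1.2) *
      ∑ x, (σ q.1.1 q.1.2 x : ℂ) * MA2_ext c x q.1.1 := by
  unfold Matrix.mulVec dotProduct evo bS bl
  have h1 : ∀ x, (σ q.1.1 q.1.2 x : ℂ) * MA2_ext c x q.1.1 =
      ∑ p : Bond G, if p.1 = (x, q.1.1) then (σ q.1.1 q.1.2 x : ℂ) * c p else 0 := by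
    intro x
    unfold MA2_ext
    split_ifs with h
    · rw [Finset.sum_eq_single ⟨(x, q.1.1), h⟩]
      · simp
      · intro p _ hp
        rw [if_neg]
        intro h2; exact hp (Subtype.ext h2)
      · intro h2; exact absurd (Finset.mem_univ _) h2
    · rw [mul_zero, Finset.sum_eq_zero]
      intro p _
      rw [if_neg]
      intro h2
      exact h (by have := p.2; rw [h2] at this; exact this)
  simp_rw [h1]
  rw [Finset.sum_comm, Finset.mul_sum]
  refine Finset.sum_congr rfl fun p _ => ?_
  by_cases hp : q.1.1 = p.1.2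
  · rw [if_pos hp, Finset.sum_eq_single p.1.1]
    · rw [if_pos (by rw [hp])]
      push_cast
      rw [show (k : ℂ) * (l q.1.1 q.1.2 : ℂ) * Complex.I = Complex.I * k * l q.1.1 q.1.2 by ring]
      ring
    · intro x _ hx
      rw [if_neg]
      intro h2; exact hx (by rw [h2])
    · intro h2; exact absurd (Finset.mem_univ _) h2
  · rw [if_neg hp, Finset.sum_eq_zero]
    · simp
    · intro x _
      rw [if_neg]
      intro h2; exact hp (by rw [h2])

/-- outgoing amplitude -/
private noncomputable def MA2_out (σ : Fin V → Fin V → Fin V → ℝ) (c : Bond G → ℂ)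
    (v w : Fin V) : ℂ :=
  ∑ x, (σ v w x : ℂ) * MA2_ext c x v

private theorem MA2_mem (hσ : IsScat G σ) {l : Fin V → Fin V → ℝ} {k : ℝ} {c : Bond G → ℂ}
    (hc : c ∈ LinearMap.ker (Matrix.toLin' (1 - evo (bS G σ) (bl G l) k))) (v w : Fin V) :
    MA2_ext c v w = Complex.exp (Complex.I * k * l v w) * MA2_out σ c v w := by
  rw [LinearMap.mem_ker, Matrix.toLin'_apply, Matrix.sub_mulVec, Matrix.one_mulVec, sub_eq_zero] at hc
  by_cases h : G.Adj v w
  · have h1 := congrFun hc ⟨(v, w), h⟩
    rw [MA2_mv hσ] at h1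
    unfold MA2_ext MA2_out
    rw [dif_pos h, h1]
  · unfold MA2_ext MA2_out
    rw [dif_neg h]
    have : ∀ x, σ v w x = 0 := fun x => hσ.supp v w x h
    simp [this]

private theorem MA2_ext_nadj {c : Bond G → ℂ} {v w : Fin V} (h : ¬ G.Adj v w) :
    MA2_ext c v w = 0 := by
  unfold MA2_ext; rw [dif_neg h]

private theorem MA2_out_nadj (hσ : IsScat G σ) {c : Bond G → ℂ} {v w : Fin V}
    (h : ¬ G.Adj v w) : MA2_out σ c v w = 0 := by
  unfold MA2_out
  have : ∀ x, σ v w x = 0 := fun x => hσ.supp v w x h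
  simp [this]

/-- `σ_v` is an involution on vectors supported on the neighbours of `v`. -/
private theorem MA2_invol (hσ : IsScat G σ) (z : Fin V → ℂ) (v w : Fin V)
    (hz : ∀ x, ¬ G.Adj v x → z x = 0) :
    ∑ x, (σ v w x : ℂ) * ∑ y, (σ v x y : ℂ) * z y = z w := by
  simp_rw [Finset.mul_sum]
  rw [Finset.sum_comm]
  have h1 : ∀ y, ∑ x, (σ v w x : ℂ) * ((σ v x y : ℂ) * z y) = if w = y then z y else 0 := by
    intro y
    by_cases hy : G.Adj v y
    · by_cases hw : G.Adj v w
      · have h2 := hσ.orth v w y hw hy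
        have h3 : ∑ x, (σ v w x : ℂ) * ((σ v x y : ℂ) * z y)
            = ((∑ x, σ v w x * σ v y x : ℝ) : ℂ) * z y := by
          push_cast
          rw [Finset.sum_mul]
          refine Finset.sum_congr rfl fun x _ => ?_
          rw [hσ.symm v x y]; ring
        rw [h3, h2]
        split_ifs <;> simp
      · have h2 : ∀ x, σ v w x = 0 := fun x => hσ.supp v w x hw
        have h3 : w ≠ y := by rintro rfl; exact hw hy
        simp [h2, h3]
    · rw [hz y hy]; simp
  simp_rw [h1]
  simp

private theorem MA2_eig (hσ : IsScat G σ) {l : Fin V → Fin V → ℝ} (hl : ∀ v w, l v w = l w v)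
    {k : ℝ} (hk : 0 < k) {c : Bond G → ℂ}
    (hc : c ∈ LinearMap.ker (Matrix.toLin' (1 - evo (bS G σ) (bl G l) k))) :
    IsEig G σ l k fun v w => MA2_w k (MA2_out σ c v w) (MA2_ext c w v) := by
  have hk' : (k : ℂ) ≠ 0 := by exact_mod_cast hk.ne'
  have hout : ∀ v w, ∑ x, (σ v w x : ℂ) * MA2_ext c x v = MA2_out σ c v w := fun v w => rfl
  have hinv : ∀ v w, ∑ x, (σ v w x : ℂ) * MA2_out σ c v x = MA2_ext c w v := by
    intro v w
    unfold MA2_out
    exact MA2_invol hσ (fun y => MA2_ext c y v) v w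
      (fun x hx => MA2_ext_nadj (fun h => hx h.symm))
  refine ⟨?_, fun v w => MA2_w_smooth _ _ _, ?_, ?_, ?_, ?_⟩
  · intro v w h
    ext t
    unfold MA2_w
    rw [MA2_out_nadj hσ h, MA2_ext_nadj (fun h2 => h h2.symm)]
    simp
  · intro v w t
    rw [MA2_w_deriv, show (fun t => MA2_w k (Complex.I * k * MA2_out σ c v w)
      (-(Complex.I * k) * MA2_ext c w v) t) = MA2_w k (Complex.I * k * MA2_out σ c v w)
      (-(Complex.I * k) * MA2_ext c w v) from rfl, MA2_w_deriv]
    unfold MA2_w
    ring_nf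
    simp only [Complex.I_sq]
    ring
  · intro v w t
    unfold MA2_w
    rw [MA2_mem hσ hc v w, MA2_mem hσ hc w v, hl w v]
    push_cast
    rw [show Complex.exp (Complex.I * k * (l v w - t))
      = Complex.exp (Complex.I * k * l v w) * Complex.exp (-(Complex.I * k) * t) by
        rw [← Complex.exp_add]; congr 1; ring,
      show Complex.exp (-(Complex.I * k) * (l v w - t))
      = Complex.exp (-(Complex.I * k) * l v w) * Complex.exp (Complex.I * k * t) by
        rw [← Complex.exp_add]; congr 1; ring]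
    have h1 : Complex.exp (Complex.I * k * l v w) * Complex.exp (-(Complex.I * k) * l v w) = 1 := by
      rw [← Complex.exp_add]; simp
    linear_combination (-(MA2_out σ c w v) * Complex.exp (Complex.I * k * t)) * h1
  · intro v w
    unfold MA2_w
    simp only [Complex.ofReal_zero, mul_zero, Complex.exp_zero, mul_one, mul_add,
      Finset.sum_add_distrib]
    rw [hinv, hout, add_comm]
  · intro v w
    simp only [MA2_w_deriv]
    unfold MA2_w
    simp only [Complex.ofReal_zero, mul_zero, Complex.exp_zero, mul_one]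
    have h1 : ∑ x, (σ v w x : ℂ) * (Complex.I * k * MA2_out σ c v x + -(Complex.I * k) * MA2_ext c x v)
        = Complex.I * k * (∑ x, (σ v w x : ℂ) * MA2_out σ c v x) -
          Complex.I * k * ∑ x, (σ v w x : ℂ) * MA2_ext c x v := by
      rw [Finset.mul_sum, Finset.mul_sum, ← Finset.sum_sub_distrib]
      refine Finset.sum_congr rfl fun x _ => by ring
    rw [h1, hinv, hout]
    ring

private noncomputable def MA2_map (hσ : IsScat G σ) {l : Fin V → Fin V → ℝ}
    (hl : ∀ v w, l v w = l w v) {k : ℝ} (hk : 0 < k) :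
    LinearMap.ker (Matrix.toLin' (1 - evo (bS G σ) (bl G l) k)) →ₗ[ℂ] eigSpace G σ l k where
  toFun c := ⟨fun v w => MA2_w k (MA2_out σ c.1 v w) (MA2_ext c.1 w v), MA2_eig hσ hl hk c.2⟩
  map_add' c d := by
    apply Subtype.ext
    ext v w t
    change MA2_w k (MA2_out σ (c.1 + d.1) v w) (MA2_ext (c.1 + d.1) w v) t =
      MA2_w k (MA2_out σ c.1 v w) (MA2_ext c.1 w v) t +
      MA2_w k (MA2_out σ d.1 v w) (MA2_ext d.1 w v) t
    have h1 : ∀ v w, MA2_ext (c.1 + d.1) v w = MA2_ext c.1 v w + MA2_ext d.1 v w := by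
      intro v w
      unfold MA2_ext
      split_ifs <;> simp
    have h2 : ∀ v w, MA2_out σ (c.1 + d.1) v w = MA2_out σ c.1 v w + MA2_out σ d.1 v w := by
      intro v w
      unfold MA2_out
      rw [← Finset.sum_add_distrib]
      exact Finset.sum_congr rfl fun x _ => by rw [h1]; ring
    unfold MA2_w
    rw [h1, h2]; ring
  map_smul' a c := by
    apply Subtype.ext
    ext v w t
    change MA2_w k (MA2_out σ (a • c.1) v w) (MA2_ext (a • c.1) w v) t =
      a * MA2_w k (MA2_out σ c.1 v w) (MA2_ext c.1 w v) t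
    have h1 : ∀ v w, MA2_ext (a • c.1) v w = a * MA2_ext c.1 v w := by
      intro v w
      unfold MA2_ext
      split_ifs <;> simp
    have h2 : ∀ v w, MA2_out σ (a • c.1) v w = a * MA2_out σ c.1 v w := by
      intro v w
      unfold MA2_out
      rw [Finset.mul_sum]
      exact Finset.sum_congr rfl fun x _ => by rw [h1]; ring
    unfold MA2_w
    rw [h1, h2]; ring

theorem secular {V : ℕ} {G : SimpleGraph (Fin V)} {σ : Fin V → Fin V → Fin V → ℝ}
    (hσ : IsScat G σ) {l : Fin V → Fin V → ℝ} (hl : ∀ v w, l v w = l w v) {k : ℝ} (hk : 0 < k) :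
    Module.finrank ℂ (eigSpace G σ l k) =
      Module.finrank ℂ (LinearMap.ker (Matrix.toLin' (1 - evo (bS G σ) (bl G l) k))) := by
  classical
  have hk' : (k : ℂ) ≠ 0 := by exact_mod_cast hk.ne'
  symm
  refine LinearEquiv.finrank_eq (LinearEquiv.ofBijective (MA2_map hσ hl hk) ⟨?_, ?_⟩)
  · rw [← LinearMap.ker_eq_bot, LinearMap.ker_eq_bot']
    intro c hc
    have h0 : ∀ v w, MA2_w k (MA2_out σ c.1 v w) (MA2_ext c.1 w v) = 0 := by
      intro v w
      exact congrFun (congrFun (congrArg Subtype.val hc) v) w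
    have h1 : ∀ v w, MA2_ext c.1 w v = 0 := by
      intro v w
      have h2 := congrFun (h0 v w) 0
      have h3 := congrFun (congrArg deriv (h0 v w)) 0
      rw [MA2_w_deriv] at h3
      rw [show deriv (0 : ℝ → ℂ) 0 = 0 by simp] at h3
      unfold MA2_w at h2 h3
      simp only [Complex.ofReal_zero, mul_zero, Complex.exp_zero, mul_one, Pi.zero_apply] at h2 h3
      have h4 : Complex.I * k ≠ 0 := mul_ne_zero Complex.I_ne_zero hk'
      have h5 : MA2_out σ c.1 v w - MA2_ext c.1 w v = 0 := by
        apply mul_left_cancel₀ h4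
        linear_combination h3
      linear_combination (h2 - h5) / 2
    apply Subtype.ext
    ext q
    have := h1 q.1.2 q.1.1
    unfold MA2_ext at this
    rw [dif_pos q.2] at this
    exact this
  · intro u
    obtain ⟨u, hu⟩ := u
    have hu : IsEig G σ l k u := hu
    set c : Bond G → ℂ := fun q => MA2_be k (u q.1.2 q.1.1) 0 with hc
    have hext : ∀ v w, MA2_ext c v w = MA2_be k (u w v) 0 := by
      intro v w
      unfold MA2_ext
      split_ifs with h
      · rfl
      · rw [hu.supp w v (fun h2 => h h2.symm)]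
        unfold MA2_be
        simp
    have hout : ∀ v w, MA2_out σ c v w = MA2_al k (u v w) 0 := by
      intro v w
      unfold MA2_out
      simp_rw [hext]
      unfold MA2_al MA2_be
      have h1 := hu.val v w
      have h2 := hu.flux v w
      rw [h1, h2]
      rw [← sub_eq_zero]
      have h3 : (∑ x, (σ v w x : ℂ) * ((u v x 0 + Complex.I * deriv (u v x) 0 / k) / 2))
          = ((∑ x, (σ v w x : ℂ) * u v x 0) + Complex.I *
            (∑ x, (σ v w x : ℂ) * deriv (u v x) 0) / k) / 2 := by
        rw [Finset.mul_sum, Finset.sum_div, ← Finset.sum_add_distrib, Finset.sum_div]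
        exact Finset.sum_congr rfl fun x _ => by ring
      rw [h3]
      ring
    have hflip : ∀ v w, MA2_be k (u w v) 0 = MA2_al k (u v w) 0 *
        Complex.exp (Complex.I * k * l v w) := by
      intro v w
      rw [← MA2_al_flow hk (hu.smooth v w) (hu.eqn v w)]
      unfold MA2_al MA2_be
      have h1 : u w v 0 = u v w (l v w) := by rw [hu.flip v w 0, sub_zero]
      have h2 : deriv (u w v) 0 = -deriv (u v w) (l v w) := by
        have h3 : u w v = fun t => u v w (l v w - t) := funext (hu.flip v w)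
        rw [h3]
        have h4 := deriv_comp_const_sub (f := u v w) (a := l v w) (x := (0 : ℝ))
        rw [sub_zero] at h4
        exact h4
      rw [h1, h2]
      ring
    have hmem : c ∈ LinearMap.ker (Matrix.toLin' (1 - evo (bS G σ) (bl G l) k)) := by
      rw [LinearMap.mem_ker, Matrix.toLin'_apply, Matrix.sub_mulVec, Matrix.one_mulVec, sub_eq_zero]
      ext q
      rw [MA2_mv hσ]
      have h1 := hout q.1.1 q.1.2
      unfold MA2_out at h1
      rw [h1, mul_comm, ← hflip]
    refine ⟨⟨c, hmem⟩, Subtype.ext ?_⟩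
    ext v w t
    change MA2_w k (MA2_out σ c v w) (MA2_ext c w v) t = u v w t
    rw [hout, hext]
    unfold MA2_w
    rw [← MA2_al_flow hk (hu.smooth v w) (hu.eqn v w), ← MA2_be_flow hk (hu.smooth v w) (hu.eqn v w)]
    unfold MA2_al MA2_be
    ring

end Mes
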