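import Pool.Agent.LibMes.R_MA3
import Pool.Agent.LibQGr.R_LIM
import Pool.Agent.LibQGr.R_INT
import Pool.Agent.LibQGr.R_PHS

open MeasureTheory Set Filter Topology

namespace Mes

private theorem MA4_sel {N : ℕ} (hN : 0 < N) (W : ℝ → QGr.Uni N) (hW : Continuous W) (S : ℝ → ℝ)
    (hS : Continuous S) (hd : ∀ k, (W k).1.det = Complex.exp (S k * Complex.I)) :
    ∃ F : ℤ → ℝ → ℝ, (∀ p, Continuous (F p)) ∧ (∀ k, QGr.Dia (W k) fun p => F p k) ∧
      ∀ k, ∑ a ∈ Finset.range N, F a k = S k := by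
  choose F hF hsum using fun k => QGr.dia_exists hN (W k) (S k) (hd k)
  refine ⟨fun p k => F k p, ?_, hF, hsum⟩
  intro p
  rw [continuous_iff_continuousAt]
  intro k₀
  change Tendsto (fun k => F k p) (𝓝 k₀) (𝓝 (F k₀ p))
  rw [tendsto_iff_ultrafilter]
  intro 𝒰 h𝒰
  have hS1 : Tendsto S 𝒰 (𝓝 (S k₀)) := (hS.tendsto k₀).mono_left h𝒰
  have hb : ∀ᶠ k in (𝒰 : Filter ℝ), |∑ a ∈ Finset.range N, F k a| ≤ |S k₀| + 1 := by
    have h1 := hS1.abs.eventually (eventually_le_nhds (show |S k₀| < |S k₀| + 1 by linarith))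
    filter_upwards [h1] with k hk
    rw [hsum k]
    exact hk
  obtain ⟨F₀, hD, hlim⟩ := QGr.LIM_dia_lim hN 𝒰 W (W k₀) ((hW.tendsto k₀).mono_left h𝒰) F hF _ hb
  have h2 : ∑ a ∈ Finset.range N, F₀ a = S k₀ := by
    refine tendsto_nhds_unique ?_ hS1
    refine (tendsto_finsetSum (Finset.range N) fun a _ => hlim (a : ℤ)).congr fun k => ?_
    exact hsum k
  have h3 : F₀ = F k₀ := QGr.dia_unique hN (W k₀) F₀ (F k₀) hD (hF k₀) (by rw [h2, hsum k₀])
  rw [← h3]
  exact hlim p

variable {ι : Type} [Fintype ι] [DecidableEq ι]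

private theorem MA4_ra {κ : Type} [Fintype κ] [DecidableEq κ] (R A : Type) [CommSemiring R]
    [Semiring A] [Algebra R A] (e : ι ≃ κ) (M : Matrix ι ι A) :
    Matrix.reindexAlgEquiv R A e M = Matrix.reindex e e M := by
  rw [Matrix.coe_reindexAlgEquiv]

private theorem MA4_evo_eq (S : Matrix ι ι ℝ) (ℓ : ι → ℝ) (k : ℝ) :
    evo S ℓ k = (Matrix.diagonal fun i => Complex.exp ((k * ℓ i : ℝ) * Complex.I)) *
      S.map Complex.ofRealHom := by
  ext i j
  rw [Matrix.diagonal_mul]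
  rfl

private theorem MA4_det (S : Matrix ι ι ℝ) (ℓ : ι → ℝ) (k : ℝ) :
    (evo S ℓ k).det = Complex.exp ((k * ∑ i, ℓ i : ℝ) * Complex.I) * (S.det : ℂ) := by
  rw [MA4_evo_eq, Matrix.det_mul, Matrix.det_diagonal, ← Complex.exp_sum]
  congr 1
  · congr 1
    push_cast
    rw [Finset.mul_sum, Finset.sum_mul]
  · exact (RingHom.map_det Complex.ofRealHom S).symm

private theorem MA4_unit (S : Matrix ι ι ℝ) (hS : S * S.transpose = 1) (ℓ : ι → ℝ) (k : ℝ) :
    evo S ℓ k ∈ Matrix.unitaryGroup ι ℂ := by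
  rw [MA4_evo_eq]
  refine Submonoid.mul_mem _ ?_ ?_
  · rw [Matrix.mem_unitaryGroup_iff, Matrix.star_eq_conjTranspose, Matrix.diagonal_conjTranspose,
      Matrix.diagonal_mul_diagonal]
    ext i j
    by_cases h : i = j
    · subst h
      simp only [Pi.star_apply, Matrix.diagonal_apply_eq, Matrix.one_apply_eq, RCLike.star_def]
      rw [Complex.mul_conj, Complex.normSq_eq_norm_sq, Complex.norm_exp_ofReal_mul_I]
      norm_num
    · simp [h]
  · rw [Matrix.mem_unitaryGroup_iff]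
    have h : star (S.map Complex.ofRealHom) = S.transpose.map Complex.ofRealHom := by
      ext i j
      simp [Matrix.star_apply]
    rw [h, ← Matrix.map_mul, hS]
    ext i j
    simp [Matrix.one_apply, apply_ite]

private theorem MA4_fin {N : ℕ} (S : Matrix (Fin N) (Fin N) ℝ) (hS : S * S.transpose = 1)
    (ℓ : Fin N → ℝ) (hN : 0 < N) {a b : ℝ} (hl : ∀ i, ℓ i ∈ Icc a b) :
    ∃ F : ℤ → ℝ → ℝ, (∀ p, Continuous (F p)) ∧ (∀ k, Monotone fun p => F p k) ∧
      (∀ p k, F (p + N) k = F p k + 2 * Real.pi) ∧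
      (∀ p s t, s ≤ t → a * (t - s) ≤ F p t - F p s) ∧
      (∀ p s t, s ≤ t → F p t - F p s ≤ b * (t - s)) ∧
      (∃ c, ∀ k, ∑ j ∈ Finset.range N, F j k = k * ∑ i, ℓ i + c) ∧
      (∀ (n : ℕ) (k : ℝ), (evo S ℓ k ^ n).trace =
        ∑ j ∈ Finset.range N, Complex.exp ((n * F j k : ℝ) * Complex.I)) ∧
      (∀ k, {p | F p k = 0}.encard =
        (Module.finrank ℂ (LinearMap.ker (Matrix.toLin' (1 - evo S ℓ k))) : ℕ∞)) := by
  have hpi := Real.pi_pos
  have hNR : (0 : ℝ) < N := by exact_mod_cast hN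
  -- the unitary matrices
  set W : ℝ → QGr.Uni N := fun k => ⟨evo S ℓ k, MA4_unit S hS ℓ k⟩ with hW
  have hWc : Continuous W := by
    refine Continuous.subtype_mk ?_ _
    refine continuous_matrix fun i j => ?_
    unfold evo
    fun_prop
  -- the determinant of S
  have hdS : S.det = 1 ∨ S.det = -1 := by
    have h1 := congrArg Matrix.det hS
    rw [Matrix.det_mul, Matrix.det_transpose, Matrix.det_one] at h1
    exact mul_self_eq_one_iff.mp h1
  obtain ⟨c, hc⟩ : ∃ c : ℝ, (S.det : ℂ) = Complex.exp (c * Complex.I) := by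
    rcases hdS with h | h
    · exact ⟨0, by rw [h]; simp⟩
    · exact ⟨Real.pi, by rw [h, Complex.exp_pi_mul_I]; simp⟩
  obtain ⟨F, hF, hD, hsum⟩ := MA4_sel hN W hWc (fun k => k * ∑ i, ℓ i + c) (by fun_prop) (by
    intro k
    change (evo S ℓ k).det = _
    rw [MA4_det, hc, ← Complex.exp_add]
    congr 1
    push_cast
    ring)
  choose V hV using fun k => (hD k).dia
  have hV1 : ∀ k, (V k).1 * (V k).1.conjTranspose = 1 := fun k =>
    Matrix.mem_unitaryGroup_iff.mp (V k).2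
  have hV2 : ∀ k, (V k).1.conjTranspose * (V k).1 = 1 := fun k =>
    Matrix.mem_unitaryGroup_iff'.mp (V k).2
  have hslope : ∀ (j : Fin N) (k₀ : ℝ) (𝒰 : Ultrafilter ℝ), (𝒰 : Filter ℝ) ≤ 𝓝[≠] k₀ →
      ∃ s, Tendsto (fun k => (F (j : ℕ) k - F (j : ℕ) k₀) / (k - k₀)) 𝒰 (𝓝 s) ∧ s ∈ Icc a b :=
    fun j k₀ 𝒰 h => slopeM S hS ℓ hl F hF (fun k => (V k).1) (fun k => (V k).2) hV j k₀ 𝒰 h
  have hupF : ∀ (j : Fin N) (s t : ℝ), s ≤ t → F (j : ℕ) t - F (j : ℕ) s ≤ b * (t - s) := by
    intro j s t hst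
    have := QGr.slope_int (F (j : ℕ)) (hF _) (fun _ => b) continuous_const
      (fun k₀ 𝒰 h => by
        obtain ⟨x, h1, h2⟩ := hslope j k₀ 𝒰 h
        exact ⟨x, h1, h2.2⟩) s t hst
    rw [intervalIntegral.integral_const, smul_eq_mul] at this
    linarith
  have hlowF : ∀ (j : Fin N) (s t : ℝ), s ≤ t → a * (t - s) ≤ F (j : ℕ) t - F (j : ℕ) s := by
    intro j s t hst
    have := QGr.slope_int (fun k => -F (j : ℕ) k) (hF _).neg (fun _ => -a) continuous_const
      (fun k₀ 𝒰 h => by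
        obtain ⟨x, h1, h2⟩ := hslope j k₀ 𝒰 h
        refine ⟨-x, ?_, neg_le_neg h2.1⟩
        refine (h1.neg).congr fun k => ?_
        rw [← neg_div]; ring_nf) s t hst
    rw [intervalIntegral.integral_const, smul_eq_mul] at this
    linarith
  -- all indices
  have hper : ∀ p k, F (p + N) k = F p k + 2 * Real.pi := fun p k => (hD k).per p
  have hshift : ∀ (p : ℤ) (k : ℝ), F p k = F ((⟨(p % N).toNat, by
      have h1 := Int.emod_lt_of_pos p (by exact_mod_cast hN : (0 : ℤ) < N)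
      have h2 := Int.emod_nonneg p (by exact_mod_cast hN.ne' : (N : ℤ) ≠ 0)
      omega⟩ : Fin N) : ℕ) k + (p / N : ℤ) * (2 * Real.pi) := by
    intro p k
    have h2 := Int.emod_nonneg p (by exact_mod_cast hN.ne' : (N : ℤ) ≠ 0)
    have h3 := QGr.PHS_shift (fun p => F p k) (fun p => hper p k) (p / N) (p % N)
    have h4 : p % N + p / N * N = p := by have := Int.emod_add_mul_ediv p N; linarith [mul_comm (N : ℤ) (p / N)]
    simp only [h4] at h3
    rw [h3]
    congr 2
    simp only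
    rw [Int.toNat_of_nonneg h2]
  refine ⟨F, hF, fun k => (hD k).mono, hper, ?_, ?_, ⟨c, hsum⟩, ?_, ?_⟩
  · intro p s t hst
    rw [hshift p t, hshift p s]
    have := hlowF ⟨(p % N).toNat, by
      have h1 := Int.emod_lt_of_pos p (by exact_mod_cast hN : (0 : ℤ) < N)
      have h2 := Int.emod_nonneg p (by exact_mod_cast hN.ne' : (N : ℤ) ≠ 0)
      omega⟩ s t hst
    linarith
  · intro p s t hst
    rw [hshift p t, hshift p s]
    have := hupF ⟨(p % N).toNat, by
      have h1 := Int.emod_lt_of_pos p (by exact_mod_cast hN : (0 : ℤ) < N)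
      have h2 := Int.emod_nonneg p (by exact_mod_cast hN.ne' : (N : ℤ) ≠ 0)
      omega⟩ s t hst
    linarith
  · intro n k
    have h1 : evo S ℓ k = (V k).1 * (Matrix.diagonal fun j : Fin N =>
      Complex.exp (F (j : ℕ) k * Complex.I)) * (V k).1.conjTranspose := hV k
    have h2 : ∀ n : ℕ, evo S ℓ k ^ n = (V k).1 * (Matrix.diagonal fun j : Fin N =>
      Complex.exp (F (j : ℕ) k * Complex.I)) ^ n * (V k).1.conjTranspose := by
      intro n
      induction n with
      | zero => simp [hV1 k]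
      | succ n ih =>
        rw [pow_succ, ih, h1, pow_succ]
        have e : ∀ A B C D E : Matrix (Fin N) (Fin N) ℂ, A * B * C * (A * D * C)
          = A * B * (C * A) * D * C := by
          intro A B C D E
          simp only [mul_assoc]
        rw [e _ _ _ _ 1, hV2 k, mul_one]
        simp only [mul_assoc]
    rw [h2, Matrix.trace_mul_comm, ← mul_assoc, hV2 k, one_mul, Matrix.diagonal_pow,
      Matrix.trace_diagonal, ← Fin.sum_univ_eq_sum_range
        (fun j => Complex.exp ((n * F (j : ℤ) k : ℝ) * Complex.I)) N]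
    refine Finset.sum_congr rfl fun j _ => ?_
    rw [Pi.pow_apply, ← Complex.exp_nat_mul]
    congr 1
    push_cast
    ring
  · intro k
    have h1 := (QGr.dia_phases hN (W k) (fun p => F p k) (hD k)).mult 0
    have h2 : ((1 : Matrix (Fin N) (Fin N) ℂ) - Complex.exp (2 * Real.pi * ((0 : ℝ) : ℂ) / N *
        Complex.I) • (W k).1) = 1 - evo S ℓ k := by
      simp [hW]
    rw [h2] at h1
    rw [← h1]
    have h3 : {p : ℤ | F p k = 0} = (fun p : ℤ => -p) ''
        {p : ℤ | -((N : ℝ) / (2 * Real.pi)) * F (-p) k = 0} := by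
      ext p
      simp only [mem_ofPred_eq, mem_image]
      have hne : -((N : ℝ) / (2 * Real.pi)) ≠ 0 := by
        apply neg_ne_zero.mpr; positivity
      constructor
      · intro h
        exact ⟨-p, by rw [neg_neg, h, mul_zero], neg_neg p⟩
      · rintro ⟨q, hq, rfl⟩
        rcases mul_eq_zero.mp hq with h | h
        · exact absurd h hne
        · exact h
    rw [h3, neg_injective.encard_image]

theorem ph_exists (S : Matrix ι ι ℝ) (hS : S * S.transpose = 1) (ℓ : ι → ℝ)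
    (hN : 0 < Fintype.card ι) {a b : ℝ} (hl : ∀ i, ℓ i ∈ Icc a b) : ∃ F, Ph S ℓ a b F := by
  classical
  set N := Fintype.card ι with hNdef
  set e : ι ≃ Fin N := Fintype.equivFin ι
  set S' : Matrix (Fin N) (Fin N) ℝ := Matrix.reindex e e S with hS'
  set ℓ' : Fin N → ℝ := fun i => ℓ (e.symm i) with hl'
  have hSS : S' * S'.transpose = 1 := by
    rw [hS', Matrix.transpose_reindex, ← MA4_ra ℝ ℝ,
      ← MA4_ra ℝ ℝ, ← map_mul, hS, map_one]
  have hevo : ∀ k, evo S' ℓ' k = Matrix.reindex e e (evo S ℓ k) := by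
    intro k
    ext i j
    rfl
  obtain ⟨F, hF, hm, hp, hlo, hup, ⟨c, hs⟩, htr, hk⟩ := MA4_fin S' hSS ℓ' hN (a := a) (b := b)
    (fun i => hl _)
  have hsumℓ : ∑ i, ℓ' i = ∑ i, ℓ i := Equiv.sum_comp e.symm ℓ
  have hrefl : ∀ (g : ℤ → ℝ), ∑ j ∈ Finset.range N, g (-j + (N : ℤ) - 1) = ∑ j ∈ Finset.range N, g j := by
    intro g
    rw [← Finset.sum_range_reflect]
    refine Finset.sum_congr rfl fun j hj => ?_
    congr 1
    have := Finset.mem_range.mp hj
    omega
  have hreflc : ∀ (g : ℤ → ℂ), ∑ j ∈ Finset.range N, g (-j + (N : ℤ) - 1) = ∑ j ∈ Finset.range N, g j := by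
    intro g
    rw [← Finset.sum_range_reflect]
    refine Finset.sum_congr rfl fun j hj => ?_
    congr 1
    have := Finset.mem_range.mp hj
    omega
  refine ⟨fun p k => F (p + N - 1) k, ?_, ?_, ?_, ?_, ?_, ⟨c, ?_⟩, ?_, ?_⟩
  · intro p; exact hF _
  · intro k p q hpq
    exact hm k (by linarith)
  · intro p k
    change F (p + (N : ℤ) + N - 1) k = F (p + N - 1) k + 2 * Real.pi
    rw [show p + (N : ℤ) + N - 1 = (p + N - 1) + N by ring, hp]
  · intro p s t hst; exact hlo _ s t hst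
  · intro p s t hst; exact hup _ s t hst
  · intro k
    change ∑ j ∈ Finset.range N, F (-(j : ℤ) + N - 1) k = _
    rw [hrefl (fun p => F p k), hs, hsumℓ]
  · intro n k
    change (evo S ℓ k ^ n).trace = ∑ j ∈ Finset.range N, Complex.exp ((n * F (-(j : ℤ) + N - 1) k : ℝ) * Complex.I)
    rw [hreflc (fun p => Complex.exp ((n * F p k : ℝ) * Complex.I)), ← htr, hevo,
      ← MA4_ra ℂ ℂ, ← map_pow, MA4_ra]
    unfold Matrix.trace
    rw [← Equiv.sum_comp e]
    simp
  · intro k
    have h1 : {p : ℤ | F (p + N - 1) k = 0} = (fun p : ℤ => p - N + 1) '' {p : ℤ | F p k = 0} := by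
      ext p
      simp only [mem_ofPred_eq, mem_image]
      constructor
      · intro h
        exact ⟨p + N - 1, h, by ring⟩
      · rintro ⟨q, hq, rfl⟩
        rw [show q - (N : ℤ) + 1 + N - 1 = q by ring]; exact hq
    change {p : ℤ | F (p + N - 1) k = 0}.encard = _
    rw [h1, Function.Injective.encard_image (fun x y h => by simpa using h), hk, hevo]
    congr 1
    have h2 : (1 : Matrix (Fin N) (Fin N) ℂ) - Matrix.reindex e e (evo S ℓ k)
        = Matrix.reindex e e (1 - evo S ℓ k) := by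
      rw [← MA4_ra ℂ ℂ, ← MA4_ra ℂ ℂ, map_sub, map_one]
    rw [h2]
    -- ker of the reindexed matrix
    refine LinearEquiv.finrank_eq ?_
    refine (LinearEquiv.ofSubmodules (LinearEquiv.funCongrLeft ℂ ℂ e) _ _ ?_)
    ext x
    rw [Submodule.mem_map_equiv, LinearMap.mem_ker, LinearMap.mem_ker, Matrix.toLin'_apply,
      Matrix.toLin'_apply]
    have h3 : Matrix.mulVec (Matrix.reindex e e (1 - evo S ℓ k))
        ((LinearEquiv.funCongrLeft ℂ ℂ e).symm x) = (Matrix.mulVec (1 - evo S ℓ k) x) ∘ e.symm := by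
      rw [Matrix.reindex_apply, Matrix.submatrix_mulVec_equiv]
      congr 2
      ext i
      simp [LinearEquiv.funCongrLeft]
    rw [h3]
    constructor
    · intro h
      ext i
      have := congrFun h (e i)
      simpa using this
    · intro h
      rw [h]; rfl

end Mes
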