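import Pool.Agent.LibMes.Defs

open MeasureTheory Set Filter Topology

namespace Mes

/-! Two monotone enumerations with the same fibres are equal. -/

theorem MA5_aux (κ κ' : ℕ → ℝ) (h' : Monotone κ')
    (hf : ∀ t, {n | κ n = t}.encard = {n | κ' n = t}.encard) (n : ℕ)
    (ih : ∀ m < n, κ m = κ' m) (hlt : κ n < κ' n) : False := by
  have hsub : {m | κ' m = κ n} ⊆ {m | κ m = κ n} := by
    intro m hm
    have hmn : m < n := by
      by_contra hge
      push Not at hge
      have h1 := h' hge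
      have h2 : κ' m = κ n := hm
      linarith
    have h3 := ih m hmn
    have h4 : κ' m = κ n := hm
    change κ m = κ n
    rw [h3, h4]
  have hfin : {m | κ' m = κ n}.Finite := by
    apply (Set.finite_Iio n).subset
    intro m hm
    change m < n
    by_contra hge
    push Not at hge
    have h1 := h' hge
    have h2 : κ' m = κ n := hm
    linarith
  have hne : {m | κ' m = κ n} ≠ {m | κ m = κ n} := by
    intro h
    have h1 : n ∈ {m | κ m = κ n} := rfl
    rw [← h] at h1
    have h2 : κ' n = κ n := h1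
    linarith
  have hlt2 := hfin.encard_lt_encard (hsub.ssubset_of_ne hne)
  rw [hf (κ n)] at hlt2
  exact lt_irrefl _ hlt2

theorem MA5_enum (κ κ' : ℕ → ℝ) (h : Monotone κ) (h' : Monotone κ')
    (hf : ∀ t, {n | κ n = t}.encard = {n | κ' n = t}.encard) : κ = κ' := by
  funext n
  induction n using Nat.strong_induction_on with
  | _ n ih =>
    rcases lt_trichotomy (κ n) (κ' n) with h1 | h1 | h1
    · exact (MA5_aux κ κ' h' hf n ih h1).elim
    · exact h1
    · exact (MA5_aux κ' κ h (fun t => (hf t).symm) n (fun m hm => (ih m hm).symm) h1).elim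

section general

variable {ι : Type} [Fintype ι] [DecidableEq ι]

theorem MA5_lt {S : Matrix ι ι ℝ} {ℓ : ι → ℝ} {a b : ℝ} (ha : 0 < a) {F : ℤ → ℝ → ℝ}
    (hF : Ph S ℓ a b F) (p : ℤ) {s t : ℝ} (h : s < t) : F p s < F p t := by
  have h1 := hF.low p s t h.le
  have h2 : 0 < a * (t - s) := mul_pos ha (sub_pos.2 h)
  linarith

theorem MA5_inj {S : Matrix ι ι ℝ} {ℓ : ι → ℝ} {a b : ℝ} (ha : 0 < a) {F : ℤ → ℝ → ℝ}
    (hF : Ph S ℓ a b F) (p : ℤ) {s t : ℝ} (h : F p s = F p t) : s = t := by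
  rcases lt_trichotomy s t with h1 | h1 | h1
  · exact absurd h (MA5_lt ha hF p h1).ne
  · exact h1
  · exact absurd h (MA5_lt ha hF p h1).ne'

theorem MA5_zero {S : Matrix ι ι ℝ} {ℓ : ι → ℝ} {a b : ℝ} (ha : 0 < a) {F : ℤ → ℝ → ℝ}
    (hF : Ph S ℓ a b F) (p : ℤ) : ∃ t, F p t = 0 := by
  set R := |F p 0| / a with hR
  have hR0 : 0 ≤ R := by positivity
  have hcR : a * R = |F p 0| := by rw [hR]; field_simp
  have h1 := hF.low p 0 R hR0
  have h2 := hF.low p (-R) 0 (by linarith)
  have h3 := neg_abs_le (F p 0)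
  have h4 := le_abs_self (F p 0)
  have h5 : a * (R - 0) = |F p 0| := by rw [sub_zero, hcR]
  have h6 : a * (0 - -R) = |F p 0| := by rw [zero_sub, neg_neg, hcR]
  rw [h5] at h1
  rw [h6] at h2
  have h7 := intermediate_value_Icc (f := F p) (a := -R) (b := R) (by linarith)
    (hF.cont p).continuousOn
  obtain ⟨t, _, ht⟩ := h7 (show (0 : ℝ) ∈ Icc (F p (-R)) (F p R) from
    ⟨by linarith, by linarith⟩)
  exact ⟨t, ht⟩

theorem zer_exists {S : Matrix ι ι ℝ} {ℓ : ι → ℝ} {a b : ℝ} (ha : 0 < a) (hab : a ≤ b)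
    (hN : 0 < Fintype.card ι) {F : ℤ → ℝ → ℝ} (hF : Ph S ℓ a b F) :
    ∃ X, Zer (Fintype.card ι) a b F X := by
  choose Y hY using fun p : ℤ => MA5_zero ha hF p
  have hb : 0 < b := ha.trans_le hab
  have hz : ∀ p : ℤ, F (-p) (Y (-p)) = 0 := fun p => hY (-p)
  have hm : Monotone fun p : ℤ => Y (-p) := by
    intro p q hpq
    by_contra hcon
    push Not at hcon
    have h1 : F (-q) (Y (-q)) < F (-q) (Y (-p)) := MA5_lt ha hF (-q) hcon
    have h2 : F (-q) (Y (-p)) ≤ F (-p) (Y (-p)) := hF.mono (Y (-p)) (by omega)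
    have h3 := hY (-q)
    have h4 := hY (-p)
    linarith
  refine ⟨fun p => Y (-p), hm, hz, ?_⟩
  intro p
  have h1 : Y (-p) ≤ Y (-(p + (Fintype.card ι : ℤ))) := hm (by omega)
  have h2 : F (-p) (Y (-(p + (Fintype.card ι : ℤ)))) = 2 * Real.pi := by
    have h3 := hF.per (-(p + (Fintype.card ι : ℤ))) (Y (-(p + (Fintype.card ι : ℤ))))
    rw [hY, zero_add] at h3
    have h4 : -(p + (Fintype.card ι : ℤ)) + (Fintype.card ι : ℤ) = -p := by ring
    rw [h4] at h3
    exact h3
  have h5 := hF.up (-p) _ _ h1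
  have h6 := hF.low (-p) _ _ h1
  rw [h2, hY, sub_zero] at h5 h6
  constructor
  · rw [div_le_iff₀ hb]
    linarith
  · rw [le_div_iff₀ ha]
    linarith

theorem MA5_up {N : ℕ} {a b : ℝ} {F : ℤ → ℝ → ℝ} {X : ℤ → ℝ} (hX : Zer N a b F X) (k : ℕ) (p : ℤ) :
    X p + k * (2 * Real.pi / b) ≤ X (p + k * N) := by
  induction k with
  | zero => simp
  | succ k ih =>
    have h1 := (hX.step (p + k * N)).1
    have h2 : p + ((k + 1 : ℕ) : ℤ) * N = p + k * N + N := by push_cast; ring
    rw [h2]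
    push_cast
    linarith

/-- The first positive level. -/
theorem MA5_first {N : ℕ} {a b : ℝ} (hb : 0 < b) {F : ℤ → ℝ → ℝ} {X : ℤ → ℝ}
    (hX : Zer N a b F X) : ∃ s : ℤ, 0 < X s ∧ X (s - 1) ≤ 0 := by
  have hcN : 0 < 2 * Real.pi / b := by positivity
  obtain ⟨k, hk⟩ := exists_nat_gt (|X 0| / (2 * Real.pi / b))
  rw [div_lt_iff₀ hcN] at hk
  have h1 := MA5_up hX k 0
  have h2 := MA5_up hX k (-(k * N))
  have h3 := neg_abs_le (X 0)
  have h4 := le_abs_self (X 0)
  have e : -((k : ℤ) * N) + k * N = 0 := by ring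
  rw [e] at h2
  obtain ⟨s, hs1, hs2⟩ := Int.exists_least_of_bdd (P := fun z => 0 < X z)
    ⟨-(k * N), fun z hz => by
      by_contra hcon
      push Not at hcon
      have h5 : X z ≤ X (-((k : ℤ) * N)) := hX.mono hcon.le
      have h6 : 0 < X z := hz
      linarith⟩
    ⟨0 + k * N, by
      have : 0 < X (0 + (k : ℤ) * N) := by linarith
      exact this⟩
  refine ⟨s, hs1, ?_⟩
  by_contra hcon
  push Not at hcon
  have := hs2 (s - 1) hcon
  omega

theorem MA5_mult {S : Matrix ι ι ℝ} {ℓ : ι → ℝ} {a b : ℝ} (ha : 0 < a) {F : ℤ → ℝ → ℝ}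
    (hF : Ph S ℓ a b F) {N : ℕ} {X : ℤ → ℝ} (hX : Zer N a b F X) (s : ℤ) (hs : X (s - 1) ≤ 0)
    (t : ℝ) (ht : 0 < t) : {n : ℕ | X (n + s) = t}.encard = {p : ℤ | F p t = 0}.encard := by
  have himg : {p : ℤ | F p t = 0} = (fun n : ℕ => -((n : ℤ) + s)) '' {n : ℕ | X (n + s) = t} := by
    ext p
    rw [mem_ofPred_eq, mem_image]
    constructor
    · intro hp
      have h1 : X (-p) = t := by
        apply MA5_inj ha hF p
        have h2 := hX.zero (-p)
        rw [neg_neg] at h2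
        rw [h2, hp]
      have h3 : s ≤ -p := by
        by_contra hcon
        push Not at hcon
        have h4 : X (-p) ≤ X (s - 1) := hX.mono (by omega)
        linarith
      refine ⟨(-p - s).toNat, ?_, ?_⟩
      · rw [mem_ofPred_eq, Int.toNat_of_nonneg (by omega)]
        rw [sub_add_cancel]
        exact h1
      · rw [Int.toNat_of_nonneg (by omega)]
        ring
    · rintro ⟨n, hn, rfl⟩
      rw [mem_ofPred_eq] at hn
      have h1 := hX.zero (n + s)
      rw [hn] at h1
      exact h1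
  rw [himg, Function.Injective.encard_image]
  intro a b hab
  simp only [neg_inj, add_left_inj, Nat.cast_inj] at hab
  exact hab

theorem lev_zer {S : Matrix ι ι ℝ} {ℓ : ι → ℝ} {a b : ℝ} (ha : 0 < a) (hab : a ≤ b)
    (hN : 0 < Fintype.card ι) {F : ℤ → ℝ → ℝ} (hF : Ph S ℓ a b F) {X : ℤ → ℝ}
    (hX : Zer (Fintype.card ι) a b F X) :
    ∃ s : ℤ, X (s - 1) ≤ 0 ∧ 0 < X s ∧ (IsLev S ℓ fun n => X (n + s)) ∧
      ∀ κ, IsLev S ℓ κ → ∀ n : ℕ, κ n = X (n + s) := by
  obtain ⟨s, hs1, hs2⟩ := MA5_first (ha.trans_le hab) hX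
  have hlev : IsLev S ℓ fun n => X (n + s) := by
    refine ⟨fun m n hmn => hX.mono (by omega), fun n => hs1.trans_le (hX.mono (by omega)), ?_⟩
    intro k hk
    rw [MA5_mult ha hF hX s hs2 k hk]
    exact hF.ker k
  refine ⟨s, hs2, hs1, hlev, ?_⟩
  intro κ hκ n
  have h1 : κ = fun n : ℕ => X (n + s) := by
    apply MA5_enum
    · exact hκ.mono
    · exact hlev.mono
    · intro t
      rcases lt_or_ge 0 t with ht | ht
      · rw [hκ.mult t ht, hlev.mult t ht]
      · have e1 : {n : ℕ | κ n = t} = ∅ := by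
          rw [eq_empty_iff_forall_notMem]
          intro n hn
          rw [mem_ofPred_eq] at hn
          have := hκ.pos n
          linarith
        have e2 : {n : ℕ | X (n + s) = t} = ∅ := by
          rw [eq_empty_iff_forall_notMem]
          intro n hn
          rw [mem_ofPred_eq] at hn
          have h3 : X s ≤ X (n + s) := hX.mono (by omega)
          linarith
        rw [e1, e2]
  exact congrFun h1 n

end general

end Mes
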