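import Pool.Agent.LibMes.R_TF
import Pool.Agent.LibMes.R_MA1
import Pool.Agent.LibMes.R_MA2
import Pool.Agent.LibMes.R_MA4
import Pool.Agent.LibMes.R_MA5
import Pool.Agent.LibMes.R_MA12
import Pool.Agent.LibMes.R_MA14
import Pool.Agent.LibMes.R_MA15

open MeasureTheory Set Filter Topology

namespace Mes

theorem BR_lev {V : ℕ} {G : SimpleGraph (Fin V)} {σ : Fin V → Fin V → Fin V → ℝ}
    (hσ : IsScat G σ) {l : Fin V → Fin V → ℝ} (hl : ∀ v w, l v w = l w v) (κ : ℕ → ℝ) :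
    IsLevels G σ l κ ↔ IsLev (bS G σ) (bl G l) κ := by
  constructor
  · intro h
    refine ⟨h.mono, h.pos, fun k hk => ?_⟩
    rw [← secular hσ hl hk]
    exact h.mult k hk
  · intro h
    refine ⟨h.mono, h.pos, fun k hk => ?_⟩
    rw [secular hσ hl hk]
    exact h.mult k hk

theorem BR_card {V : ℕ} {G : SimpleGraph (Fin V)} (hne : ∃ v w, G.Adj v w) :
    0 < Fintype.card (Bond G) := by
  obtain ⟨v, w, h⟩ := hne
  exact Fintype.card_pos_iff.2 ⟨⟨(v, w), h⟩⟩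

theorem BR_ab {V : ℕ} {G : SimpleGraph (Fin V)} {a b : ℝ} {l : Fin V → Fin V → ℝ}
    (hl : IsLen G a b l) (hne : ∃ v w, G.Adj v w) : a ≤ b := by
  obtain ⟨v, w, h⟩ := hne
  have := hl.mem v w h
  exact this.1.trans this.2

theorem levels_exist {V : ℕ} {G : SimpleGraph (Fin V)} {σ : Fin V → Fin V → Fin V → ℝ}
    (hσ : IsScat G σ) {a b : ℝ} (ha : 0 < a) {l : Fin V → Fin V → ℝ} (hl : IsLen G a b l)
    (hne : ∃ v w, G.Adj v w) : ∃! κ, IsLevels G σ l κ := by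
  have hab := BR_ab hl hne
  have hN := BR_card hne
  have hb : ∀ q, bl G l q ∈ Icc a b := fun q => hl.mem _ _ q.2
  obtain ⟨F, hF⟩ := ph_exists (bS G σ) (bS_orth hσ) (bl G l) hN hb
  obtain ⟨X, hX⟩ := zer_exists ha hab hN hF
  obtain ⟨s, -, -, h1, h2⟩ := lev_zer ha hab hN hF hX
  refine ⟨fun n => X (n + s), (BR_lev hσ hl.symm _).2 h1, fun κ hκ => ?_⟩
  exact funext fun n => h2 κ ((BR_lev hσ hl.symm _).1 hκ) n

/-- The statistic is a trigonometric polynomial up to a small error. -/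
theorem BR_key {V : ℕ} {G : SimpleGraph (Fin V)} {σ : Fin V → Fin V → Fin V → ℝ}
    (hσ : IsScat G σ) {a b : ℝ} (ha : 0 < a) {l : Fin V → Fin V → ℝ} (hl : IsLen G a b l)
    (hne : ∃ v w, G.Adj v w) {κ : ℕ → ℝ} (hκ : IsLevels G σ l κ) {f : ℝ → ℝ} {K : ℝ}
    (hf : Test f K) {R : ℝ} (hR : ∀ s, R < |s| → ft f s = 0) {Λ : ℝ} (hΛ : 0 < Λ) {M : ℕ}
    (hM : 2 * Real.pi * Λ * R < (M + 1) * a) :
    ∃ e : ℝ → ℝ, (∀ k, stat f Λ (len G l) κ k =
      2 * (∑ q : CW (Fin V) M, cf σ l (fun s => s * ft f (-s)) Λ q *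
        Complex.exp ((k * wlV l q.2 : ℝ) * Complex.I)).re + e k) ∧
      (Measurable fun k => stat f Λ (len G l) κ k) ∧ (∃ B, ∀ k, 0 ≤ k → |e k| ≤ B) ∧
      Tendsto e atTop (𝓝 0) := by
  have hab := BR_ab hl hne
  have hN := BR_card hne
  have hb : ∀ q, bl G l q ∈ Icc a b := fun q => hl.mem _ _ q.2
  obtain ⟨F, hF⟩ := ph_exists (bS G σ) (bS_orth hσ) (bl G l) hN hb
  obtain ⟨X, hX⟩ := zer_exists ha hab hN hF
  obtain ⟨s, hs, -, -, h2⟩ := lev_zer ha hab hN hF hX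
  have h3 := h2 κ ((BR_lev hσ hl.symm _).1 hκ)
  obtain ⟨t1, t2, t3⟩ := tail hN ha hab hX hs hf hΛ
  have hsplit : ∀ k, Summable (fun n : ℕ => f (Λ * (κ n - k))) ∧
      ∑' p : ℤ, f (Λ * (X p - k)) = ∑' n : ℕ, f (Λ * (κ n - k)) +
        ∑' n : ℕ, f (Λ * (X (s - 1 - n) - k)) := by
    intro k
    have e1 := (Equiv.addRight s).tsum_eq fun p : ℤ => f (Λ * (X p - k))
    have e2 := (Equiv.addRight s).summable_iff.2 (t1 k)
    have e3 : Summable fun n : ℕ => f (Λ * (X ((n : ℤ) + s) - k)) :=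
      e2.comp_injective (i := fun n : ℕ => (n : ℤ)) Nat.cast_injective
    have e4 : Summable fun n : ℕ => f (Λ * (X (-((n : ℤ) + 1) + s) - k)) :=
      e2.comp_injective (i := fun n : ℕ => -((n : ℤ) + 1)) fun x y hxy => by
        simp only [neg_inj, add_left_inj, Nat.cast_inj] at hxy; exact hxy
    have e5 : ∀ n : ℕ, κ n = X (n + s) := h3
    refine ⟨by simpa only [e5] using e3, ?_⟩
    rw [← e1]
    have e6 := HasSum.of_nat_of_neg_add_one (f := fun p : ℤ => f (Λ * (X (Equiv.addRight s p) - k)))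
      e3.hasSum e4.hasSum
    rw [e6.tsum_eq]
    simp only [e5]
    congr 1
    refine tsum_congr fun n => ?_
    congr 4
    ring
  set Q := CW (Fin V) M
  set h : ℝ → ℂ := fun s => s * ft f (-s) with hh
  have key : ∀ k, stat f Λ (len G l) κ k =
      2 * (∑ q : Q, cf σ l h Λ q * Complex.exp ((k * wlV l q.2 : ℝ) * Complex.I)).re +
        (-∑' n : ℕ, f (Λ * (X (s - 1 - n) - k))) := by
    intro k
    have e1 := (trace_formula ha hab hN hb hF hX hf hR hΛ hM k).tsum_eq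
    rw [(hsplit k).2, bl_sum] at e1
    have e2 : ∑ n ∈ Finset.range M, ∑ x : Fin (n + 1) → Bond G,
        (amp (bS G σ) x : ℂ) / (n + 1 : ℕ) *
        ((wl (bl G l) x / (2 * Real.pi * Λ) : ℝ) *
          ft f (-(wl (bl G l) x / (2 * Real.pi * Λ)))) *
          Complex.exp ((k * wl (bl G l) x : ℝ) * Complex.I) =
        ∑ q : Q, cf σ l h Λ q * Complex.exp ((k * wlV l q.2 : ℝ) * Complex.I) := by
      rw [Fintype.sum_sigma, Finset.sum_range]
      refine Finset.sum_congr rfl fun n _ => ?_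
      have e3 := walkV hσ l n fun t => 1 / ((n : ℕ) + 1 : ℕ) * h (t / (2 * Real.pi * Λ)) *
        Complex.exp ((k * t : ℝ) * Complex.I)
      rw [hh] at e3
      simp only at e3
      unfold cf
      rw [hh]
      simp only
      convert e3 using 1
      · refine Finset.sum_congr rfl fun x _ => ?_
        ring
      · refine Finset.sum_congr rfl fun x _ => ?_
        ring
    rw [e2] at e1
    unfold stat
    have e4 : 2 * len G l / (2 * Real.pi * Λ) = len G l / (Real.pi * Λ) := by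
      have := Real.pi_pos
      field_simp
    rw [e4] at e1
    linarith
  have hmeas : Measurable fun k => stat f Λ (len G l) κ k := by
    unfold stat
    refine Measurable.sub_const ?_ _
    refine measurable_of_tendsto_metrizable (f := fun (n : ℕ) k =>
      ∑ i ∈ Finset.range n, f (Λ * (κ i - k))) (fun n => ?_) ?_
    · refine Finset.measurable_sum _ fun i _ => ?_
      exact (hf.diff.continuous.comp (by fun_prop)).measurable
    · rw [tendsto_pi_nhds]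
      intro k
      exact (hsplit k).1.hasSum.tendsto_sum_nat
  obtain ⟨B, hB⟩ := t2
  refine ⟨_, key, hmeas, ⟨B, fun k hk => ?_⟩, ?_⟩
  · rw [abs_neg]
    exact hB k hk
  · simpa using t3.neg

theorem bridge {V : ℕ} {G : SimpleGraph (Fin V)} {σ : Fin V → Fin V → Fin V → ℝ}
    (hσ : IsScat G σ) {a b : ℝ} (ha : 0 < a) {l : Fin V → Fin V → ℝ} (hl : IsLen G a b l)
    (hne : ∃ v w, G.Adj v w) {κ : ℕ → ℝ} (hκ : IsLevels G σ l κ) {f : ℝ → ℝ} {K : ℝ}
    (hf : Test f K) {R : ℝ} (hR : ∀ s, R < |s| → ft f s = 0) {Λ : ℝ} (hΛ : 0 < Λ) {M : ℕ}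
    (hM : 2 * Real.pi * Λ * R < (M + 1) * a) (r : ℕ) :
    Tendsto (fun T : ℝ => (1 / T) * ∫ k in (0 : ℝ)..T, stat f Λ (len G l) κ k ^ r) atTop
      (𝓝 (mom (cf σ l (fun s => s * ft f (-s)) Λ (M := M)) (fun y => wlV l y.2) r).re) := by
  obtain ⟨e, h1, h2, h3, h4⟩ := BR_key hσ ha hl hne hκ hf hR hΛ hM
  exact (mom_lim _ _ _ _ h1 h2 h3 h4 r).2

/-- The statistic is measurable and bounded on the half line. -/
theorem stat_reg {V : ℕ} {G : SimpleGraph (Fin V)} {σ : Fin V → Fin V → Fin V → ℝ}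
    (hσ : IsScat G σ) {a b : ℝ} (ha : 0 < a) {l : Fin V → Fin V → ℝ} (hl : IsLen G a b l)
    (hne : ∃ v w, G.Adj v w) {κ : ℕ → ℝ} (hκ : IsLevels G σ l κ) {f : ℝ → ℝ} {K : ℝ}
    (hf : Test f K) {R : ℝ} (hR : ∀ s, R < |s| → ft f s = 0) {Λ : ℝ} (hΛ : 0 < Λ) :
    Measurable (stat f Λ (len G l) κ) ∧ ∃ B, ∀ k, 0 ≤ k → |stat f Λ (len G l) κ k| ≤ B := by
  obtain ⟨M, hM⟩ := exists_nat_gt (2 * Real.pi * Λ * R / a)
  have hM' : 2 * Real.pi * Λ * R < (M + 1) * a := by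
    rw [div_lt_iff₀ ha] at hM
    linarith
  obtain ⟨e, h1, h2, ⟨B, hB⟩, -⟩ := BR_key hσ ha hl hne hκ hf hR hΛ hM'
  refine ⟨h2, 2 * ∑ q : CW (Fin V) M, ‖cf σ l (fun s => s * ft f (-s)) Λ q‖ + B, fun k hk => ?_⟩
  rw [h1]
  refine (abs_add_le _ _).trans (add_le_add ?_ (hB k hk))
  rw [abs_mul, abs_of_pos (by norm_num : (0 : ℝ) < 2)]
  refine mul_le_mul_of_nonneg_left ?_ (by norm_num)
  refine (Complex.abs_re_le_norm _).trans ((norm_sum_le _ _).trans ?_)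
  refine Finset.sum_le_sum fun q _ => ?_
  rw [norm_mul, Complex.norm_exp_ofReal_mul_I, mul_one]

end Mes
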