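import Pool.Agent.LibMes.Defs

open MeasureTheory Set Filter Topology

namespace Mes

private theorem MA10_saw {r : ℝ} (h0 : 0 ≤ r) (h1 : r < 1) (θ : ℝ) :
    HasSum (fun n : ℕ => r ^ (n + 1) / (n + 1 : ℕ) * Real.sin ((n + 1 : ℕ) * θ)) (saw r θ) := by
  set z : ℂ := r * Complex.exp (θ * Complex.I) with hz
  have hz1 : ‖z‖ < 1 := by
    rw [hz, norm_mul, Complex.norm_exp_ofReal_mul_I, mul_one, Complex.norm_real, Real.norm_eq_abs,
      abs_of_nonneg h0]
    exact h1
  have h2 := Complex.hasSum_taylorSeries_neg_log hz1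
  have h3 := (hasSum_nat_add_iff' 1).mpr h2
  have h4 := Complex.hasSum_im h3
  simp only [Finset.range_one, Finset.sum_singleton, pow_zero, Nat.cast_zero, div_zero,
    sub_zero] at h4
  have h5 : (-Complex.log (1 - z)).im = saw r θ := rfl
  rw [h5] at h4
  convert h4 using 1
  ext n
  have h6 : z ^ (n + 1) / ((n + 1 : ℕ) : ℂ) = ((r ^ (n + 1) / (n + 1 : ℕ) : ℝ) : ℂ) *
      Complex.exp ((((n + 1 : ℕ) * θ : ℝ) : ℂ) * Complex.I) := by
    rw [hz, mul_pow, ← Complex.exp_nat_mul]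
    have : ((n + 1 : ℕ) : ℂ) * ((θ : ℂ) * Complex.I)
      = (((n + 1 : ℕ) * θ : ℝ) : ℂ) * Complex.I := by push_cast; ring
    rw [this]
    push_cast
    ring
  rw [h6, Complex.im_ofReal_mul, Complex.exp_ofReal_mul_I_im]

private theorem MA10_int {f : ℝ → ℝ} {K : ℝ} (hf : Test f K) : Integrable (deriv f) := by
  have hK : 0 ≤ K := by
    have := (abs_nonneg _).trans (hf.d0 0)
    simpa using this
  have h1 : Integrable (fun x : ℝ => K * (1 + ‖x‖) ^ (-(2 : ℝ))) :=
    (integrable_one_add_norm (E := ℝ) (r := 2) (by simp)).const_mul K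
  refine h1.mono' (hf.diff.continuous_deriv le_rfl).aestronglyMeasurable
    (Filter.Eventually.of_forall fun x => ?_)
  rw [Real.norm_eq_abs]
  refine (hf.d1 x).trans ?_
  have hx : 0 ≤ |x| := abs_nonneg x
  rw [Real.norm_eq_abs, Real.rpow_neg (by positivity), Real.rpow_two, div_eq_mul_inv]
  apply mul_le_mul_of_nonneg_left _ hK
  apply inv_anti₀ (by positivity)
  have : (1 : ℝ) ≤ 1 + |x| := by linarith
  exact pow_le_pow_right₀ this (by norm_num)

/-- The series for a single phase. -/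
private theorem MA10_one {θ : ℝ → ℝ} (hc : Continuous θ)
    {f : ℝ → ℝ} {K : ℝ} (hf : Test f K) {r : ℝ} (h0 : 0 ≤ r) (h1 : r < 1) :
    HasSum (fun n : ℕ => r ^ (n + 1) / (n + 1 : ℕ) *
      ∫ x, deriv f x * Real.sin ((n + 1 : ℕ) * θ x)) (∫ x, deriv f x * saw r (θ x)) := by
  have hf' := MA10_int hf
  have hint : ∀ n : ℕ, Integrable fun x =>
      r ^ (n + 1) / (n + 1 : ℕ) * (deriv f x * Real.sin ((n + 1 : ℕ) * θ x)) := by
    intro n
    refine Integrable.const_mul ?_ _
    refine hf'.mul_bdd (c := 1) (Continuous.aestronglyMeasurable (by fun_prop))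
      (Filter.Eventually.of_forall fun x => ?_)
    rw [Real.norm_eq_abs]
    exact Real.abs_sin_le_one _
  have hbd : ∀ n : ℕ, ∫ x, ‖r ^ (n + 1) / (n + 1 : ℕ) *
      (deriv f x * Real.sin ((n + 1 : ℕ) * θ x))‖ ≤ r ^ n * ∫ x, ‖deriv f x‖ := by
    intro n
    rw [← integral_const_mul]
    refine integral_mono (hint n).norm (hf'.norm.const_mul _) fun x => ?_
    simp only
    rw [norm_mul, norm_mul]
    have h2 : ‖r ^ (n + 1) / ((n + 1 : ℕ) : ℝ)‖ ≤ r ^ n := by
      rw [Real.norm_eq_abs, abs_of_nonneg (by positivity)]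
      rw [div_le_iff₀ (by positivity), pow_succ]
      apply mul_le_mul_of_nonneg_left _ (by positivity)
      push_cast
      have : (0 : ℝ) ≤ n := Nat.cast_nonneg n
      linarith
    have h3 : ‖Real.sin ((n + 1 : ℕ) * θ x)‖ ≤ 1 := by
      rw [Real.norm_eq_abs]; exact Real.abs_sin_le_one _
    have h4 : ‖deriv f x‖ * ‖Real.sin ((n + 1 : ℕ) * θ x)‖ ≤ ‖deriv f x‖ :=
      mul_le_of_le_one_right (norm_nonneg _) h3
    exact mul_le_mul h2 h4 (by positivity) (by positivity)
  have hsum : Summable fun n : ℕ => ∫ x, ‖r ^ (n + 1) / (n + 1 : ℕ) *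
      (deriv f x * Real.sin ((n + 1 : ℕ) * θ x))‖ :=
    Summable.of_nonneg_of_le (fun n => integral_nonneg fun x => norm_nonneg _) hbd
      ((summable_geometric_of_lt_one h0 h1).mul_right _)
  have h5 := hasSum_integral_of_summable_integral_norm hint hsum
  have h6 : ∀ x, ∑' n : ℕ, r ^ (n + 1) / (n + 1 : ℕ) *
      (deriv f x * Real.sin ((n + 1 : ℕ) * θ x)) = deriv f x * saw r (θ x) := by
    intro x
    have h7 := (MA10_saw h0 h1 (θ x)).mul_left (deriv f x)
    rw [← h7.tsum_eq]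
    refine tsum_congr fun n => ?_
    ring
  simp only [h6, integral_const_mul] at h5
  exact h5

section general

variable {ι : Type} [Fintype ι] [DecidableEq ι]

theorem ser {S : Matrix ι ι ℝ} {ℓ : ι → ℝ} {a b : ℝ} {F : ℤ → ℝ → ℝ} (hF : Ph S ℓ a b F)
    {f : ℝ → ℝ} {K : ℝ} (hf : Test f K) {r : ℝ} (h0 : 0 ≤ r) (h1 : r < 1) :
    HasSum (fun n : ℕ => r ^ (n + 1) / (n + 1 : ℕ) *
      ∫ x, deriv f x * ((evo S ℓ x ^ (n + 1)).trace).im)
      (∑ j ∈ Finset.range (Fintype.card ι), ∫ x, deriv f x * saw r (F (-j) x)) := by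
  have h2 := hasSum_sum (s := Finset.range (Fintype.card ι)) fun j _ =>
    MA10_one (hF.cont (-(j : ℤ))) hf h0 h1
  convert h2 using 1
  ext n
  rw [← Finset.mul_sum]
  congr 1
  have hf' := MA10_int hf
  rw [← integral_finsetSum]
  · congr 1
    ext x
    rw [hF.trace, Complex.im_sum, ← Finset.mul_sum]
    congr 1
    refine Finset.sum_congr rfl fun j _ => ?_
    rw [Complex.exp_ofReal_mul_I_im]
  · intro j _
    refine hf'.mul_bdd (c := 1) (Continuous.aestronglyMeasurable ?_)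
      (Filter.Eventually.of_forall fun x => ?_)
    · have := hF.cont (-(j : ℤ))
      fun_prop
    · rw [Real.norm_eq_abs]
      exact Real.abs_sin_le_one _

end general

end Mes
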