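import Pool.Agent.LibMes.Defs

open MeasureTheory Set Filter Topology

namespace Mes

section general

variable {ι : Type} [Fintype ι] [DecidableEq ι]

/-- Paths and powers of a matrix. -/
theorem ma11_path (A : Matrix ι ι ℂ) (n : ℕ) (f : ι → ι → ℂ) :
    ∑ x : Fin (n + 1) → ι, f (x 0) (x (Fin.last n)) *
      ∏ i : Fin n, A (x i.succ) (x i.castSucc) = ∑ j, ∑ i, f j i * (A ^ n) i j := by
  induction n generalizing f with
  | zero =>
    rw [← Equiv.sum_comp (Equiv.funUnique (Fin 1) ι).symm]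
    refine Finset.sum_congr rfl fun j _ => ?_
    rw [Finset.sum_eq_single j]
    · simp
    · intro i _ hi
      rw [pow_zero, Matrix.one_apply_ne hi, mul_zero]
    · intro h
      exact absurd (Finset.mem_univ j) h
  | succ n ih =>
    rw [← Equiv.sum_comp (Fin.consEquiv (fun _ : Fin (n + 1 + 1) => ι)), Fintype.sum_prod_type,
      Finset.sum_comm]
    have h1 : ∀ x' : Fin (n + 1) → ι, ∀ j : ι,
        f ((Fin.consEquiv (fun _ : Fin (n + 1 + 1) => ι)) (j, x') 0)
          ((Fin.consEquiv (fun _ : Fin (n + 1 + 1) => ι)) (j, x') (Fin.last (n + 1))) *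
        ∏ i : Fin (n + 1), A ((Fin.consEquiv (fun _ : Fin (n + 1 + 1) => ι)) (j, x') i.succ)
          ((Fin.consEquiv (fun _ : Fin (n + 1 + 1) => ι)) (j, x') i.castSucc) =
        (f j (x' (Fin.last n)) * A (x' 0) j) *
          ∏ i : Fin n, A (x' i.succ) (x' i.castSucc) := by
      intro x' j
      rw [Fin.prod_univ_succ, ← mul_assoc]
      rfl
    simp only [h1, ← Finset.sum_mul]
    rw [ih (fun a b => ∑ j, f j b * A a j)]
    simp only [Finset.sum_mul]
    have h2 : ∀ j i : ι, f j i * (A ^ (n + 1)) i j = ∑ a, f j i * A a j * (A ^ n) i a := by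
      intro j i
      rw [pow_succ, Matrix.mul_apply, Finset.mul_sum]
      exact Finset.sum_congr rfl fun a _ => by ring
    simp only [h2]
    calc ∑ a, ∑ i, ∑ j, f j i * A a j * (A ^ n) i a
        = ∑ a, ∑ j, ∑ i, f j i * A a j * (A ^ n) i a :=
          Finset.sum_congr rfl fun a _ => Finset.sum_comm
      _ = ∑ j, ∑ a, ∑ i, f j i * A a j * (A ^ n) i a := Finset.sum_comm
      _ = ∑ j, ∑ i, ∑ a, f j i * A a j * (A ^ n) i a :=
          Finset.sum_congr rfl fun j _ => Finset.sum_comm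

theorem ma11_trace (A : Matrix ι ι ℂ) (n : ℕ) :
    (A ^ (n + 1)).trace = ∑ x : Fin (n + 1) → ι, ∏ i, A (x (i + 1)) (x i) := by
  have h1 : ∀ x : Fin (n + 1) → ι, ∏ i, A (x (i + 1)) (x i) =
      A (x 0) (x (Fin.last n)) * ∏ i : Fin n, A (x i.succ) (x i.castSucc) := by
    intro x
    rw [Fin.prod_univ_castSucc, mul_comm, Fin.last_add_one]
    congr 1
    refine Finset.prod_congr rfl fun i _ => ?_
    rw [Fin.coeSucc_eq_succ]
  simp only [h1]
  rw [ma11_path A n A, pow_succ', Matrix.trace]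
  simp only [Matrix.diag_apply, Matrix.mul_apply]

theorem walk (S : Matrix ι ι ℝ) (ℓ : ι → ℝ) (n : ℕ) (k : ℝ) :
    (evo S ℓ k ^ (n + 1)).trace =
      ∑ x : Fin (n + 1) → ι, (amp S x : ℂ) * Complex.exp ((k * wl ℓ x : ℝ) * Complex.I) := by
  rw [ma11_trace]
  refine Finset.sum_congr rfl fun x _ => ?_
  unfold evo amp wl
  rw [Finset.prod_mul_distrib, mul_comm, ← Complex.exp_sum]
  congr 1
  · push_cast
    rfl
  · congr 1
    rw [← Finset.sum_mul, ← Equiv.sum_comp (Equiv.addRight (1 : Fin (n + 1))) (fun i => ℓ (x i)),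
      Finset.mul_sum]
    push_cast
    rfl

end general

end Mes
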