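import Pool.Agent.LibMes.Defs

open MeasureTheory Set Filter Topology

namespace Mes

/-- The limit of the difference quotient from that of the exponentials. -/
private theorem MA3_exp (𝒰 : Filter ℝ) [𝒰.NeBot] (k₀ : ℝ) (h𝒰 : 𝒰 ≤ 𝓝[≠] k₀) (F : ℝ → ℝ)
    (hF : Continuous F) (σ : ℂ) (h : Tendsto (fun k : ℝ => (Complex.exp (F k * Complex.I)
      - Complex.exp (F k₀ * Complex.I)) / ((k - k₀ : ℝ) : ℂ)) 𝒰
      (𝓝 (Complex.I * Complex.exp (F k₀ * Complex.I) * σ))) :
    Tendsto (fun k => (F k - F k₀) / (k - k₀)) 𝒰 (𝓝 σ.re) := by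
  have hle : 𝒰 ≤ 𝓝 k₀ := h𝒰.trans nhdsWithin_le_nhds
  -- the function `ψ`
  set φ : ℂ → ℂ := fun z => Complex.exp (z * Complex.I) with hφ
  have hdφ : HasDerivAt φ Complex.I 0 := by
    have := (hasDerivAt_mul_const (x := (0 : ℂ)) Complex.I).cexp
    simpa [hφ] using this
  have hψ : ContinuousAt (dslope φ 0) 0 := by
    rw [continuousAt_dslope_same]
    exact hdφ.differentiableAt
  have hψ0 : dslope φ 0 0 = Complex.I := by
    rw [dslope_same, hdφ.deriv]
  have hδ : Tendsto (fun k : ℝ => ((F k - F k₀ : ℝ) : ℂ)) 𝒰 (𝓝 0) := by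
    have h1 : Tendsto (fun k : ℝ => ((F k - F k₀ : ℝ) : ℂ)) (𝓝 k₀) (𝓝 ((F k₀ - F k₀ : ℝ) : ℂ)) :=
      (Complex.continuous_ofReal.comp (hF.sub continuous_const)).tendsto k₀
    rw [sub_self, Complex.ofReal_zero] at h1
    exact h1.mono_left hle
  have hψδ : Tendsto (fun k : ℝ => dslope φ 0 ((F k - F k₀ : ℝ) : ℂ)) 𝒰 (𝓝 Complex.I) := by
    have := hψ.tendsto
    rw [hψ0] at this
    exact this.comp hδ
  have hne : Complex.I * Complex.exp (F k₀ * Complex.I) ≠ 0 :=
    mul_ne_zero Complex.I_ne_zero (Complex.exp_ne_zero _)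
  have hq : Tendsto (fun k : ℝ => ((Complex.exp (F k * Complex.I)
      - Complex.exp (F k₀ * Complex.I)) / ((k - k₀ : ℝ) : ℂ)) /
        (Complex.exp (F k₀ * Complex.I) * dslope φ 0 ((F k - F k₀ : ℝ) : ℂ))) 𝒰 (𝓝 σ) := by
    have h1 := h.div (tendsto_const_nhds.mul hψδ)
      (show Complex.exp (F k₀ * Complex.I) * Complex.I ≠ 0 from
        mul_ne_zero (Complex.exp_ne_zero _) Complex.I_ne_zero)
    have h2 : Complex.I * Complex.exp (F k₀ * Complex.I) * σ
        / (Complex.exp (F k₀ * Complex.I) * Complex.I) = σ := by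
      rw [mul_comm Complex.I, mul_comm _ σ, mul_div_assoc, div_self, mul_one]
      exact mul_ne_zero (Complex.exp_ne_zero _) Complex.I_ne_zero
    rw [h2] at h1
    exact h1
  have hψne : ∀ᶠ k : ℝ in 𝒰, dslope φ 0 ((F k - F k₀ : ℝ) : ℂ) ≠ 0 :=
    hψδ.eventually_ne Complex.I_ne_zero
  have heq : ∀ᶠ k : ℝ in 𝒰, ((Complex.exp (F k * Complex.I)
      - Complex.exp (F k₀ * Complex.I)) / ((k - k₀ : ℝ) : ℂ)) /
        (Complex.exp (F k₀ * Complex.I) * dslope φ 0 ((F k - F k₀ : ℝ) : ℂ))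
        = (((F k - F k₀) / (k - k₀) : ℝ) : ℂ) := by
    filter_upwards [hψne] with k hk
    have h1 : ((F k - F k₀ : ℝ) : ℂ) * dslope φ 0 ((F k - F k₀ : ℝ) : ℂ)
        = φ ((F k - F k₀ : ℝ) : ℂ) - φ 0 := by
      have := sub_smul_dslope φ 0 ((F k - F k₀ : ℝ) : ℂ)
      rwa [sub_zero, smul_eq_mul] at this
    have h2 : Complex.exp (F k * Complex.I) - Complex.exp (F k₀ * Complex.I)
        = Complex.exp (F k₀ * Complex.I) * (φ ((F k - F k₀ : ℝ) : ℂ) - φ 0) := by
      simp only [hφ, zero_mul, Complex.exp_zero, mul_sub, mul_one]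
      rw [← Complex.exp_add]
      congr 2
      push_cast
      ring
    rw [h2, ← h1]
    have h3 := Complex.exp_ne_zero (F k₀ * Complex.I)
    rw [show Complex.exp (F k₀ * Complex.I) * (((F k - F k₀ : ℝ) : ℂ)
      * dslope φ 0 ((F k - F k₀ : ℝ) : ℂ)) / ((k - k₀ : ℝ) : ℂ)
      = ((F k - F k₀ : ℝ) : ℂ) / ((k - k₀ : ℝ) : ℂ) *
        (Complex.exp (F k₀ * Complex.I) * dslope φ 0 ((F k - F k₀ : ℝ) : ℂ)) by ring,
      mul_div_assoc, div_self (mul_ne_zero h3 hk), mul_one]
    push_cast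
    rfl
  have h4 := (hq.congr' heq)
  have h5 := (Complex.continuous_re.tendsto σ).comp h4
  exact h5.congr fun k => Complex.ofReal_re _

/-- Derivative of the entries of the evolution operator. -/
private theorem MA3_deriv {N : ℕ} (S : Matrix (Fin N) (Fin N) ℝ) (ℓ : Fin N → ℝ) (k : ℝ)
    (i j : Fin N) :
    HasDerivAt (fun k => evo S ℓ k i j) (Complex.I * (ℓ i : ℂ) * evo S ℓ k i j) k := by
  have h1 : HasDerivAt (fun k : ℝ => ((k * ℓ i : ℝ) : ℂ) * Complex.I) ((ℓ i : ℂ) * Complex.I) k := by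
    have h2 : HasDerivAt (fun k : ℝ => k * ℓ i) (ℓ i) k := hasDerivAt_mul_const _
    exact h2.ofReal_comp.mul_const _
  have h3 := (h1.cexp).mul_const (S i j : ℂ)
  refine h3.congr_deriv ?_
  simp only [evo]
  ring

/-- Hellmann-Feynman. -/
theorem slopeM {N : ℕ} (S : Matrix (Fin N) (Fin N) ℝ) (hS : S * S.transpose = 1) (ℓ : Fin N → ℝ)
    {a b : ℝ} (hl : ∀ i, ℓ i ∈ Icc a b) (F : ℤ → ℝ → ℝ) (hF : ∀ p, Continuous (F p))
    (V : ℝ → Matrix (Fin N) (Fin N) ℂ) (hV : ∀ k, V k ∈ Matrix.unitaryGroup (Fin N) ℂ)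
    (hD : ∀ k, evo S ℓ k = V k * (Matrix.diagonal fun j : Fin N =>
      Complex.exp (F (j : ℕ) k * Complex.I)) * (V k).conjTranspose)
    (j : Fin N) (k₀ : ℝ) (𝒰 : Ultrafilter ℝ) (h : (𝒰 : Filter ℝ) ≤ 𝓝[≠] k₀) :
    ∃ s, Tendsto (fun k => (F (j : ℕ) k - F (j : ℕ) k₀) / (k - k₀)) 𝒰 (𝓝 s) ∧ s ∈ Icc a b := by
  have hle : (𝒰 : Filter ℝ) ≤ 𝓝 k₀ := h.trans nhdsWithin_le_nhds
  set W : ℝ → Matrix (Fin N) (Fin N) ℂ := fun k => evo S ℓ k with hW
  set e : ℝ → Fin N → ℂ := fun k a => Complex.exp (F (a : ℕ) k * Complex.I) with he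
  have hVk : ∀ k, W k = V k * Matrix.diagonal (e k) * (V k).conjTranspose := hD
  have hun : ∀ k, (V k).conjTranspose * V k = 1 := fun k => by
    have := hV k
    rwa [Matrix.mem_unitaryGroup_iff'] at this
  have hone : ∀ k (i r : Fin N), ‖V k i r‖ ≤ 1 := fun k i r =>
    entry_norm_bound_of_unitary (hV k) i r
  -- limit of the eigenbases
  have hcpt : IsCompact (Set.pi Set.univ fun _ : Fin N => Set.pi Set.univ fun _ : Fin N =>
      Metric.closedBall (0 : ℂ) 1) :=
    isCompact_univ_pi fun _ => isCompact_univ_pi fun _ => isCompact_closedBall _ _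
  obtain ⟨V0, hV0⟩ : ∃ V0 : Matrix (Fin N) (Fin N) ℂ, Tendsto V 𝒰 (𝓝 V0) := by
    obtain ⟨V0, -, h0⟩ := hcpt.ultrafilter_le_nhds (𝒰.map V) (by
      rw [le_principal_iff]
      change V ⁻¹' _ ∈ (𝒰 : Filter ℝ)
      refine Filter.univ_mem' fun k => ?_
      intro i _ r _
      rw [mem_closedBall_zero_iff]
      exact hone k i r)
    exact ⟨V0, h0⟩
  have hV0e : ∀ i r, Tendsto (fun k => V k i r) 𝒰 (𝓝 (V0 i r)) := by
    intro i r
    have hc : Continuous fun U : Matrix (Fin N) (Fin N) ℂ => U i r :=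
      (continuous_apply r).comp (continuous_apply i)
    exact (hc.tendsto V0).comp hV0
  have hun0 : V0.conjTranspose * V0 = 1 := by
    ext i r
    refine tendsto_nhds_unique (f := fun _ : ℝ => (1 : Matrix (Fin N) (Fin N) ℂ) i r) (l := 𝒰) ?_
      tendsto_const_nhds
    have h1 : (fun _ : ℝ => (1 : Matrix (Fin N) (Fin N) ℂ) i r) =
        fun k => ∑ x, star (V k x i) * V k x r := by
      funext k
      rw [← hun k, Matrix.mul_apply]
      rfl
    rw [h1, Matrix.mul_apply]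
    refine tendsto_finsetSum _ fun x _ => ?_
    exact ((continuous_star.tendsto _).comp (hV0e x i)).mul (hV0e x r)
  have hWe : ∀ i r, Tendsto (fun k => W k i r) 𝒰 (𝓝 (W k₀ i r)) := fun i r =>
    (MA3_deriv S ℓ k₀ i r).continuousAt.tendsto.mono_left hle
  have hee : ∀ c, Tendsto (fun k => e k c) 𝒰 (𝓝 (e k₀ c)) := by
    intro c
    have hc : Continuous fun k => e k c := by
      simp only [he]
      exact Complex.continuous_exp.comp
        ((Complex.continuous_ofReal.comp (hF _)).mul continuous_const)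
    exact (hc.tendsto k₀).mono_left hle
  have hW0 : W k₀ = V0 * Matrix.diagonal (e k₀) * V0.conjTranspose := by
    ext i r
    refine tendsto_nhds_unique (hWe i r) ?_
    have h1 : ∀ k, W k i r = ∑ x, V k i x * e k x * star (V k r x) := by
      intro k
      rw [hVk k, Matrix.mul_apply]
      refine Finset.sum_congr rfl fun x _ => ?_
      rw [Matrix.mul_diagonal, Matrix.conjTranspose_apply]
    have h2 : (V0 * Matrix.diagonal (e k₀) * V0.conjTranspose) i r
        = ∑ x, V0 i x * e k₀ x * star (V0 r x) := by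
      rw [Matrix.mul_apply]
      refine Finset.sum_congr rfl fun x _ => ?_
      rw [Matrix.mul_diagonal, Matrix.conjTranspose_apply]
    rw [h2]
    simp only [h1]
    refine tendsto_finsetSum _ fun x _ => ?_
    exact ((hV0e i x).mul (hee x)).mul ((continuous_star.tendsto _).comp (hV0e r x))
  have hWk : ∀ k, W k * V k = V k * Matrix.diagonal (e k) := by
    intro k
    rw [hVk k, Matrix.mul_assoc, hun, Matrix.mul_one]
  have hW0r : W k₀ * V0 = V0 * Matrix.diagonal (e k₀) := by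
    rw [hW0, Matrix.mul_assoc, hun0, Matrix.mul_one]
  have hW0l : V0.conjTranspose * W k₀ = Matrix.diagonal (e k₀) * V0.conjTranspose := by
    rw [hW0, ← Matrix.mul_assoc, ← Matrix.mul_assoc, hun0, Matrix.one_mul]
  have hid : ∀ k, (V0.conjTranspose * (W k - W k₀) * V k) j j
      = (V0.conjTranspose * V k) j j * (e k j - e k₀ j) := by
    intro k
    rw [Matrix.mul_sub, Matrix.sub_mul, Matrix.mul_assoc, hWk, ← Matrix.mul_assoc, hW0l,
      Matrix.mul_assoc (Matrix.diagonal (e k₀)), Matrix.sub_apply, Matrix.mul_diagonal,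
      Matrix.diagonal_mul]
    ring
  set W' : Matrix (Fin N) (Fin N) ℂ := fun i r => Complex.I * (ℓ i : ℂ) * W k₀ i r with hW'
  have hq : ∀ i r, Tendsto (fun k : ℝ => (W k i r - W k₀ i r) / ((k - k₀ : ℝ) : ℂ)) 𝒰
      (𝓝 (W' i r)) := by
    intro i r
    have h1 := (hasDerivAt_iff_tendsto_slope.1 (MA3_deriv S ℓ k₀ i r)).mono_left h
    refine h1.congr fun k => ?_
    rw [slope_def_module, Complex.real_smul, Complex.ofReal_inv, div_eq_inv_mul]
  have hL : Tendsto (fun k : ℝ => (V0.conjTranspose * (W k - W k₀) * V k) j j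
      / ((k - k₀ : ℝ) : ℂ)) 𝒰 (𝓝 ((V0.conjTranspose * W' * V0) j j)) := by
    have h1 : ∀ k : ℝ, (V0.conjTranspose * (W k - W k₀) * V k) j j
        / ((k - k₀ : ℝ) : ℂ)
        = ∑ r, ∑ i, star (V0 i j) * ((W k i r - W k₀ i r) / ((k - k₀ : ℝ) : ℂ))
            * V k r j := by
      intro k
      rw [Matrix.mul_apply, Finset.sum_div]
      refine Finset.sum_congr rfl fun r _ => ?_
      rw [Matrix.mul_apply, Finset.sum_mul, Finset.sum_div]
      refine Finset.sum_congr rfl fun i _ => ?_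
      rw [Matrix.conjTranspose_apply, Matrix.sub_apply]
      ring
    have h2 : (V0.conjTranspose * W' * V0) j j
        = ∑ r, ∑ i, star (V0 i j) * W' i r * V0 r j := by
      rw [Matrix.mul_apply]
      refine Finset.sum_congr rfl fun r _ => ?_
      rw [Matrix.mul_apply, Finset.sum_mul]
      refine Finset.sum_congr rfl fun i _ => ?_
      rw [Matrix.conjTranspose_apply]
    rw [h2]
    simp only [h1]
    refine tendsto_finsetSum _ fun r _ => tendsto_finsetSum _ fun i _ => ?_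
    exact (tendsto_const_nhds.mul (hq i r)).mul (hV0e r j)
  -- the value
  set s : ℝ := ∑ i, ℓ i * ‖V0 i j‖ ^ 2 with hs
  have hτ : (V0.conjTranspose * W' * V0) j j = Complex.I * e k₀ j * (s : ℂ) := by
    have h1 : ∀ i, ∑ r, W k₀ i r * V0 r j = V0 i j * e k₀ j := by
      intro i
      have := congrFun (congrFun hW0r i) j
      rwa [Matrix.mul_apply, Matrix.mul_diagonal] at this
    rw [Matrix.mul_assoc, Matrix.mul_apply]
    have h2 : ∀ i, (W' * V0) i j = Complex.I * (ℓ i : ℂ) * (V0 i j * e k₀ j) := by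
      intro i
      rw [← h1 i, Matrix.mul_apply, Finset.mul_sum]
      refine Finset.sum_congr rfl fun r _ => ?_
      simp only [hW']
      ring
    rw [hs]
    push_cast
    rw [Finset.mul_sum]
    refine Finset.sum_congr rfl fun i _ => ?_
    rw [h2, Matrix.conjTranspose_apply, ← Complex.conj_mul' (V0 i j)]
    change (starRingEnd ℂ) (V0 i j) * _ = _
    ring
  have hO : Tendsto (fun k => (V0.conjTranspose * V k) j j) 𝒰 (𝓝 1) := by
    have h1 : ∀ k, (V0.conjTranspose * V k) j j = ∑ i, star (V0 i j) * V k i j := by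
      intro k
      rw [Matrix.mul_apply]
      rfl
    have h2 : (1 : ℂ) = ∑ i, star (V0 i j) * V0 i j := by
      have := congrFun (congrFun hun0 j) j
      rw [Matrix.mul_apply, Matrix.one_apply_eq] at this
      exact this.symm
    rw [h2]
    simp only [h1]
    exact tendsto_finsetSum _ fun i _ => tendsto_const_nhds.mul (hV0e i j)
  have hexp : Tendsto (fun k : ℝ => (e k j - e k₀ j) / ((k - k₀ : ℝ) : ℂ)) 𝒰
      (𝓝 (Complex.I * e k₀ j * (s : ℂ))) := by
    have h1 := hL.div hO one_ne_zero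
    rw [div_one, hτ] at h1
    have hne : ∀ᶠ k in (𝒰 : Filter ℝ), (V0.conjTranspose * V k) j j ≠ 0 :=
      hO.eventually_ne one_ne_zero
    refine h1.congr' ?_
    filter_upwards [hne] with k hk
    simp only [Pi.div_apply]
    rw [hid k, mul_div_assoc, mul_comm, mul_div_assoc, div_self hk, mul_one]
  have hsum : ∑ i, ‖V0 i j‖ ^ 2 = 1 := by
    have h1 := congrFun (congrFun hun0 j) j
    rw [Matrix.mul_apply, Matrix.one_apply_eq] at h1
    have h2 : ((∑ i, ‖V0 i j‖ ^ 2 : ℝ) : ℂ) = 1 := by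
      rw [← h1]
      push_cast
      refine Finset.sum_congr rfl fun i _ => ?_
      rw [← Complex.conj_mul']
      rfl
    exact_mod_cast h2
  refine ⟨s, ?_, ?_, ?_⟩
  · have := MA3_exp 𝒰 k₀ h (F (j : ℕ)) (hF _) _ hexp
    rwa [Complex.ofReal_re] at this
  · calc a = ∑ i, a * ‖V0 i j‖ ^ 2 := by rw [← Finset.mul_sum, hsum, mul_one]
      _ ≤ s := Finset.sum_le_sum fun i _ =>
        mul_le_mul_of_nonneg_right (hl i).1 (by positivity)
  · calc s ≤ ∑ i, b * ‖V0 i j‖ ^ 2 := Finset.sum_le_sum fun i _ =>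
          mul_le_mul_of_nonneg_right (hl i).2 (by positivity)
      _ = b := by rw [← Finset.mul_sum, hsum, mul_one]

end Mes
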