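import Pool.Agent.LibMes.Defs

open MeasureTheory Set Filter Topology

namespace Mes

/-- The coefficient of `m` in the counting function. -/
noncomputable def MA6_d (n m : ℤ) : ℝ :=
  if 1 ≤ m then (if m ≤ n then -1 else 0) else (if n < m then 1 else 0)

theorem MA6_sum (n : ℤ) : HasSum (fun m => MA6_d n m) (-(n : ℝ)) := by
  rcases le_or_gt 0 n with hn | hn
  · have h : HasSum (fun m => MA6_d n m) (∑ m ∈ Finset.Icc 1 n, MA6_d n m) :=
      hasSum_sum_of_ne_finset_zero (by
      intro m hm
      rw [Finset.mem_Icc, not_and_or] at hm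
      unfold MA6_d
      split_ifs <;> first | rfl | omega)
    have h2 : ∑ m ∈ Finset.Icc 1 n, MA6_d n m = -(n : ℝ) := by
      rw [Finset.sum_congr rfl (g := fun _ => (-1 : ℝ))]
      · rw [Finset.sum_const, Int.card_Icc, nsmul_eq_mul]
        have h3 : (((n + 1 - 1).toNat : ℕ) : ℝ) = n := by
          have h4 : (((n + 1 - 1).toNat : ℕ) : ℤ) = n := by
            rw [Int.toNat_of_nonneg (by omega)]
            ring
          exact_mod_cast h4
        rw [h3]
        ring
      · intro m hm
        rw [Finset.mem_Icc] at hm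
        unfold MA6_d
        rw [if_pos hm.1, if_pos hm.2]
    rwa [h2] at h
  · have h : HasSum (fun m => MA6_d n m) (∑ m ∈ Finset.Ioc n 0, MA6_d n m) :=
      hasSum_sum_of_ne_finset_zero (by
      intro m hm
      rw [Finset.mem_Ioc, not_and_or] at hm
      unfold MA6_d
      split_ifs <;> first | rfl | omega)
    have h2 : ∑ m ∈ Finset.Ioc n 0, MA6_d n m = -(n : ℝ) := by
      rw [Finset.sum_congr rfl (g := fun _ => (1 : ℝ))]
      · rw [Finset.sum_const, Int.card_Ioc, nsmul_eq_mul]
        have h3 : (((0 - n).toNat : ℕ) : ℝ) = -(n : ℝ) := by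
          have h4 : (((0 - n).toNat : ℕ) : ℤ) = -n := by
            rw [Int.toNat_of_nonneg (by omega)]
            ring
          exact_mod_cast h4
        rw [h3]
        ring
      · intro m hm
        rw [Finset.mem_Ioc] at hm
        unfold MA6_d
        rw [if_neg (by omega), if_pos hm.1]
    rwa [h2] at h

theorem MA6_abs (n : ℤ) : HasSum (fun m => |MA6_d n m|) |(n : ℝ)| := by
  rcases le_or_gt 0 n with hn | hn
  · have h := (MA6_sum n).neg
    rw [neg_neg] at h
    have hn' : (0 : ℝ) ≤ n := by exact_mod_cast hn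
    rw [abs_of_nonneg hn']
    have e : (fun m => |MA6_d n m|) = fun m => -MA6_d n m := by
      funext m
      unfold MA6_d
      split_ifs with h1 h2 h3
      · norm_num
      · norm_num
      · omega
      · norm_num
    rw [e]
    exact h
  · have h := MA6_sum n
    have hn' : (n : ℝ) < 0 := by exact_mod_cast hn
    rw [abs_of_neg hn']
    have e : (fun m => |MA6_d n m|) = fun m => MA6_d n m := by
      funext m
      unfold MA6_d
      split_ifs with h1 h2 h3
      · omega
      · norm_num
      · norm_num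
      · norm_num
    rw [e]
    exact h

theorem MA6_K {f : ℝ → ℝ} {K : ℝ} (hf : Test f K) : 0 ≤ K := by
  have h := hf.d0 0
  rw [abs_zero, add_zero, one_pow, div_one] at h
  exact (abs_nonneg _).trans h

theorem MA6_int3 (C : ℝ) : Integrable fun x : ℝ => C / (1 + |x|) ^ 3 := by
  have h := (integrable_one_add_norm (E := ℝ) (μ := volume) (r := 3) (by
    rw [Module.finrank_self]; norm_num)).const_mul C
  refine h.congr (Eventually.of_forall fun x => ?_)
  simp only [Real.norm_eq_abs]
  have h1 : (0 : ℝ) ≤ 1 + |x| := by positivity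
  rw [Real.rpow_neg h1, div_eq_mul_inv]
  congr 2
  exact_mod_cast Real.rpow_natCast (1 + |x|) 3

theorem MA6_le43 {K : ℝ} (hK : 0 ≤ K) (x : ℝ) : K / (1 + |x|) ^ 4 ≤ K / (1 + |x|) ^ 3 := by
  have h0 : (1 : ℝ) ≤ 1 + |x| := by linarith [abs_nonneg x]
  apply div_le_div_of_nonneg_left hK (by positivity)
  exact pow_le_pow_right₀ h0 (by norm_num)

theorem MA6_intd {f : ℝ → ℝ} {K : ℝ} (hf : Test f K) : Integrable (deriv f) := by
  refine (MA6_int3 K).mono' (hf.diff.continuous_deriv le_rfl).aestronglyMeasurable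
    (Eventually.of_forall fun x => ?_)
  rw [Real.norm_eq_abs]
  exact (hf.d1 x).trans (MA6_le43 (MA6_K hf) x)

theorem MA6_lim {f : ℝ → ℝ} {K : ℝ} (hf : Test f K) {u : Filter ℝ}
    (hu : Tendsto (fun x : ℝ => |x|) u atTop) : Tendsto f u (𝓝 0) := by
  have h1 : Tendsto (fun x : ℝ => K / (1 + |x|) ^ 4) u (𝓝 0) := by
    apply Tendsto.div_atTop tendsto_const_nhds
    have h2 : Tendsto (fun x : ℝ => 1 + |x|) u atTop := tendsto_atTop_add_const_left u 1 hu
    exact (tendsto_pow_atTop (by norm_num)).comp h2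
  refine squeeze_zero_norm (fun x => ?_) h1
  rw [Real.norm_eq_abs]
  exact hf.d0 x

theorem step_sum {a b : ℝ} (ha : 0 < a) (hab : a ≤ b) {θ : ℝ → ℝ} (hc : Continuous θ)
    (low : ∀ s t, s ≤ t → a * (t - s) ≤ θ t - θ s) (up : ∀ s t, s ≤ t → θ t - θ s ≤ b * (t - s))
    {y : ℤ → ℝ} (hy : ∀ m, θ (y m) = 2 * Real.pi * m) {f : ℝ → ℝ} {K : ℝ} (hf : Test f K) :
    (Integrable fun x => deriv f x * ⌊θ x / (2 * Real.pi)⌋) ∧
    HasSum (fun m => f (y m)) (-∫ x, deriv f x * ⌊θ x / (2 * Real.pi)⌋) := by
  have hb : 0 < b := ha.trans_le hab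
  have hK := MA6_K hf
  have hpi : 0 < 2 * Real.pi := by positivity
  have hpi1 : 1 ≤ 2 * Real.pi := by linarith [Real.pi_gt_three]
  have hcd : Continuous (deriv f) := hf.diff.continuous_deriv le_rfl
  have hmono : StrictMono θ := by
    intro s t hst
    have h1 := low s t hst.le
    have h2 : 0 < a * (t - s) := mul_pos ha (sub_pos.2 hst)
    linarith
  have hth : ∀ x, |θ x| ≤ |θ 0| + b * |x| := by
    intro x
    have h4 := abs_le.1 (le_refl |θ 0|)
    rw [abs_le]
    rcases le_or_gt 0 x with hx | hx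
    · have h1 := up 0 x hx
      have h2 := low 0 x hx
      have h3 : 0 ≤ a * (x - 0) := mul_nonneg ha.le (by linarith)
      rw [abs_of_nonneg hx]
      rw [sub_zero] at h1
      have h5 : 0 ≤ b * x := mul_nonneg hb.le hx
      constructor <;> linarith [h4.1, h4.2]
    · have h1 := up x 0 hx.le
      have h2 := low x 0 hx.le
      have h3 : 0 ≤ a * (0 - x) := mul_nonneg ha.le (by linarith)
      rw [abs_of_neg hx]
      have h6 : b * (0 - x) = b * -x := by ring
      rw [h6] at h1
      have h5 : 0 ≤ b * -x := mul_nonneg hb.le (by linarith)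
      constructor <;> linarith [h4.1, h4.2]
  have hfl : ∀ x, |((⌊θ x / (2 * Real.pi)⌋ : ℤ) : ℝ)| ≤ (|θ 0| + b + 1) * (1 + |x|) := by
    intro x
    have h1 : |((⌊θ x / (2 * Real.pi)⌋ : ℤ) : ℝ)| ≤ |θ x / (2 * Real.pi)| + 1 := by
      have h2 := Int.floor_le (θ x / (2 * Real.pi))
      have h3 := Int.lt_floor_add_one (θ x / (2 * Real.pi))
      have h4 := abs_le.1 (le_refl |θ x / (2 * Real.pi)|)
      rw [abs_le]
      constructor <;> linarith [h4.1, h4.2]
    have h2 : |θ x / (2 * Real.pi)| ≤ |θ x| := by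
      rw [abs_div, abs_of_pos hpi]
      exact div_le_self (abs_nonneg _) hpi1
    have h3 := hth x
    have h4 : 0 ≤ |θ 0| := abs_nonneg _
    have h5 : 0 ≤ |x| := abs_nonneg _
    nlinarith
  have hmf : Measurable fun x => ((⌊θ x / (2 * Real.pi)⌋ : ℤ) : ℝ) := by
    have h1 : Measurable fun x => ⌊θ x / (2 * Real.pi)⌋ := (hc.measurable.div_const _).floor
    exact measurable_from_top.comp h1
  have hint : Integrable fun x => deriv f x * ⌊θ x / (2 * Real.pi)⌋ := by
    refine (MA6_int3 (K * (|θ 0| + b + 1))).mono'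
      (hcd.measurable.mul hmf).aestronglyMeasurable (Eventually.of_forall fun x => ?_)
    rw [Real.norm_eq_abs, abs_mul]
    have h1 := hf.d1 x
    have h2 := hfl x
    have h0 : (0 : ℝ) < 1 + |x| := by positivity
    have h3 : K / (1 + |x|) ^ 4 * ((|θ 0| + b + 1) * (1 + |x|)) =
        K * (|θ 0| + b + 1) / (1 + |x|) ^ 3 := by
      field_simp
    rw [← h3]
    exact mul_le_mul h1 h2 (abs_nonneg _) (by positivity)
  refine ⟨hint, ?_⟩
  have hiff : ∀ (m : ℤ) (x : ℝ), y m ≤ x ↔ m ≤ ⌊θ x / (2 * Real.pi)⌋ := by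
    intro m x
    rw [Int.le_floor, le_div_iff₀ hpi, ← hmono.le_iff_le, hy, mul_comm (m : ℝ)]
  have key := hasSum_integral_of_dominated_convergence (μ := (volume : Measure ℝ))
    (F := fun (m : ℤ) x => deriv f x * MA6_d ⌊θ x / (2 * Real.pi)⌋ m)
    (f := fun x => deriv f x * (-((⌊θ x / (2 * Real.pi)⌋ : ℤ) : ℝ)))
    (fun m x => |deriv f x| * |MA6_d ⌊θ x / (2 * Real.pi)⌋ m|) ?_ ?_ ?_ ?_ ?_
  · have e1 : (fun m : ℤ => ∫ x, deriv f x * MA6_d ⌊θ x / (2 * Real.pi)⌋ m) =
        fun m => f (y m) := by
      funext m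
      have hlt : ∀ x, ⌊θ x / (2 * Real.pi)⌋ < m ↔ x < y m := by
        intro x
        rw [← not_le, ← hiff, not_le]
      by_cases hm : 1 ≤ m
      · have e2 : (fun x => deriv f x * MA6_d ⌊θ x / (2 * Real.pi)⌋ m) =
            fun x => -((Ici (y m)).indicator (deriv f) x) := by
          funext x
          unfold MA6_d
          rw [if_pos hm]
          by_cases hx : y m ≤ x
          · rw [if_pos ((hiff m x).1 hx), indicator_of_mem (mem_Ici.2 hx)]
            ring
          · rw [if_neg (fun h => hx ((hiff m x).2 h)), indicator_of_notMem (by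
              rwa [mem_Ici])]
            ring
        rw [e2, integral_neg, integral_indicator measurableSet_Ici, integral_Ici_eq_integral_Ioi,
          integral_Ioi_of_hasDerivAt_of_tendsto'
            (fun x _ => (hf.diff.differentiable (by simp) x).hasDerivAt)
            (MA6_intd hf).integrableOn (MA6_lim hf tendsto_abs_atTop_atTop)]
        ring
      · have e2 : (fun x => deriv f x * MA6_d ⌊θ x / (2 * Real.pi)⌋ m) =
            fun x => ((Iio (y m)).indicator (deriv f) x) := by
          funext x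
          unfold MA6_d
          rw [if_neg hm]
          by_cases hx : x < y m
          · rw [if_pos ((hlt x).2 hx), indicator_of_mem (mem_Iio.2 hx)]
            ring
          · rw [if_neg (fun h => hx ((hlt x).1 h)), indicator_of_notMem (by
              rwa [mem_Iio])]
            ring
        rw [e2, integral_indicator measurableSet_Iio, ← integral_Iic_eq_integral_Iio,
          integral_Iic_of_hasDerivAt_of_tendsto'
            (fun x _ => (hf.diff.differentiable (by simp) x).hasDerivAt)
            (MA6_intd hf).integrableOn (MA6_lim hf tendsto_abs_atBot_atTop)]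
        ring
    rw [e1] at key
    have e3 : ∫ x, deriv f x * (-((⌊θ x / (2 * Real.pi)⌋ : ℤ) : ℝ)) =
        -∫ x, deriv f x * ⌊θ x / (2 * Real.pi)⌋ := by
      rw [← integral_neg]
      congr 1
      funext x
      ring
    rwa [e3] at key
  · intro m
    have h1 : Measurable fun x => MA6_d ⌊θ x / (2 * Real.pi)⌋ m := by
      have h2 : Measurable fun x => ⌊θ x / (2 * Real.pi)⌋ := (hc.measurable.div_const _).floor
      exact (measurable_from_top (f := fun n : ℤ => MA6_d n m)).comp h2
    exact (hcd.measurable.mul h1).aestronglyMeasurable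
  · intro m
    exact Eventually.of_forall fun x => by rw [Real.norm_eq_abs, abs_mul]
  · exact Eventually.of_forall fun x => ((MA6_abs _).mul_left _).summable
  · have e1 : (fun x => ∑' m : ℤ, |deriv f x| * |MA6_d ⌊θ x / (2 * Real.pi)⌋ m|) =
        fun x => ‖deriv f x * ⌊θ x / (2 * Real.pi)⌋‖ := by
      funext x
      rw [((MA6_abs _).mul_left _).tsum_eq, Real.norm_eq_abs, abs_mul]
    rw [e1]
    exact hint.norm
  · exact Eventually.of_forall fun x => (MA6_sum _).mul_left _

end Mes
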