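import Pool.Agent.LibMes.R_MA6

open MeasureTheory Set Filter Topology

namespace Mes

section general

variable {ι : Type} [Fintype ι] [DecidableEq ι]

private theorem zer_sum_per {S : Matrix ι ι ℝ} {ℓ : ι → ℝ} {a b : ℝ} {F : ℤ → ℝ → ℝ}
    (hF : Ph S ℓ a b F) (k : ℝ) (p m : ℤ) :
    F (p + m * (Fintype.card ι : ℤ)) k = F p k + 2 * Real.pi * m := by
  induction m using Int.induction_on with
  | zero => simp
  | succ i ih =>
    have h := hF.per (p + (i : ℤ) * (Fintype.card ι : ℤ)) k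
    rw [show p + ((i : ℤ) + 1) * (Fintype.card ι : ℤ) =
      p + (i : ℤ) * (Fintype.card ι : ℤ) + (Fintype.card ι : ℤ) by ring, h, ih]
    push_cast; ring
  | pred i ih =>
    have h := hF.per (p + (-(i : ℤ) - 1) * (Fintype.card ι : ℤ)) k
    rw [show p + (-(i : ℤ) - 1) * (Fintype.card ι : ℤ) + (Fintype.card ι : ℤ) =
      p + (-(i : ℤ)) * (Fintype.card ι : ℤ) by ring, ih] at h
    have : F (p + (-(i : ℤ) - 1) * (Fintype.card ι : ℤ)) k =
        F p k + 2 * Real.pi * ((-(i : ℤ) : ℤ) : ℝ) - 2 * Real.pi := by linarith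
    rw [this]
    push_cast; ring

theorem zer_sum {S : Matrix ι ι ℝ} {ℓ : ι → ℝ} {a b : ℝ} (ha : 0 < a) (hab : a ≤ b)
    (hN : 0 < Fintype.card ι) {F : ℤ → ℝ → ℝ} (hF : Ph S ℓ a b F) {X : ℤ → ℝ}
    (hX : Zer (Fintype.card ι) a b F X) {f : ℝ → ℝ} {K : ℝ} (hf : Test f K) :
    HasSum (fun p => f (X p)) (-∑ j ∈ Finset.range (Fintype.card ι),
      ∫ x, deriv f x * ⌊F (-j) x / (2 * Real.pi)⌋) := by
  have : NeZero (Fintype.card ι) := ⟨hN.ne'⟩
  set N : ℕ := Fintype.card ι with hNdef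
  have hstep : ∀ j : ℕ, HasSum (fun m : ℤ => f (X (m * (N : ℤ) + j)))
      (-∫ x, deriv f x * ⌊F (-(j : ℤ)) x / (2 * Real.pi)⌋) := by
    intro j
    refine (step_sum ha hab (hF.cont (-(j : ℤ))) (hF.low _) (hF.up _)
      (y := fun m : ℤ => X (m * (N : ℤ) + j)) ?_ hf).2
    intro m
    have h0 := hX.zero (m * (N : ℤ) + j)
    have h1 := zer_sum_per hF (X (m * (N : ℤ) + j)) (-(m * (N : ℤ) + j)) m
    rw [show -(m * (N : ℤ) + (j : ℤ)) + m * (Fintype.card ι : ℤ) = -(j : ℤ) by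
      rw [← hNdef]; ring, h0] at h1
    simpa using h1
  rw [← Finset.sum_neg_distrib, ← Fin.sum_univ_eq_sum_range
    (fun j : ℕ => -∫ x, deriv f x * ⌊F (-(j : ℤ)) x / (2 * Real.pi)⌋) N]
  rw [← (Int.divModEquiv N).symm.hasSum_iff]
  have hprod : ∀ q : ℤ × Fin N, ((fun p => f (X p)) ∘ (Int.divModEquiv N).symm) q =
      f (X (q.1 * (N : ℤ) + ((q.2 : ℕ) : ℤ))) := by
    intro q
    simp [Int.divModEquiv]
  have h2 : ∀ i : Fin N, HasSum (fun q : ℤ × Fin N =>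
      if q.2 = i then f (X (q.1 * (N : ℤ) + ((q.2 : ℕ) : ℤ))) else 0)
      (-∫ x, deriv f x * ⌊F (-((i : ℕ) : ℤ)) x / (2 * Real.pi)⌋) := by
    intro i
    have hinj : Function.Injective (fun m : ℤ => ((m, i) : ℤ × Fin N)) := by
      intro m m' h
      exact (Prod.mk.inj h).1
    rw [← hinj.hasSum_iff]
    · simpa [Function.comp_def] using hstep (i : ℕ)
    · rintro ⟨m, i'⟩ hq
      rw [if_neg]
      rintro rfl
      exact hq ⟨m, rfl⟩
  have h3 := hasSum_sum (s := (Finset.univ : Finset (Fin N))) fun i _ => h2 i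
  convert h3 using 1
  funext q
  rw [hprod]
  simp

end general

end Mes
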