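import Pool.Agent.LibMes.Defs

open MeasureTheory Set Filter Topology

namespace Mes

private theorem ma8_re (r θ : ℝ) : (1 - (r : ℂ) * Complex.exp (θ * Complex.I)).re = 1 - r * Real.cos θ := by
  rw [Complex.sub_re, Complex.one_re, Complex.re_ofReal_mul, Complex.exp_ofReal_mul_I_re]

private theorem ma8_saw (r θ : ℝ) :
    saw r θ = -Complex.arg (1 - (r : ℂ) * Complex.exp (θ * Complex.I)) := by
  unfold saw
  rw [Complex.neg_im, Complex.log_im]

theorem saw_bd {r : ℝ} (h0 : 0 ≤ r) (h1 : r < 1) (θ : ℝ) : |saw r θ| ≤ Real.pi / 2 := by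
  rw [ma8_saw, abs_neg, Complex.abs_arg_le_pi_div_two_iff, ma8_re]
  nlinarith [Real.cos_le_one θ, Real.neg_one_le_cos θ]

private theorem ma8_cos_lt {θ : ℝ} (h : ∀ m : ℤ, θ ≠ 2 * Real.pi * m) : Real.cos θ < 1 := by
  refine lt_of_le_of_ne (Real.cos_le_one θ) fun hc => ?_
  obtain ⟨n, hn⟩ := (Real.cos_eq_one_iff θ).1 hc
  exact h n (by rw [← hn]; ring)

private theorem ma8_arg {θ : ℝ} (h : ∀ m : ℤ, θ ≠ 2 * Real.pi * m) :
    -Complex.arg (1 - Complex.exp (θ * Complex.I)) =
      Real.pi * (1 / 2 - Int.fract (θ / (2 * Real.pi))) := by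
  set x : ℝ := Int.fract (θ / (2 * Real.pi)) with hx
  have hpi : 0 < Real.pi := Real.pi_pos
  have hx0 : 0 < x := by
    refine lt_of_le_of_ne (Int.fract_nonneg _) fun hc => ?_
    have h2 : θ / (2 * Real.pi) = ⌊θ / (2 * Real.pi)⌋ := by
      have := Int.self_sub_floor (θ / (2 * Real.pi))
      rw [← hx, ← hc] at this
      linarith
    apply h ⌊θ / (2 * Real.pi)⌋
    rw [← h2]; field_simp
  have hx1 : x < 1 := Int.fract_lt_one _
  -- angle
  have hθ : θ = 2 * Real.pi * x + ⌊θ / (2 * Real.pi)⌋ * (2 * Real.pi) := by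
    have h3 := Int.self_sub_floor (θ / (2 * Real.pi))
    rw [← hx] at h3
    have h4 : θ / (2 * Real.pi) = x + ⌊θ / (2 * Real.pi)⌋ := by linarith
    have h5 : θ = θ / (2 * Real.pi) * (2 * Real.pi) := by field_simp
    rw [h4] at h5
    nlinarith [h5]
  have hexp : Complex.exp (θ * Complex.I) = Complex.exp ((2 * Real.pi * x : ℝ) * Complex.I) := by
    rw [Complex.exp_eq_exp_iff_exists_int]
    refine ⟨⌊θ / (2 * Real.pi)⌋, ?_⟩
    have : (θ : ℂ) = ((2 * Real.pi * x + ⌊θ / (2 * Real.pi)⌋ * (2 * Real.pi) : ℝ) : ℂ) := by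
      rw [← hθ]
    rw [this]
    push_cast
    ring
  have hs : 0 < Real.sin (Real.pi * x) :=
    Real.sin_pos_of_pos_of_lt_pi (by positivity) (by nlinarith)
  have key : 1 - Complex.exp (θ * Complex.I) =
      ((2 * Real.sin (Real.pi * x) : ℝ) : ℂ) *
        (Complex.cos ((Real.pi * x - Real.pi / 2 : ℝ) : ℂ) +
          Complex.sin ((Real.pi * x - Real.pi / 2 : ℝ) : ℂ) * Complex.I) := by
    rw [hexp, Complex.exp_mul_I, ← Complex.ofReal_cos, ← Complex.ofReal_sin, ← Complex.ofReal_cos,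
      ← Complex.ofReal_sin, Real.cos_sub_pi_div_two, Real.sin_sub_pi_div_two]
    have e1 : 2 * Real.pi * x = 2 * (Real.pi * x) := by ring
    rw [e1, Real.cos_two_mul, Real.sin_two_mul]
    have e2 := Real.sin_sq_add_cos_sq (Real.pi * x)
    generalize Real.sin (Real.pi * x) = s at e2 ⊢
    generalize Real.cos (Real.pi * x) = c at e2 ⊢
    apply Complex.ext
    · simp only [Complex.sub_re, Complex.one_re, Complex.add_re, Complex.ofReal_re, Complex.mul_re,
        Complex.I_re, Complex.I_im, Complex.ofReal_im, Complex.add_im, Complex.mul_im]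
      nlinarith [e2]
    · simp only [Complex.sub_im, Complex.one_im, Complex.add_re, Complex.ofReal_re, Complex.mul_re,
        Complex.I_re, Complex.I_im, Complex.ofReal_im, Complex.add_im, Complex.mul_im]
      ring
  rw [key, Complex.arg_mul_cos_add_sin_mul_I (by positivity)
    ⟨by nlinarith, by nlinarith⟩]
  ring

theorem saw_lim {θ : ℝ} (h : ∀ m : ℤ, θ ≠ 2 * Real.pi * m) :
    Tendsto (fun r => saw r θ) (𝓝[<] 1) (𝓝 (Real.pi * (1 / 2 - Int.fract (θ / (2 * Real.pi))))) := by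
  rw [← ma8_arg h]
  have hfun : (fun r => saw r θ) =
      fun r : ℝ => -Complex.arg (1 - (r : ℂ) * Complex.exp (θ * Complex.I)) :=
    funext fun r => ma8_saw r θ
  rw [hfun]
  have hslit : (1 - ((1 : ℝ) : ℂ) * Complex.exp (θ * Complex.I)) ∈ Complex.slitPlane := by
    left
    rw [ma8_re]
    have := ma8_cos_lt h
    linarith
  have hc : ContinuousAt (fun r : ℝ => -Complex.arg (1 - (r : ℂ) * Complex.exp (θ * Complex.I))) 1 := by
    refine ContinuousAt.neg ?_
    refine ContinuousAt.comp (f := fun r : ℝ => 1 - (r : ℂ) * Complex.exp (θ * Complex.I))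
      (g := Complex.arg) (Complex.continuousAt_arg hslit) ?_
    fun_prop
  have h2 := hc.tendsto
  simp only [Complex.ofReal_one, one_mul] at h2
  exact h2.mono_left nhdsWithin_le_nhds

end Mes
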