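import Pool.Agent.LibMes.Defs
import Pool.Agent.LibMes.R_MA8

open MeasureTheory Set Filter Topology

namespace Mes

private theorem ma9_bd_int (K : ℝ) : Integrable (fun x : ℝ => K / (1 + |x|) ^ 4) := by
  have h : Integrable (fun x : ℝ => K * (1 + ‖x‖) ^ (-(4 : ℝ))) :=
    (integrable_one_add_norm (E := ℝ) (r := 4) (by simp)).const_mul K
  refine h.congr (Eventually.of_forall fun x => ?_)
  have hx : (0 : ℝ) < 1 + |x| := by positivity
  simp only [Real.norm_eq_abs]
  rw [Real.rpow_neg hx.le, div_eq_mul_inv]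
  congr 2
  exact_mod_cast Real.rpow_natCast (1 + |x|) 4

private theorem ma9_tends (K : ℝ) : Tendsto (fun x : ℝ => K / (1 + |x|) ^ 4) (cocompact ℝ) (𝓝 0) := by
  have h1 : Tendsto (fun x : ℝ => 1 + |x|) (cocompact ℝ) atTop :=
    tendsto_atTop_add_const_left _ _ (tendsto_norm_cocompact_atTop (E := ℝ))
  have h2 : Tendsto (fun x : ℝ => (1 + |x|) ^ 4) (cocompact ℝ) atTop :=
    (tendsto_pow_atTop (by norm_num)).comp h1
  exact h2.const_div_atTop K

private theorem ma9_f {f : ℝ → ℝ} {K : ℝ} (hf : Test f K) : Tendsto f (cocompact ℝ) (𝓝 0) := by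
  refine squeeze_zero_norm (fun x => ?_) (ma9_tends K)
  simpa using hf.d0 x

private theorem ma9_dint {f : ℝ → ℝ} {K : ℝ} (hf : Test f K) : Integrable (deriv f) := by
  refine (ma9_bd_int K).mono' (hf.diff.continuous_deriv le_rfl).aestronglyMeasurable ?_
  exact Eventually.of_forall fun x => by simpa using hf.d1 x

private theorem ma9_zero {f : ℝ → ℝ} {K : ℝ} (hf : Test f K) : ∫ x, deriv f x = 0 := by
  have h := integral_of_hasDerivAt_of_tendsto (f := f) (f' := deriv f) (m := 0) (n := 0)
    (fun x => (hf.diff.differentiable (by norm_num) x).hasDerivAt) (ma9_dint hf)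
    ((ma9_f hf).mono_left atBot_le_cocompact) ((ma9_f hf).mono_left atTop_le_cocompact)
  simpa using h

private theorem ma9_mono {a : ℝ} (ha : 0 < a) {θ : ℝ → ℝ}
    (low : ∀ s t, s ≤ t → a * (t - s) ≤ θ t - θ s) : StrictMono θ := by
  intro s t hst
  have := low s t hst.le
  nlinarith [mul_pos ha (sub_pos.2 hst)]

private theorem ma9_ae {a : ℝ} (ha : 0 < a) {θ : ℝ → ℝ}
    (low : ∀ s t, s ≤ t → a * (t - s) ≤ θ t - θ s) :
    ∀ᵐ x : ℝ, ∀ m : ℤ, θ x ≠ 2 * Real.pi * m := by
  rw [ae_all_iff]
  intro m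
  have hinj : Function.Injective θ := (ma9_mono ha low).injective
  have hs : {x : ℝ | θ x = 2 * Real.pi * m}.Subsingleton := by
    intro x hx y hy
    exact hinj (by exact (show θ x = 2 * Real.pi * m from hx).trans (show θ y = 2 * Real.pi * m from hy).symm)
  have h0 : volume {x : ℝ | θ x = 2 * Real.pi * m} = 0 := hs.measure_zero _
  rw [ae_iff]
  simpa using h0

theorem saw_int {a b : ℝ} (ha : 0 < a) (hab : a ≤ b) {θ : ℝ → ℝ} (hc : Continuous θ)
    (low : ∀ s t, s ≤ t → a * (t - s) ≤ θ t - θ s) (up : ∀ s t, s ≤ t → θ t - θ s ≤ b * (t - s))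
    {f : ℝ → ℝ} {K : ℝ} (hf : Test f K) :
    Tendsto (fun r => ∫ x, deriv f x * saw r (θ x)) (𝓝[<] 1)
      (𝓝 (-Real.pi * ∫ x, deriv f x * Int.fract (θ x / (2 * Real.pi)))) := by
  have hd := ma9_dint hf
  have hmeas : Measurable fun x => Int.fract (θ x / (2 * Real.pi)) :=
    measurable_fract.comp (hc.measurable.div_const _)
  have hfr : Integrable fun x => deriv f x * Int.fract (θ x / (2 * Real.pi)) := by
    refine hd.mul_bdd (c := 1) hmeas.aestronglyMeasurable (Eventually.of_forall fun x => ?_)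
    rw [Real.norm_eq_abs, abs_of_nonneg (Int.fract_nonneg _)]
    exact (Int.fract_lt_one _).le
  have hlim : Tendsto (fun r => ∫ x, deriv f x * saw r (θ x)) (𝓝[<] 1)
      (𝓝 (∫ x, deriv f x * (Real.pi * (1 / 2 - Int.fract (θ x / (2 * Real.pi)))))) := by
    refine tendsto_integral_filter_of_dominated_convergence (fun x => |deriv f x| * (Real.pi / 2))
      ?_ ?_ ?_ ?_
    · refine Eventually.of_forall fun r => ?_
      refine hd.aestronglyMeasurable.mul ?_
      have : Measurable fun x => saw r (θ x) := by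
        unfold saw
        refine Complex.measurable_im.comp (Measurable.neg ?_)
        refine Complex.measurable_log.comp ?_
        refine Continuous.measurable ?_
        fun_prop
      exact this.aestronglyMeasurable
    · have h1 : ∀ᶠ r : ℝ in 𝓝[<] 1, 0 ≤ r :=
        (eventually_ge_nhds (by norm_num : (0 : ℝ) < 1)).filter_mono nhdsWithin_le_nhds
      have h2 : ∀ᶠ r : ℝ in 𝓝[<] 1, r < 1 := eventually_mem_nhdsWithin
      filter_upwards [h1, h2] with r hr0 hr1
      refine Eventually.of_forall fun x => ?_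
      rw [norm_mul, Real.norm_eq_abs, Real.norm_eq_abs]
      exact mul_le_mul_of_nonneg_left (saw_bd hr0 hr1 _) (abs_nonneg _)
    · exact hd.abs.mul_const _
    · filter_upwards [ma9_ae ha low] with x hx
      exact (saw_lim hx).const_mul _
  have heq : ∫ x, deriv f x * (Real.pi * (1 / 2 - Int.fract (θ x / (2 * Real.pi)))) =
      -Real.pi * ∫ x, deriv f x * Int.fract (θ x / (2 * Real.pi)) := by
    have h3 : ∀ x, deriv f x * (Real.pi * (1 / 2 - Int.fract (θ x / (2 * Real.pi)))) =
        (Real.pi / 2) * deriv f x - Real.pi * (deriv f x * Int.fract (θ x / (2 * Real.pi))) :=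
      fun x => by ring
    simp_rw [h3]
    rw [integral_sub (hd.const_mul _) (hfr.const_mul _), integral_const_mul, integral_const_mul,
      ma9_zero hf]
    ring
  rw [← heq]
  exact hlim

end Mes
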