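import Pool.Agent.LibMes.DDefs

/-! MD6: Doeblin's bound for doubly stochastic matrices. -/

namespace Mes

section

variable {ι : Type} [Fintype ι] [DecidableEq ι]

lemma md6_nn {α β : ℝ} {P : Matrix ι ι ℝ} (h : Dst α β P) (k : ℕ) (q p : ι) : 0 ≤ (P ^ k) q p := by
  induction k generalizing q p with
  | zero =>
    rw [pow_zero, Matrix.one_apply]
    split_ifs <;> norm_num
  | succ k ih =>
    rw [pow_succ, Matrix.mul_apply]
    exact Finset.sum_nonneg fun c _ => mul_nonneg (ih q c) (h.nn c p)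

lemma md6_row {α β : ℝ} {P : Matrix ι ι ℝ} (h : Dst α β P) (k : ℕ) (q : ι) :
    ∑ p, (P ^ k) q p = 1 := by
  induction k generalizing q with
  | zero => simp [Matrix.one_apply]
  | succ k ih =>
    have e : ∑ p, (P ^ (k + 1)) q p = ∑ c, (P ^ k) q c * ∑ p, P c p := by
      simp_rw [pow_succ, Matrix.mul_apply, Finset.mul_sum]
      exact Finset.sum_comm
    rw [e]
    simp_rw [h.row, mul_one]
    exact ih q

lemma md6_col {α β : ℝ} {P : Matrix ι ι ℝ} (h : Dst α β P) (k : ℕ) (p : ι) :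
    ∑ q, (P ^ k) q p = 1 := by
  induction k generalizing p with
  | zero => simp [Matrix.one_apply]
  | succ k ih =>
    have e : ∑ q, (P ^ (k + 1)) q p = ∑ c, (∑ q, (P ^ k) q c) * P c p := by
      simp_rw [pow_succ, Matrix.mul_apply, Finset.sum_mul]
      exact Finset.sum_comm
    rw [e]
    simp_rw [ih, one_mul]
    exact h.col p

/-- contraction of the `l1` norm on vectors with sum zero -/
private lemma md6_contr {Q : Matrix ι ι ℝ} {a : ℝ} (ha : ∀ q p, a ≤ Q q p)
    (hcol : ∀ p, ∑ q, Q q p = 1) {x : ι → ℝ} (hx : ∑ i, x i = 0) :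
    ∑ q, |(Q.mulVec x) q| ≤ (1 - Fintype.card ι * a) * ∑ p, |x p| := by
  have e1 : ∀ q, |(Q.mulVec x) q| ≤ ∑ p, (Q q p - a) * |x p| := by
    intro q
    have e2 : (Q.mulVec x) q = ∑ p, (Q q p - a) * x p := by
      simp_rw [sub_mul, Finset.sum_sub_distrib, ← Finset.mul_sum, hx, mul_zero, sub_zero]
      rfl
    rw [e2]
    refine (Finset.abs_sum_le_sum_abs _ _).trans (Finset.sum_le_sum fun p _ => ?_)
    rw [abs_mul, abs_of_nonneg (sub_nonneg.2 (ha q p))]
  refine (Finset.sum_le_sum fun q _ => e1 q).trans ?_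
  rw [Finset.sum_comm, Finset.mul_sum]
  refine Finset.sum_le_sum fun p _ => ?_
  rw [← Finset.sum_mul, Finset.sum_sub_distrib, hcol, Finset.sum_const, Finset.card_univ,
    nsmul_eq_mul]

private lemma md6_sum {Q : Matrix ι ι ℝ} (hcol : ∀ p, ∑ q, Q q p = 1) {x : ι → ℝ}
    (hx : ∑ i, x i = 0) : ∑ q, (Q.mulVec x) q = 0 := by
  simp_rw [Matrix.mulVec, dotProduct]
  rw [Finset.sum_comm]
  simp_rw [← Finset.sum_mul, hcol, one_mul]
  exact hx

private lemma md6_pow {α β : ℝ} (hα1 : α < 1) {P : Matrix ι ι ℝ} (h : Dst α β P)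
    (hN : 0 < Fintype.card ι) {x : ι → ℝ} (hx : ∑ i, x i = 0) (k : ℕ) :
    ∑ q, |((P ^ (4 * k)).mulVec x) q| ≤ (1 - α) ^ k * ∑ p, |x p| := by
  induction k with
  | zero => simp
  | succ k ih =>
    have e : (P ^ (4 * (k + 1))).mulVec x = (P ^ 4).mulVec ((P ^ (4 * k)).mulVec x) := by
      rw [Matrix.mulVec_mulVec, ← pow_add]
      congr 2
      ring
    rw [e]
    refine (md6_contr (h.four) (md6_col h 4) (md6_sum (md6_col h (4 * k)) hx)).trans ?_
    have hN' : (Fintype.card ι : ℝ) ≠ 0 := by exact_mod_cast hN.ne'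
    rw [mul_div_cancel₀ _ hN']
    calc (1 - α) * ∑ p, |((P ^ (4 * k)).mulVec x) p|
        ≤ (1 - α) * ((1 - α) ^ k * ∑ p, |x p|) :=
          mul_le_mul_of_nonneg_left ih (by linarith)
      _ = (1 - α) ^ (k + 1) * ∑ p, |x p| := by ring

/-- MD6: Doeblin. -/
theorem doeblin {α β : ℝ} (hα : 0 < α) (hα1 : α < 1) {P : Matrix ι ι ℝ} (h : Dst α β P) (n : ℕ)
    (q p : ι) : |(P ^ (n + 2)) q p - 1 / Fintype.card ι| ≤
      2 * β / Fintype.card ι * (1 - α) ^ (n / 4) := by
  have hN : 0 < Fintype.card ι := Fintype.card_pos_iff.2 ⟨q⟩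
  have hN' : (0 : ℝ) < Fintype.card ι := by exact_mod_cast hN
  set m : ℝ := (Fintype.card ι : ℝ) with hm
  let x : ι → ℝ := fun i => (if i = p then 1 else 0) - 1 / m
  have hx : ∑ i, x i = 0 := by
    simp only [x, Finset.sum_sub_distrib, Finset.sum_ite_eq', Finset.mem_univ, if_true,
      Finset.sum_const, Finset.card_univ, nsmul_eq_mul]
    rw [← hm]
    field_simp
    ring
  have hx1 : ∑ i, |x i| ≤ 2 := by
    have h1 : ∀ i, |x i| ≤ (if i = p then 1 else 0) + 1 / m := by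
      intro i
      refine (abs_sub _ _).trans ?_
      rw [abs_of_nonneg (by positivity : (0 : ℝ) ≤ 1 / m)]
      split_ifs <;> simp
    refine (Finset.sum_le_sum fun i _ => h1 i).trans ?_
    rw [Finset.sum_add_distrib, Finset.sum_ite_eq', if_pos (Finset.mem_univ p), Finset.sum_const,
      Finset.card_univ, nsmul_eq_mul, ← hm, mul_one_div_cancel hN'.ne']
    norm_num
  -- the vector `P ^ n x`
  have hy : ∀ c, ((P ^ n).mulVec x) c = (P ^ n) c p - 1 / m := by
    intro c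
    have e1 : ((P ^ n).mulVec x) c = ∑ i, (P ^ n) c i * ((if i = p then 1 else 0) - 1 / m) := rfl
    rw [e1]
    simp_rw [mul_sub, Finset.sum_sub_distrib, ← Finset.sum_mul, md6_row h n c]
    simp
  have hn : ∑ c, |((P ^ n).mulVec x) c| ≤ (1 - α) ^ (n / 4) * 2 := by
    have e : (P ^ n).mulVec x = (P ^ (n % 4)).mulVec ((P ^ (4 * (n / 4))).mulVec x) := by
      rw [Matrix.mulVec_mulVec, ← pow_add]
      congr 2
      omega
    rw [e]
    have h1 := md6_contr (a := 0) (md6_nn h (n % 4)) (md6_col h (n % 4))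
      (md6_sum (md6_col h (4 * (n / 4))) hx)
    rw [mul_zero, sub_zero, one_mul] at h1
    refine h1.trans ((md6_pow hα1 h hN hx (n / 4)).trans ?_)
    exact mul_le_mul_of_nonneg_left hx1 (pow_nonneg (by linarith) _)
  have e2 : (P ^ (n + 2)) q p - 1 / m = ∑ c, (P ^ 2) q c * ((P ^ n).mulVec x) c := by
    simp_rw [hy, mul_sub, Finset.sum_sub_distrib, ← Finset.sum_mul, md6_row h 2 q, one_mul]
    rw [add_comm n 2, pow_add, Matrix.mul_apply]
  rw [e2]
  calc |∑ c, (P ^ 2) q c * ((P ^ n).mulVec x) c|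
      ≤ ∑ c, (β / m) * |((P ^ n).mulVec x) c| := by
        refine (Finset.abs_sum_le_sum_abs _ _).trans (Finset.sum_le_sum fun c _ => ?_)
        rw [abs_mul, abs_of_nonneg (md6_nn h 2 q c)]
        exact mul_le_mul_of_nonneg_right (h.two q c) (abs_nonneg _)
    _ = (β / m) * ∑ c, |((P ^ n).mulVec x) c| := (Finset.mul_sum _ _ _).symm
    _ ≤ (β / m) * ((1 - α) ^ (n / 4) * 2) := by
        refine mul_le_mul_of_nonneg_left hn ?_
        exact (md6_nn h 2 q q).trans (h.two q q)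
    _ = 2 * β / m * (1 - α) ^ (n / 4) := by ring

end

end Mes
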