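import Pool.Agent.LibMes.R_MD6
import Pool.Agent.LibMes.DDefs
import Pool.Agent.LibMes.R_MA11

open MeasureTheory Set Filter Topology

namespace Mes

section general

variable {ι : Type} [Fintype ι] [DecidableEq ι]

/-- MD7: traces. -/
theorem tr_walk (P : Matrix ι ι ℝ) (n : ℕ) :
    ∑ x : Fin (n + 1) → ι, amp P x = (P ^ (n + 1)).trace := by
  have h := walk P (fun _ => (0 : ℝ)) n 0
  have h1 : evo P (fun _ => (0 : ℝ)) 0 = P.map (algebraMap ℝ ℂ) := by
    ext i j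
    simp [evo]
  rw [h1] at h
  have h2 : (P.map (algebraMap ℝ ℂ)) ^ (n + 1) = (P ^ (n + 1)).map (algebraMap ℝ ℂ) := by
    have := (map_pow (algebraMap ℝ ℂ).mapMatrix P (n + 1)).symm
    simpa using this
  rw [h2] at h
  have h3 : ((P ^ (n + 1)).map (algebraMap ℝ ℂ)).trace = ((P ^ (n + 1)).trace : ℂ) := by
    simp [Matrix.trace]
  rw [h3] at h
  have h4 : (((P ^ (n + 1)).trace : ℝ) : ℂ) = ((∑ x : Fin (n + 1) → ι, amp P x : ℝ) : ℂ) := by
    rw [h]
    push_cast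
    refine Finset.sum_congr rfl fun x _ => ?_
    simp
  exact (Complex.ofReal_injective h4).symm

theorem tr_bd {α β : ℝ} (hα : 0 < α) (hα1 : α < 1) {P : Matrix ι ι ℝ} (h : Dst α β P)
    (hN : 0 < Fintype.card ι) (n : ℕ) :
    |∑ x : Fin (n + 2) → ι, amp P x - 1| ≤ 2 * β * (1 - α) ^ (n / 4) := by
  have h0 : (Fintype.card ι : ℝ) ≠ 0 := by exact_mod_cast hN.ne'
  rw [tr_walk P (n + 1)]
  have h1 : (P ^ (n + 1 + 1)).trace - 1 = ∑ i, ((P ^ (n + 2)) i i - 1 / Fintype.card ι) := by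
    rw [Finset.sum_sub_distrib, Finset.sum_const, Finset.card_univ, nsmul_eq_mul,
      mul_one_div_cancel h0]
    rfl
  rw [h1]
  calc |∑ i, ((P ^ (n + 2)) i i - 1 / Fintype.card ι)|
      ≤ ∑ i, |(P ^ (n + 2)) i i - 1 / Fintype.card ι| := Finset.abs_sum_le_sum_abs _ _
    _ ≤ ∑ _i : ι, 2 * β / Fintype.card ι * (1 - α) ^ (n / 4) :=
        Finset.sum_le_sum fun i _ => doeblin hα hα1 h n i i
    _ = 2 * β * (1 - α) ^ (n / 4) := by
        rw [Finset.sum_const, Finset.card_univ, nsmul_eq_mul]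
        field_simp

end general

end Mes
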