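import Pool.Agent.LibMes.R_MD6

/-! MD8: second moment of additive functionals of the stationary chain. -/

open scoped Matrix

namespace Mes

section

variable {ι : Type} [Fintype ι]

/-- sums over paths of functions of the last point and of the additive functional -/
private noncomputable def md8Z (P : Matrix ι ι ℝ) (g : ι → ℝ) (n : ℕ) (h : ι → ℝ → ℝ) : ℝ :=
  ∑ x : Fin (n + 1) → ι, pw P x * h (x (Fin.last n)) (∑ i, g (x i))

private lemma md8_snoc (P : Matrix ι ι ℝ) {n : ℕ} (y : Fin (n + 1) → ι) (b : ι) :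
    pw P (Fin.snoc y b : Fin (n + 2) → ι) = pw P y * P b (y (Fin.last n)) := by
  rw [pw, Fin.prod_univ_castSucc]
  congr 1
  · refine Finset.prod_congr rfl fun i _ => ?_
    rw [Fin.succ_castSucc, Fin.snoc_castSucc (α := fun _ => ι), Fin.snoc_castSucc (α := fun _ => ι)]
  · rw [Fin.succ_last, Fin.snoc_last (α := fun _ => ι), Fin.snoc_castSucc (α := fun _ => ι)]

private lemma md8_sum_snoc {n : ℕ} (Φ : (Fin (n + 2) → ι) → ℝ) :
    ∑ x : Fin (n + 2) → ι, Φ x = ∑ y : Fin (n + 1) → ι, ∑ b, Φ (Fin.snoc y b) := by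
  rw [← Equiv.sum_comp (Fin.snocEquiv (fun _ : Fin (n + 2) => ι)) Φ, Fintype.sum_prod_type,
    Finset.sum_comm]
  rfl

private lemma md8_succ (P : Matrix ι ι ℝ) (g : ι → ℝ) (n : ℕ) (h : ι → ℝ → ℝ) :
    md8Z P g (n + 1) h = md8Z P g n (fun c s => ∑ b, P b c * h b (s + g b)) := by
  rw [md8Z, md8_sum_snoc, md8Z]
  refine Finset.sum_congr rfl fun y _ => ?_
  rw [Finset.mul_sum]
  refine Finset.sum_congr rfl fun b _ => ?_
  rw [md8_snoc, Fin.snoc_last (α := fun _ => ι), Fin.sum_univ_castSucc, Fin.snoc_last (α := fun _ => ι)]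
  simp only [Fin.snoc_castSucc (α := fun _ => ι)]
  ring

private lemma md8_zero (P : Matrix ι ι ℝ) (g : ι → ℝ) (h : ι → ℝ → ℝ) :
    md8Z P g 0 h = ∑ c, h c (g c) := by
  rw [md8Z, ← Equiv.sum_comp (Equiv.funUnique (Fin 1) ι).symm]
  refine Finset.sum_congr rfl fun c _ => ?_
  rw [pw]
  simp

private lemma md8_const {P : Matrix ι ι ℝ} (hrow : ∀ q, ∑ p, P q p = 1) (g : ι → ℝ) (n : ℕ)
    (v : ι → ℝ) : md8Z P g n (fun c _ => v c) = ∑ c, v c := by
  induction n generalizing v with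
  | zero => exact md8_zero P g _
  | succ n ih =>
    rw [md8_succ]
    rw [ih (fun c => ∑ b, P b c * v b), Finset.sum_comm]
    refine Finset.sum_congr rfl fun b _ => ?_
    rw [← Finset.sum_mul, hrow, one_mul]

private lemma md8_add (P : Matrix ι ι ℝ) (g : ι → ℝ) (n : ℕ) (h h' : ι → ℝ → ℝ) :
    md8Z P g n (fun c s => h c s + h' c s) = md8Z P g n h + md8Z P g n h' := by
  rw [md8Z, md8Z, md8Z, ← Finset.sum_add_distrib]
  exact Finset.sum_congr rfl fun x _ => mul_add _ _ _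

private lemma md8_smul (P : Matrix ι ι ℝ) (g : ι → ℝ) (n : ℕ) (a : ℝ) (h : ι → ℝ → ℝ) :
    md8Z P g n (fun c s => a * h c s) = a * md8Z P g n h := by
  rw [md8Z, md8Z, Finset.mul_sum]
  exact Finset.sum_congr rfl fun x _ => by ring

variable [DecidableEq ι]

private lemma md8_lin {P : Matrix ι ι ℝ} (hrow : ∀ q, ∑ p, P q p = 1)
    (g : ι → ℝ) (n : ℕ) (u : ι → ℝ) :
    md8Z P g n (fun c s => s * u c) = ∑ j ∈ Finset.range (n + 1), ∑ c, g c * (u ᵥ* P ^ j) c := by
  induction n generalizing u with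
  | zero =>
    rw [md8_zero]
    simp
  | succ n ih =>
    have e : ∀ (c : ι) (s : ℝ), ∑ b, P b c * ((s + g b) * u b) =
        s * (u ᵥ* P) c + ∑ b, P b c * (g b * u b) := by
      intro c s
      rw [Matrix.vecMul, dotProduct, Finset.mul_sum, ← Finset.sum_add_distrib]
      exact Finset.sum_congr rfl fun b _ => by ring
    rw [md8_succ]
    simp only [e]
    rw [md8_add P g n (fun c s => s * (u ᵥ* P) c) (fun c _ => ∑ b, P b c * (g b * u b)), ih,
      md8_const hrow g n (fun c => ∑ b, P b c * (g b * u b)), Finset.sum_range_succ' _ (n + 1)]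
    congr 1
    · refine Finset.sum_congr rfl fun j _ => ?_
      refine Finset.sum_congr rfl fun c _ => ?_
      rw [Matrix.vecMul_vecMul, ← pow_succ']
    · rw [Finset.sum_comm]
      refine Finset.sum_congr rfl fun b _ => ?_
      rw [← Finset.sum_mul, hrow, one_mul, pow_zero, Matrix.vecMul_one]

private lemma md8_sq {P : Matrix ι ι ℝ} (hrow : ∀ q, ∑ p, P q p = 1) (hcol : ∀ p, ∑ q, P q p = 1)
    (g : ι → ℝ) (n : ℕ) :
    md8Z P g (n + 1) (fun _ s => s ^ 2) = md8Z P g n (fun _ s => s ^ 2) +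
      2 * (∑ j ∈ Finset.range (n + 1), ∑ c, g c * (g ᵥ* P ^ (j + 1)) c) + ∑ c, g c ^ 2 := by
  have e : ∀ (c : ι) (s : ℝ), ∑ b, P b c * (s + g b) ^ 2 =
      s ^ 2 + 2 * (s * (g ᵥ* P) c) + ∑ b, P b c * g b ^ 2 := by
    intro c s
    have h1 : s ^ 2 = ∑ b, P b c * s ^ 2 := by rw [← Finset.sum_mul, hcol, one_mul]
    conv_rhs => rw [h1]
    rw [Matrix.vecMul, dotProduct, Finset.mul_sum, Finset.mul_sum, ← Finset.sum_add_distrib,
      ← Finset.sum_add_distrib]
    exact Finset.sum_congr rfl fun b _ => by ring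
  rw [md8_succ]
  simp only [e]
  rw [md8_add P g n (fun c s => s ^ 2 + 2 * (s * (g ᵥ* P) c)) (fun c _ => ∑ b, P b c * g b ^ 2),
    md8_add P g n (fun _ s => s ^ 2) (fun c s => 2 * (s * (g ᵥ* P) c)),
    md8_smul P g n 2 (fun c s => s * (g ᵥ* P) c), md8_lin hrow,
    md8_const hrow g n (fun c => ∑ b, P b c * g b ^ 2)]
  congr 1
  · congr 2
    refine Finset.sum_congr rfl fun j _ => ?_
    refine Finset.sum_congr rfl fun c _ => ?_
    rw [Matrix.vecMul_vecMul, ← pow_succ']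
  · rw [Finset.sum_comm]
    refine Finset.sum_congr rfl fun b _ => ?_
    rw [← Finset.sum_mul, hrow, one_mul]

end

private lemma md8_geom {r : ℝ} (h0 : 0 ≤ r) (h1 : r < 1) (N : ℕ) :
    ∑ n ∈ Finset.range N, r ^ (n / 4) ≤ 4 / (1 - r) := by
  have h2 : ∀ K : ℕ, ∑ n ∈ Finset.range (4 * K), r ^ (n / 4) =
      4 * ∑ k ∈ Finset.range K, r ^ k := by
    intro K
    induction K with
    | zero => simp
    | succ K ih =>
      rw [show 4 * (K + 1) = 4 * K + 1 + 1 + 1 + 1 by ring, Finset.sum_range_succ,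
        Finset.sum_range_succ, Finset.sum_range_succ, Finset.sum_range_succ, ih,
        Finset.sum_range_succ, show (4 * K) / 4 = K by omega, show (4 * K + 1) / 4 = K by omega,
        show (4 * K + 1 + 1) / 4 = K by omega, show (4 * K + 1 + 1 + 1) / 4 = K by omega]
      ring
  have h3 : ∑ n ∈ Finset.range N, r ^ (n / 4) ≤ ∑ n ∈ Finset.range (4 * N), r ^ (n / 4) :=
    Finset.sum_le_sum_of_subset_of_nonneg (Finset.range_subset_range.2 (by omega))
      fun n _ _ => pow_nonneg h0 _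
  refine h3.trans ?_
  rw [h2, div_eq_mul_inv]
  refine mul_le_mul_of_nonneg_left ?_ (by norm_num)
  have h4 := Summable.sum_le_tsum (Finset.range N) (fun k _ => pow_nonneg h0 k)
    (summable_geometric_of_lt_one h0 h1)
  rwa [tsum_geometric_of_lt_one h0 h1] at h4

private lemma md8_b0 {ι : Type} [Fintype ι] [DecidableEq ι] {α β D : ℝ} {P : Matrix ι ι ℝ}
    (h : Dst α β P) {g : ι → ℝ} (hg : ∀ i, |g i| ≤ D) (c : ι) :
    |(g ᵥ* P ^ (0 + 1)) c| ≤ D := by
  rw [zero_add, pow_one, Matrix.vecMul, dotProduct]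
  calc |∑ b, g b * P b c| ≤ ∑ b, D * P b c := by
        refine (Finset.abs_sum_le_sum_abs _ _).trans (Finset.sum_le_sum fun b _ => ?_)
        rw [abs_mul, abs_of_nonneg (h.nn b c)]
        exact mul_le_mul_of_nonneg_right (hg b) (h.nn b c)
    _ = D := by rw [← Finset.mul_sum, h.col, mul_one]

private lemma md8_b1 {ι : Type} [Fintype ι] [DecidableEq ι] {α β D : ℝ} (hα : 0 < α)
    (hα1 : α < 1) (hD : 0 ≤ D) {P : Matrix ι ι ℝ} (h : Dst α β P) {g : ι → ℝ}
    (hg0 : ∑ i, g i = 0) (hg : ∀ i, |g i| ≤ D) (i : ℕ) (c : ι) :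
    |(g ᵥ* P ^ (i + 1 + 1)) c| ≤ 2 * |β| * D * (1 - α) ^ (i / 4) := by
  have hN : (0 : ℝ) < Fintype.card ι := by exact_mod_cast Fintype.card_pos_iff.2 ⟨c⟩
  have e : (g ᵥ* P ^ (i + 1 + 1)) c =
      ∑ b, g b * ((P ^ (i + 2)) b c - 1 / Fintype.card ι) := by
    simp_rw [mul_sub, Finset.sum_sub_distrib, ← Finset.sum_mul, hg0, zero_mul, sub_zero]
    rfl
  rw [e]
  calc |∑ b, g b * ((P ^ (i + 2)) b c - 1 / Fintype.card ι)|
      ≤ ∑ _b : ι, D * (2 * |β| / Fintype.card ι * (1 - α) ^ (i / 4)) := by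
        refine (Finset.abs_sum_le_sum_abs _ _).trans (Finset.sum_le_sum fun b _ => ?_)
        rw [abs_mul]
        have h1 := doeblin hα hα1 h i b c
        have h2 : 2 * β / Fintype.card ι * (1 - α) ^ (i / 4) ≤
            2 * |β| / Fintype.card ι * (1 - α) ^ (i / 4) := by
          refine mul_le_mul_of_nonneg_right ?_ (pow_nonneg (by linarith) _)
          exact div_le_div_of_nonneg_right (by linarith [le_abs_self β]) hN.le
        exact mul_le_mul (hg b) (h1.trans h2) (abs_nonneg _) hD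
    _ = 2 * |β| * D * (1 - α) ^ (i / 4) := by
        rw [Finset.sum_const, Finset.card_univ, nsmul_eq_mul]
        field_simp

/-- MD8: second moment of additive functionals of the stationary chain. Recursion for
`C_k(b) = ∑_{x, x k = b} pw x S(x)^2`, `B_k(b) = ∑_{x, x k = b} pw x S(x)`. -/
theorem open_var (α β D : ℝ) (hα : 0 < α) (hα1 : α < 1) (hD : 0 ≤ D) : ∃ K, 0 ≤ K ∧
    ∀ (ι : Type) [Fintype ι] [DecidableEq ι] (P : Matrix ι ι ℝ) (_ : Dst α β P) (g : ι → ℝ)
      (_ : ∑ i, g i = 0) (_ : ∀ i, |g i| ≤ D) (n : ℕ),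
      ∑ x : Fin (n + 1) → ι, pw P x * (∑ i, g (x i)) ^ 2 ≤ K * (n + 1) * Fintype.card ι := by
  refine ⟨D ^ 2 + 2 * (D * (D + 2 * |β| * D * (4 / α))), by positivity, ?_⟩
  intro ι _ _ P h g hg0 hg n
  set m : ℝ := (Fintype.card ι : ℝ) with hm
  have hm0 : 0 ≤ m := Nat.cast_nonneg _
  have hsq : ∑ c, g c ^ 2 ≤ m * D ^ 2 := by
    calc ∑ c, g c ^ 2 ≤ ∑ _c : ι, D ^ 2 := Finset.sum_le_sum fun c _ => by
          rw [← sq_abs]
          exact pow_le_pow_left₀ (abs_nonneg _) (hg c) 2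
      _ = m * D ^ 2 := by rw [Finset.sum_const, Finset.card_univ, nsmul_eq_mul]
  have hlin : ∀ n : ℕ, ∑ j ∈ Finset.range (n + 1), ∑ c, g c * (g ᵥ* P ^ (j + 1)) c ≤
      m * (D * (D + 2 * |β| * D * (4 / α))) := by
    intro n
    have h1 : ∀ (j : ℕ) (B : ℝ), (∀ c, |(g ᵥ* P ^ (j + 1)) c| ≤ B) →
        ∑ c, g c * (g ᵥ* P ^ (j + 1)) c ≤ m * (D * B) := by
      intro j B hB
      calc ∑ c, g c * (g ᵥ* P ^ (j + 1)) c ≤ ∑ _c : ι, D * B := Finset.sum_le_sum fun c _ => by
            refine (le_abs_self _).trans ?_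
            rw [abs_mul]
            exact mul_le_mul (hg c) (hB c) (abs_nonneg _) hD
        _ = m * (D * B) := by rw [Finset.sum_const, Finset.card_univ, nsmul_eq_mul]
    rw [Finset.sum_range_succ']
    have h2 : ∑ i ∈ Finset.range n, ∑ c, g c * (g ᵥ* P ^ (i + 1 + 1)) c ≤
        ∑ i ∈ Finset.range n, m * (D * (2 * |β| * D * (1 - α) ^ (i / 4))) :=
      Finset.sum_le_sum fun i _ => h1 (i + 1) _ (md8_b1 hα hα1 hD h hg0 hg i)
    have h3 := h1 0 D (md8_b0 h hg)
    have h4 : ∑ i ∈ Finset.range n, m * (D * (2 * |β| * D * (1 - α) ^ (i / 4))) =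
        m * D * (2 * |β| * D) * ∑ i ∈ Finset.range n, (1 - α) ^ (i / 4) := by
      rw [Finset.mul_sum]
      exact Finset.sum_congr rfl fun i _ => by ring
    have h5 := md8_geom (r := 1 - α) (by linarith) (by linarith) n
    have h6 : (4 : ℝ) / (1 - (1 - α)) = 4 / α := by rw [sub_sub_cancel]
    rw [h6] at h5
    have h7 : m * D * (2 * |β| * D) * ∑ i ∈ Finset.range n, (1 - α) ^ (i / 4) ≤
        m * D * (2 * |β| * D) * (4 / α) := mul_le_mul_of_nonneg_left h5 (by positivity)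
    linarith
  have key : ∀ n : ℕ, md8Z P g n (fun _ s => s ^ 2) ≤
      (D ^ 2 + 2 * (D * (D + 2 * |β| * D * (4 / α)))) * (n + 1) * m := by
    intro n
    induction n with
    | zero =>
      rw [md8_zero]
      have : 0 ≤ 2 * (D * (D + 2 * |β| * D * (4 / α))) * m := by positivity
      push_cast
      linarith
    | succ n ih =>
      rw [md8_sq h.row h.col]
      have := hlin n
      push_cast
      linarith
  exact key n

end Mes
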