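import Pool.Agent.LibMes.R_MA7
import Pool.Agent.LibMes.R_MA9
import Pool.Agent.LibMes.R_MA10
import Pool.Agent.LibMes.R_MA11
import Pool.Agent.LibMes.R_MA13

open MeasureTheory Set Filter Topology

namespace Mes

variable {ι : Type} [Fintype ι] [DecidableEq ι]

theorem TF_int {f : ℝ → ℝ} {K : ℝ} (hf : Test f K) : Integrable (deriv f) := by
  have h1 : Integrable fun x : ℝ => K * (1 + ‖x‖) ^ (-(4 : ℝ)) :=
    (integrable_one_add_norm (μ := (volume : Measure ℝ)) (by simp)).const_mul K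
  refine h1.mono' (hf.diff.continuous_deriv (by simp)).aestronglyMeasurable ?_
  refine Eventually.of_forall fun x => ?_
  rw [Real.norm_eq_abs]
  refine (hf.d1 x).trans (le_of_eq ?_)
  rw [Real.rpow_neg (by positivity), div_eq_mul_inv, Real.norm_eq_abs]
  norm_cast

theorem TF_bd_int {f : ℝ → ℝ} (hf : Integrable f) {g : ℝ → ℝ} (hg : Measurable g) {B : ℝ}
    (hB : ∀ x, |g x| ≤ B) : Integrable fun x => f x * g x := by
  have := hf.bdd_mul (c := B) hg.aestronglyMeasurable (Eventually.of_forall fun x => by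
    rw [Real.norm_eq_abs]; exact hB x)
  simpa [mul_comm] using this

theorem TF_exp_int {f : ℝ → ℝ} (hf : Integrable f) (ω : ℝ) :
    Integrable fun x : ℝ => (f x : ℂ) * Complex.exp ((x * ω : ℝ) * Complex.I) := by
  have h1 : Integrable fun x : ℝ => (f x : ℂ) := hf.ofReal
  have h2 := h1.bdd_mul (c := 1) (f := fun x : ℝ => Complex.exp ((x * ω : ℝ) * Complex.I))
    (by fun_prop) (Eventually.of_forall fun x => by
      rw [Complex.norm_exp_ofReal_mul_I])
  simpa [mul_comm] using h2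

/-- The integrals of the traces. -/
theorem TF_In (S : Matrix ι ι ℝ) (ℓ : ι → ℝ) {f : ℝ → ℝ} {K : ℝ} (hf : Test f K) {Λ : ℝ}
    (hΛ : 0 < Λ) (k₀ : ℝ) (n : ℕ) :
    ∫ x, deriv (fun k => f (Λ * (k - k₀))) x * ((evo S ℓ x ^ (n + 1)).trace).im =
      -(2 * Real.pi) * (∑ x : Fin (n + 1) → ι, (amp S x : ℂ) *
        ((wl ℓ x / (2 * Real.pi * Λ) : ℝ) * ft f (-(wl ℓ x / (2 * Real.pi * Λ)))) *
          Complex.exp ((k₀ * wl ℓ x : ℝ) * Complex.I)).re := by
  obtain ⟨K', hφ⟩ := test_shift hf hΛ k₀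
  have hi := TF_int hφ
  set φ' := deriv (fun k => f (Λ * (k - k₀))) with hφ'
  have e1 : ∀ x : ℝ, φ' x * ((evo S ℓ x ^ (n + 1)).trace).im =
      (∑ y : Fin (n + 1) → ι, (amp S y : ℂ) *
        ((φ' x : ℂ) * Complex.exp ((x * wl ℓ y : ℝ) * Complex.I))).im := by
    intro x
    rw [walk, ← Complex.im_ofReal_mul, Finset.mul_sum]
    congr 1
    exact Finset.sum_congr rfl fun y _ => by ring
  simp_rw [e1]
  have hint : ∀ y : Fin (n + 1) → ι, Integrable fun x : ℝ => (amp S y : ℂ) *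
        ((φ' x : ℂ) * Complex.exp ((x * wl ℓ y : ℝ) * Complex.I)) := fun y =>
    (TF_exp_int hi _).const_mul _
  have e2 := integral_im (μ := (volume : Measure ℝ)) (𝕜 := ℂ)
    (f := fun x : ℝ => ∑ y : Fin (n + 1) → ι, (amp S y : ℂ) *
        ((φ' x : ℂ) * Complex.exp ((x * wl ℓ y : ℝ) * Complex.I)))
    (integrable_finsetSum _ fun y _ => hint y)
  simp only [RCLike.im_to_complex] at e2
  rw [e2, integral_finsetSum _ fun y _ => hint y]
  have e3 : ∀ y : Fin (n + 1) → ι, ∫ x : ℝ, (amp S y : ℂ) *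
        ((φ' x : ℂ) * Complex.exp ((x * wl ℓ y : ℝ) * Complex.I)) =
      -(2 * Real.pi : ℝ) * Complex.I * ((amp S y : ℂ) *
        ((wl ℓ y / (2 * Real.pi * Λ) : ℝ) * ft f (-(wl ℓ y / (2 * Real.pi * Λ)))) *
          Complex.exp ((k₀ * wl ℓ y : ℝ) * Complex.I)) := by
    intro y
    rw [integral_const_mul, hφ', ft_shift hf hΛ]
    have hpi : (Real.pi : ℂ) ≠ 0 := by exact_mod_cast Real.pi_ne_zero
    have hL : (Λ : ℂ) ≠ 0 := by exact_mod_cast hΛ.ne'
    push_cast
    field_simp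
  simp_rw [e3]
  rw [← Finset.mul_sum, mul_assoc, ← Complex.ofReal_neg, Complex.im_ofReal_mul, Complex.I_mul_im]

theorem trace_formula {S : Matrix ι ι ℝ} {ℓ : ι → ℝ} {a b : ℝ} (ha : 0 < a) (hab : a ≤ b)
    (hN : 0 < Fintype.card ι) (hl : ∀ i, ℓ i ∈ Icc a b) {F : ℤ → ℝ → ℝ} (hF : Ph S ℓ a b F)
    {X : ℤ → ℝ} (hX : Zer (Fintype.card ι) a b F X) {f : ℝ → ℝ} {K : ℝ} (hf : Test f K)
    {R : ℝ} (hR : ∀ s, R < |s| → ft f s = 0) {Λ : ℝ} (hΛ : 0 < Λ) {M : ℕ}
    (hM : 2 * Real.pi * Λ * R < (M + 1) * a) (k₀ : ℝ) :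
    HasSum (fun p => f (Λ * (X p - k₀))) ((∑ i, ℓ i) / (2 * Real.pi * Λ) * (∫ x, f x) +
      2 * (∑ n ∈ Finset.range M, ∑ x : Fin (n + 1) → ι, (amp S x : ℂ) / (n + 1 : ℕ) *
        ((wl ℓ x / (2 * Real.pi * Λ) : ℝ) * ft f (-(wl ℓ x / (2 * Real.pi * Λ)))) *
          Complex.exp ((k₀ * wl ℓ x : ℝ) * Complex.I)).re) := by
  obtain ⟨K', hφ⟩ := test_shift hf hΛ k₀
  have hi := TF_int hφ
  have hpi := Real.pi_pos
  have h0 := zer_sum ha hab hN hF hX hφ
  obtain ⟨l1, l2⟩ := lin_int hf hΛ k₀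
  set φ := fun k => f (Λ * (k - k₀)) with hφd
  set N := Fintype.card ι with hNd
  -- the integrals with the fractional parts
  set A : ℕ → ℝ := fun j => ∫ x, deriv φ x * Int.fract (F (-j) x / (2 * Real.pi)) with hA
  have hfl : ∀ j : ℕ, Integrable fun x => deriv φ x * ⌊F (-j) x / (2 * Real.pi)⌋ := by
    intro j
    have hy : ∀ m : ℤ, ∃ y, F (-j) y = 2 * Real.pi * m := by
      intro m
      have hc := hF.cont (-j)
      have h1 : Tendsto (F (-j)) atTop atTop := by
        have h2 : Tendsto (fun t => F (-j) 0 + a * t) atTop atTop :=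
          tendsto_atTop_add_const_left _ _ (tendsto_id.const_mul_atTop ha)
        refine tendsto_atTop_mono' _ ?_ h2
        filter_upwards [eventually_ge_atTop (0 : ℝ)] with t ht
        have := hF.low (-j) 0 t ht
        simp only [sub_zero] at this
        linarith
      have h3 : Tendsto (F (-j)) atBot atBot := by
        have h2 : Tendsto (fun t => F (-j) 0 + a * t) atBot atBot :=
          tendsto_atBot_add_const_left _ _ (tendsto_id.const_mul_atBot ha)
        refine tendsto_atBot_mono' _ ?_ h2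
        filter_upwards [eventually_le_atBot (0 : ℝ)] with t ht
        have := hF.low (-j) t 0 ht
        linarith
      exact (hc.surjective h1 h3) _
    choose y hy using hy
    exact (step_sum ha hab (hF.cont (-j)) (hF.low (-j)) (hF.up (-j)) hy hφ).1
  have hfr : ∀ j : ℕ, Integrable fun x => deriv φ x * Int.fract (F (-j) x / (2 * Real.pi)) := by
    intro j
    refine TF_bd_int hi (B := 1) ?_ fun x => ?_
    · exact measurable_fract.comp ((hF.cont (-j)).measurable.div_const _)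
    · rw [abs_of_nonneg (Int.fract_nonneg _)]
      exact (Int.fract_lt_one _).le
  have hth : ∀ j : ℕ, Integrable fun x => deriv φ x * (F (-j) x / (2 * Real.pi)) := by
    intro j
    refine ((hfl j).add (hfr j)).congr (Eventually.of_forall fun x => ?_)
    simp only [Pi.add_apply]
    rw [← mul_add, Int.floor_add_fract]
  have h1 : ∀ j : ℕ, ∫ x, deriv φ x * ⌊F (-j) x / (2 * Real.pi)⌋ =
      (∫ x, deriv φ x * (F (-j) x / (2 * Real.pi))) - A j := by
    intro j
    rw [hA, ← integral_sub (hth j) (hfr j)]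
    refine integral_congr_ae (Eventually.of_forall fun x => ?_)
    simp only
    rw [← mul_sub, Int.self_sub_fract]
  -- the sum of the phases
  obtain ⟨c, hc⟩ := hF.sum
  have h2 : ∑ j ∈ Finset.range N, ∫ x, deriv φ x * (F (-j) x / (2 * Real.pi)) =
      -((∑ i, ℓ i) / (2 * Real.pi * Λ) * ∫ x, f x) := by
    rw [← integral_finsetSum _ fun j _ => hth j]
    have e1 : ∀ x, ∑ j ∈ Finset.range N, deriv φ x * (F (-j) x / (2 * Real.pi)) =
        (∑ i, ℓ i) / (2 * Real.pi) * (deriv φ x * x) + c / (2 * Real.pi) * deriv φ x := by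
      intro x
      rw [← Finset.mul_sum, ← Finset.sum_div, hc]
      ring
    simp_rw [e1]
    have hx : Integrable fun x => deriv φ x * x := by
      by_cases hz : ∑ i, ℓ i = 0
      · exfalso
        have : 0 < ∑ i, ℓ i := by
          have hne : Nonempty ι := Fintype.card_pos_iff.1 hN
          exact Finset.sum_pos (fun i _ => lt_of_lt_of_le ha (hl i).1) Finset.univ_nonempty
        linarith
      · have h3 : Integrable fun x => ∑ j ∈ Finset.range N, deriv φ x * (F (-j) x / (2 * Real.pi)) :=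
          integrable_finsetSum _ fun j _ => hth j
        simp_rw [e1] at h3
        have h4 := (h3.sub (hi.const_mul (c / (2 * Real.pi)))).const_mul (2 * Real.pi / ∑ i, ℓ i)
        refine h4.congr (Eventually.of_forall fun x => ?_)
        simp only [Pi.sub_apply]
        field_simp
        ring
    rw [integral_add (hx.const_mul _) (hi.const_mul _), integral_const_mul, integral_const_mul, l1,
      l2]
    field_simp
    ring
  -- the limit
  have h3 : Tendsto (fun r => ∑ j ∈ Finset.range N, ∫ x, deriv φ x * saw r (F (-j) x)) (𝓝[<] 1)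
      (𝓝 (∑ j ∈ Finset.range N, -Real.pi * A j)) :=
    tendsto_finsetSum _ fun j _ => saw_int ha hab (hF.cont (-j)) (hF.low (-j)) (hF.up (-j)) hφ
  set I : ℕ → ℝ := fun n => ∫ x, deriv φ x * ((evo S ℓ x ^ (n + 1)).trace).im with hI
  have hI0 : ∀ n, M ≤ n → I n = 0 := by
    intro n hn
    rw [hI]
    simp only
    rw [TF_In S ℓ hf hΛ k₀ n, Finset.sum_eq_zero, Complex.zero_re, mul_zero]
    intro x _
    rw [hR, mul_zero, mul_zero, zero_mul]
    rw [abs_neg, lt_abs]
    left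
    rw [lt_div_iff₀ (by positivity)]
    have h5 : (n + 1) * a ≤ wl ℓ x := by
      unfold wl
      calc (n + 1) * a = ∑ _i : Fin (n + 1), a := by simp
        _ ≤ _ := Finset.sum_le_sum fun i _ => (hl _).1
    have h6 : ((M : ℝ) + 1) * a ≤ (n + 1) * a := by
      have : (M : ℝ) ≤ n := by exact_mod_cast hn
      gcongr
    linarith
  have h4 : ∀ r : ℝ, 0 ≤ r → r < 1 → ∑ j ∈ Finset.range N, ∫ x, deriv φ x * saw r (F (-j) x) =
      ∑ n ∈ Finset.range M, r ^ (n + 1) / (n + 1 : ℕ) * I n := by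
    intro r hr0 hr1
    refine (ser hF hφ hr0 hr1).unique ?_
    refine hasSum_sum_of_ne_finset_zero fun n hn => ?_
    have h7 := hI0 n (by simpa using hn)
    simp only [hI] at h7
    rw [h7, mul_zero]
  have h5 : Tendsto (fun r : ℝ => ∑ n ∈ Finset.range M, r ^ (n + 1) / (n + 1 : ℕ) * I n) (𝓝[<] 1)
      (𝓝 (∑ n ∈ Finset.range M, (1 : ℝ) ^ (n + 1) / (n + 1 : ℕ) * I n)) := by
    refine Tendsto.mono_left (Continuous.tendsto ?_ 1) nhdsWithin_le_nhds
    fun_prop
  have h6 : Tendsto (fun r : ℝ => ∑ n ∈ Finset.range M, r ^ (n + 1) / (n + 1 : ℕ) * I n) (𝓝[<] 1)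
      (𝓝 (∑ j ∈ Finset.range N, -Real.pi * A j)) := by
    refine h3.congr' ?_
    filter_upwards [Ioo_mem_nhdsLT (show (0 : ℝ) < 1 by norm_num)] with r hr
    exact h4 r hr.1.le hr.2
  have h7 := tendsto_nhds_unique h6 h5
  rw [← Finset.mul_sum] at h7
  have h8 : ∑ j ∈ Finset.range N, A j = 2 * (∑ n ∈ Finset.range M, ∑ x : Fin (n + 1) → ι,
      (amp S x : ℂ) / (n + 1 : ℕ) *
        ((wl ℓ x / (2 * Real.pi * Λ) : ℝ) * ft f (-(wl ℓ x / (2 * Real.pi * Λ)))) *
          Complex.exp ((k₀ * wl ℓ x : ℝ) * Complex.I)).re := by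
    have h9 : ∀ n, (1 : ℝ) ^ (n + 1) / (n + 1 : ℕ) * I n = -Real.pi * (2 *
      (∑ x : Fin (n + 1) → ι, (amp S x : ℂ) / (n + 1 : ℕ) *
        ((wl ℓ x / (2 * Real.pi * Λ) : ℝ) * ft f (-(wl ℓ x / (2 * Real.pi * Λ)))) *
          Complex.exp ((k₀ * wl ℓ x : ℝ) * Complex.I)).re) := by
      intro n
      rw [hI]
      simp only
      rw [TF_In S ℓ hf hΛ k₀ n]
      have e5 : ∑ x : Fin (n + 1) → ι, (amp S x : ℂ) / (n + 1 : ℕ) *
        ((wl ℓ x / (2 * Real.pi * Λ) : ℝ) * ft f (-(wl ℓ x / (2 * Real.pi * Λ)))) *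
          Complex.exp ((k₀ * wl ℓ x : ℝ) * Complex.I) = ((1 / (n + 1 : ℕ) : ℝ) : ℂ) *
        ∑ x : Fin (n + 1) → ι, (amp S x : ℂ) *
        ((wl ℓ x / (2 * Real.pi * Λ) : ℝ) * ft f (-(wl ℓ x / (2 * Real.pi * Λ)))) *
          Complex.exp ((k₀ * wl ℓ x : ℝ) * Complex.I) := by
        rw [Finset.mul_sum]
        refine Finset.sum_congr rfl fun x _ => ?_
        push_cast
        ring
      rw [e5, Complex.re_ofReal_mul, one_pow]
      ring
    simp_rw [h9] at h7
    rw [← Finset.mul_sum] at h7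
    have h10 := mul_left_cancel₀ (neg_ne_zero.2 hpi.ne') h7
    rw [h10, ← Finset.mul_sum, ← Complex.re_sum]
  convert h0 using 1
  simp_rw [h1]
  rw [Finset.sum_sub_distrib, h2, h8]
  ring

end Mes
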